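import Pool.Agent.Helper362.IdealC
set_option autoImplicit false
open Module NormedSpace Filter
open scoped Topology ENNReal

universe u

namespace Pool.Agent.Helper362.Ideals

variable {𝕜 : Type} [RCLike 𝕜]

section PLR

variable {Y : Type u} [NormedAddCommGroup Y] [NormedSpace 𝕜 Y]

lemma exists_almost_norming (ψ : StrongDual 𝕜 Y) (η : ℝ) (hη : 0 < η) :
    ∃ y : Y, ‖y‖ ≤ 1 ∧ ‖ψ‖ - η ≤ RCLike.re (ψ y) := by
  by_cases h : ‖ψ‖ - η < 0
  · exact ⟨0, by rw [norm_zero]; exact zero_le_one, by rw [map_zero, map_zero]; exact h.le⟩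
  · obtain ⟨y, hy1, hy2⟩ := ψ.exists_lt_apply_of_lt_opNorm (show ‖ψ‖ - η < ‖ψ‖ by linarith)
    obtain ⟨c, hc1, hc2⟩ := RCLike.exists_norm_eq_mul_self (ψ y)
    refine ⟨c • y, ?_, ?_⟩
    · rw [norm_smul, hc1, one_mul]; exact hy1.le
    · rw [map_smul, smul_eq_mul, ← hc2, RCLike.ofReal_re]; exact hy2.le

variable {κ : Type u} [Fintype κ] [DecidableEq κ]

/-- components of a functional on a finite power -/
noncomputable def comp' (f : (κ → Y) →L[𝕜] 𝕜) (k : κ) : StrongDual 𝕜 Y :=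
  f ∘L (ContinuousLinearMap.single 𝕜 (fun _ : κ => Y) k)

lemma comp'_sum (f : (κ → Y) →L[𝕜] 𝕜) (z : κ → Y) : f z = ∑ k, comp' f k (z k) := by
  conv_lhs => rw [← Finset.univ_sum_single z]
  rw [map_sum]
  rfl

lemma sum_norm_comp'_le (f : (κ → Y) →L[𝕜] 𝕜) (c : ℝ)
    (h : ∀ z : κ → Y, ‖z‖ ≤ 1 → RCLike.re (f z) ≤ c) : ∑ k, ‖comp' f k‖ ≤ c := by
  refine le_of_forall_pos_le_add (fun ε hε => ?_)
  have hη : 0 < ε / (Fintype.card κ + 1) := by positivity
  choose y hy1 hy2 using fun k => exists_almost_norming (comp' f k) _ hη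
  have h1 : ‖y‖ ≤ 1 := (pi_norm_le_iff_of_nonneg zero_le_one).mpr hy1
  have h2 := h y h1
  rw [comp'_sum, map_sum] at h2
  have h3 : ∑ k, (‖comp' f k‖ - ε / (Fintype.card κ + 1)) ≤ c :=
    (Finset.sum_le_sum (fun k _ => hy2 k)).trans h2
  rw [Finset.sum_sub_distrib, Finset.sum_const, Finset.card_univ, nsmul_eq_mul] at h3
  have h4 : (Fintype.card κ : ℝ) * (ε / (Fintype.card κ + 1)) ≤ ε := by
    rw [← mul_div_assoc, div_le_iff₀ (by positivity)]
    nlinarith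
  linarith

lemma plr_aux (G : Submodule 𝕜 (StrongDual 𝕜 (StrongDual 𝕜 Y))) [FiniteDimensional 𝕜 G]
    (F : Submodule 𝕜 (StrongDual 𝕜 Y)) [FiniteDimensional 𝕜 F]
    (R1 : G →L[𝕜] Y) (hR1 : ∀ g : G, ∀ f ∈ F, f (R1 g) = (g : StrongDual 𝕜 (StrongDual 𝕜 Y)) f)
    (hR2 : ∀ (g : G) (y : Y), (g : StrongDual 𝕜 (StrongDual 𝕜 Y)) = inclusionInDoubleDual 𝕜 Y y →
        R1 g = y) (h : κ → G) (f : (κ → Y) →L[𝕜] 𝕜)
    (hf : ∀ K ∈ corr G F, f (fun k => K (h k)) = 0) :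
    f (fun k => R1 (h k)) = ∑ k, (h k : StrongDual 𝕜 (StrongDual 𝕜 Y)) (comp' f k) := by
  let jL : Y →ₗ[𝕜] StrongDual 𝕜 (StrongDual 𝕜 Y) := (inclusionInDoubleDual 𝕜 Y : _ →L[𝕜] _)
  let G0 : Submodule 𝕜 G := (LinearMap.range jL).comap G.subtype
  obtain ⟨PG, hP1, hP2⟩ := exists_proj (𝕜 := 𝕜) (V := G) G0
  let b : Basis (Fin (finrank 𝕜 G)) 𝕜 G := Module.finBasisOfFinrankEq 𝕜 G rfl
  let φ : Fin (finrank 𝕜 G) → StrongDual 𝕜 Y := fun i =>
    ∑ k, (b.coord i (h k - PG (h k))) • comp' f k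
  have hφ : ∀ i, φ i ∈ F := by
    intro i
    refine mem_F_of_ann F _ (fun y hy => ?_)
    let K0 : G →ₗ[𝕜] Y := ((b.coord i).comp (LinearMap.id - PG)).smulRight y
    let K : G →L[𝕜] Y := LinearMap.toContinuousLinearMap K0
    have hK : ∀ g, K g = (b.coord i (g - PG g)) • y := fun g => rfl
    have hKc : K ∈ corr G F := by
      refine ⟨fun g f' hf' => ?_, fun g y' hg => ?_⟩
      · rw [hK, map_smul, hy f' hf', smul_zero]
      · rw [hK, hP2 g ⟨y', hg.symm⟩, sub_self, map_zero, zero_smul]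
    have h1 := hf K hKc
    rw [comp'_sum] at h1
    show (∑ k, (b.coord i (h k - PG (h k))) • comp' f k) y = 0
    rw [sum_apply, ← h1]
    refine Finset.sum_congr rfl (fun k _ => ?_)
    rw [hK, map_smul]
    rfl
  rw [comp'_sum]
  have hA : ∀ k, comp' f k (R1 (PG (h k))) =
      ((PG (h k) : G) : StrongDual 𝕜 (StrongDual 𝕜 Y)) (comp' f k) := by
    intro k
    obtain ⟨y, hy⟩ : ((PG (h k) : G) : StrongDual 𝕜 (StrongDual 𝕜 Y)) ∈ LinearMap.range jL :=
      hP1 (h k)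
    rw [hR2 (PG (h k)) y hy.symm, ← hy]
    rfl
  have hB : ∑ k, comp' f k (R1 (h k - PG (h k))) =
      ∑ k, ((h k - PG (h k) : G) : StrongDual 𝕜 (StrongDual 𝕜 Y)) (comp' f k) := by
    have e0 : ∀ g : G, g = ∑ i, (b.coord i g) • b i := fun g => (b.sum_repr g).symm
    have e1 : ∀ k, comp' f k (R1 (h k - PG (h k))) =
        ∑ i, (b.coord i (h k - PG (h k))) * comp' f k (R1 (b i)) := by
      intro k
      conv_lhs => rw [e0 (h k - PG (h k))]
      rw [map_sum, map_sum]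
      refine Finset.sum_congr rfl (fun i _ => ?_)
      rw [map_smul, map_smul, smul_eq_mul]
    have e2 : ∀ k, ((h k - PG (h k) : G) : StrongDual 𝕜 (StrongDual 𝕜 Y)) (comp' f k) =
        ∑ i, (b.coord i (h k - PG (h k))) *
          ((b i : G) : StrongDual 𝕜 (StrongDual 𝕜 Y)) (comp' f k) := by
      intro k
      have e3 : ((h k - PG (h k) : G) : StrongDual 𝕜 (StrongDual 𝕜 Y)) =
          ∑ i, (b.coord i (h k - PG (h k))) • ((b i : G) : StrongDual 𝕜 (StrongDual 𝕜 Y)) := by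
        have := congrArg (fun g : G => (g : StrongDual 𝕜 (StrongDual 𝕜 Y))) (e0 (h k - PG (h k)))
        simp only [Submodule.coe_sum, Submodule.coe_smul] at this
        exact this
      rw [e3, sum_apply]
      rfl
    rw [Finset.sum_congr rfl (fun k _ => e1 k), Finset.sum_congr rfl (fun k _ => e2 k),
      Finset.sum_comm, Finset.sum_comm (s := Finset.univ) (t := Finset.univ)
        (f := fun k i => (b.coord i (h k - PG (h k))) *
          ((b i : G) : StrongDual 𝕜 (StrongDual 𝕜 Y)) (comp' f k))]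
    refine Finset.sum_congr rfl (fun i _ => ?_)
    have e4 : φ i (R1 (b i)) = ((b i : G) : StrongDual 𝕜 (StrongDual 𝕜 Y)) (φ i) :=
      hR1 (b i) (φ i) (hφ i)
    have e5 : φ i (R1 (b i)) = ∑ k, (b.coord i (h k - PG (h k))) * comp' f k (R1 (b i)) := by
      show (∑ k, (b.coord i (h k - PG (h k))) • comp' f k) (R1 (b i)) = _
      rw [sum_apply]
      rfl
    have e6 : ((b i : G) : StrongDual 𝕜 (StrongDual 𝕜 Y)) (φ i) =
        ∑ k, (b.coord i (h k - PG (h k))) *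
          ((b i : G) : StrongDual 𝕜 (StrongDual 𝕜 Y)) (comp' f k) := by
      show ((b i : G) : StrongDual 𝕜 (StrongDual 𝕜 Y))
        (∑ k, (b.coord i (h k - PG (h k))) • comp' f k) = _
      rw [map_sum]
      refine Finset.sum_congr rfl (fun k _ => ?_)
      rw [map_smul, smul_eq_mul]
    rw [← e5, ← e6, e4]
  have hC : ∀ k, comp' f k (R1 (h k)) = comp' f k (R1 (PG (h k))) +
      comp' f k (R1 (h k - PG (h k))) := by
    intro k
    rw [← map_add, ← map_add]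
    congr 2
    abel
  rw [Finset.sum_congr rfl (fun k _ => hC k), Finset.sum_add_distrib, hB,
    Finset.sum_congr rfl (fun k _ => hA k), ← Finset.sum_add_distrib]
  refine Finset.sum_congr rfl (fun k _ => ?_)
  show ((PG (h k) : G) : StrongDual 𝕜 (StrongDual 𝕜 Y)) (comp' f k) +
    ((h k : StrongDual 𝕜 (StrongDual 𝕜 Y)) (comp' f k) -
      ((PG (h k) : G) : StrongDual 𝕜 (StrongDual 𝕜 Y)) (comp' f k)) = _
  ring

lemma plr_net (G : Submodule 𝕜 (StrongDual 𝕜 (StrongDual 𝕜 Y))) [FiniteDimensional 𝕜 G]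
    (F : Submodule 𝕜 (StrongDual 𝕜 Y)) [FiniteDimensional 𝕜 F]
    (R1 : G →L[𝕜] Y) (hR1 : ∀ g : G, ∀ f ∈ F, f (R1 g) = (g : StrongDual 𝕜 (StrongDual 𝕜 Y)) f)
    (hR2 : ∀ (g : G) (y : Y), (g : StrongDual 𝕜 (StrongDual 𝕜 Y)) = inclusionInDoubleDual 𝕜 Y y →
        R1 g = y) (h : κ → G) (hh : ∀ k, ‖h k‖ ≤ 1) (δ : ℝ) (hδ : 0 < δ) :
    ∃ K ∈ corr G F, ∀ k, ‖R1 (h k) - K (h k)‖ ≤ 1 + δ := by
  set 𝒮 : Set (κ → Y) := {v | ∃ K ∈ corr G F, ∃ z : κ → Y, ‖z‖ ≤ 1 ∧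
    v = (fun k => K (h k)) + z} with h𝒮
  by_cases hx : (fun k => R1 (h k)) ∈ closure 𝒮
  · obtain ⟨v, ⟨K, hK, z, hz, rfl⟩, hv⟩ := Metric.mem_closure_iff.mp hx δ hδ
    refine ⟨K, hK, fun k => ?_⟩
    rw [dist_eq_norm] at hv
    have h1 := (norm_le_pi_norm _ k).trans hv.le
    have h2 := (norm_le_pi_norm z k).trans hz
    have h3 : R1 (h k) - K (h k) = (R1 (h k) - (K (h k) + z k)) + z k := by abel
    rw [h3]
    refine (norm_add_le _ _).trans ?_
    have h4 : ‖R1 (h k) - (K (h k) + z k)‖ ≤ δ := h1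
    linarith
  · exfalso
    have hconv : ∀ a ∈ 𝒮, ∀ b ∈ 𝒮, ∀ s t : ℝ, 0 ≤ s → 0 ≤ t → s + t = 1 →
        (s : 𝕜) • a + (t : 𝕜) • b ∈ 𝒮 := by
      rintro _ ⟨K, hK, z, hz, rfl⟩ _ ⟨K', hK', z', hz', rfl⟩ s t hs ht hst
      refine ⟨(s : 𝕜) • K + (t : 𝕜) • K', Submodule.add_mem _ (Submodule.smul_mem _ _ hK)
        (Submodule.smul_mem _ _ hK'), (s : 𝕜) • z + (t : 𝕜) • z', ?_, ?_⟩
      · refine (norm_add_le _ _).trans ?_
        rw [norm_smul, norm_smul, RCLike.norm_ofReal, RCLike.norm_ofReal, abs_of_nonneg hs,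
          abs_of_nonneg ht]
        nlinarith
      · funext k
        show (s : 𝕜) • (K (h k) + z k) + (t : 𝕜) • (K' (h k) + z' k) =
          ((s : 𝕜) • K (h k) + (t : 𝕜) • K' (h k)) + ((s : 𝕜) • z k + (t : 𝕜) • z' k)
        rw [smul_add, smul_add]
        abel
    obtain ⟨f, c, h1, h2⟩ := hb_sep (𝕜 := 𝕜) 𝒮 hconv _ hx
    have hf : ∀ K ∈ corr G F, f (fun k => K (h k)) = 0 := by
      intro K hK
      by_contra hne
      set a := f (fun k => K (h k)) with ha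
      have hpos : 0 < ‖a‖ ^ 2 := by positivity
      have h3 : ∀ r : ℝ, r * ‖a‖ ^ 2 < c := by
        intro r
        have h4 := h1 ((fun k => (((r : 𝕜) * (starRingEnd 𝕜) a) • K) (h k)) + 0)
          ⟨_, Submodule.smul_mem _ _ hK, 0, by rw [norm_zero]; exact zero_le_one, rfl⟩
        rw [add_zero] at h4
        have h5 : f (fun k => (((r : 𝕜) * (starRingEnd 𝕜) a) • K) (h k)) =
            ((r : 𝕜) * (starRingEnd 𝕜) a) * a := by
          rw [ha]
          exact map_smul f ((r : 𝕜) * (starRingEnd 𝕜) a) (fun k => K (h k))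
        rw [h5, mul_assoc, RCLike.conj_mul, ← RCLike.ofReal_pow, ← RCLike.ofReal_mul,
          RCLike.ofReal_re] at h4
        exact h4
      have h6 := h3 (c / ‖a‖ ^ 2)
      rw [div_mul_cancel₀ _ hpos.ne'] at h6
      exact lt_irrefl _ h6
    have h7 : ∑ k, ‖comp' f k‖ ≤ c := by
      refine sum_norm_comp'_le f c (fun z hz => ?_)
      refine (h1 z ⟨0, Submodule.zero_mem _, z, hz, ?_⟩).le
      funext k
      show z k = 0 + z k
      rw [zero_add]
    have h8 := plr_aux G F R1 hR1 hR2 h f hf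
    have h9 : ‖f (fun k => R1 (h k))‖ ≤ c := by
      rw [h8]
      refine (norm_sum_le _ _).trans (le_trans ?_ h7)
      refine Finset.sum_le_sum (fun k _ => ?_)
      refine ((h k : StrongDual 𝕜 (StrongDual 𝕜 Y)).le_opNorm _).trans ?_
      have h10 : ‖(h k : StrongDual 𝕜 (StrongDual 𝕜 Y))‖ ≤ 1 := hh k
      have h11 := norm_nonneg (comp' f k)
      nlinarith
    have h12 := RCLike.re_le_norm (f (fun k => R1 (h k)))
    linarith

end PLR

/-- The principle of local reflexivity. -/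
theorem plr {Y : Type u} [NormedAddCommGroup Y] [NormedSpace 𝕜 Y]
    (G : Submodule 𝕜 (StrongDual 𝕜 (StrongDual 𝕜 Y))) [FiniteDimensional 𝕜 G]
    (F : Submodule 𝕜 (StrongDual 𝕜 Y)) [FiniteDimensional 𝕜 F] (ε : ℝ) (hε : 0 < ε) :
    ∃ R : G →L[𝕜] Y, ‖R‖ ≤ 1 + ε ∧
      (∀ g : G, ∀ f ∈ F, f (R g) = (g : StrongDual 𝕜 (StrongDual 𝕜 Y)) f) ∧
      (∀ (g : G) (y : Y), (g : StrongDual 𝕜 (StrongDual 𝕜 Y)) = inclusionInDoubleDual 𝕜 Y y →
        R g = y) := by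
  classical
  obtain ⟨R0, hR1, hR2⟩ := exists_R1 G F
  set R1 : G →L[𝕜] Y := LinearMap.toContinuousLinearMap R0 with hR0
  obtain ⟨δ, hδ0, hδ1, hδ2⟩ : ∃ δ : ℝ, 0 < δ ∧ δ < 1 ∧ (1 + δ) ≤ (1 + ε) * (1 - δ) := by
    refine ⟨min (1 / 2) (ε / (2 * (2 + ε))), ?_, ?_, ?_⟩
    · positivity
    · exact (min_le_left _ _).trans_lt (by norm_num)
    · have h1 : min (1 / 2) (ε / (2 * (2 + ε))) ≤ ε / (2 * (2 + ε)) := min_le_right _ _
      have h2 : (2 + ε) * (ε / (2 * (2 + ε))) = ε / 2 := by field_simp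
      have h3 : (2 + ε) * min (1 / 2) (ε / (2 * (2 + ε))) ≤ ε / 2 := by
        rw [← h2]
        exact mul_le_mul_of_nonneg_left h1 (by linarith)
      nlinarith
  have _ : ProperSpace G := FiniteDimensional.proper 𝕜 G
  obtain ⟨t, hts, htf, htc⟩ := (isCompact_closedBall (0 : G) 1).finite_cover_balls hδ0
  have _ : Fintype t := htf.fintype
  obtain ⟨K, hK, hKn⟩ := plr_net G F R1 hR1 hR2 (fun k : t => (k : G))
    (fun k => by
      have := hts k.2
      rwa [Metric.mem_closedBall, dist_zero_right] at this) δ hδ0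
  refine ⟨R1 - K, ?_, ?_, ?_⟩
  · have h1 : ∀ g : G, ‖g‖ ≤ 1 → ‖(R1 - K) g‖ ≤ (1 + δ) + δ * ‖R1 - K‖ := by
      intro g hg
      have hg' : g ∈ Metric.closedBall (0 : G) 1 := by
        rwa [Metric.mem_closedBall, dist_zero_right]
      have hg2 := htc hg'
      rw [Set.mem_iUnion₂] at hg2
      obtain ⟨k, hk, hgk⟩ := hg2
      have h2 : (R1 - K) g = (R1 k - K k) + (R1 - K) (g - k) := by
        rw [map_sub]
        show _ = (R1 - K) k + ((R1 - K) g - (R1 - K) k)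
        abel
      rw [h2]
      refine (norm_add_le _ _).trans ?_
      refine add_le_add (hKn ⟨k, hk⟩) ?_
      refine ((R1 - K).le_opNorm _).trans ?_
      rw [mul_comm]
      refine mul_le_mul_of_nonneg_right ?_ (norm_nonneg _)
      rw [← dist_eq_norm]
      exact hgk.le
    have h3 : ‖R1 - K‖ ≤ (1 + δ) + δ * ‖R1 - K‖ := by
      refine ContinuousLinearMap.opNorm_le_of_unit_norm (by positivity) ?_
      intro g hg
      exact h1 g hg.le
    have h4 : ‖R1 - K‖ * (1 - δ) ≤ (1 + ε) * (1 - δ) := by linarith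
    exact le_of_mul_le_mul_right h4 (by linarith)
  · intro g f hf
    rw [sub_apply, map_sub, hK.1 g f hf, sub_zero]
    exact hR1 g f hf
  · intro g y hg
    rw [sub_apply, hK.2 g y hg, sub_zero]
    exact hR2 g y hg

/-- The principle of local reflexivity, in terms of `Bidual`. -/
theorem plrB {Y : Type u} [NormedAddCommGroup Y] [NormedSpace 𝕜 Y]
    (G : Submodule 𝕜 (Bidual 𝕜 Y)) (hG : FiniteDimensional 𝕜 G)
    (F : Submodule 𝕜 (StrongDual 𝕜 Y)) (hF : FiniteDimensional 𝕜 F) (ε : ℝ) (hε : 0 < ε) :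
    ∃ R : G →L[𝕜] Y, ‖R‖ ≤ 1 + ε ∧
      (∀ g : G, ∀ f ∈ F, f (R g) = value (g : Bidual 𝕜 Y) f) ∧
      (∀ (g : G) (y : Y), (g : Bidual 𝕜 Y) = jmap 𝕜 y → R g = y) :=
  @plr 𝕜 _ Y _ _ G hG F hF ε hε

namespace BanachIdeal

variable (I : BanachIdeal.{u} 𝕜)

/-- Right-accessibility implies local reflexivity. -/
theorem LRP_of_rightAccessible (h : RightAccessible I.toIdealData) : LRP I.toIdealData := by
  intro E Y _ _ _ _ _ _ hE T F hF ε hε
  obtain ⟨ε', h1, h2, h3⟩ : ∃ ε' : ℝ, 0 < ε' ∧ ε' ≤ 1 ∧ 3 * ε' ≤ ε :=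
    ⟨min 1 (ε / 3), by positivity, min_le_left _ _, by
      have := min_le_right 1 (ε / 3); linarith⟩
  obtain ⟨N, hN, hNc, S, hTS, hS⟩ := h E (Bidual 𝕜 Y) hE T ε' h1
  obtain ⟨R, hR1, hR2, hR3⟩ := plrB (Y := Y) N hN F hF ε' h1
  have hTx : ∀ x, T x = (S x : Bidual 𝕜 Y) := fun x => by
    conv_lhs => rw [hTS]
    rfl
  refine ⟨R ∘L S, ?_, ?_, ?_⟩
  · refine (I.nrm_comp_left S (I.mem_fd S) R).trans ?_
    have h4 := I.nrm_nonneg S (I.mem_fd S)
    have h5 := I.nrm_nonneg T (I.mem_fd T)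
    calc ‖R‖ * I.nrm S ≤ (1 + ε') * ((1 + ε') * I.nrm T) :=
          mul_le_mul hR1 hS h4 (by linarith)
      _ = ((1 + ε') * (1 + ε')) * I.nrm T := by ring
      _ ≤ _ := mul_le_mul_of_nonneg_right (by nlinarith) h5
  · intro x y' hy'
    rw [hTx]
    exact hR2 (S x) y' hy'
  · rintro x ⟨y, hy⟩
    rw [hTx] at hy ⊢
    rw [← hy]
    congr 1
    exact hR3 (S x) y hy.symm

/-- The two properties are equivalent. -/
theorem rightAccessible_iff_LRP : RightAccessible I.toIdealData ↔ LRP I.toIdealData :=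
  ⟨I.LRP_of_rightAccessible, I.rightAccessible_of_LRP⟩

end BanachIdeal

end Pool.Agent.Helper362.Ideals
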