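import Mathlib
set_option autoImplicit false
open scoped ENNReal Topology
open Filter

namespace Pool.Agent.Helper362.ApNoBap

abbrev Y := lp (fun _ : ℕ => ℝ) ∞

lemma memY (f : ℕ → ℝ) (C : ℝ) (h : ∀ n, |f n| ≤ C) : Memℓp f ∞ := by
  refine memℓp_infty ⟨C, ?_⟩
  rintro _ ⟨n, rfl⟩
  simpa using h n

lemma abs_le_norm (x : Y) (n : ℕ) : |x n| ≤ ‖x‖ := by
  have := lp.norm_apply_le_norm (by simp : (∞ : ℝ≥0∞) ≠ 0) x n
  simpa using this

lemma norm_le (x : Y) (C : ℝ) (hC : 0 ≤ C) (h : ∀ n, |x n| ≤ C) : ‖x‖ ≤ C :=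
  lp.norm_le_of_forall_le hC (fun n => by simpa using h n)

/-- weighted composition operator on bounded sequences -/
noncomputable def op (α : ℕ → ℝ) (π : ℕ → ℕ) (C : ℝ) (h : ∀ n, |α n| ≤ C) : Y →L[ℝ] Y :=
  LinearMap.mkContinuous
    { toFun := fun x => ⟨fun n => α n * x (π n), memY _ (C * ‖x‖) (fun n => by
        rw [abs_mul]
        exact mul_le_mul (h n) (abs_le_norm x _) (abs_nonneg _) ((abs_nonneg _).trans (h n)))⟩
      map_add' := fun x y => by
        ext n
        show α n * ((x + y : Y) (π n)) = α n * x (π n) + α n * y (π n)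
        rw [lp.coeFn_add, Pi.add_apply, mul_add]
      map_smul' := fun c x => by
        ext n
        simp [mul_left_comm] } C (fun x => by
        refine norm_le _ _ (mul_nonneg ((abs_nonneg _).trans (h 0)) (norm_nonneg _)) (fun n => ?_)
        show |α n * x (π n)| ≤ _
        rw [abs_mul]
        exact mul_le_mul (h n) (abs_le_norm x _) (abs_nonneg _) ((abs_nonneg _).trans (h n)))

lemma op_apply (α : ℕ → ℝ) (π : ℕ → ℕ) (C : ℝ) (h : ∀ n, |α n| ≤ C) (x : Y) (n : ℕ) :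
    (op α π C h x) n = α n * x (π n) := rfl

lemma norm_op_le (α : ℕ → ℝ) (π : ℕ → ℕ) (C : ℝ) (h : ∀ n, |α n| ≤ C) :
    ‖op α π C h‖ ≤ C :=
  LinearMap.mkContinuous_norm_le _ ((abs_nonneg _).trans (h 0)) _

/-- data of the construction -/
structure Data where
  A : ℕ → ℕ → ℝ
  r : ℕ → ℝ
  e : ℕ ≃ ℕ × ℕ × ℕ
  w : ℕ → ℕ → ℝ
  eps : ℕ → ℝ
  hr : Summable r
  hA : ∀ g h, |A g h| ≤ r g
  hA0 : ∀ g, Tendsto (A g) cofinite (𝓝 0)
  hsq : ∀ g h, ∑' k, A g k * A k h = 0
  htr : ∑' g, A g g = 1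
  heps : ∀ l, 0 < eps l
  heps1 : ∀ l, eps l ≤ 1
  hw : ∀ l g, eps l ≤ w l g
  hw1 : ∀ l g, w l g ≤ 1

namespace Data

variable (D : Data)

lemma r_nonneg (g : ℕ) : 0 ≤ D.r g := (abs_nonneg _).trans (D.hA g 0)

/-- the rows as bounded sequences -/
noncomputable def row (g : ℕ) : Y := ⟨D.A g, memY _ (D.r g) (D.hA g)⟩

lemma row_apply (g h : ℕ) : D.row g h = D.A g h := rfl

lemma norm_row_le (g : ℕ) : ‖D.row g‖ ≤ D.r g := norm_le _ _ (D.r_nonneg g) (D.hA g)

/-- coefficients of the embedding -/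
noncomputable def jc (l k n : ℕ) : ℝ :=
  if (D.e n).1 = l then
    (if (D.e n).2.1 = 0 then D.w l (D.e n).2.2 else if (D.e n).2.1 ≤ k then - D.eps l else 0)
  else 0

lemma w_pos (l g : ℕ) : 0 < D.w l g := (D.heps l).trans_le (D.hw l g)

lemma abs_jc_le (l k n : ℕ) : |D.jc l k n| ≤ 1 := by
  unfold jc
  have h1 := D.heps l
  have h2 := D.heps1 l
  have h3 := D.w_pos l (D.e n).2.2
  have h4 := D.hw1 l (D.e n).2.2
  split_ifs
  · rw [abs_of_pos h3]; exact h4
  · rw [abs_neg, abs_of_pos h1]; exact h2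
  · simp
  · simp

/-- the vector of the sequence that vanishes before k and equals y from k on -/
noncomputable def J (l k : ℕ) : Y →L[ℝ] Y :=
  op (D.jc l k) (fun n => (D.e n).2.2) 1 (D.abs_jc_le l k)

lemma J_apply (l k : ℕ) (y : Y) (n : ℕ) : D.J l k y n = D.jc l k n * y (D.e n).2.2 := rfl

lemma norm_J_le (l k : ℕ) (y : Y) : ‖D.J l k y‖ ≤ ‖y‖ := by
  have := (D.J l k).le_of_opNorm_le (norm_op_le _ _ _ (D.abs_jc_le l k)) y
  simpa using this

lemma norm_J_sub_le (l k k' : ℕ) (y : Y) : ‖D.J l k y - D.J l k' y‖ ≤ D.eps l * ‖y‖ := by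
  refine norm_le _ _ (mul_nonneg (D.heps l).le (norm_nonneg _)) (fun n => ?_)
  rw [lp.coeFn_sub, Pi.sub_apply, J_apply, J_apply, ← sub_mul, abs_mul]
  refine mul_le_mul ?_ (abs_le_norm _ _) (abs_nonneg _) (D.heps l).le
  unfold jc
  have h1 := D.heps l
  split_ifs <;> simp [abs_of_pos h1, h1.le]

/-- generators -/
def gens : Set Y := {x | ∃ l k g, g < k ∧ x = D.J l k (D.row g)}

noncomputable def S0 : Submodule ℝ Y := Submodule.span ℝ D.gens

noncomputable def S : Submodule ℝ Y := D.S0.topologicalClosure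

lemma S_closed : IsClosed (D.S : Set Y) := D.S0.isClosed_topologicalClosure

lemma S0_le : D.S0 ≤ D.S := D.S0.le_topologicalClosure

lemma gen_mem (l k g : ℕ) (h : g < k) : D.J l k (D.row g) ∈ D.S :=
  D.S0_le (Submodule.subset_span ⟨l, k, g, h, rfl⟩)

/-- closed induction principle -/
lemma mem_S_closed {P : Y → Prop} (hP : IsClosed {x | P x})
    (h0 : P 0) (hg : ∀ l k g, g < k → P (D.J l k (D.row g)))
    (hadd : ∀ x y, P x → P y → P (x + y)) (hs : ∀ (c : ℝ) x, P x → P (c • x)) :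
    ∀ x ∈ D.S, P x := by
  intro x hx
  have h1 : (D.S0 : Set Y) ⊆ {x | P x} := by
    intro y hy
    refine Submodule.span_induction (p := fun y _ => P y) ?_ h0 (fun x y _ _ hx hy => hadd x y hx hy)
      (fun c x _ hx => hs c x hx) hy
    rintro _ ⟨l, k, g, h, rfl⟩
    exact hg l k g h
  exact (closure_minimal h1 hP) hx

lemma continuous_coord (n : ℕ) : Continuous (fun x : Y => x n) := by
  have h : LipschitzWith 1 (fun x : Y => x n) := by
    refine LipschitzWith.of_dist_le_mul (fun x y => ?_)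
    have h1 := abs_le_norm (x - y) n
    have h2 : dist x y = ‖x - y‖ := dist_eq_norm x y
    rw [NNReal.coe_one, one_mul, Real.dist_eq, h2]
    exact h1
  exact h.continuous

lemma isClosed_c0 : IsClosed {x : Y | Tendsto (fun n : ℕ => x n) cofinite (𝓝 0)} := by
  refine isClosed_of_closure_subset (fun x hx => ?_)
  rw [Set.mem_ofPred_eq, Metric.tendsto_nhds]
  intro ε hε
  obtain ⟨y, hy, hxy⟩ := Metric.mem_closure_iff.mp hx (ε / 2) (by positivity)
  have h2 := (Metric.tendsto_nhds.mp hy) (ε / 2) (by positivity)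
  filter_upwards [h2] with n hn
  rw [Real.dist_eq, sub_zero] at hn ⊢
  have h3 := abs_le_norm (x - y) n
  rw [dist_eq_norm] at hxy
  have h4 : |x n - y n| ≤ ‖x - y‖ := by simpa using h3
  have h5 : |x n| ≤ |x n - y n| + |y n| := by
    calc |x n| = |(x n - y n) + y n| := by ring_nf
      _ ≤ _ := abs_add_le _ _
  linarith

lemma tendsto_J_row (l k g : ℕ) :
    Tendsto (fun n : ℕ => D.J l k (D.row g) n) cofinite (𝓝 0) := by
  rw [Metric.tendsto_nhds]
  intro ε hε
  have h1 := (Metric.tendsto_nhds.mp (D.hA0 g)) ε hε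
  rw [eventually_cofinite] at h1 ⊢
  have hfin : Set.Finite (({l} : Set ℕ) ×ˢ (Set.Iic k ×ˢ {x | ¬ dist (D.A g x) 0 < ε})) :=
    (Set.finite_singleton l).prod ((Set.finite_Iic k).prod h1)
  refine (hfin.preimage (f := D.e) D.e.injective.injOn).subset (fun n hn => ?_)
  rw [Set.mem_ofPred_eq, J_apply, row_apply, Real.dist_eq, sub_zero, abs_mul] at hn
  have hj := D.abs_jc_le l k n
  have hne : D.jc l k n ≠ 0 := by
    intro h
    rw [h, abs_zero, zero_mul] at hn
    exact hn hε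
  refine ⟨?_, ?_, ?_⟩
  · by_contra hc
    have hc' : ¬ (D.e n).1 = l := hc
    exact hne (by unfold jc; rw [if_neg hc'])
  · by_contra hc
    apply hne
    unfold jc
    have h1 : ¬ (D.e n).2.1 ≤ k := hc
    have h2 : ¬ (D.e n).2.1 = 0 := by omega
    simp [h1, h2]
  · rw [Set.mem_ofPred_eq, Real.dist_eq, sub_zero]
    intro hc
    apply hn
    calc |D.jc l k n| * |D.A g (D.e n).2.2| ≤ 1 * |D.A g (D.e n).2.2| :=
          mul_le_mul_of_nonneg_right hj (abs_nonneg _)
      _ < ε := by rw [one_mul]; exact hc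

lemma S_c0 : ∀ x ∈ D.S, Tendsto (fun n : ℕ => x n) cofinite (𝓝 0) := by
  refine D.mem_S_closed isClosed_c0 ?_ (fun l k g _ => D.tendsto_J_row l k g) ?_ ?_
  · simp
  · intro x y hx hy
    simpa using hx.add hy
  · intro c x hx
    simpa using hx.const_mul c

end Data

end Pool.Agent.Helper362.ApNoBap
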