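import Pool.Agent.Helper362.ApA
set_option autoImplicit false
open scoped ENNReal Topology
open Filter

namespace Pool.Agent.Helper362.ApNoBap

namespace Data

variable (D : Data)

/-- bound for the coefficients of the projections -/
noncomputable def B (L : ℕ) : ℝ := 1 + ∑ l ∈ Finset.range L, 1 / D.eps l

lemma one_le_B (L : ℕ) : 1 ≤ D.B L := by
  unfold B
  have : 0 ≤ ∑ l ∈ Finset.range L, 1 / D.eps l :=
    Finset.sum_nonneg (fun l _ => (one_div_pos.mpr (D.heps l)).le)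
  linarith

noncomputable def a1 (L N n : ℕ) : ℝ := if (D.e n).1 < L ∧ (D.e n).2.1 ≤ N then 1 else 0

noncomputable def a2 (L N n : ℕ) : ℝ :=
  if (D.e n).1 < L then
    (if (D.e n).2.1 = 0 then D.w (D.e n).1 (D.e n).2.2 / D.eps (D.e n).1
      else if (D.e n).2.1 ≤ N then -1 else 0)
  else 0

lemma abs_a1_le (L N n : ℕ) : |D.a1 L N n| ≤ 1 := by
  unfold a1
  split_ifs <;> simp

lemma abs_a2_le (L N n : ℕ) : |D.a2 L N n| ≤ D.B L := by
  unfold a2
  have hB := D.one_le_B L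
  split_ifs with h1 h2 h3
  · have h3 := D.w_pos (D.e n).1 (D.e n).2.2
    have h4 := D.hw1 (D.e n).1 (D.e n).2.2
    have h5 := D.heps (D.e n).1
    rw [abs_of_pos (div_pos h3 h5)]
    have h6 : D.w (D.e n).1 (D.e n).2.2 / D.eps (D.e n).1 ≤ 1 / D.eps (D.e n).1 :=
      div_le_div_of_nonneg_right h4 h5.le
    have h7 : 1 / D.eps (D.e n).1 ≤ ∑ l ∈ Finset.range L, 1 / D.eps l :=
      Finset.single_le_sum (f := fun l => 1 / D.eps l)
        (fun l _ => (one_div_pos.mpr (D.heps l)).le) (Finset.mem_range.mpr h1)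
    unfold B
    linarith
  · simpa using hB
  · simp only [abs_zero]; linarith
  · simp only [abs_zero]; linarith

/-- the finite rank projections -/
noncomputable def P (L N : ℕ) : Y →L[ℝ] Y :=
  op (D.a1 L N) id 1 (D.abs_a1_le L N) +
    op (D.a2 L N) (fun n => D.e.symm ((D.e n).1, N + 1, (D.e n).2.2)) (D.B L) (D.abs_a2_le L N)

lemma P_apply (L N : ℕ) (x : Y) (n : ℕ) :
    D.P L N x n = D.a1 L N n * x n +
      D.a2 L N n * x (D.e.symm ((D.e n).1, N + 1, (D.e n).2.2)) := by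
  unfold P
  rw [add_apply, lp.coeFn_add, Pi.add_apply, op_apply, op_apply]
  rfl

lemma norm_P_le (L N : ℕ) : ‖D.P L N‖ ≤ 1 + D.B L :=
  (norm_add_le _ _).trans (add_le_add (norm_op_le _ _ _ _) (norm_op_le _ _ _ _))

/-- restriction to the first L blocks -/
noncomputable def R (L : ℕ) : Y →L[ℝ] Y :=
  op (fun n => if (D.e n).1 < L then 1 else 0) id 1 (fun n => by split_ifs <;> simp)

lemma R_apply (L : ℕ) (x : Y) (n : ℕ) :
    D.R L x n = (if (D.e n).1 < L then 1 else 0) * x n := rfl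

lemma norm_R_le (L : ℕ) : ‖D.R L‖ ≤ 1 := norm_op_le _ _ _ _

lemma R_J_lt (L l k : ℕ) (hl : l < L) (y : Y) : D.R L (D.J l k y) = D.J l k y := by
  ext n
  rw [R_apply, J_apply]
  by_cases h : (D.e n).1 < L
  · rw [if_pos h, one_mul]
  · have hne : (D.e n).1 ≠ l := by omega
    unfold jc
    rw [if_neg hne]; simp

lemma R_J_ge (L l k : ℕ) (hl : L ≤ l) (y : Y) : D.R L (D.J l k y) = 0 := by
  ext n
  rw [R_apply, J_apply]
  by_cases h : (D.e n).1 < L
  · have hne : (D.e n).1 ≠ l := by omega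
    unfold jc
    rw [if_neg hne]; simp
  · rw [if_neg h]; simp

lemma P_J_le (L N l k : ℕ) (hl : l < L) (hk : k ≤ N) (y : Y) :
    D.P L N (D.J l k y) = D.J l k y := by
  ext n
  rw [P_apply, J_apply, J_apply]
  have h2 : D.jc l k (D.e.symm ((D.e n).1, N + 1, (D.e n).2.2)) = 0 := by
    unfold jc
    rw [Equiv.apply_symm_apply]
    simp only
    by_cases h1 : (D.e n).1 = l
    · rw [if_pos h1, if_neg (by omega), if_neg (by omega)]
    · rw [if_neg h1]
  rw [h2, zero_mul, mul_zero, add_zero]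
  unfold a1
  by_cases h : (D.e n).1 < L ∧ (D.e n).2.1 ≤ N
  · rw [if_pos h, one_mul]
  · have h3 : D.jc l k n = 0 := by
      unfold jc
      by_cases h4 : (D.e n).1 = l
      · rw [if_pos h4]
        have h5 : ¬ (D.e n).2.1 ≤ k := by
          intro h6
          apply h
          omega
        have h6 : ¬ (D.e n).2.1 = 0 := by omega
        rw [if_neg h6, if_neg h5]
      · rw [if_neg h4]
    rw [h3]; simp

lemma P_J_gt (L N l k : ℕ) (hk : N < k) (y : Y) : D.P L N (D.J l k y) = 0 := by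
  ext n
  rw [P_apply, J_apply, J_apply, lp.coeFn_zero, Pi.zero_apply]
  by_cases hl : (D.e n).1 = l
  · have h2 : D.jc l k (D.e.symm ((D.e n).1, N + 1, (D.e n).2.2)) = - D.eps l := by
      unfold jc
      rw [Equiv.apply_symm_apply]
      simp only
      rw [if_pos hl, if_neg (by omega), if_pos (by omega)]
    rw [h2, Equiv.apply_symm_apply]
    simp only
    unfold a1 a2 jc
    rw [if_pos hl, hl]
    have he := (D.heps l).ne'
    by_cases hL : l < L
    · by_cases h0 : (D.e n).2.1 = 0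
      · simp only [hL, h0, if_true, true_and, Nat.zero_le]
        field_simp
        ring
      · by_cases h1 : (D.e n).2.1 ≤ N
        · have h3 : (D.e n).2.1 ≤ k := by omega
          simp only [hL, h0, h1, h3, if_true, if_false, true_and]
          ring
        · simp [hL, h0, h1]
    · simp [hL]
  · have h2 : D.jc l k (D.e.symm ((D.e n).1, N + 1, (D.e n).2.2)) = 0 := by
      unfold jc
      rw [Equiv.apply_symm_apply]
      simp only
      rw [if_neg hl]
    have h3 : D.jc l k n = 0 := by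
      unfold jc
      rw [if_neg hl]
    rw [h2, h3]; simp

lemma P_J_ge (L N l k : ℕ) (hl : L ≤ l) (y : Y) : D.P L N (D.J l k y) = 0 := by
  ext n
  rw [P_apply, J_apply, J_apply, lp.coeFn_zero, Pi.zero_apply]
  by_cases hl' : (D.e n).1 = l
  · unfold a1 a2
    have h1 : ¬ (D.e n).1 < L := by omega
    simp [h1]
  · have h2 : D.jc l k (D.e.symm ((D.e n).1, N + 1, (D.e n).2.2)) = 0 := by
      unfold jc
      rw [Equiv.apply_symm_apply]
      simp only
      rw [if_neg hl']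
    have h3 : D.jc l k n = 0 := by
      unfold jc
      rw [if_neg hl']
    rw [h2, h3]; simp

lemma map_S (Q : Y →L[ℝ] Y) (hQ : ∀ l k g, g < k → Q (D.J l k (D.row g)) ∈ D.S) :
    ∀ x ∈ D.S, Q x ∈ D.S := by
  refine D.mem_S_closed (D.S_closed.preimage Q.continuous) ?_ hQ ?_ ?_
  · rw [map_zero]; exact D.S.zero_mem
  · intro x y hx hy
    rw [map_add]; exact D.S.add_mem hx hy
  · intro c x hx
    rw [map_smul]; exact D.S.smul_mem c hx

lemma P_mem (L N : ℕ) : ∀ x ∈ D.S, D.P L N x ∈ D.S := by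
  refine D.map_S _ (fun l k g h => ?_)
  by_cases hl : l < L
  · by_cases hk : k ≤ N
    · rw [D.P_J_le L N l k hl hk]; exact D.gen_mem l k g h
    · rw [D.P_J_gt L N l k (by omega)]; exact D.S.zero_mem
  · rw [D.P_J_ge L N l k (by omega)]; exact D.S.zero_mem

lemma R_mem (L : ℕ) : ∀ x ∈ D.S, D.R L x ∈ D.S := by
  refine D.map_S _ (fun l k g h => ?_)
  by_cases hl : l < L
  · rw [D.R_J_lt L l k hl]; exact D.gen_mem l k g h
  · rw [D.R_J_ge L l k (by omega)]; exact D.S.zero_mem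

/-- finite dimensional range -/
noncomputable def W (L N : ℕ) : Submodule ℝ Y :=
  Submodule.span ℝ ((fun q : ℕ × ℕ × ℕ => D.J q.1 q.2.1 (D.row q.2.2)) ''
    (↑(Finset.range L ×ˢ (Finset.range (N + 1) ×ˢ Finset.range N)) : Set (ℕ × ℕ × ℕ)))

instance W_fin (L N : ℕ) : FiniteDimensional ℝ (D.W L N) :=
  FiniteDimensional.span_of_finite ℝ ((Finset.finite_toSet _).image _)

lemma P_mem_W (L N : ℕ) : ∀ x ∈ D.S, D.P L N x ∈ D.W L N := by
  have hcl : IsClosed (D.W L N : Set Y) := (D.W L N).closed_of_finiteDimensional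
  refine D.mem_S_closed (hcl.preimage (D.P L N).continuous) ?_ (fun l k g h => ?_) ?_ ?_
  · rw [map_zero]; exact (D.W L N).zero_mem
  · by_cases hl : l < L
    · by_cases hk : k ≤ N
      · rw [D.P_J_le L N l k hl hk]
        refine Submodule.subset_span ⟨(l, k, g), ?_, rfl⟩
        simp only [Finset.coe_product, Finset.coe_range, Set.mem_prod, Set.mem_Iio]
        omega
      · rw [D.P_J_gt L N l k (by omega)]; exact (D.W L N).zero_mem
    · rw [D.P_J_ge L N l k (by omega)]; exact (D.W L N).zero_mem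
  · intro x y hx hy
    rw [map_add]; exact (D.W L N).add_mem hx hy
  · intro c x hx
    rw [map_smul]; exact (D.W L N).smul_mem c hx

noncomputable def T (L N : ℕ) : D.S →L[ℝ] D.S :=
  ((D.P L N).comp D.S.subtypeL).codRestrict D.S (fun x => D.P_mem L N x x.2)

lemma T_coe (L N : ℕ) (x : D.S) : ((D.T L N x : D.S) : Y) = D.P L N x := rfl

lemma T_fin (L N : ℕ) : FiniteDimensional ℝ (LinearMap.range (D.T L N : D.S →ₗ[ℝ] D.S)) := by
  let f : LinearMap.range (D.T L N : D.S →ₗ[ℝ] D.S) →ₗ[ℝ] D.W L N :=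
    LinearMap.codRestrict (D.W L N)
      (D.S.subtype.comp (LinearMap.range (D.T L N : D.S →ₗ[ℝ] D.S)).subtype)
      (by
        rintro ⟨x, ⟨y, rfl⟩⟩
        exact D.P_mem_W L N y y.2)
  have hf : Function.Injective f := by
    intro x y hxy
    have h1 : ((f x : D.W L N) : Y) = ((f y : D.W L N) : Y) := by rw [hxy]
    exact Subtype.ext (Subtype.ext h1)
  exact FiniteDimensional.of_injective f hf

lemma R_stab (x : Y) (hx : x ∈ D.S0) : ∃ L0, ∀ L ≥ L0, D.R L x = x := by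
  refine Submodule.span_induction (p := fun x _ => ∃ L0, ∀ L ≥ L0, D.R L x = x) ?_ ?_ ?_ ?_ hx
  · rintro _ ⟨l, k, g, h, rfl⟩
    exact ⟨l + 1, fun L hL => D.R_J_lt L l k (by omega) _⟩
  · exact ⟨0, fun L _ => map_zero _⟩
  · rintro x y _ _ ⟨L1, h1⟩ ⟨L2, h2⟩
    refine ⟨max L1 L2, fun L hL => ?_⟩
    rw [map_add, h1 L (le_trans (le_max_left _ _) hL), h2 L (le_trans (le_max_right _ _) hL)]
  · rintro c x _ ⟨L1, h1⟩
    exact ⟨L1, fun L hL => by rw [map_smul, h1 L hL]⟩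

lemma P_stab (L : ℕ) (x : Y) (hx : x ∈ D.S0) : ∃ N0, ∀ N ≥ N0, D.P L N x = D.R L x := by
  refine Submodule.span_induction (p := fun x _ => ∃ N0, ∀ N ≥ N0, D.P L N x = D.R L x)
    ?_ ?_ ?_ ?_ hx
  · rintro _ ⟨l, k, g, h, rfl⟩
    by_cases hl : l < L
    · exact ⟨k, fun N hN => by rw [D.P_J_le L N l k hl hN, D.R_J_lt L l k hl]⟩
    · exact ⟨0, fun N _ => by rw [D.P_J_ge L N l k (by omega), D.R_J_ge L l k (by omega)]⟩
  · exact ⟨0, fun L _ => by rw [map_zero, map_zero]⟩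
  · rintro x y _ _ ⟨L1, h1⟩ ⟨L2, h2⟩
    refine ⟨max L1 L2, fun L hL => ?_⟩
    rw [map_add, map_add, h1 L (le_trans (le_max_left _ _) hL),
      h2 L (le_trans (le_max_right _ _) hL)]
  · rintro c x _ ⟨L1, h1⟩
    exact ⟨L1, fun L hL => by rw [map_smul, map_smul, h1 L hL]⟩

lemma cover (K : Set D.S) (hK : IsCompact K) (ρ : ℝ) (hρ : 0 < ρ) :
    ∃ F : Finset Y, (∀ d ∈ F, d ∈ D.S0) ∧ ∀ x ∈ K, ∃ d ∈ F, ‖(x : Y) - d‖ < ρ := by
  have h := hK.elim_finite_subcover (fun d : D.S0 => {x : D.S | ‖(x : Y) - (d : Y)‖ < ρ})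
    (fun d => isOpen_lt (by fun_prop) continuous_const) (by
      intro x _
      have hx : (x : Y) ∈ closure (D.S0 : Set Y) := x.2
      obtain ⟨y, hy, hxy⟩ := Metric.mem_closure_iff.mp hx ρ hρ
      rw [Set.mem_iUnion]
      refine ⟨⟨y, hy⟩, ?_⟩
      have h2 : dist (x : Y) y = ‖(x : Y) - y‖ := dist_eq_norm _ _
      show ‖(x : Y) - y‖ < ρ
      rw [← h2]; exact hxy)
  obtain ⟨t, ht⟩ := h
  refine ⟨t.map ⟨Subtype.val, Subtype.val_injective⟩, ?_, ?_⟩
  · intro d hd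
    obtain ⟨d', _, rfl⟩ := Finset.mem_map.mp hd
    exact d'.2
  · intro x hx
    obtain ⟨d, hd, hxd⟩ := Set.mem_iUnion₂.mp (ht hx)
    exact ⟨d, Finset.mem_map.mpr ⟨d, hd, rfl⟩, hxd⟩

lemma exists_uniform (F : Finset Y) (p : ℕ → Y → Prop)
    (h : ∀ d ∈ F, ∃ N0, ∀ N ≥ N0, p N d) : ∃ N, ∀ d ∈ F, p N d := by
  classical
  choose! f hf using h
  refine ⟨F.sup f, fun d hd => hf d hd _ (Finset.le_sup hd)⟩

theorem AP (K : Set D.S) (hK : IsCompact K) (ε : ℝ) (hε : 0 < ε) :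
    ∃ T : D.S →L[ℝ] D.S, FiniteDimensional ℝ (LinearMap.range (T : D.S →ₗ[ℝ] D.S)) ∧
      ∀ x ∈ K, ‖T x - x‖ ≤ ε := by
  obtain ⟨F, hF, hFK⟩ := D.cover K hK (ε / 4) (by positivity)
  obtain ⟨L, hL⟩ := exists_uniform F (fun L d => D.R L d = d) (fun d hd => D.R_stab d (hF d hd))
  have hB := D.one_le_B L
  obtain ⟨F', hF', hFK'⟩ := D.cover K hK (ε / (4 * (2 + D.B L))) (by positivity)
  obtain ⟨N, hN⟩ := exists_uniform F' (fun N d => D.P L N d = D.R L d)
    (fun d hd => D.P_stab L d (hF' d hd))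
  refine ⟨D.T L N, D.T_fin L N, fun x hx => ?_⟩
  obtain ⟨d, hd, hxd⟩ := hFK x hx
  obtain ⟨d', hd', hxd'⟩ := hFK' x hx
  have e1 : ‖D.T L N x - x‖ = ‖D.P L N x - (x : Y)‖ := rfl
  rw [e1]
  have e2 : D.P L N (x : Y) - (x : Y) =
      (D.P L N ((x : Y) - d') - D.R L ((x : Y) - d')) + (D.R L ((x : Y) - d) - ((x : Y) - d)) := by
    rw [map_sub, map_sub, map_sub, hN d' hd', hL d hd]
    abel
  rw [e2]
  have b1 : ‖D.P L N ((x : Y) - d')‖ ≤ (1 + D.B L) * ‖(x : Y) - d'‖ :=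
    (D.P L N).le_of_opNorm_le (D.norm_P_le L N) _
  have b2 : ‖D.R L ((x : Y) - d')‖ ≤ 1 * ‖(x : Y) - d'‖ :=
    (D.R L).le_of_opNorm_le (D.norm_R_le L) _
  have b3 : ‖D.R L ((x : Y) - d)‖ ≤ 1 * ‖(x : Y) - d‖ :=
    (D.R L).le_of_opNorm_le (D.norm_R_le L) _
  have c1 := norm_add_le (D.P L N ((x : Y) - d') - D.R L ((x : Y) - d'))
    (D.R L ((x : Y) - d) - ((x : Y) - d))
  have c2 := norm_sub_le (D.P L N ((x : Y) - d')) (D.R L ((x : Y) - d'))
  have c3 := norm_sub_le (D.R L ((x : Y) - d)) ((x : Y) - d)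
  have c4 : (2 + D.B L) * ‖(x : Y) - d'‖ ≤ ε / 4 := by
    have h1 : (2 + D.B L) * ‖(x : Y) - d'‖ ≤ (2 + D.B L) * (ε / (4 * (2 + D.B L))) :=
      mul_le_mul_of_nonneg_left hxd'.le (by linarith)
    have h2 : (2 + D.B L) * (ε / (4 * (2 + D.B L))) = ε / 4 := by
      have : (2 + D.B L) ≠ 0 := by linarith
      field_simp
    linarith
  nlinarith [norm_nonneg ((x : Y) - d'), norm_nonneg ((x : Y) - d)]

end Data

end Pool.Agent.Helper362.ApNoBap
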