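import Mathlib
set_option autoImplicit false
open scoped Topology
open Filter

namespace Pool.Agent.Helper362.ApNoBap

/-- index types -/
def Idx : ℕ → Type
  | 0 => Unit
  | n + 1 => Bool × Idx n

noncomputable instance instFin : ∀ n, Fintype (Idx n)
  | 0 => (inferInstance : Fintype Unit)
  | n + 1 => by
      haveI := instFin n
      exact (inferInstance : Fintype (Bool × Idx n))

instance instDec : ∀ n, DecidableEq (Idx n)
  | 0 => (inferInstance : DecidableEq Unit)
  | n + 1 => by
      haveI := instDec n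
      exact (inferInstance : DecidableEq (Bool × Idx n))

instance instNe : ∀ n, Nonempty (Idx n)
  | 0 => ⟨()⟩
  | n + 1 => by
      obtain ⟨x⟩ := instNe n
      exact ⟨(true, x)⟩

def cons {n : ℕ} (q : Bool) (g : Idx n) : Idx (n + 1) := ((q, g) : Bool × Idx n)

def nil : Idx 0 := (() : Unit)

lemma cons_inj {n : ℕ} (q q' : Bool) (g g' : Idx n) :
    cons q g = cons q' g' ↔ q = q' ∧ g = g' := Prod.mk_inj

lemma idx_cases {n : ℕ} (x : Idx (n + 1)) : ∃ q g, x = cons q g :=
  ⟨Prod.fst (α := Bool) (β := Idx n) x, Prod.snd (α := Bool) (β := Idx n) x, rfl⟩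

lemma sum_idx_succ (n : ℕ) (f : Idx (n + 1) → ℝ) :
    ∑ x, f x = ∑ q : Bool, ∑ g : Idx n, f (cons q g) :=
  Fintype.sum_prod_type (α₁ := Bool) (α₂ := Idx n) f

lemma sum_idx_zero (f : Idx 0 → ℝ) : ∑ x, f x = f nil :=
  Fintype.sum_unique (ι := Unit) f

lemma idx_zero_eq (s s' : Idx 0) : s = s' := by cases s; cases s'; rfl

lemma card_idx (n : ℕ) : Fintype.card (Idx n) = 2 ^ n := by
  induction n with
  | zero => rfl
  | succ n ih =>
    have : Fintype.card (Idx (n + 1)) = Fintype.card (Bool × Idx n) := rfl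
    rw [this, Fintype.card_prod, ih, Fintype.card_bool]; ring

noncomputable def cs : Fin 6 → ℝ := ![1, 24/25, 15/17, 20/29, 8/17, 7/25]
noncomputable def sn : Fin 6 → ℝ := ![0, 7/25, 8/17, 21/29, 15/17, 24/25]

noncomputable def a (t : Fin 6) (q c : Bool) : ℝ :=
  if q = c then cs t else (if q then - sn t else sn t)

lemma cs_sn (t : Fin 6) : cs t * cs t + sn t * sn t = 1 := by
  fin_cases t <;> simp [cs, sn] <;> norm_num

lemma a_col (t : Fin 6) (c c' : Bool) : ∑ q : Bool, a t q c * a t q c' = if c = c' then 1 else 0 := by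
  have h := cs_sn t
  rw [Fintype.sum_bool]
  cases c <;> cases c' <;> simp [a] <;> linarith

lemma a_ov (s t : Fin 6) (hst : s ≠ t) (q r : Bool) :
    |∑ c : Bool, a s q c * a t r c| ≤ 49 / 50 := by
  rw [Fintype.sum_bool, abs_le]
  fin_cases s <;> fin_cases t <;> first
    | exact absurd rfl hst
    | (cases q <;> cases r <;> simp [a, cs, sn] <;> norm_num)

noncomputable def u (i : Fin 3) (c : Bool) : ℝ :=
  (![(if c then 0 else 1), (if c then 1 else 0), -1] : Fin 3 → ℝ) i

noncomputable def ut (i : Fin 3) (c : Bool) : ℝ :=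
  (![(if c then -1/3 else 2/3), (if c then 2/3 else -1/3), -1/3] : Fin 3 → ℝ) i

lemma sum_u (c : Bool) : ∑ i, u i c = 0 := by
  rw [Fin.sum_univ_three]; cases c <;> simp [u]

lemma sum_ut (c : Bool) : ∑ i, ut i c = 0 := by
  rw [Fin.sum_univ_three]; cases c <;> simp [ut] <;> norm_num

lemma sum_ut_u (c c' : Bool) : ∑ i, ut i c * u i c' = if c = c' then 1 else 0 := by
  rw [Fin.sum_univ_three]; cases c <;> cases c' <;> simp [ut, u] <;> norm_num

lemma dot_same (i : Fin 3) : ∑ c, u i c * ut i c = 2 / 3 := by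
  rw [Fintype.sum_bool]; fin_cases i <;> simp [ut, u] <;> norm_num

lemma dot_ne (i k : Fin 3) (h : k ≠ i) : ∑ c, u k c * ut i c = - (1 / 3) := by
  rw [Fintype.sum_bool]
  fin_cases i <;> fin_cases k <;> first
    | exact absurd rfl h
    | (simp [ut, u] <;> norm_num)

lemma a_ut (t : Fin 6) (q : Bool) (i : Fin 3) : |∑ c, a t q c * ut i c| ≤ 1 := by
  rw [Fintype.sum_bool, abs_le]
  fin_cases t <;> fin_cases i <;> cases q <;> simp [a, cs, sn, ut] <;> norm_num

lemma u_a (t : Fin 6) (q : Bool) (k : Fin 3) : |∑ c, u k c * a t q c| ≤ 2 := by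
  rw [Fintype.sum_bool, abs_le]
  fin_cases t <;> fin_cases k <;> cases q <;> simp [a, cs, sn, u] <;> norm_num

/-- tensor powers of the rotated bases -/
noncomputable def O (t : Fin 6) : (n : ℕ) → Idx n → Idx n → ℝ
  | 0, _, _ => 1
  | n + 1, g, s => a t (Prod.fst (α := Bool) (β := Idx n) g) (Prod.fst (α := Bool) (β := Idx n) s) *
      O t n (Prod.snd (α := Bool) (β := Idx n) g) (Prod.snd (α := Bool) (β := Idx n) s)

lemma O_succ (t : Fin 6) (n : ℕ) (q c : Bool) (g s : Idx n) :
    O t (n + 1) (cons q g) (cons c s) = a t q c * O t n g s := rfl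

lemma O_col (t : Fin 6) (n : ℕ) (s s' : Idx n) :
    ∑ g, O t n g s * O t n g s' = if s = s' then 1 else 0 := by
  induction n with
  | zero =>
    rw [if_pos (idx_zero_eq s s'), sum_idx_zero]
    simp [O]
  | succ n ih =>
    obtain ⟨c, s, rfl⟩ := idx_cases s
    obtain ⟨c', s', rfl⟩ := idx_cases s'
    rw [sum_idx_succ]
    have h1 : ∀ q : Bool, ∀ g : Idx n,
        O t (n + 1) (cons q g) (cons c s) * O t (n + 1) (cons q g) (cons c' s') =
        (a t q c * a t q c') * (O t n g s * O t n g s') := by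
      intro q g
      rw [O_succ, O_succ]; ring
    simp_rw [h1, ← Finset.mul_sum, ih s s', ← Finset.sum_mul, a_col, cons_inj]
    by_cases h3 : c = c' <;> by_cases h4 : s = s' <;> simp [h3, h4]

lemma recon (t : Fin 6) (n : ℕ) (y : Idx n → ℝ) (s : Idx n) :
    ∑ p, O t n p s * ∑ s', O t n p s' * y s' = y s := by
  simp_rw [Finset.mul_sum]
  rw [Finset.sum_comm]
  have h1 : ∀ s', ∑ p, O t n p s * (O t n p s' * y s') = (if s = s' then 1 else 0) * y s' := by
    intro s'
    rw [← O_col t n s s', Finset.sum_mul]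
    exact Finset.sum_congr rfl (fun p _ => by ring)
  simp_rw [h1]
  simp

noncomputable def ov (s t : Fin 6) (n : ℕ) (g h : Idx n) : ℝ := ∑ c, O s n g c * O t n h c

lemma ov_succ (s t : Fin 6) (n : ℕ) (q r : Bool) (g h : Idx n) :
    ov s t (n + 1) (cons q g) (cons r h) =
      (∑ c, a s q c * a t r c) * ov s t n g h := by
  unfold ov
  rw [sum_idx_succ, Finset.sum_mul]
  refine Finset.sum_congr rfl (fun c _ => ?_)
  rw [Finset.mul_sum]
  exact Finset.sum_congr rfl (fun x _ => by rw [O_succ, O_succ]; ring)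

lemma ov_le (s t : Fin 6) (hst : s ≠ t) (n : ℕ) (g h : Idx n) :
    |ov s t n g h| ≤ (49 / 50) ^ n := by
  induction n with
  | zero =>
    unfold ov
    rw [sum_idx_zero]
    simp [O]
  | succ n ih =>
    obtain ⟨q, g, rfl⟩ := idx_cases g
    obtain ⟨r, h, rfl⟩ := idx_cases h
    rw [ov_succ, abs_mul, pow_succ']
    exact mul_le_mul (a_ov s t hst q r) (ih g h) (abs_nonneg _) (by norm_num)

def ty (n : ℕ) (i : Fin 3) : Fin 6 := ⟨3 * (n % 2) + i.1, by have := i.2; omega⟩

lemma ty_ne_of_ne (n : ℕ) (i k : Fin 3) (h : k ≠ i) : ty n k ≠ ty n i := by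
  intro h1
  apply h
  have := congrArg Fin.val h1
  simp only [ty] at this
  exact Fin.ext (by omega)

lemma ty_ne_succ (n : ℕ) (i k : Fin 3) : ty (n + 1) k ≠ ty n i := by
  intro h1
  have := congrArg Fin.val h1
  simp only [ty] at this
  have h2 := i.2
  have h3 := k.2
  omega

end Pool.Agent.Helper362.ApNoBap
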