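import Pool.Agent.Helper362.ApD
set_option autoImplicit false
open scoped Topology
open Filter

namespace Pool.Agent.Helper362.ApNoBap

abbrev G := Σ n : ℕ, Fin 3 × Idx n

/-- a function supported on block n -/
noncomputable def blk (n : ℕ) (f : Fin 3 × Idx n → ℝ) : G → ℝ := fun g =>
  if h : g.1 = n then f (h ▸ g.2) else 0

lemma blk_same (n : ℕ) (f : Fin 3 × Idx n → ℝ) (q : Fin 3 × Idx n) : blk n f ⟨n, q⟩ = f q := by
  simp [blk]

lemma blk_ne (n m : ℕ) (h : m ≠ n) (f : Fin 3 × Idx n → ℝ) (q : Fin 3 × Idx m) :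
    blk n f ⟨m, q⟩ = 0 := by
  simp [blk, h]

lemma hasSum_blk (n : ℕ) (f : Fin 3 × Idx n → ℝ) (F : G → ℝ) :
    HasSum (fun k => blk n f k * F k) (∑ q, f q * F ⟨n, q⟩) := by
  classical
  have h1 : ∑ q, f q * F ⟨n, q⟩ =
      ∑ k ∈ (Finset.univ.map (Function.Embedding.sigmaMk n) : Finset G), blk n f k * F k := by
    rw [Finset.sum_map]
    refine Finset.sum_congr rfl (fun q _ => ?_)
    show _ = blk n f ⟨n, q⟩ * F ⟨n, q⟩
    rw [blk_same]
  rw [h1]
  refine hasSum_sum_of_ne_finset_zero (fun k hk => ?_)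
  obtain ⟨m, q⟩ := k
  by_cases h : m = n
  · subst h
    exact absurd (Finset.mem_map.mpr ⟨q, Finset.mem_univ _, rfl⟩) hk
  · rw [blk_ne n m h, zero_mul]

noncomputable def tau (m : ℕ) (x : Idx (m + 1) → ℝ) : Fin 3 × Idx m → ℝ := fun q =>
  ∑ s, O (ty m q.1) m q.2 s * ∑ c, u q.1 c * x (cons c s)

noncomputable def sig (n : ℕ) (x : Idx n → ℝ) : Fin 3 × Idx n → ℝ := fun q =>
  ∑ s, O (ty n q.1) n q.2 s * x s

noncomputable def Lev : (n : ℕ) → (Idx n → ℝ) → G → ℝ
  | 0, _ => fun _ => 0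
  | m + 1, x => fun g => blk m (tau m x) g + blk (m + 1) (sig (m + 1) x) g

lemma blk_add (n : ℕ) (f f' : Fin 3 × Idx n → ℝ) (g : G) :
    blk n (fun q => f q + f' q) g = blk n f g + blk n f' g := by
  obtain ⟨m, q⟩ := g
  by_cases h : m = n
  · subst h
    simp_rw [blk_same]
  · simp_rw [blk_ne n m h]; simp

lemma blk_mul (n : ℕ) (c : ℝ) (f : Fin 3 × Idx n → ℝ) (g : G) :
    blk n (fun q => c * f q) g = c * blk n f g := by
  obtain ⟨m, q⟩ := g
  by_cases h : m = n
  · subst h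
    simp_rw [blk_same]
  · simp_rw [blk_ne n m h]; simp

lemma tau_add (m : ℕ) (x y : Idx (m + 1) → ℝ) :
    tau m (x + y) = fun q => tau m x q + tau m y q := by
  funext q
  unfold tau
  rw [← Finset.sum_add_distrib]
  refine Finset.sum_congr rfl (fun s _ => ?_)
  rw [← mul_add, ← Finset.sum_add_distrib]
  congr 1
  exact Finset.sum_congr rfl (fun c _ => by rw [Pi.add_apply, mul_add])

lemma tau_smul (m : ℕ) (d : ℝ) (x : Idx (m + 1) → ℝ) :
    tau m (d • x) = fun q => d * tau m x q := by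
  funext q
  unfold tau
  rw [Finset.mul_sum]
  refine Finset.sum_congr rfl (fun s _ => ?_)
  have h1 : ∑ c, u q.1 c * (d • x) (cons c s) = d * ∑ c, u q.1 c * x (cons c s) := by
    rw [Finset.mul_sum]
    exact Finset.sum_congr rfl (fun c _ => by rw [Pi.smul_apply, smul_eq_mul]; ring)
  rw [h1]
  ring

lemma sig_add (n : ℕ) (x y : Idx n → ℝ) :
    sig n (x + y) = fun q => sig n x q + sig n y q := by
  funext q
  unfold sig
  rw [← Finset.sum_add_distrib]
  exact Finset.sum_congr rfl (fun s _ => by rw [Pi.add_apply, mul_add])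

lemma sig_smul (n : ℕ) (d : ℝ) (x : Idx n → ℝ) :
    sig n (d • x) = fun q => d * sig n x q := by
  funext q
  unfold sig
  rw [Finset.mul_sum]
  exact Finset.sum_congr rfl (fun s _ => by rw [Pi.smul_apply, smul_eq_mul]; ring)

noncomputable def LevL (n : ℕ) : (Idx n → ℝ) →ₗ[ℝ] (G → ℝ) where
  toFun := Lev n
  map_add' := fun x y => by
    funext g
    cases n with
    | zero => simp [Lev]
    | succ m =>
      simp only [Lev, tau_add, sig_add, blk_add, Pi.add_apply]
      ring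
  map_smul' := fun d x => by
    funext g
    cases n with
    | zero => simp [Lev]
    | succ m =>
      simp only [Lev, tau_smul, sig_smul, blk_mul, Pi.smul_apply, smul_eq_mul, RingHom.id_apply]
      ring

lemma Lev_comb (n : ℕ) {ι : Type} (s : Finset ι) (f : ι → ℝ) (x : ι → Idx n → ℝ) (h : G) :
    ∑ q ∈ s, f q * Lev n (x q) h = Lev n (fun y => ∑ q ∈ s, f q * x q y) h := by
  have h1 : LevL n (∑ q ∈ s, f q • x q) = ∑ q ∈ s, f q • LevL n (x q) := by
    rw [map_sum]
    exact Finset.sum_congr rfl (fun q _ => map_smul _ _ _)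
  have h2 := congrFun h1 h
  rw [Finset.sum_apply] at h2
  have h3 : (∑ q ∈ s, f q • x q) = fun y => ∑ q ∈ s, f q * x q y := by
    funext y
    rw [Finset.sum_apply]
    rfl
  rw [h3] at h2
  exact h2.symm

/-- level n+1 vector obtained from a level n vector -/
noncomputable def tens {n : ℕ} (i : Fin 3) (b : Idx n → ℝ) : Idx (n + 1) → ℝ := fun y =>
  ut i (Prod.fst (α := Bool) (β := Idx n) y) * b (Prod.snd (α := Bool) (β := Idx n) y)

lemma tens_cons {n : ℕ} (i : Fin 3) (b : Idx n → ℝ) (c : Bool) (s : Idx n) :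
    tens i b (cons c s) = ut i c * b s := rfl

/-- the matrix -/
noncomputable def A (g h : G) : ℝ :=
  (1 / 2) ^ (g.1 + 1) * Lev (g.1 + 1) (tens g.2.1 (O (ty g.1 g.2.1) g.1 g.2.2)) h -
    (1 / 2) ^ g.1 / 3 * Lev g.1 (O (ty g.1 g.2.1) g.1 g.2.2) h

lemma sum_prod' (n : ℕ) (f : Fin 3 × Idx n → ℝ) : ∑ q, f q = ∑ i, ∑ p, f (i, p) :=
  Fintype.sum_prod_type f

lemma comb_tau_tens (m : ℕ) (x : Idx (m + 1) → ℝ) (y : Idx (m + 1)) :
    ∑ q : Fin 3 × Idx m, tau m x q * tens q.1 (O (ty m q.1) m q.2) y = x y := by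
  obtain ⟨c, s, rfl⟩ := idx_cases y
  rw [sum_prod']
  simp only [tens_cons]
  have h1 : ∀ i : Fin 3, ∑ p, tau m x (i, p) * (ut i c * O (ty m i) m p s) =
      ut i c * ∑ c', u i c' * x (cons c' s) := by
    intro i
    rw [← recon (ty m i) m (fun s' => ∑ c', u i c' * x (cons c' s')) s, Finset.mul_sum]
    refine Finset.sum_congr rfl (fun p _ => ?_)
    unfold tau
    simp only
    ring
  simp_rw [h1, Finset.mul_sum]
  rw [Finset.sum_comm]
  have h2 : ∀ c', ∑ i, ut i c * (u i c' * x (cons c' s)) =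
      (if c = c' then 1 else 0) * x (cons c' s) := by
    intro c'
    rw [← sum_ut_u, Finset.sum_mul]
    exact Finset.sum_congr rfl (fun i _ => by ring)
  simp_rw [h2]
  simp

lemma comb_tau (m : ℕ) (x : Idx (m + 1) → ℝ) (s : Idx m) :
    ∑ q : Fin 3 × Idx m, tau m x q * O (ty m q.1) m q.2 s = 0 := by
  rw [sum_prod']
  simp only
  have h1 : ∀ i : Fin 3, ∑ p, tau m x (i, p) * O (ty m i) m p s =
      ∑ c', u i c' * x (cons c' s) := by
    intro i
    rw [← recon (ty m i) m (fun s' => ∑ c', u i c' * x (cons c' s')) s]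
    refine Finset.sum_congr rfl (fun p _ => ?_)
    unfold tau
    simp only
    ring
  simp_rw [h1]
  rw [Finset.sum_comm]
  simp_rw [← Finset.sum_mul, sum_u]
  simp

lemma comb_sig (n : ℕ) (x : Idx n → ℝ) (s : Idx n) :
    ∑ q : Fin 3 × Idx n, sig n x q * O (ty n q.1) n q.2 s = 3 * x s := by
  rw [sum_prod']
  simp only
  have h1 : ∀ i : Fin 3, ∑ p, sig n x (i, p) * O (ty n i) n p s = x s := by
    intro i
    rw [← recon (ty n i) n x s]
    refine Finset.sum_congr rfl (fun p _ => ?_)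
    unfold sig
    simp only
    ring
  simp_rw [h1]
  simp

lemma comb_sig_tens (n : ℕ) (x : Idx n → ℝ) (y : Idx (n + 1)) :
    ∑ q : Fin 3 × Idx n, sig n x q * tens q.1 (O (ty n q.1) n q.2) y = 0 := by
  obtain ⟨c, s, rfl⟩ := idx_cases y
  rw [sum_prod']
  simp only [tens_cons]
  have h1 : ∀ i : Fin 3, ∑ p, sig n x (i, p) * (ut i c * O (ty n i) n p s) = ut i c * x s := by
    intro i
    rw [← recon (ty n i) n x s, Finset.mul_sum]
    refine Finset.sum_congr rfl (fun p _ => ?_)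
    unfold sig
    simp only
    ring
  simp_rw [h1, ← Finset.sum_mul, sum_ut]
  simp

lemma A_mk (n : ℕ) (q : Fin 3 × Idx n) (h : G) :
    A ⟨n, q⟩ h = (1 / 2) ^ (n + 1) * Lev (n + 1) (tens q.1 (O (ty n q.1) n q.2)) h -
      (1 / 2) ^ n / 3 * Lev n (O (ty n q.1) n q.2) h := rfl

lemma sum_block (n : ℕ) (f : Fin 3 × Idx n → ℝ) (h : G) :
    ∑ q, f q * A ⟨n, q⟩ h =
      (1 / 2) ^ (n + 1) * Lev (n + 1) (fun y => ∑ q, f q * tens q.1 (O (ty n q.1) n q.2) y) h -
      (1 / 2) ^ n / 3 * Lev n (fun y => ∑ q, f q * O (ty n q.1) n q.2 y) h := by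
  rw [← Lev_comb, ← Lev_comb, Finset.mul_sum, Finset.mul_sum, ← Finset.sum_sub_distrib]
  refine Finset.sum_congr rfl (fun q _ => ?_)
  rw [A_mk]
  ring

lemma Lev_zero_fun (n : ℕ) (h : G) : Lev n (fun _ => 0) h = 0 := by
  have := congrFun (map_zero (LevL n)) h
  exact this

lemma hasSum_Lev_mul (n : ℕ) (x : Idx n → ℝ) (h : G) :
    HasSum (fun k => Lev n x k * A k h) 0 := by
  cases n with
  | zero => simp [Lev]
  | succ m =>
    have h1 := (hasSum_blk m (tau m x) (fun k => A k h)).add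
      (hasSum_blk (m + 1) (sig (m + 1) x) (fun k => A k h))
    have h2 : (∑ q, tau m x q * A ⟨m, q⟩ h) + ∑ q, sig (m + 1) x q * A ⟨m + 1, q⟩ h = 0 := by
      rw [sum_block, sum_block]
      simp_rw [comb_tau_tens, comb_tau, comb_sig, comb_sig_tens, Lev_zero_fun]
      have h3 : Lev (m + 1) (fun y => 3 * x y) h = 3 * Lev (m + 1) x h := by
        have := congrFun (map_smul (LevL (m + 1)) (3 : ℝ) x) h
        exact this
      rw [h3]
      ring
    rw [h2] at h1
    refine h1.congr_fun ?_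
    intro k
    simp only [Lev]
    ring

end Pool.Agent.Helper362.ApNoBap
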