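import Mathlib
set_option autoImplicit false
open Module

namespace Pool.Agent.Helper362.Hap

section Block

variable {𝕜 : Type} [RCLike 𝕜]
variable {V : Type} [NormedAddCommGroup V] [InnerProductSpace 𝕜 V]
variable {G : Type}

/-- A Bessel inequality for nearly orthogonal vectors. -/
lemma bessel (w : G → V) (μ : ℝ) (hμ : 0 ≤ μ) (h1 : ∀ g, ‖w g‖ ^ 2 ≤ 2)
    (h2 : ∀ g h, g ≠ h → ‖inner 𝕜 (w g) (w h)‖ ≤ 2 * μ) (A : Finset G)
    (hA : (A.card : ℝ) * μ ≤ 1) (z : V) :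
    ∑ g ∈ A, ‖inner 𝕜 (w g) z‖ ^ 2 ≤ 4 * ‖z‖ ^ 2 := by
  classical
  set t : G → 𝕜 := fun g => inner 𝕜 (w g) z with ht
  set S : ℝ := ∑ g ∈ A, ‖t g‖ ^ 2 with hS
  set v : V := ∑ g ∈ A, t g • w g with hv
  have hS0 : 0 ≤ S := Finset.sum_nonneg (fun g _ => by positivity)
  have hvz : inner 𝕜 v z = (S : 𝕜) := by
    rw [hv, sum_inner, hS, RCLike.ofReal_sum]
    refine Finset.sum_congr rfl (fun g _ => ?_)
    rw [inner_smul_left]
    show (starRingEnd 𝕜) (t g) * t g = _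
    rw [RCLike.conj_mul]
    push_cast
    rfl
  have hSv : S ≤ ‖v‖ * ‖z‖ := by
    have h3 := norm_inner_le_norm (𝕜 := 𝕜) v z
    rw [hvz, RCLike.norm_ofReal, abs_of_nonneg hS0] at h3
    exact h3
  have hvv : ‖v‖ ^ 2 ≤ 4 * S := by
    have h3 : ‖v‖ ^ 2 = ‖(inner 𝕜 v v : 𝕜)‖ := by
      rw [inner_self_eq_norm_sq_to_K, norm_pow, RCLike.norm_ofReal, abs_of_nonneg (norm_nonneg _)]
    rw [h3]
    have h4 : (inner 𝕜 v v : 𝕜) = ∑ g ∈ A, ∑ h ∈ A, (starRingEnd 𝕜) (t g) * (t h * inner 𝕜 (w g) (w h)) := by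
      rw [hv, sum_inner]
      refine Finset.sum_congr rfl (fun g _ => ?_)
      rw [inner_sum]
      refine Finset.sum_congr rfl (fun h _ => ?_)
      rw [inner_smul_left, inner_smul_right]
    rw [h4]
    have hb : ∀ g h, ‖inner 𝕜 (w g) (w h)‖ ≤ (if g = h then 2 else 0) + 2 * μ := by
      intro g h
      by_cases hgh : g = h
      · subst hgh
        rw [if_pos rfl, inner_self_eq_norm_sq_to_K, norm_pow, RCLike.norm_ofReal,
          abs_of_nonneg (norm_nonneg _)]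
        linarith [h1 g]
      · rw [if_neg hgh, zero_add]
        exact h2 g h hgh
    calc ‖∑ g ∈ A, ∑ h ∈ A, (starRingEnd 𝕜) (t g) * (t h * inner 𝕜 (w g) (w h))‖
        ≤ ∑ g ∈ A, ∑ h ∈ A, ‖t g‖ * (‖t h‖ * ((if g = h then 2 else 0) + 2 * μ)) := by
          refine (norm_sum_le _ _).trans (Finset.sum_le_sum (fun g _ => ?_))
          refine (norm_sum_le _ _).trans (Finset.sum_le_sum (fun h _ => ?_))
          rw [norm_mul, norm_mul, RCLike.norm_conj]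
          exact mul_le_mul_of_nonneg_left (mul_le_mul_of_nonneg_left (hb g h) (norm_nonneg _))
            (norm_nonneg _)
      _ = 2 * S + 2 * μ * (∑ g ∈ A, ‖t g‖) ^ 2 := by
          have h5 : ∀ g ∈ A, ∑ h ∈ A, ‖t g‖ * (‖t h‖ * ((if g = h then 2 else 0) + 2 * μ)) =
              2 * ‖t g‖ ^ 2 + 2 * μ * (‖t g‖ * ∑ h ∈ A, ‖t h‖) := by
            intro g hg
            have h6 : ∀ h ∈ A, ‖t g‖ * (‖t h‖ * ((if g = h then 2 else 0) + 2 * μ)) =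
                (if g = h then 2 * ‖t g‖ * ‖t h‖ else 0) + 2 * μ * ‖t g‖ * ‖t h‖ := by
              intro h _
              split_ifs <;> ring
            rw [Finset.sum_congr rfl h6, Finset.sum_add_distrib, Finset.sum_ite_eq, if_pos hg,
              ← Finset.mul_sum]
            ring
          rw [Finset.sum_congr rfl h5, Finset.sum_add_distrib, ← Finset.mul_sum, ← Finset.mul_sum,
            ← Finset.sum_mul]
          ring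
      _ ≤ 4 * S := by
          have h7 : (∑ g ∈ A, ‖t g‖) ^ 2 ≤ A.card * S := sq_sum_le_card_mul_sum_sq
          have h8 : 2 * μ * (∑ g ∈ A, ‖t g‖) ^ 2 ≤ 2 * μ * (A.card * S) :=
            mul_le_mul_of_nonneg_left h7 (by positivity)
          have h9 : 2 * μ * (A.card * S) = 2 * (A.card * μ) * S := by ring
          have h10 : (A.card * μ) * S ≤ 1 * S := mul_le_mul_of_nonneg_right hA hS0
          linarith
  by_cases hS1 : S = 0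
  · rw [hS1]; positivity
  · have hSpos : 0 < S := lt_of_le_of_ne hS0 (Ne.symm hS1)
    have h5 : S ^ 2 ≤ (4 * ‖z‖ ^ 2) * S := by
      calc S ^ 2 ≤ (‖v‖ * ‖z‖) ^ 2 := by gcongr
        _ = ‖v‖ ^ 2 * ‖z‖ ^ 2 := by ring
        _ ≤ (4 * S) * ‖z‖ ^ 2 := by gcongr
        _ = _ := by ring
    have h6 : S * S ≤ (4 * ‖z‖ ^ 2) * S := by rw [← sq]; exact h5
    exact le_of_mul_le_mul_right h6 hSpos

/-- Families of sets of prescribed sizes. -/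
def Conf (G : Type) (k ρ : ℕ) : Type :=
  {A : Fin k → Finset G // ∀ l, (A l).card ≤ ρ ^ (k - 1 - (l : ℕ))}

noncomputable instance [Fintype G] (k ρ : ℕ) : Fintype (Conf G k ρ) := by
  classical
  unfold Conf
  infer_instance

instance (k ρ : ℕ) : Inhabited (Conf G k ρ) := ⟨⟨fun _ => ∅, fun _ => by simp⟩⟩

/-- The quadratic form attached to a configuration. -/
noncomputable def Q (w : G → V) {k ρ : ℕ} (A : Conf G k ρ) (z : V) : ℝ :=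
  ‖z‖ ^ 2 + ∑ l : Fin k, (4 : ℝ) ^ ((l : ℕ) + 1) * ∑ g ∈ A.1 l, ‖inner 𝕜 (w g) z‖ ^ 2

lemma sum_four (k : ℕ) : ∑ l : Fin k, (4 : ℝ) ^ ((l : ℕ) + 1) ≤ (4 / 3) * 4 ^ k := by
  rw [Fin.sum_univ_eq_sum_range (fun l => (4 : ℝ) ^ (l + 1)) k]
  induction k with
  | zero => norm_num
  | succ k ih =>
    rw [Finset.sum_range_succ]
    have : (4 : ℝ) ^ (k + 1) = 4 * 4 ^ k := by ring
    rw [this]
    linarith

lemma card_mu (μ : ℝ) (hμ : 0 ≤ μ) (k ρ : ℕ) (hρ : 1 ≤ ρ) (hm : ((ρ : ℝ) ^ k + 1) * μ ≤ 1)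
    (A : Conf G k ρ) (l : Fin k) : ((A.1 l).card : ℝ) * μ ≤ 1 := by
  refine le_trans (mul_le_mul_of_nonneg_right ?_ hμ) hm
  have h1 : ((A.1 l).card : ℝ) ≤ (ρ : ℝ) ^ (k - 1 - (l : ℕ)) := by exact_mod_cast A.2 l
  have h2 : (ρ : ℝ) ^ (k - 1 - (l : ℕ)) ≤ (ρ : ℝ) ^ k :=
    pow_le_pow_right₀ (by exact_mod_cast hρ) (by omega)
  linarith

lemma Q_crude (w : G → V) (μ : ℝ) (hμ : 0 ≤ μ) (h1 : ∀ g, ‖w g‖ ^ 2 ≤ 2)
    (h2 : ∀ g h, g ≠ h → ‖inner 𝕜 (w g) (w h)‖ ≤ 2 * μ) (k ρ : ℕ) (hρ : 1 ≤ ρ)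
    (hm : ((ρ : ℝ) ^ k + 1) * μ ≤ 1) (A : Conf G k ρ) (z : V) :
    Q (𝕜 := 𝕜) w A z ≤ 7 * 4 ^ k * ‖z‖ ^ 2 := by
  unfold Q
  have h3 : ∑ l : Fin k, (4 : ℝ) ^ ((l : ℕ) + 1) * ∑ g ∈ A.1 l, ‖inner 𝕜 (w g) z‖ ^ 2 ≤
      ∑ l : Fin k, (4 : ℝ) ^ ((l : ℕ) + 1) * (4 * ‖z‖ ^ 2) := by
    refine Finset.sum_le_sum (fun l _ => mul_le_mul_of_nonneg_left ?_ (by positivity))
    exact bessel w μ hμ h1 h2 _ (card_mu μ hμ k ρ hρ hm A l) z
  rw [← Finset.sum_mul] at h3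
  have h4 := mul_le_mul_of_nonneg_right (sum_four k) (show 0 ≤ 4 * ‖z‖ ^ 2 by positivity)
  have h5 : (1 : ℝ) ≤ 4 ^ k := one_le_pow₀ (by norm_num)
  have h6 : ‖z‖ ^ 2 ≤ 4 ^ k * ‖z‖ ^ 2 := le_mul_of_one_le_left (by positivity) h5
  have h7 : 0 ≤ (4 : ℝ) ^ k * ‖z‖ ^ 2 := by positivity
  calc _ ≤ ‖z‖ ^ 2 + (4 / 3) * 4 ^ k * (4 * ‖z‖ ^ 2) := by linarith
    _ = ‖z‖ ^ 2 + (16 / 3) * (4 ^ k * ‖z‖ ^ 2) := by ring
    _ ≤ 7 * (4 ^ k * ‖z‖ ^ 2) := by linarith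
    _ = _ := by ring

lemma norm_sq_le_Q (w : G → V) {k ρ : ℕ} (A : Conf G k ρ) (z : V) :
    ‖z‖ ^ 2 ≤ Q (𝕜 := 𝕜) w A z := by
  unfold Q
  have : 0 ≤ ∑ l : Fin k, (4 : ℝ) ^ ((l : ℕ) + 1) * ∑ g ∈ A.1 l, ‖inner 𝕜 (w g) z‖ ^ 2 :=
    Finset.sum_nonneg (fun l _ => mul_nonneg (by positivity)
      (Finset.sum_nonneg (fun g _ => by positivity)))
  linarith

lemma Q_flat (w : G → V) (k ρ : ℕ) (hρ : 1 ≤ ρ) (A : Conf G k ρ) (z : V) (δ : ℝ)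
    (hδ : ∀ g, ‖inner 𝕜 (w g) z‖ ≤ δ) (h8 : δ ^ 2 * (8 ^ k * (ρ : ℝ) ^ k) ≤ 1) :
    Q (𝕜 := 𝕜) w A z ≤ ‖z‖ ^ 2 + 1 := by
  unfold Q
  have h3 : ∑ l : Fin k, (4 : ℝ) ^ ((l : ℕ) + 1) * ∑ g ∈ A.1 l, ‖inner 𝕜 (w g) z‖ ^ 2 ≤
      ∑ l : Fin k, (4 : ℝ) ^ k * ((ρ : ℝ) ^ k * δ ^ 2) := by
    refine Finset.sum_le_sum (fun l _ => ?_)
    refine mul_le_mul (pow_le_pow_right₀ (by norm_num) (by omega)) ?_
      (Finset.sum_nonneg (fun g _ => by positivity)) (by positivity)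
    calc ∑ g ∈ A.1 l, ‖inner 𝕜 (w g) z‖ ^ 2 ≤ ∑ g ∈ A.1 l, δ ^ 2 :=
          Finset.sum_le_sum (fun g _ => by have := hδ g; gcongr)
      _ = (A.1 l).card * δ ^ 2 := by rw [Finset.sum_const, nsmul_eq_mul]
      _ ≤ (ρ : ℝ) ^ k * δ ^ 2 := by
          refine mul_le_mul_of_nonneg_right ?_ (by positivity)
          have h1 : ((A.1 l).card : ℝ) ≤ (ρ : ℝ) ^ (k - 1 - (l : ℕ)) := by exact_mod_cast A.2 l
          have h2 : (ρ : ℝ) ^ (k - 1 - (l : ℕ)) ≤ (ρ : ℝ) ^ k :=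
            pow_le_pow_right₀ (by exact_mod_cast hρ) (by omega)
          linarith
  rw [Finset.sum_const, Finset.card_univ, Fintype.card_fin, nsmul_eq_mul] at h3
  have h4 : (k : ℝ) ≤ 2 ^ k := by exact_mod_cast Nat.lt_two_pow_self.le
  have h5 : (k : ℝ) * (4 ^ k * ((ρ : ℝ) ^ k * δ ^ 2)) ≤ 2 ^ k * (4 ^ k * ((ρ : ℝ) ^ k * δ ^ 2)) :=
    mul_le_mul_of_nonneg_right h4 (by positivity)
  have h6 : (2 : ℝ) ^ k * (4 ^ k * ((ρ : ℝ) ^ k * δ ^ 2)) = δ ^ 2 * (8 ^ k * (ρ : ℝ) ^ k) := by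
    have : (8 : ℝ) ^ k = 2 ^ k * 4 ^ k := by rw [← mul_pow]; norm_num
    rw [this]; ring
  linarith

lemma Q_single (w : G → V) (k ρ : ℕ) (g : G) :
    ∃ A : Conf G (k + 1) ρ, ∀ z : V, 4 ^ (k + 1) * ‖inner 𝕜 (w g) z‖ ^ 2 ≤ Q (𝕜 := 𝕜) w A z := by
  classical
  refine ⟨⟨fun l => if l = Fin.last k then {g} else ∅, fun l => ?_⟩, fun z => ?_⟩
  · by_cases h : l = Fin.last k
    · subst h; simp
    · simp [h]
  · unfold Q
    rw [Fin.sum_univ_castSucc]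
    have h1 : ∀ l : Fin k, (4 : ℝ) ^ ((l.castSucc : ℕ) + 1) *
        ∑ g' ∈ (if l.castSucc = Fin.last k then {g} else ∅ : Finset G), ‖inner 𝕜 (w g') z‖ ^ 2 = 0 := by
      intro l
      rw [if_neg (Fin.castSucc_lt_last l).ne]
      simp
    simp only [h1]
    simp only [Finset.sum_const_zero, zero_add, if_true, Finset.sum_singleton, Fin.val_last]
    have : 0 ≤ ‖z‖ ^ 2 := by positivity
    linarith

lemma inner_le_t (w : G → V) (W : Submodule 𝕜 V) [FiniteDimensional 𝕜 W] (g : G) (z : V)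
    (hz : z ∈ W) : ‖inner 𝕜 (w g) z‖ ^ 2 ≤
      (∑ i, ‖inner 𝕜 (w g) ((stdOrthonormalBasis 𝕜 W i : W) : V)‖ ^ 2) * ‖z‖ ^ 2 := by
  set b := stdOrthonormalBasis 𝕜 W with hb
  have h1 : z = ∑ i, (inner 𝕜 (b i) (⟨z, hz⟩ : W)) • ((b i : W) : V) := by
    have h2 := congrArg (fun x : W => (x : V)) (b.sum_repr' (⟨z, hz⟩ : W))
    simp only [Submodule.coe_sum, Submodule.coe_smul] at h2
    exact h2.symm
  have h3 : inner 𝕜 (w g) z =
      ∑ i, (inner 𝕜 (b i) (⟨z, hz⟩ : W)) * inner 𝕜 (w g) ((b i : W) : V) := by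
    conv_lhs => rw [h1]
    rw [inner_sum]
    exact Finset.sum_congr rfl (fun i _ => inner_smul_right _ _ _)
  have h4 : ‖inner 𝕜 (w g) z‖ ≤
      ∑ i, ‖(inner 𝕜 (b i) (⟨z, hz⟩ : W))‖ * ‖inner 𝕜 (w g) ((b i : W) : V)‖ := by
    rw [h3]
    refine (norm_sum_le _ _).trans (le_of_eq ?_)
    exact Finset.sum_congr rfl (fun i _ => norm_mul _ _)
  have h5 : ∑ i, ‖(inner 𝕜 (b i) (⟨z, hz⟩ : W))‖ ^ 2 = ‖z‖ ^ 2 := by
    rw [b.sum_sq_norm_inner_right]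
    rfl
  calc ‖inner 𝕜 (w g) z‖ ^ 2
      ≤ (∑ i, ‖(inner 𝕜 (b i) (⟨z, hz⟩ : W))‖ * ‖inner 𝕜 (w g) ((b i : W) : V)‖) ^ 2 := by
        gcongr
    _ ≤ (∑ i, ‖(inner 𝕜 (b i) (⟨z, hz⟩ : W))‖ ^ 2) *
          ∑ i, ‖inner 𝕜 (w g) ((b i : W) : V)‖ ^ 2 := Finset.sum_mul_sq_le_sq_mul_sq _ _ _
    _ = _ := by rw [h5]; ring

lemma sum_t (w : G → V) (μ : ℝ) (hμ : 0 ≤ μ) (h1 : ∀ g, ‖w g‖ ^ 2 ≤ 2)
    (h2 : ∀ g h, g ≠ h → ‖inner 𝕜 (w g) (w h)‖ ≤ 2 * μ) (W : Submodule 𝕜 V)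
    [FiniteDimensional 𝕜 W] (A : Finset G) (hA : (A.card : ℝ) * μ ≤ 1) :
    ∑ g ∈ A, ∑ i, ‖inner 𝕜 (w g) ((stdOrthonormalBasis 𝕜 W i : W) : V)‖ ^ 2 ≤
      4 * (finrank 𝕜 W : ℝ) := by
  rw [Finset.sum_comm]
  calc _ ≤ ∑ i : Fin (finrank 𝕜 W), (4 * ‖((stdOrthonormalBasis 𝕜 W i : W) : V)‖ ^ 2) :=
        Finset.sum_le_sum (fun i _ => bessel w μ hμ h1 h2 A hA _)
    _ = ∑ i : Fin (finrank 𝕜 W), (4 : ℝ) := by
        refine Finset.sum_congr rfl (fun i _ => ?_)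
        have : ‖((stdOrthonormalBasis 𝕜 W i : W) : V)‖ = 1 :=
          (stdOrthonormalBasis 𝕜 W).orthonormal.1 i
        rw [this]; norm_num
    _ = _ := by
        rw [Finset.sum_const, Finset.card_univ, Fintype.card_fin, nsmul_eq_mul]; ring

/-- For a subspace of dimension at most n one configuration dominates all of them. -/
lemma exists_good [Fintype G] (w : G → V) (μ : ℝ) (hμ : 0 ≤ μ) (h1 : ∀ g, ‖w g‖ ^ 2 ≤ 2)
    (h2 : ∀ g h, g ≠ h → ‖inner 𝕜 (w g) (w h)‖ ≤ 2 * μ) (k ρ n : ℕ) (hρ : 1 ≤ ρ) (hn : 1 ≤ n)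
    (hm : ((ρ : ℝ) ^ k + 1) * μ ≤ 1) (h6 : 6 * (4 : ℝ) ^ k * n ≤ ρ)
    (W : Submodule 𝕜 V) [FiniteDimensional 𝕜 W] (hW : finrank 𝕜 W ≤ n) :
    ∃ A' : Conf G k ρ, ∀ A : Conf G k ρ, ∀ z ∈ W,
      Q (𝕜 := 𝕜) w A z ≤ 18 * Q (𝕜 := 𝕜) w A' z := by
  classical
  set t : G → ℝ := fun g => ∑ i, ‖inner 𝕜 (w g) ((stdOrthonormalBasis 𝕜 W i : W) : V)‖ ^ 2 with ht
  have ht0 : ∀ g, 0 ≤ t g := fun g => Finset.sum_nonneg (fun i _ => by positivity)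
  have hρ0 : (0 : ℝ) < ρ := by exact_mod_cast hρ
  have hn0 : (0 : ℝ) < n := by exact_mod_cast hn
  cases k with
  | zero =>
    refine ⟨default, fun A z _ => ?_⟩
    unfold Q
    simp only [Finset.univ_eq_empty, Finset.sum_empty, add_zero]
    nlinarith [sq_nonneg ‖z‖]
  | succ k =>
    have hcard : ∀ l : Fin (k + 1), (Finset.univ.filter (fun g : G =>
        4 * (n : ℝ) ≤ t g * (ρ : ℝ) ^ (k + 1 - 1 - (l : ℕ)))).card ≤ ρ ^ (k + 1 - 1 - (l : ℕ)) := by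
      intro l
      by_contra hc
      rw [not_le] at hc
      obtain ⟨B, hB, hBc⟩ := Finset.exists_subset_card_eq (Nat.succ_le_of_lt hc)
      have hBμ : ((B.card : ℕ) : ℝ) * μ ≤ 1 := by
        refine le_trans (mul_le_mul_of_nonneg_right ?_ hμ) hm
        rw [hBc, Nat.succ_eq_add_one, Nat.cast_add, Nat.cast_pow, Nat.cast_one]
        have : (ρ : ℝ) ^ (k + 1 - 1 - (l : ℕ)) ≤ (ρ : ℝ) ^ (k + 1) :=
          pow_le_pow_right₀ (by exact_mod_cast hρ) (by omega)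
        linarith
      have h3 := sum_t (𝕜 := 𝕜) w μ hμ h1 h2 W B hBμ
      have h4 : (B.card : ℝ) * (4 * n) ≤ (∑ g ∈ B, t g) * (ρ : ℝ) ^ (k + 1 - 1 - (l : ℕ)) := by
        rw [Finset.sum_mul, ← nsmul_eq_mul, ← Finset.sum_const]
        exact Finset.sum_le_sum (fun g hg => (Finset.mem_filter.mp (hB hg)).2)
      have h5 : (finrank 𝕜 W : ℝ) ≤ n := by exact_mod_cast hW
      have h7 : (∑ g ∈ B, t g) * (ρ : ℝ) ^ (k + 1 - 1 - (l : ℕ)) ≤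
          (4 * n) * (ρ : ℝ) ^ (k + 1 - 1 - (l : ℕ)) :=
        mul_le_mul_of_nonneg_right (by linarith) (by positivity)
      have h8 : (B.card : ℝ) = (ρ : ℝ) ^ (k + 1 - 1 - (l : ℕ)) + 1 := by
        rw [hBc, Nat.succ_eq_add_one, Nat.cast_add, Nat.cast_pow, Nat.cast_one]
      rw [h8] at h4
      nlinarith
    refine ⟨⟨fun l => Finset.univ.filter (fun g : G =>
      4 * (n : ℝ) ≤ t g * (ρ : ℝ) ^ (k + 1 - 1 - (l : ℕ))), hcard⟩, fun A z hz => ?_⟩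
    set X : Fin (k + 1) → ℝ := fun l => ∑ g ∈ A.1 l, ‖inner 𝕜 (w g) z‖ ^ 2 with hX
    set X' : Fin (k + 1) → ℝ := fun l => ∑ g ∈ Finset.univ.filter (fun g : G =>
      4 * (n : ℝ) ≤ t g * (ρ : ℝ) ^ (k + 1 - 1 - (l : ℕ))), ‖inner 𝕜 (w g) z‖ ^ 2 with hX'
    have hX0 : X 0 ≤ 4 * ‖z‖ ^ 2 := bessel w μ hμ h1 h2 _ (card_mu μ hμ (k + 1) ρ hρ hm A 0) z
    have hXs : ∀ i : Fin k, X i.succ ≤ X' i.castSucc + (4 * n / ρ) * ‖z‖ ^ 2 := by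
      intro i
      set T := Finset.univ.filter (fun g : G =>
        4 * (n : ℝ) ≤ t g * (ρ : ℝ) ^ (k + 1 - 1 - (i.castSucc : ℕ))) with hT
      have h3 : X i.succ = ∑ g ∈ (A.1 i.succ) ∩ T, ‖inner 𝕜 (w g) z‖ ^ 2 +
          ∑ g ∈ (A.1 i.succ) \ T, ‖inner 𝕜 (w g) z‖ ^ 2 :=
        (Finset.sum_inter_add_sum_sdiff (A.1 i.succ) T (fun g => ‖inner 𝕜 (w g) z‖ ^ 2)).symm
      rw [h3]
      refine add_le_add ?_ ?_
      · exact Finset.sum_le_sum_of_subset_of_nonneg Finset.inter_subset_right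
          (fun g _ _ => by positivity)
      · have h4 : ∀ g ∈ (A.1 i.succ) \ T, ‖inner 𝕜 (w g) z‖ ^ 2 ≤
            (4 * n / (ρ : ℝ) ^ (k - (i : ℕ))) * ‖z‖ ^ 2 := by
          intro g hg
          refine (inner_le_t w W g z hz).trans (mul_le_mul_of_nonneg_right ?_ (by positivity))
          have h5 : ¬ (4 * (n : ℝ) ≤ t g * (ρ : ℝ) ^ (k + 1 - 1 - (i.castSucc : ℕ))) := by
            intro h6
            exact (Finset.mem_sdiff.mp hg).2 (Finset.mem_filter.mpr ⟨Finset.mem_univ _, h6⟩)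
          rw [not_le] at h5
          rw [le_div_iff₀ (by positivity)]
          have : k + 1 - 1 - (i.castSucc : ℕ) = k - (i : ℕ) := by simp
          rw [this] at h5
          exact h5.le
        calc _ ≤ ∑ g ∈ (A.1 i.succ) \ T, (4 * n / (ρ : ℝ) ^ (k - (i : ℕ))) * ‖z‖ ^ 2 :=
              Finset.sum_le_sum h4
          _ = (((A.1 i.succ) \ T).card : ℝ) * ((4 * n / (ρ : ℝ) ^ (k - (i : ℕ))) * ‖z‖ ^ 2) := by
              rw [Finset.sum_const, nsmul_eq_mul]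
          _ ≤ (ρ : ℝ) ^ (k - (i : ℕ) - 1) * ((4 * n / (ρ : ℝ) ^ (k - (i : ℕ))) * ‖z‖ ^ 2) := by
              refine mul_le_mul_of_nonneg_right ?_ (by positivity)
              have h5 : ((A.1 i.succ) \ T).card ≤ ρ ^ (k - (i : ℕ) - 1) := by
                refine (Finset.card_le_card Finset.sdiff_subset).trans ((A.2 i.succ).trans
                  (le_of_eq ?_))
                rw [Fin.val_succ]
                congr 1
              exact_mod_cast h5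
          _ = (4 * n / ρ) * ‖z‖ ^ 2 := by
              have h7 : k - (i : ℕ) = (k - (i : ℕ) - 1) + 1 := by have := i.2; omega
              have h8 : (ρ : ℝ) ^ (k - (i : ℕ)) = (ρ : ℝ) ^ (k - (i : ℕ) - 1) * ρ := by
                conv_lhs => rw [h7]
                rw [pow_succ]
              rw [h8]
              field_simp
    have hQ : Q (𝕜 := 𝕜) w A z = ‖z‖ ^ 2 + ∑ l : Fin (k + 1), (4 : ℝ) ^ ((l : ℕ) + 1) * X l := rfl
    have hQ' : Q (𝕜 := 𝕜) w (⟨fun l => Finset.univ.filter (fun g : G =>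
      4 * (n : ℝ) ≤ t g * (ρ : ℝ) ^ (k + 1 - 1 - (l : ℕ))), hcard⟩ : Conf G (k + 1) ρ) z =
        ‖z‖ ^ 2 + ∑ l : Fin (k + 1), (4 : ℝ) ^ ((l : ℕ) + 1) * X' l := rfl
    rw [hQ, hQ', Fin.sum_univ_succ, Fin.sum_univ_castSucc (fun l : Fin (k + 1) =>
      (4 : ℝ) ^ ((l : ℕ) + 1) * X' l)]
    have hlast : 0 ≤ (4 : ℝ) ^ (((Fin.last k : Fin (k + 1)) : ℕ) + 1) * X' (Fin.last k) :=
      mul_nonneg (by positivity) (Finset.sum_nonneg (fun g _ => by positivity))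
    have hsum : ∑ i : Fin k, (4 : ℝ) ^ ((i.succ : ℕ) + 1) * X i.succ ≤
        4 * ∑ i : Fin k, (4 : ℝ) ^ ((i.castSucc : ℕ) + 1) * X' i.castSucc +
          (16 * ((4 / 3) * 4 ^ k) * n / ρ) * ‖z‖ ^ 2 := by
      calc _ ≤ ∑ i : Fin k, (4 : ℝ) ^ ((i.succ : ℕ) + 1) *
            (X' i.castSucc + (4 * n / ρ) * ‖z‖ ^ 2) :=
            Finset.sum_le_sum (fun i _ => mul_le_mul_of_nonneg_left (hXs i) (by positivity))
        _ = 4 * ∑ i : Fin k, (4 : ℝ) ^ ((i.castSucc : ℕ) + 1) * X' i.castSucc +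
            (∑ i : Fin k, (4 : ℝ) ^ ((i : ℕ) + 1)) * ((16 * n / ρ) * ‖z‖ ^ 2) := by
            rw [Finset.mul_sum, Finset.sum_mul, ← Finset.sum_add_distrib]
            refine Finset.sum_congr rfl (fun i _ => ?_)
            rw [Fin.val_succ, Fin.val_castSucc]
            have : (4 : ℝ) ^ ((i : ℕ) + 1 + 1) = 4 * 4 ^ ((i : ℕ) + 1) := by ring
            rw [this]
            ring
        _ ≤ 4 * ∑ i : Fin k, (4 : ℝ) ^ ((i.castSucc : ℕ) + 1) * X' i.castSucc +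
            ((4 / 3) * 4 ^ k) * ((16 * n / ρ) * ‖z‖ ^ 2) := by
            have := mul_le_mul_of_nonneg_right (sum_four k)
              (show 0 ≤ (16 * (n : ℝ) / ρ) * ‖z‖ ^ 2 by positivity)
            linarith
        _ = _ := by ring
    have h9 : 16 * ((4 / 3) * 4 ^ k) * n / ρ ≤ (1 : ℝ) := by
      rw [div_le_one hρ0]
      refine le_trans ?_ h6
      have h10 : (4 : ℝ) ^ (k + 1) = 4 * 4 ^ k := by ring
      rw [h10]
      have : 0 ≤ (4 : ℝ) ^ k * n := by positivity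
      nlinarith
    have h11 : (16 * ((4 / 3) * 4 ^ k) * n / ρ) * ‖z‖ ^ 2 ≤ 1 * ‖z‖ ^ 2 :=
      mul_le_mul_of_nonneg_right h9 (by positivity)
    have h12 : (4 : ℝ) ^ (((0 : Fin (k + 1)) : ℕ) + 1) * X 0 ≤ 16 * ‖z‖ ^ 2 := by
      rw [Fin.val_zero, zero_add, pow_one]
      linarith
    have h13 : 0 ≤ ∑ i : Fin k, (4 : ℝ) ^ ((i.castSucc : ℕ) + 1) * X' i.castSucc :=
      Finset.sum_nonneg (fun i _ => mul_nonneg (by positivity)
        (Finset.sum_nonneg (fun g _ => by positivity)))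
    linarith

end Block

end Pool.Agent.Helper362.Hap
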