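import Pool.Agent.Helper362.HapA
set_option autoImplicit false
open Module
open scoped ENNReal Topology

namespace Pool.Agent.Helper362.Hap

section Phi

variable {𝕜 : Type} [RCLike 𝕜]
variable {V : Type} [NormedAddCommGroup V] [InnerProductSpace 𝕜 V]
variable {G : Type} [Fintype G] [DecidableEq G]

/-- The Hilbert space receiving one block. -/
def HH (𝕜 : Type) [RCLike 𝕜] (V : Type) [NormedAddCommGroup V] [InnerProductSpace 𝕜 V]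
    (G : Type) [Fintype G] (k : ℕ) : Type :=
  WithLp 2 (V × EuclideanSpace 𝕜 (Fin k × G))

noncomputable instance (k : ℕ) : NormedAddCommGroup (HH 𝕜 V G k) :=
  inferInstanceAs (NormedAddCommGroup (WithLp 2 (V × EuclideanSpace 𝕜 (Fin k × G))))

noncomputable instance (k : ℕ) : InnerProductSpace 𝕜 (HH 𝕜 V G k) :=
  inferInstanceAs (InnerProductSpace 𝕜 (WithLp 2 (V × EuclideanSpace 𝕜 (Fin k × G))))

instance [CompleteSpace V] (k : ℕ) : CompleteSpace (HH 𝕜 V G k) :=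
  inferInstanceAs (CompleteSpace (WithLp 2 (V × EuclideanSpace 𝕜 (Fin k × G))))

/-- The first component. -/
def p1 {k : ℕ} (x : HH 𝕜 V G k) : V := WithLp.fst (p := 2) x

omit [DecidableEq G] in
lemma norm_p1_le {k : ℕ} (x : HH 𝕜 V G k) : ‖p1 x‖ ≤ ‖x‖ := by
  refine le_of_sq_le_sq ?_ (norm_nonneg _)
  have h1 : ‖x‖ ^ 2 = ‖WithLp.fst (p := 2) x‖ ^ 2 + ‖WithLp.snd (p := 2) x‖ ^ 2 :=
    WithLp.prod_norm_sq_eq_of_L2 (α := V) (β := EuclideanSpace 𝕜 (Fin k × G)) x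
  rw [h1]
  show ‖WithLp.fst (p := 2) x‖ ^ 2 ≤ _
  linarith [sq_nonneg ‖WithLp.snd (p := 2) x‖]

/-- The linear map attached to a configuration. -/
noncomputable def Phi (w : G → V) {k ρ : ℕ} (A : Conf G k ρ) : V →ₗ[𝕜] HH 𝕜 V G k where
  toFun z := (WithLp.toLp 2 (z, WithLp.toLp 2 (fun p : Fin k × G =>
    if p.2 ∈ A.1 p.1 then (((2 : ℝ) ^ ((p.1 : ℕ) + 1) : ℝ) : 𝕜) * inner 𝕜 (w p.2) z else 0)) :
    WithLp 2 (V × EuclideanSpace 𝕜 (Fin k × G)))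
  map_add' x y := by
    apply (WithLp.equiv 2 _).injective
    refine Prod.ext rfl ?_
    apply (WithLp.equiv 2 _).injective
    funext p
    show (if p.2 ∈ A.1 p.1 then (((2 : ℝ) ^ ((p.1 : ℕ) + 1) : ℝ) : 𝕜) * inner 𝕜 (w p.2) (x + y) else 0) =
      (if p.2 ∈ A.1 p.1 then (((2 : ℝ) ^ ((p.1 : ℕ) + 1) : ℝ) : 𝕜) * inner 𝕜 (w p.2) x else 0) +
      (if p.2 ∈ A.1 p.1 then (((2 : ℝ) ^ ((p.1 : ℕ) + 1) : ℝ) : 𝕜) * inner 𝕜 (w p.2) y else 0)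
    split_ifs
    · rw [inner_add_right]; ring
    · simp
  map_smul' c x := by
    apply (WithLp.equiv 2 _).injective
    refine Prod.ext rfl ?_
    apply (WithLp.equiv 2 _).injective
    funext p
    show (if p.2 ∈ A.1 p.1 then (((2 : ℝ) ^ ((p.1 : ℕ) + 1) : ℝ) : 𝕜) * inner 𝕜 (w p.2) (c • x) else 0) =
      c • (if p.2 ∈ A.1 p.1 then (((2 : ℝ) ^ ((p.1 : ℕ) + 1) : ℝ) : 𝕜) * inner 𝕜 (w p.2) x else 0)
    split_ifs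
    · rw [inner_smul_right, smul_eq_mul]; ring
    · simp

lemma Phi_fst (w : G → V) {k ρ : ℕ} (A : Conf G k ρ) (z : V) :
    p1 (Phi (𝕜 := 𝕜) w A z) = z := rfl

lemma norm_Phi_sq (w : G → V) {k ρ : ℕ} (A : Conf G k ρ) (z : V) :
    ‖Phi (𝕜 := 𝕜) w A z‖ ^ 2 = Q (𝕜 := 𝕜) w A z := by
  have h0 := WithLp.prod_norm_sq_eq_of_L2 (α := V) (β := EuclideanSpace 𝕜 (Fin k × G))
    (Phi (𝕜 := 𝕜) w A z)
  refine h0.trans ?_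
  unfold Q
  refine congrArg₂ (· + ·) rfl ?_
  rw [EuclideanSpace.norm_sq_eq, Fintype.sum_prod_type]
  refine Finset.sum_congr rfl (fun l _ => ?_)
  rw [Finset.mul_sum, ← Finset.sum_subset (Finset.subset_univ (A.1 l))]
  · refine Finset.sum_congr rfl (fun g hg => ?_)
    show ‖(if g ∈ A.1 l then (((2 : ℝ) ^ ((l : ℕ) + 1) : ℝ) : 𝕜) * inner 𝕜 (w g) z else 0)‖ ^ 2 = _
    rw [if_pos hg, norm_mul, RCLike.norm_ofReal, abs_of_nonneg (by positivity), mul_pow]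
    congr 1
    rw [← pow_mul, mul_comm, pow_mul]
    norm_num
  · intro g _ hg
    show ‖(if g ∈ A.1 l then (((2 : ℝ) ^ ((l : ℕ) + 1) : ℝ) : 𝕜) * inner 𝕜 (w g) z else 0)‖ ^ 2 = _
    rw [if_neg hg]
    simp

/-- The block embedding. -/
noncomputable def JJ (w : G → V) (k ρ : ℕ) : V →ₗ[𝕜] (Conf G k ρ → HH 𝕜 V G k) :=
  LinearMap.pi (fun A => Phi w A)

lemma JJ_apply (w : G → V) (k ρ : ℕ) (z : V) (A : Conf G k ρ) :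
    JJ (𝕜 := 𝕜) w k ρ z A = Phi w A z := rfl

lemma norm_JJ_le (w : G → V) (k ρ : ℕ) (z : V) (C : ℝ) (hC : 0 ≤ C)
    (h : ∀ A : Conf G k ρ, Q (𝕜 := 𝕜) w A z ≤ C ^ 2) : ‖JJ (𝕜 := 𝕜) w k ρ z‖ ≤ C := by
  rw [pi_norm_le_iff_of_nonneg hC]
  intro A
  rw [JJ_apply]
  have h1 := h A
  rw [← norm_Phi_sq] at h1
  exact le_of_sq_le_sq h1 hC

lemma Q_le_norm_JJ (w : G → V) (k ρ : ℕ) (z : V) (A : Conf G k ρ) :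
    Q (𝕜 := 𝕜) w A z ≤ ‖JJ (𝕜 := 𝕜) w k ρ z‖ ^ 2 := by
  rw [← norm_Phi_sq]
  have h1 : ‖Phi (𝕜 := 𝕜) w A z‖ ≤ ‖JJ (𝕜 := 𝕜) w k ρ z‖ := norm_le_pi_norm (JJ (𝕜 := 𝕜) w k ρ z) A
  gcongr

end Phi

/-- The data of the construction. -/
structure Data where
  s : ℕ → ℕ
  r : ℕ → ℕ
  ρ : ℕ → ℕ
  μ : ℕ → ℝ
  γ : ℕ → ℝ
  ξ : ∀ k, Fin (r k) → Fin (s k) → ℝ
  η : ∀ k, Fin (r k) → Fin (s (k + 1)) → ℝ
  s_pos : ∀ k, 0 < s k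
  r_pos : ∀ k, 0 < r k
  hξξ : ∀ k i j, ∑ g, ξ k g i * ξ k g j = if i = j then (r k : ℝ) / s k else 0
  hηη : ∀ k i j, ∑ g, η k g i * η k g j = if i = j then (r k : ℝ) / s (k + 1) else 0
  hξη : ∀ k i j, ∑ g, ξ k g i * η k g j = 0
  nξ : ∀ k g, ∑ i, ξ k g i ^ 2 = 1
  nη : ∀ k g, ∑ i, η k g i ^ 2 = 1
  cξ : ∀ k g h, g ≠ h → |∑ i, ξ k g i * ξ k h i| ≤ μ k
  cη : ∀ k g h, g ≠ h → |∑ i, η k g i * η k h i| ≤ μ k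
  glue : ∀ k g h, |∑ i, η k g i * ξ (k + 1) h i| ≤ γ k
  ρ_pos : ∀ k, 1 ≤ ρ k
  μ_nonneg : ∀ k, 0 ≤ μ k
  hμ : ∀ k, ((ρ k : ℝ) ^ k + 1) * μ k ≤ 1
  own : ∀ k, (2 * μ k) ^ 2 * (8 ^ k * (ρ k : ℝ) ^ k) ≤ 1
  up : ∀ k, (γ k) ^ 2 * (8 ^ (k + 1) * (ρ (k + 1) : ℝ) ^ (k + 1)) ≤ 1
  down : ∀ k, (γ k) ^ 2 * (8 ^ k * (ρ k : ℝ) ^ k) ≤ 1
  hs : Filter.Tendsto (fun k => (2 : ℝ) ^ k / s k) Filter.atTop (𝓝 0)
  hN : ∀ k n : ℕ, n ≤ 2 ^ (4 ^ k) → 6 * (4 : ℝ) ^ k * n ≤ ρ k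

namespace Data

variable (𝕜 : Type) [RCLike 𝕜] (D : Data)

abbrev F (k : ℕ) : Type := EuclideanSpace 𝕜 (Fin (D.s k))
abbrev V (k : ℕ) : Type := WithLp 2 (D.F 𝕜 k × D.F 𝕜 (k + 1))

/-- The vectors as vectors over the scalar field. -/
noncomputable def xi (k : ℕ) (g : Fin (D.r k)) : D.F 𝕜 k :=
  WithLp.toLp 2 (fun i => ((D.ξ k g i : ℝ) : 𝕜))
noncomputable def et (k : ℕ) (g : Fin (D.r k)) : D.F 𝕜 (k + 1) :=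
  WithLp.toLp 2 (fun i => ((D.η k g i : ℝ) : 𝕜))
noncomputable def w (k : ℕ) (g : Fin (D.r k)) : D.V 𝕜 k :=
  WithLp.toLp 2 (D.xi 𝕜 k g, D.et 𝕜 k g)

lemma inner_cast {n : ℕ} (a : Fin n → ℝ) (x : EuclideanSpace 𝕜 (Fin n)) :
    inner 𝕜 (WithLp.toLp 2 (fun i => ((a i : ℝ) : 𝕜)) : EuclideanSpace 𝕜 (Fin n)) x =
      ∑ i, ((a i : ℝ) : 𝕜) * x i := by
  rw [PiLp.inner_apply]
  refine Finset.sum_congr rfl (fun i _ => ?_)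
  rw [RCLike.inner_apply, RCLike.conj_ofReal, mul_comm]

lemma inner_cast_cast {n : ℕ} (a b : Fin n → ℝ) :
    inner 𝕜 (WithLp.toLp 2 (fun i => ((a i : ℝ) : 𝕜)) : EuclideanSpace 𝕜 (Fin n))
      (WithLp.toLp 2 (fun i => ((b i : ℝ) : 𝕜)) : EuclideanSpace 𝕜 (Fin n)) =
      ((∑ i, a i * b i : ℝ) : 𝕜) := by
  rw [inner_cast, RCLike.ofReal_sum]
  exact Finset.sum_congr rfl (fun i _ => by rw [RCLike.ofReal_mul])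

lemma norm_cast_sq {n : ℕ} (a : Fin n → ℝ) :
    ‖(WithLp.toLp 2 (fun i => ((a i : ℝ) : 𝕜)) : EuclideanSpace 𝕜 (Fin n))‖ ^ 2 = ∑ i, a i ^ 2 := by
  rw [EuclideanSpace.norm_sq_eq]
  refine Finset.sum_congr rfl (fun i _ => ?_)
  show ‖((a i : ℝ) : 𝕜)‖ ^ 2 = _
  rw [RCLike.norm_ofReal, sq_abs]

lemma norm_xi (k : ℕ) (g : Fin (D.r k)) : ‖D.xi 𝕜 k g‖ ^ 2 = 1 := by
  unfold xi; rw [norm_cast_sq, D.nξ]

lemma norm_et (k : ℕ) (g : Fin (D.r k)) : ‖D.et 𝕜 k g‖ ^ 2 = 1 := by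
  unfold et; rw [norm_cast_sq, D.nη]

lemma norm_w (k : ℕ) (g : Fin (D.r k)) : ‖D.w 𝕜 k g‖ ^ 2 = 2 := by
  rw [WithLp.prod_norm_sq_eq_of_L2]
  show ‖D.xi 𝕜 k g‖ ^ 2 + ‖D.et 𝕜 k g‖ ^ 2 = 2
  rw [norm_xi, norm_et]; norm_num

lemma inner_w (k : ℕ) (g : Fin (D.r k)) (x : D.F 𝕜 k) (y : D.F 𝕜 (k + 1)) :
    inner 𝕜 (D.w 𝕜 k g) (WithLp.toLp 2 (x, y) : D.V 𝕜 k) =
      inner 𝕜 (D.xi 𝕜 k g) x + inner 𝕜 (D.et 𝕜 k g) y := by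
  rw [WithLp.prod_inner_apply]
  rfl

lemma inner_xi_xi (k : ℕ) (g h : Fin (D.r k)) :
    inner 𝕜 (D.xi 𝕜 k g) (D.xi 𝕜 k h) = ((∑ i, D.ξ k g i * D.ξ k h i : ℝ) : 𝕜) :=
  inner_cast_cast 𝕜 _ _

lemma inner_et_et (k : ℕ) (g h : Fin (D.r k)) :
    inner 𝕜 (D.et 𝕜 k g) (D.et 𝕜 k h) = ((∑ i, D.η k g i * D.η k h i : ℝ) : 𝕜) :=
  inner_cast_cast 𝕜 _ _

lemma inner_et_xi (k : ℕ) (g : Fin (D.r k)) (h : Fin (D.r (k + 1))) :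
    inner 𝕜 (D.et 𝕜 k g) (D.xi 𝕜 (k + 1) h) =
      ((∑ i, D.η k g i * D.ξ (k + 1) h i : ℝ) : 𝕜) :=
  inner_cast_cast 𝕜 _ _

lemma inner_w_w (k : ℕ) (g h : Fin (D.r k)) (hgh : g ≠ h) :
    ‖inner 𝕜 (D.w 𝕜 k g) (D.w 𝕜 k h)‖ ≤ 2 * D.μ k := by
  have h1 : inner 𝕜 (D.w 𝕜 k g) (D.w 𝕜 k h) =
      inner 𝕜 (D.xi 𝕜 k g) (D.xi 𝕜 k h) + inner 𝕜 (D.et 𝕜 k g) (D.et 𝕜 k h) :=
    D.inner_w 𝕜 k g _ _
  rw [h1, inner_xi_xi, inner_et_et]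
  refine (norm_add_le _ _).trans ?_
  rw [RCLike.norm_ofReal, RCLike.norm_ofReal]
  linarith [D.cξ k g h hgh, D.cη k g h hgh]

/-- the block map -/
noncomputable def J (k : ℕ) : D.V 𝕜 k →ₗ[𝕜]
    (Conf (Fin (D.r k)) k (D.ρ k) → HH 𝕜 (D.V 𝕜 k) (Fin (D.r k)) k) :=
  JJ (D.w 𝕜 k) k (D.ρ k)

abbrev B (k : ℕ) : Type := Conf (Fin (D.r k)) k (D.ρ k) → HH 𝕜 (D.V 𝕜 k) (Fin (D.r k)) k

abbrev L : Type := lp (fun k => D.B 𝕜 k) 2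

/-- coordinates -/
noncomputable def coL (k : ℕ) : D.L 𝕜 →ₗ[𝕜] D.F 𝕜 k where
  toFun x := (p1 (x k default)).fst
  map_add' _ _ := rfl
  map_smul' _ _ := rfl

noncomputable def co2L (k : ℕ) : D.L 𝕜 →ₗ[𝕜] D.V 𝕜 k where
  toFun x := WithLp.toLp 2 (D.coL 𝕜 k x, D.coL 𝕜 (k + 1) x)
  map_add' _ _ := rfl
  map_smul' _ _ := rfl

lemma Q_le (k : ℕ) (A : Conf (Fin (D.r k)) k (D.ρ k)) (z : D.V 𝕜 k) :
    Q (𝕜 := 𝕜) (D.w 𝕜 k) A z ≤ 7 * 4 ^ k * ‖z‖ ^ 2 :=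
  Q_crude (D.w 𝕜 k) (D.μ k) (D.μ_nonneg k) (fun g => (D.norm_w 𝕜 k g).le)
    (fun g h hgh => D.inner_w_w 𝕜 k g h hgh) k (D.ρ k) (D.ρ_pos k) (D.hμ k) A z

lemma norm_J_le (k : ℕ) (z : D.V 𝕜 k) : ‖D.J 𝕜 k z‖ ≤ 3 * 2 ^ k * ‖z‖ := by
  refine norm_JJ_le (D.w 𝕜 k) k (D.ρ k) z _ (by positivity) (fun A => ?_)
  refine (D.Q_le 𝕜 k A z).trans ?_
  have h1 : (3 * 2 ^ k * ‖z‖) ^ 2 = 9 * ((2 : ℝ) ^ 2) ^ k * ‖z‖ ^ 2 := by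
    rw [← pow_mul, mul_comm 2 k, pow_mul]; ring
  rw [h1]
  norm_num
  have : 0 ≤ (4 : ℝ) ^ k * ‖z‖ ^ 2 := by positivity
  nlinarith

lemma norm_coL_le (k : ℕ) (x : D.L 𝕜) : ‖D.coL 𝕜 k x‖ ≤ ‖x‖ := by
  have h1 : ‖x k‖ ≤ ‖x‖ := lp.norm_apply_le_norm (by norm_num) x k
  have h2 : ‖x k default‖ ≤ ‖x k‖ := norm_le_pi_norm (x k) default
  have h3 : ‖p1 (x k default)‖ ≤ ‖x k default‖ := norm_p1_le _
  have h4 : ‖(p1 (x k default)).fst‖ ≤ ‖p1 (x k default)‖ := by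
    refine le_of_sq_le_sq ?_ (norm_nonneg _)
    rw [WithLp.prod_norm_sq_eq_of_L2 (p1 (x k default))]
    linarith [sq_nonneg ‖(p1 (x k default)).snd‖]
  exact h4.trans (h3.trans (h2.trans h1))

lemma continuous_coL (k : ℕ) : Continuous (D.coL 𝕜 k) :=
  ((D.coL 𝕜 k).mkContinuous 1 (fun x => by rw [one_mul]; exact D.norm_coL_le 𝕜 k x)).continuous

lemma continuous_co2L (k : ℕ) : Continuous (D.co2L 𝕜 k) := by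
  show Continuous (fun x => WithLp.toLp 2 (D.coL 𝕜 k x, D.coL 𝕜 (k + 1) x))
  exact (WithLp.prod_continuous_toLp 2 _ _).comp
    ((D.continuous_coL 𝕜 k).prodMk (D.continuous_coL 𝕜 (k + 1)))

/-- The space. -/
def E : Submodule 𝕜 (D.L 𝕜) where
  carrier := {x | ∀ k, x k = D.J 𝕜 k (D.co2L 𝕜 k x)}
  add_mem' {x y} hx hy k := by
    rw [map_add, map_add, ← hx k, ← hy k]; rfl
  zero_mem' k := by rw [map_zero, map_zero]; rfl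
  smul_mem' c x hx k := by
    rw [map_smul, map_smul, ← hx k]; rfl

lemma continuous_eval (k : ℕ) : Continuous (fun x : D.L 𝕜 => x k) := by
  refine (LipschitzWith.continuous (K := 1) ?_)
  refine LipschitzWith.of_dist_le_mul (fun x y => ?_)
  rw [NNReal.coe_one, one_mul, dist_eq_norm, dist_eq_norm]
  exact lp.norm_apply_le_norm (by norm_num) (x - y) k

lemma isClosed_E : IsClosed (D.E 𝕜 : Set (D.L 𝕜)) := by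
  have : (D.E 𝕜 : Set (D.L 𝕜)) = ⋂ k, {x | x k = D.J 𝕜 k (D.co2L 𝕜 k x)} := by
    ext x
    simp only [Set.mem_iInter]
    rfl
  rw [this]
  refine isClosed_iInter (fun k => isClosed_eq (D.continuous_eval 𝕜 k) ?_)
  have h1 : Continuous (D.J 𝕜 k) :=
    AddMonoidHomClass.continuous_of_bound (D.J 𝕜 k) (3 * 2 ^ k) (fun z => D.norm_J_le 𝕜 k z)
  exact h1.comp (D.continuous_co2L 𝕜 k)

/-- The Banach space. -/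
def X : Type := ↥(D.E 𝕜)

noncomputable instance : NormedAddCommGroup (D.X 𝕜) :=
  inferInstanceAs (NormedAddCommGroup (D.E 𝕜))

noncomputable instance : NormedSpace 𝕜 (D.X 𝕜) :=
  inferInstanceAs (NormedSpace 𝕜 (D.E 𝕜))

instance : CompleteSpace (D.X 𝕜) := (D.isClosed_E 𝕜).completeSpace_coe

noncomputable def toL : D.X 𝕜 →ₗ[𝕜] D.L 𝕜 := (D.E 𝕜).subtype

lemma norm_toL (x : D.X 𝕜) : ‖D.toL 𝕜 x‖ = ‖x‖ := rfl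

noncomputable def co (k : ℕ) : D.X 𝕜 →ₗ[𝕜] D.F 𝕜 k := (D.coL 𝕜 k).comp (D.toL 𝕜)

noncomputable def co2 (k : ℕ) : D.X 𝕜 →ₗ[𝕜] D.V 𝕜 k := (D.co2L 𝕜 k).comp (D.toL 𝕜)

lemma co2_eq (k : ℕ) (x : D.X 𝕜) :
    D.co2 𝕜 k x = WithLp.toLp 2 (D.co 𝕜 k x, D.co 𝕜 (k + 1) x) := rfl

lemma norm_co_le (k : ℕ) (x : D.X 𝕜) : ‖D.co 𝕜 k x‖ ≤ ‖x‖ := D.norm_coL_le 𝕜 k (D.toL 𝕜 x)

lemma coe_eq (x : D.X 𝕜) (k : ℕ) : (D.toL 𝕜 x) k = D.J 𝕜 k (D.co2 𝕜 k x) := x.2 k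

end Data

end Pool.Agent.Helper362.Hap
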