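import Pool.Agent.Helper362.HapB
set_option autoImplicit false
open Module
open scoped ENNReal Topology

namespace Pool.Agent.Helper362.Hap

lemma exists_equiv {𝕜 : Type} [RCLike 𝕜] {W : Type} [NormedAddCommGroup W] [NormedSpace 𝕜 W]
    [FiniteDimensional 𝕜 W] {H : Type} [NormedAddCommGroup H] [InnerProductSpace 𝕜 H]
    (Ψ : W →ₗ[𝕜] H) (C : ℝ) (hC : 0 ≤ C) (h1 : ∀ x, ‖Ψ x‖ ≤ ‖x‖) (h2 : ∀ x, ‖x‖ ≤ C * ‖Ψ x‖)
    (n : ℕ) (hn : finrank 𝕜 W = n) :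
    ∃ T : W ≃L[𝕜] EuclideanSpace 𝕜 (Fin n), ‖(T : W →L[𝕜] EuclideanSpace 𝕜 (Fin n))‖ ≤ 1 ∧
      ‖(T.symm : EuclideanSpace 𝕜 (Fin n) →L[𝕜] W)‖ ≤ C := by
  have hinj : Function.Injective Ψ := by
    rw [injective_iff_map_eq_zero]
    intro x hx
    have := h2 x
    rw [hx, norm_zero, mul_zero] at this
    exact norm_le_zero_iff.mp this
  set R := LinearMap.range Ψ with hR
  have hfin : finrank 𝕜 R = n := by
    rw [LinearMap.finrank_range_of_inj hinj, hn]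
  let e1 : W ≃ₗ[𝕜] R := LinearEquiv.ofInjective Ψ hinj
  let b : OrthonormalBasis (Fin n) 𝕜 R := (stdOrthonormalBasis 𝕜 R).reindex (finCongr hfin)
  let e2 : R ≃ₗᵢ[𝕜] EuclideanSpace 𝕜 (Fin n) := b.repr
  let e : W ≃ₗ[𝕜] EuclideanSpace 𝕜 (Fin n) := e1.trans e2.toLinearEquiv
  have he : ∀ x, ‖e x‖ = ‖Ψ x‖ := by
    intro x
    show ‖e2 (e1 x)‖ = ‖Ψ x‖
    rw [e2.norm_map]
    rfl
  refine ⟨e.toContinuousLinearEquiv, ?_, ?_⟩
  · refine ContinuousLinearMap.opNorm_le_bound _ zero_le_one (fun x => ?_)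
    show ‖e x‖ ≤ 1 * ‖x‖
    rw [he, one_mul]
    exact h1 x
  · refine ContinuousLinearMap.opNorm_le_bound _ hC (fun y => ?_)
    show ‖e.symm y‖ ≤ C * ‖y‖
    have h3 := h2 (e.symm y)
    rw [← he, e.apply_symm_apply] at h3
    exact h3

namespace Data

variable (𝕜 : Type) [RCLike 𝕜] (D : Data)

lemma memlp_fin (x : ∀ k, D.F 𝕜 k) (N : ℕ) (hx : ∀ k, N ≤ k → x k = 0) :
    Memℓp (fun k => D.J 𝕜 k (WithLp.toLp 2 (x k, x (k + 1)))) 2 := by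
  have hfin : Set.Finite {k | D.J 𝕜 k (WithLp.toLp 2 (x k, x (k + 1))) ≠ 0} := by
    refine (Set.finite_lt_nat N).subset (fun k hk => ?_)
    by_contra hc
    have hc' : N ≤ k := not_lt.mp hc
    apply hk
    rw [hx k hc', hx (k + 1) (by omega)]
    exact map_zero (D.J 𝕜 k)
  exact (memℓp_zero hfin).of_exponent_ge (by norm_num)

/-- A finitely supported element. -/
noncomputable def mkE (x : ∀ k, D.F 𝕜 k) (N : ℕ) (hx : ∀ k, N ≤ k → x k = 0) : D.X 𝕜 :=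
  ⟨⟨fun k => D.J 𝕜 k (WithLp.toLp 2 (x k, x (k + 1))), D.memlp_fin 𝕜 x N hx⟩, fun _ => rfl⟩

lemma co_mkE (x : ∀ k, D.F 𝕜 k) (N : ℕ) (hx : ∀ k, N ≤ k → x k = 0) (k : ℕ) :
    D.co 𝕜 k (D.mkE 𝕜 x N hx) = x k := rfl

lemma E_ext (x y : D.X 𝕜) (h : ∀ k, D.co 𝕜 k x = D.co 𝕜 k y) : x = y := by
  apply Subtype.ext
  show D.toL 𝕜 x = D.toL 𝕜 y
  apply lp.ext
  funext k
  rw [coe_eq, coe_eq, co2_eq, co2_eq, h k, h (k + 1)]

lemma single_zero_of_le (k : ℕ) (v : D.F 𝕜 k) (j : ℕ) (hj : k + 1 ≤ j) :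
    (Pi.single k v : ∀ k, D.F 𝕜 k) j = 0 :=
  Pi.single_eq_of_ne (by omega) v

/-- The inclusion of one level. -/
noncomputable def io (k : ℕ) : D.F 𝕜 k →ₗ[𝕜] D.X 𝕜 where
  toFun v := D.mkE 𝕜 (Pi.single k v) (k + 1) (D.single_zero_of_le 𝕜 k v)
  map_add' v v' := by
    apply D.E_ext 𝕜
    intro j
    rw [map_add, co_mkE, co_mkE, co_mkE, Pi.single_add, Pi.add_apply]
  map_smul' c v := by
    apply D.E_ext 𝕜
    intro j
    rw [RingHom.id_apply, map_smul, co_mkE, co_mkE, Pi.single_smul, Pi.smul_apply]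

lemma co_io (k j : ℕ) (v : D.F 𝕜 k) :
    D.co 𝕜 j (D.io 𝕜 k v) = (Pi.single k v : ∀ k, D.F 𝕜 k) j := rfl

lemma co_io_same (k : ℕ) (v : D.F 𝕜 k) : D.co 𝕜 k (D.io 𝕜 k v) = v := by
  rw [co_io, Pi.single_eq_same]

lemma co_io_ne (k j : ℕ) (h : j ≠ k) (v : D.F 𝕜 k) : D.co 𝕜 j (D.io 𝕜 k v) = 0 := by
  rw [co_io, Pi.single_eq_of_ne h]

lemma norm_le_cardL (x : D.L 𝕜) (T : Finset ℕ) (C : ℝ) (hC : 0 ≤ C) (h : ∀ j ∈ T, ‖x j‖ ≤ C)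
    (h0 : ∀ j, j ∉ T → x j = 0) : ‖x‖ ≤ T.card * C := by
  have h2 : (0 : ℝ) < (2 : ℝ≥0∞).toReal := by norm_num
  refine lp.norm_le_of_forall_sum_le h2 (by positivity) (fun s => ?_)
  have e2 : (2 : ℝ≥0∞).toReal = (2 : ℕ) := by norm_num
  rw [e2, Real.rpow_natCast]
  simp only [Real.rpow_natCast]
  calc ∑ i ∈ s, ‖x i‖ ^ 2 ≤ ∑ i ∈ T, ‖x i‖ ^ 2 := by
        rw [← Finset.sum_filter_add_sum_filter_not s (fun i => i ∈ T)]
        have h3 : ∑ i ∈ s.filter (fun i => ¬ i ∈ T), ‖x i‖ ^ 2 = 0 := by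
          refine Finset.sum_eq_zero (fun i hi => ?_)
          rw [h0 i (Finset.mem_filter.mp hi).2, norm_zero]
          norm_num
        rw [h3, add_zero]
        refine Finset.sum_le_sum_of_subset_of_nonneg (fun i hi => (Finset.mem_filter.mp hi).2)
          (fun i _ _ => by positivity)
    _ ≤ ∑ i ∈ T, C ^ 2 := Finset.sum_le_sum (fun i hi => by
        have := h i hi
        gcongr)
    _ = T.card * C ^ 2 := by rw [Finset.sum_const, nsmul_eq_mul]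
    _ ≤ (T.card * C) ^ 2 := by
        have h4 : (T.card : ℝ) ≤ (T.card : ℝ) ^ 2 := by
          have : (T.card) ≤ T.card ^ 2 := Nat.le_self_pow (by norm_num) _
          exact_mod_cast this
        rw [mul_pow]
        exact mul_le_mul_of_nonneg_right h4 (by positivity)

lemma norm_le_card (x : D.X 𝕜) (T : Finset ℕ) (C : ℝ) (hC : 0 ≤ C)
    (h : ∀ j ∈ T, ‖D.J 𝕜 j (D.co2 𝕜 j x)‖ ≤ C) (h0 : ∀ j, j ∉ T → D.J 𝕜 j (D.co2 𝕜 j x) = 0) :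
    ‖x‖ ≤ T.card * C := by
  refine D.norm_le_cardL 𝕜 (D.toL 𝕜 x) T C hC (fun j hj => ?_) (fun j hj => ?_)
  · rw [coe_eq]; exact h j hj
  · rw [coe_eq]; exact h0 j hj

lemma norm_J_flat (k : ℕ) (z : D.V 𝕜 k) (δ : ℝ) (hδ : ∀ g, ‖inner 𝕜 (D.w 𝕜 k g) z‖ ≤ δ)
    (h8 : δ ^ 2 * (8 ^ k * (D.ρ k : ℝ) ^ k) ≤ 1) (hz : ‖z‖ ^ 2 ≤ 2) : ‖D.J 𝕜 k z‖ ≤ 2 := by
  refine norm_JJ_le (D.w 𝕜 k) k (D.ρ k) z 2 (by norm_num) (fun A => ?_)
  have := Q_flat (𝕜 := 𝕜) (D.w 𝕜 k) k (D.ρ k) (D.ρ_pos k) A z δ hδ h8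
  linarith

/-- The test vectors. -/
noncomputable def bv (k : ℕ) (g : Fin (D.r k)) : D.X 𝕜 :=
  D.io 𝕜 k (D.xi 𝕜 k g) - D.io 𝕜 (k + 1) (D.et 𝕜 k g)

lemma co_bv (k : ℕ) (g : Fin (D.r k)) (j : ℕ) : D.co 𝕜 j (D.bv 𝕜 k g) =
    D.co 𝕜 j (D.io 𝕜 k (D.xi 𝕜 k g)) - D.co 𝕜 j (D.io 𝕜 (k + 1) (D.et 𝕜 k g)) := by
  unfold bv
  rw [map_sub]

lemma norm_V_sq (k : ℕ) (x : D.F 𝕜 k) (y : D.F 𝕜 (k + 1)) :
    ‖(WithLp.toLp 2 (x, y) : D.V 𝕜 k)‖ ^ 2 = ‖x‖ ^ 2 + ‖y‖ ^ 2 :=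
  WithLp.prod_norm_sq_eq_of_L2 _

lemma norm_bv (k : ℕ) (g : Fin (D.r k)) : ‖D.bv 𝕜 k g‖ ≤ 6 := by
  have h1 : ‖D.bv 𝕜 k g‖ ≤ (({k - 1, k, k + 1} : Finset ℕ).card : ℝ) * 2 := by
    refine D.norm_le_card 𝕜 (D.bv 𝕜 k g) {k - 1, k, k + 1} 2 (by norm_num) ?_ ?_
    · intro j hj
      by_cases h1 : j = k
      · subst h1
        have hz : D.co2 𝕜 j (D.bv 𝕜 j g) = WithLp.toLp 2 (D.xi 𝕜 j g, -D.et 𝕜 j g) := by
          show WithLp.toLp 2 (D.co 𝕜 j (D.bv 𝕜 j g), D.co 𝕜 (j + 1) (D.bv 𝕜 j g)) = _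
          rw [co_bv, co_bv, co_io_same, co_io_same, D.co_io_ne 𝕜 (j + 1) j (by omega),
            D.co_io_ne 𝕜 j (j + 1) (by omega), sub_zero, zero_sub]
        rw [hz]
        refine D.norm_J_flat 𝕜 j _ (2 * D.μ j) (fun h => ?_) (D.own j) ?_
        · rw [inner_w, inner_neg_right, inner_xi_xi, inner_et_et]
          by_cases hgh : h = g
          · subst hgh
            have e1 : ∑ i, D.ξ j h i * D.ξ j h i = 1 := by
              rw [← D.nξ j h]; exact Finset.sum_congr rfl (fun i _ => by ring)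
            have e2 : ∑ i, D.η j h i * D.η j h i = 1 := by
              rw [← D.nη j h]; exact Finset.sum_congr rfl (fun i _ => by ring)
            rw [e1, e2, add_neg_cancel, norm_zero]
            linarith [D.μ_nonneg j]
          · refine (norm_add_le _ _).trans ?_
            rw [norm_neg, RCLike.norm_ofReal, RCLike.norm_ofReal]
            linarith [D.cξ j h g hgh, D.cη j h g hgh]
        · rw [norm_V_sq, norm_neg, norm_xi, norm_et]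
          norm_num
      · by_cases h2 : j = k + 1
        · subst h2
          have hz : D.co2 𝕜 (k + 1) (D.bv 𝕜 k g) = WithLp.toLp 2 (-D.et 𝕜 k g, 0) := by
            show WithLp.toLp 2 (D.co 𝕜 (k + 1) (D.bv 𝕜 k g), D.co 𝕜 (k + 1 + 1) (D.bv 𝕜 k g)) = _
            rw [co_bv, co_bv, co_io_same, D.co_io_ne 𝕜 k (k + 1) (by omega),
              D.co_io_ne 𝕜 k (k + 1 + 1) (by omega), D.co_io_ne 𝕜 (k + 1) (k + 1 + 1) (by omega),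
              sub_zero, zero_sub]
          rw [hz]
          refine D.norm_J_flat 𝕜 (k + 1) _ (D.γ k) (fun h => ?_) (D.up k) ?_
          · rw [inner_w, inner_neg_right, inner_zero_right, add_zero, norm_neg, ← inner_conj_symm,
              RCLike.norm_conj, inner_et_xi, RCLike.norm_ofReal]
            exact D.glue k g h
          · rw [norm_V_sq, norm_neg, norm_et, norm_zero]
            norm_num
        · have h3 : j = k - 1 ∧ 1 ≤ k := by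
            simp only [Finset.mem_insert, Finset.mem_singleton] at hj
            omega
          obtain ⟨m, rfl⟩ : ∃ m, k = m + 1 := ⟨k - 1, by omega⟩
          obtain rfl : j = m := by omega
          have hz : D.co2 𝕜 j (D.bv 𝕜 (j + 1) g) = WithLp.toLp 2 (0, D.xi 𝕜 (j + 1) g) := by
            show WithLp.toLp 2 (D.co 𝕜 j (D.bv 𝕜 (j + 1) g), D.co 𝕜 (j + 1) (D.bv 𝕜 (j + 1) g)) = _
            rw [co_bv, co_bv, co_io_same, D.co_io_ne 𝕜 (j + 1) j (by omega),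
              D.co_io_ne 𝕜 (j + 1 + 1) j (by omega), D.co_io_ne 𝕜 (j + 1 + 1) (j + 1) (by omega),
              sub_zero, sub_zero]
          rw [hz]
          refine D.norm_J_flat 𝕜 j _ (D.γ j) (fun h => ?_) (D.down j) ?_
          · rw [inner_w, inner_zero_right, zero_add, inner_et_xi, RCLike.norm_ofReal]
            exact D.glue j h g
          · rw [norm_V_sq, norm_xi, norm_zero]
            norm_num
    · intro j hj
      simp only [Finset.mem_insert, Finset.mem_singleton, not_or] at hj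
      have hz : D.co2 𝕜 j (D.bv 𝕜 k g) = 0 := by
        show WithLp.toLp 2 (D.co 𝕜 j (D.bv 𝕜 k g), D.co 𝕜 (j + 1) (D.bv 𝕜 k g)) = _
        rw [co_bv, co_bv, D.co_io_ne 𝕜 k j (by omega), D.co_io_ne 𝕜 (k + 1) j (by omega),
          D.co_io_ne 𝕜 k (j + 1) (by omega), D.co_io_ne 𝕜 (k + 1) (j + 1) (by omega), sub_zero,
          sub_zero]
        rfl
      rw [hz, map_zero]
  have h2 : (({k - 1, k, k + 1} : Finset ℕ).card : ℝ) ≤ 3 := by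
    exact_mod_cast Finset.card_le_three
  linarith

lemma norm_io (k : ℕ) (v : D.F 𝕜 k) : ‖D.io 𝕜 k v‖ ≤ 6 * 2 ^ k * ‖v‖ := by
  have h1 : ‖D.io 𝕜 k v‖ ≤ (({k - 1, k} : Finset ℕ).card : ℝ) * (3 * 2 ^ k * ‖v‖) := by
    refine D.norm_le_card 𝕜 (D.io 𝕜 k v) {k - 1, k} _ (by positivity) ?_ ?_
    · intro j hj
      refine (D.norm_J_le 𝕜 j _).trans ?_
      have hj' : j ≤ k := by
        simp only [Finset.mem_insert, Finset.mem_singleton] at hj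
        omega
      have h3 : ‖D.co2 𝕜 j (D.io 𝕜 k v)‖ ≤ ‖v‖ := by
        refine le_of_sq_le_sq ?_ (norm_nonneg _)
        show ‖(WithLp.toLp 2 (D.co 𝕜 j (D.io 𝕜 k v), D.co 𝕜 (j + 1) (D.io 𝕜 k v)) : D.V 𝕜 j)‖ ^ 2 ≤ _
        rw [norm_V_sq]
        by_cases h1 : j = k
        · subst h1
          rw [co_io_same, D.co_io_ne 𝕜 j (j + 1) (by omega), norm_zero]
          norm_num
        · rw [D.co_io_ne 𝕜 k j h1, norm_zero]
          by_cases h2 : j + 1 = k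
          · subst h2
            rw [co_io_same]
            norm_num
          · rw [D.co_io_ne 𝕜 k (j + 1) h2, norm_zero]
            norm_num
      have h4 : (2 : ℝ) ^ j ≤ 2 ^ k := pow_le_pow_right₀ (by norm_num) hj'
      gcongr
    · intro j hj
      simp only [Finset.mem_insert, Finset.mem_singleton, not_or] at hj
      have hz : D.co2 𝕜 j (D.io 𝕜 k v) = 0 := by
        show WithLp.toLp 2 (D.co 𝕜 j (D.io 𝕜 k v), D.co 𝕜 (j + 1) (D.io 𝕜 k v)) = _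
        rw [D.co_io_ne 𝕜 k j (by omega), D.co_io_ne 𝕜 k (j + 1) (by omega)]
        rfl
      rw [hz, map_zero]
  have h2 : (({k - 1, k} : Finset ℕ).card : ℝ) ≤ 2 := by
    exact_mod_cast Finset.card_le_two
  calc _ ≤ _ := h1
    _ ≤ 2 * (3 * 2 ^ k * ‖v‖) := mul_le_mul_of_nonneg_right h2 (by positivity)
    _ = _ := by ring

/-- The functionals are small. -/
lemma inner_bound (k : ℕ) (g : Fin (D.r k)) (x : D.X 𝕜) :
    4 ^ k * ‖inner 𝕜 (D.w 𝕜 k g) (D.co2 𝕜 k x)‖ ^ 2 ≤ 2 * ‖x‖ ^ 2 := by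
  have h0 : ‖(D.toL 𝕜 x) k‖ ≤ ‖x‖ := lp.norm_apply_le_norm (by norm_num) (D.toL 𝕜 x) k
  rw [coe_eq] at h0
  have h1 : ‖D.J 𝕜 k (D.co2 𝕜 k x)‖ ^ 2 ≤ ‖x‖ ^ 2 := by gcongr
  cases k with
  | zero =>
    have h2 := norm_inner_le_norm (𝕜 := 𝕜) (D.w 𝕜 0 g) (D.co2 𝕜 0 x)
    have h3 : ‖inner 𝕜 (D.w 𝕜 0 g) (D.co2 𝕜 0 x)‖ ^ 2 ≤ (‖D.w 𝕜 0 g‖ * ‖D.co2 𝕜 0 x‖) ^ 2 := by
      gcongr
    rw [mul_pow, norm_w] at h3
    have h4 := norm_sq_le_Q (𝕜 := 𝕜) (D.w 𝕜 0) (default : Conf (Fin (D.r 0)) 0 (D.ρ 0))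
      (D.co2 𝕜 0 x)
    have h5 := Q_le_norm_JJ (𝕜 := 𝕜) (D.w 𝕜 0) 0 (D.ρ 0) (D.co2 𝕜 0 x) default
    have h6 : ‖JJ (𝕜 := 𝕜) (D.w 𝕜 0) 0 (D.ρ 0) (D.co2 𝕜 0 x)‖ ^ 2 ≤ ‖x‖ ^ 2 := h1
    rw [pow_zero, one_mul]
    linarith
  | succ k =>
    obtain ⟨A, hA⟩ := Q_single (𝕜 := 𝕜) (D.w 𝕜 (k + 1)) k (D.ρ (k + 1)) g
    have h5 := Q_le_norm_JJ (𝕜 := 𝕜) (D.w 𝕜 (k + 1)) (k + 1) (D.ρ (k + 1)) (D.co2 𝕜 (k + 1) x) A
    have h6 : ‖JJ (𝕜 := 𝕜) (D.w 𝕜 (k + 1)) (k + 1) (D.ρ (k + 1)) (D.co2 𝕜 (k + 1) x)‖ ^ 2 ≤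
      ‖x‖ ^ 2 := h1
    have h7 := hA (D.co2 𝕜 (k + 1) x)
    have h8 : 0 ≤ ‖x‖ ^ 2 := by positivity
    linarith

lemma inner_bound' (k : ℕ) (g : Fin (D.r k)) (x : D.X 𝕜) :
    ‖inner 𝕜 (D.w 𝕜 k g) (D.co2 𝕜 k x)‖ ≤ 2 * (1 / 2) ^ k * ‖x‖ := by
  have h1 := D.inner_bound 𝕜 k g x
  refine le_of_sq_le_sq ?_ (by positivity)
  have h2 : (2 * (1 / 2 : ℝ) ^ k * ‖x‖) ^ 2 = 4 * ((1 / 2 : ℝ) ^ 2) ^ k * ‖x‖ ^ 2 := by
    rw [← pow_mul, mul_comm 2 k, pow_mul]; ring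
  have h3 : ((1 / 2 : ℝ) ^ 2) ^ k * 4 ^ k = 1 := by rw [← mul_pow]; norm_num
  rw [h2]
  have h4 : 0 < (4 : ℝ) ^ k := by positivity
  refine le_of_mul_le_mul_left ?_ h4
  calc _ ≤ 2 * ‖x‖ ^ 2 := h1
    _ ≤ 4 * ‖x‖ ^ 2 := by nlinarith [sq_nonneg ‖x‖]
    _ = 4 * (((1 / 2 : ℝ) ^ 2) ^ k * 4 ^ k) * ‖x‖ ^ 2 := by rw [h3]; ring
    _ = _ := by ring

end Data

end Pool.Agent.Helper362.Hap
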