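import Pool.Agent.Helper362.HapC
set_option autoImplicit false
open Module
open scoped ENNReal Topology

namespace Pool.Agent.Helper362.Hap

namespace Data

variable (𝕜 : Type) [RCLike 𝕜] (D : Data)

/-- Selecting one configuration in every block. -/
noncomputable def Psi (σ : ∀ j, Conf (Fin (D.r j)) j (D.ρ j)) :
    D.L 𝕜 →ₗ[𝕜] lp (fun j => HH 𝕜 (D.V 𝕜 j) (Fin (D.r j)) j) 2 where
  toFun x := ⟨fun j => x j (σ j), (lp.memℓp x).mono' (fun j => norm_le_pi_norm (x j) (σ j))⟩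
  map_add' _ _ := rfl
  map_smul' _ _ := rfl

lemma norm_Psi_le (σ : ∀ j, Conf (Fin (D.r j)) j (D.ρ j)) (x : D.L 𝕜) : ‖D.Psi 𝕜 σ x‖ ≤ ‖x‖ :=
  lp.norm_mono (by norm_num) (fun j => norm_le_pi_norm (x j) (σ j))

lemma le_norm_Psi (σ : ∀ j, Conf (Fin (D.r j)) j (D.ρ j)) (x : D.L 𝕜) (C : ℝ) (hC : 0 ≤ C)
    (h : ∀ j, ‖x j‖ ≤ C * ‖x j (σ j)‖) : ‖x‖ ≤ C * ‖D.Psi 𝕜 σ x‖ := by
  have h1 : ‖x‖ ≤ ‖((C : ℝ) : 𝕜) • D.Psi 𝕜 σ x‖ := by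
    refine lp.norm_mono (by norm_num) (fun j => ?_)
    show ‖x j‖ ≤ ‖((C : ℝ) : 𝕜) • x j (σ j)‖
    rw [norm_smul, RCLike.norm_ofReal, abs_of_nonneg hC]
    exact h j
  rw [norm_smul, RCLike.norm_ofReal, abs_of_nonneg hC] at h1
  exact h1

lemma exists_conf (n : ℕ) (hn : 1 ≤ n) (k0 : ℕ) (hk0 : n ≤ 2 ^ (4 ^ (k0 + 1)))
    (W : Submodule 𝕜 (D.X 𝕜)) [FiniteDimensional 𝕜 W] (hW : finrank 𝕜 W ≤ n) (j : ℕ) :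
    ∃ A : Conf (Fin (D.r j)) j (D.ρ j), ∀ x ∈ W,
      ‖(D.toL 𝕜 x) j‖ ≤ 5 * 2 ^ k0 * ‖(D.toL 𝕜 x) j A‖ := by
  have hC : (0 : ℝ) ≤ 5 * 2 ^ k0 := by positivity
  have hC2 : (5 * (2 : ℝ) ^ k0) ^ 2 = 25 * 4 ^ k0 := by
    have : (4 : ℝ) ^ k0 = (2 ^ k0) ^ 2 := by rw [← pow_mul, mul_comm, pow_mul]; norm_num
    rw [this]; ring
  have h4 : (1 : ℝ) ≤ 4 ^ k0 := one_le_pow₀ (by norm_num)
  have key : ∀ (A : Conf (Fin (D.r j)) j (D.ρ j)) (x : D.X 𝕜),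
      (∀ A' : Conf (Fin (D.r j)) j (D.ρ j), Q (𝕜 := 𝕜) (D.w 𝕜 j) A' (D.co2 𝕜 j x) ≤
        25 * 4 ^ k0 * Q (𝕜 := 𝕜) (D.w 𝕜 j) A (D.co2 𝕜 j x)) →
      ‖(D.toL 𝕜 x) j‖ ≤ 5 * 2 ^ k0 * ‖(D.toL 𝕜 x) j A‖ := by
    intro A x hx
    rw [coe_eq]
    refine norm_JJ_le (D.w 𝕜 j) j (D.ρ j) _ _ (by positivity) (fun A' => ?_)
    refine (hx A').trans (le_of_eq ?_)
    rw [mul_pow, hC2]
    congr 1
    exact (norm_Phi_sq (D.w 𝕜 j) A _).symm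
  by_cases hj : j ≤ k0
  · refine ⟨default, fun x _ => key default x (fun A' => ?_)⟩
    refine (D.Q_le 𝕜 j A' _).trans ?_
    have h5 := norm_sq_le_Q (𝕜 := 𝕜) (D.w 𝕜 j) (default : Conf (Fin (D.r j)) j (D.ρ j))
      (D.co2 𝕜 j x)
    have h6 : (4 : ℝ) ^ j ≤ 4 ^ k0 := pow_le_pow_right₀ (by norm_num) hj
    have h7 : 7 * (4 : ℝ) ^ j ≤ 25 * 4 ^ k0 := by linarith [show (0 : ℝ) < 4 ^ k0 by positivity]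
    exact mul_le_mul h7 h5 (by positivity) (by positivity)
  · have hnj : n ≤ 2 ^ (4 ^ j) := hk0.trans
      (Nat.pow_le_pow_right (by norm_num) (Nat.pow_le_pow_right (by norm_num) (by omega)))
    set T : D.X 𝕜 →ₗ[𝕜] D.V 𝕜 j := D.co2 𝕜 j with hT
    have hfr : finrank 𝕜 (W.map T) ≤ n := (Submodule.finrank_map_le T W).trans hW
    obtain ⟨A, hA⟩ := exists_good (𝕜 := 𝕜) (D.w 𝕜 j) (D.μ j) (D.μ_nonneg j)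
      (fun g => (D.norm_w 𝕜 j g).le) (fun g h hgh => D.inner_w_w 𝕜 j g h hgh) j (D.ρ j) n
      (D.ρ_pos j) hn (D.hμ j) (D.hN j n hnj) (W.map T) hfr
    refine ⟨A, fun x hx => key A x (fun A' => ?_)⟩
    have h5 := hA A' (D.co2 𝕜 j x) (Submodule.mem_map_of_mem (f := T) hx)
    refine h5.trans ?_
    have h6 : 0 ≤ Q (𝕜 := 𝕜) (D.w 𝕜 j) A (D.co2 𝕜 j x) :=
      le_trans (by positivity) (norm_sq_le_Q (𝕜 := 𝕜) (D.w 𝕜 j) A (D.co2 𝕜 j x))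
    exact mul_le_mul_of_nonneg_right (by linarith) h6


abbrev HL : Type := lp (fun j => HH 𝕜 (D.V 𝕜 j) (Fin (D.r j)) j) 2

noncomputable def PsiW (σ : ∀ j, Conf (Fin (D.r j)) j (D.ρ j)) (W : Submodule 𝕜 (D.X 𝕜)) :
    W →ₗ[𝕜] D.HL 𝕜 := ((D.Psi 𝕜 σ).comp (D.toL 𝕜)).comp W.subtype

lemma norm_PsiW_le (σ : ∀ j, Conf (Fin (D.r j)) j (D.ρ j)) (W : Submodule 𝕜 (D.X 𝕜)) (x : W) :
    ‖D.PsiW 𝕜 σ W x‖ ≤ ‖x‖ := D.norm_Psi_le 𝕜 σ (D.toL 𝕜 (x : D.X 𝕜))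

lemma le_norm_PsiW (σ : ∀ j, Conf (Fin (D.r j)) j (D.ρ j)) (W : Submodule 𝕜 (D.X 𝕜)) (C : ℝ)
    (hC : 0 ≤ C) (hσ : ∀ j, ∀ x ∈ W, ‖(D.toL 𝕜 x) j‖ ≤ C * ‖(D.toL 𝕜 x) j (σ j)‖) (x : W) :
    ‖x‖ ≤ C * ‖D.PsiW 𝕜 σ W x‖ :=
  D.le_norm_Psi 𝕜 σ (D.toL 𝕜 (x : D.X 𝕜)) _ hC (fun j => hσ j x x.2)

/-- Subspaces of small dimension are close to Euclidean spaces. -/
theorem small (n : ℕ) (hn : 1 ≤ n) (k0 : ℕ) (hk0 : n ≤ 2 ^ (4 ^ (k0 + 1)))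
    (W : Submodule 𝕜 (D.X 𝕜)) (hW : finrank 𝕜 W = n) :
    ∃ T : W ≃L[𝕜] EuclideanSpace 𝕜 (Fin n),
      ‖(T : W →L[𝕜] EuclideanSpace 𝕜 (Fin n))‖ ≤ 1 ∧
      ‖(T.symm : EuclideanSpace 𝕜 (Fin n) →L[𝕜] W)‖ ≤ 5 * 2 ^ k0 := by
  have : FiniteDimensional 𝕜 W := FiniteDimensional.of_finrank_pos (by omega)
  choose σ hσ using D.exists_conf 𝕜 n hn k0 hk0 W hW.le
  exact exists_equiv (𝕜 := 𝕜) (W := W) (H := D.HL 𝕜) (D.PsiW 𝕜 σ W) (5 * 2 ^ k0)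
    (by positivity) (D.norm_PsiW_le 𝕜 σ W) (D.le_norm_PsiW 𝕜 σ W _ (by positivity) hσ) n hW

end Data

end Pool.Agent.Helper362.Hap
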