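import Pool.Agent.Helper362.HapD
set_option autoImplicit false
open Module Filter
open scoped ENNReal Topology

namespace Pool.Agent.Helper362.Hap

variable (𝕜 : Type) [RCLike 𝕜]

/-- The approximation property. -/
def HasAP (Y : Type) [NormedAddCommGroup Y] [NormedSpace 𝕜 Y] : Prop :=
  ∀ K : Set Y, IsCompact K → ∀ ε : ℝ, 0 < ε →
    ∃ T : Y →L[𝕜] Y, FiniteDimensional 𝕜 (LinearMap.range (T : Y →ₗ[𝕜] Y)) ∧
      ∀ x ∈ K, ‖T x - x‖ < ε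

lemma sum_ap {n : ℕ} {ι : Type} (s : Finset ι) (f : ι → EuclideanSpace 𝕜 (Fin n)) (i : Fin n) :
    (∑ j ∈ s, f j) i = ∑ j ∈ s, (f j) i := by
  classical
  induction s using Finset.induction_on with
  | empty => simp
  | insert a s ha ih => rw [Finset.sum_insert ha, Finset.sum_insert ha, ← ih]; rfl

lemma cast_expand {n : ℕ} (b : Fin n → ℝ) :
    (WithLp.toLp 2 (fun i => ((b i : ℝ) : 𝕜)) : EuclideanSpace 𝕜 (Fin n)) =
      ∑ j, ((b j : ℝ) : 𝕜) • (EuclideanSpace.single j 1 : EuclideanSpace 𝕜 (Fin n)) := by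
  apply (WithLp.equiv 2 _).injective
  funext i
  show ((b i : ℝ) : 𝕜) = (∑ j, ((b j : ℝ) : 𝕜) •
    (EuclideanSpace.single j 1 : EuclideanSpace 𝕜 (Fin n))) i
  rw [sum_ap, Finset.sum_eq_single i]
  · show ((b i : ℝ) : 𝕜) =
      ((b i : ℝ) : 𝕜) • ((EuclideanSpace.single i 1 : EuclideanSpace 𝕜 (Fin n)) i)
    rw [PiLp.single_apply, if_pos rfl, smul_eq_mul, mul_one]
  · intro j _ hj
    simp [hj.symm]
  · intro h; exact absurd (Finset.mem_univ _) h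

lemma sum_inner {m n r : ℕ} (a : Fin r → Fin m → ℝ) (b : Fin r → Fin n → ℝ)
    (A : EuclideanSpace 𝕜 (Fin n) →ₗ[𝕜] EuclideanSpace 𝕜 (Fin m)) :
    ∑ g, inner 𝕜 (WithLp.toLp 2 (fun i => ((a g i : ℝ) : 𝕜)) : EuclideanSpace 𝕜 (Fin m))
      (A (WithLp.toLp 2 (fun i => ((b g i : ℝ) : 𝕜)))) =
    ∑ i, ∑ j, ((∑ g, a g i * b g j : ℝ) : 𝕜) * (A (EuclideanSpace.single j 1)) i := by
  have h1 : ∀ g, inner 𝕜 (WithLp.toLp 2 (fun i => ((a g i : ℝ) : 𝕜)) : EuclideanSpace 𝕜 (Fin m))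
      (A (WithLp.toLp 2 (fun i => ((b g i : ℝ) : 𝕜)))) =
      ∑ i, ∑ j, ((a g i * b g j : ℝ) : 𝕜) * (A (EuclideanSpace.single j 1)) i := by
    intro g
    rw [Data.inner_cast, cast_expand 𝕜 (b g), map_sum]
    refine Finset.sum_congr rfl (fun i _ => ?_)
    have h2 : (∑ j, A (((b g j : ℝ) : 𝕜) • EuclideanSpace.single j 1)) i =
        ∑ j, ((b g j : ℝ) : 𝕜) * (A (EuclideanSpace.single j 1)) i := by
      rw [sum_ap]
      refine Finset.sum_congr rfl (fun j _ => ?_)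
      rw [map_smul, PiLp.smul_apply, smul_eq_mul]
    rw [h2, Finset.mul_sum]
    refine Finset.sum_congr rfl (fun j _ => ?_)
    rw [RCLike.ofReal_mul]
    ring
  rw [Finset.sum_congr rfl (fun g _ => h1 g), Finset.sum_comm]
  refine Finset.sum_congr rfl (fun i _ => ?_)
  rw [Finset.sum_comm]
  refine Finset.sum_congr rfl (fun j _ => ?_)
  rw [RCLike.ofReal_sum, Finset.sum_mul]

namespace Data

variable (D : Data)

/-- The normalised trace on one level. -/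
noncomputable def beta (k : ℕ) (R : D.X 𝕜 →ₗ[𝕜] D.X 𝕜) : 𝕜 :=
  (∑ i, (D.co 𝕜 k (R (D.io 𝕜 k (EuclideanSpace.single i 1)))) i) / (D.s k : 𝕜)

lemma sum_g (k : ℕ) (R : D.X 𝕜 →ₗ[𝕜] D.X 𝕜) :
    ∑ g, inner 𝕜 (D.w 𝕜 k g) (D.co2 𝕜 k (R (D.bv 𝕜 k g))) =
      (D.r k : 𝕜) * (D.beta 𝕜 k R - D.beta 𝕜 (k + 1) R) := by
  have h1 : ∀ g, inner 𝕜 (D.w 𝕜 k g) (D.co2 𝕜 k (R (D.bv 𝕜 k g))) =
      (inner 𝕜 (D.xi 𝕜 k g) (((D.co 𝕜 k).comp (R.comp (D.io 𝕜 k))) (D.xi 𝕜 k g)) -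
      inner 𝕜 (D.xi 𝕜 k g) (((D.co 𝕜 k).comp (R.comp (D.io 𝕜 (k + 1)))) (D.et 𝕜 k g))) +
      (inner 𝕜 (D.et 𝕜 k g) (((D.co 𝕜 (k + 1)).comp (R.comp (D.io 𝕜 k))) (D.xi 𝕜 k g)) -
      inner 𝕜 (D.et 𝕜 k g) (((D.co 𝕜 (k + 1)).comp (R.comp (D.io 𝕜 (k + 1)))) (D.et 𝕜 k g))) := by
    intro g
    rw [co2_eq, inner_w]
    unfold bv
    rw [map_sub, map_sub, map_sub, inner_sub_right, inner_sub_right]
    rfl
  rw [Finset.sum_congr rfl (fun g _ => h1 g), Finset.sum_add_distrib, Finset.sum_sub_distrib,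
    Finset.sum_sub_distrib]
  unfold xi et
  rw [sum_inner, sum_inner, sum_inner, sum_inner]
  have hr : (D.r k : 𝕜) ≠ 0 := by
    have := D.r_pos k
    exact_mod_cast this.ne'
  have e1 : ∀ (R' : D.F 𝕜 k →ₗ[𝕜] D.F 𝕜 k), ∑ i, ∑ j, ((∑ g, D.ξ k g i * D.ξ k g j : ℝ) : 𝕜) *
      (R' (EuclideanSpace.single j 1)) i =
      (D.r k : 𝕜) * ((∑ i, (R' (EuclideanSpace.single i 1)) i) / (D.s k : 𝕜)) := by
    intro R'
    have : ∀ i, ∑ j, ((∑ g, D.ξ k g i * D.ξ k g j : ℝ) : 𝕜) * (R' (EuclideanSpace.single j 1)) i =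
        ((D.r k : 𝕜) / (D.s k : 𝕜)) * (R' (EuclideanSpace.single i 1)) i := by
      intro i
      rw [Finset.sum_eq_single i]
      · rw [D.hξξ k i i, if_pos rfl, RCLike.ofReal_div, RCLike.ofReal_natCast,
          RCLike.ofReal_natCast]
      · intro j _ hj
        rw [D.hξξ k i j, if_neg hj.symm, RCLike.ofReal_zero, zero_mul]
      · intro h; exact absurd (Finset.mem_univ _) h
    rw [Finset.sum_congr rfl (fun i _ => this i), ← Finset.mul_sum]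
    ring
  have e2 : ∀ (R' : D.F 𝕜 (k + 1) →ₗ[𝕜] D.F 𝕜 (k + 1)),
      ∑ i, ∑ j, ((∑ g, D.η k g i * D.η k g j : ℝ) : 𝕜) *
      (R' (EuclideanSpace.single j 1)) i =
      (D.r k : 𝕜) * ((∑ i, (R' (EuclideanSpace.single i 1)) i) / (D.s (k + 1) : 𝕜)) := by
    intro R'
    have : ∀ i, ∑ j, ((∑ g, D.η k g i * D.η k g j : ℝ) : 𝕜) * (R' (EuclideanSpace.single j 1)) i =
        ((D.r k : 𝕜) / (D.s (k + 1) : 𝕜)) * (R' (EuclideanSpace.single i 1)) i := by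
      intro i
      rw [Finset.sum_eq_single i]
      · rw [D.hηη k i i, if_pos rfl, RCLike.ofReal_div, RCLike.ofReal_natCast,
          RCLike.ofReal_natCast]
      · intro j _ hj
        rw [D.hηη k i j, if_neg hj.symm, RCLike.ofReal_zero, zero_mul]
      · intro h; exact absurd (Finset.mem_univ _) h
    rw [Finset.sum_congr rfl (fun i _ => this i), ← Finset.mul_sum]
    ring
  have e3 : ∀ (R' : D.F 𝕜 (k + 1) →ₗ[𝕜] D.F 𝕜 k),
      ∑ i, ∑ j, ((∑ g, D.ξ k g i * D.η k g j : ℝ) : 𝕜) *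
      (R' (EuclideanSpace.single j 1)) i = 0 := by
    intro R'
    refine Finset.sum_eq_zero (fun i _ => Finset.sum_eq_zero (fun j _ => ?_))
    rw [D.hξη k i j, RCLike.ofReal_zero, zero_mul]
  have e4 : ∀ (R' : D.F 𝕜 k →ₗ[𝕜] D.F 𝕜 (k + 1)),
      ∑ i, ∑ j, ((∑ g, D.η k g i * D.ξ k g j : ℝ) : 𝕜) *
      (R' (EuclideanSpace.single j 1)) i = 0 := by
    intro R'
    refine Finset.sum_eq_zero (fun i _ => Finset.sum_eq_zero (fun j _ => ?_))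
    have : ∑ g, D.η k g i * D.ξ k g j = 0 := by
      rw [← D.hξη k j i]
      exact Finset.sum_congr rfl (fun g _ => mul_comm _ _)
    rw [this, RCLike.ofReal_zero, zero_mul]
  rw [e1, e2, e3, e4]
  unfold beta
  rw [sub_zero, zero_sub, mul_sub, sub_eq_add_neg]
  rfl

lemma beta_step (k : ℕ) (R : D.X 𝕜 →ₗ[𝕜] D.X 𝕜) (ε : ℝ) (hε : ∀ g, ‖R (D.bv 𝕜 k g)‖ ≤ ε) :
    ‖D.beta 𝕜 k R - D.beta 𝕜 (k + 1) R‖ ≤ 2 * (1 / 2) ^ k * ε := by
  have hr : (0 : ℝ) < D.r k := by exact_mod_cast D.r_pos k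
  have h1 := congrArg norm (D.sum_g 𝕜 k R)
  rw [norm_mul] at h1
  have h2 : ‖(D.r k : 𝕜)‖ = D.r k := by
    rw [RCLike.norm_natCast]
  rw [h2] at h1
  have h3 : ‖∑ g, inner 𝕜 (D.w 𝕜 k g) (D.co2 𝕜 k (R (D.bv 𝕜 k g)))‖ ≤
      D.r k * (2 * (1 / 2) ^ k * ε) := by
    calc _ ≤ ∑ g : Fin (D.r k), (2 * (1 / 2 : ℝ) ^ k * ε) := by
          refine norm_sum_le_of_le _ (fun g _ => ?_)
          exact (D.inner_bound' 𝕜 k g _).trans
            (mul_le_mul_of_nonneg_left (hε g) (by positivity))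
      _ = _ := by rw [Finset.sum_const, Finset.card_univ, Fintype.card_fin, nsmul_eq_mul]
  rw [h1] at h3
  exact le_of_mul_le_mul_left h3 hr

lemma beta_zero_le (R : D.X 𝕜 →ₗ[𝕜] D.X 𝕜) (ε : ℝ)
    (hε : ∀ i, ‖R (D.io 𝕜 0 (EuclideanSpace.single i 1))‖ ≤ ε) : ‖D.beta 𝕜 0 R‖ ≤ ε := by
  have hs : (0 : ℝ) < D.s 0 := by exact_mod_cast D.s_pos 0
  unfold beta
  rw [norm_div, RCLike.norm_natCast, div_le_iff₀ hs]
  calc _ ≤ ∑ i : Fin (D.s 0), ε := by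
        refine norm_sum_le_of_le _ (fun i _ => ?_)
        exact (PiLp.norm_apply_le _ i).trans ((D.norm_co_le 𝕜 0 _).trans (hε i))
    _ = _ := by rw [Finset.sum_const, Finset.card_univ, Fintype.card_fin, nsmul_eq_mul, mul_comm]

lemma beta_id (k : ℕ) : D.beta 𝕜 k LinearMap.id = 1 := by
  have hs : (D.s k : 𝕜) ≠ 0 := by exact_mod_cast (D.s_pos k).ne'
  unfold beta
  have : ∀ i : Fin (D.s k), (D.co 𝕜 k ((LinearMap.id : D.X 𝕜 →ₗ[𝕜] D.X 𝕜)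
      (D.io 𝕜 k (EuclideanSpace.single i 1)))) i = 1 := by
    intro i
    rw [LinearMap.id_apply, co_io_same]
    simp
  rw [Finset.sum_congr rfl (fun i _ => this i), Finset.sum_const, Finset.card_univ,
    Fintype.card_fin, nsmul_eq_mul, mul_one, div_self hs]

lemma beta_sub (k : ℕ) (R R' : D.X 𝕜 →ₗ[𝕜] D.X 𝕜) :
    D.beta 𝕜 k (R - R') = D.beta 𝕜 k R - D.beta 𝕜 k R' := by
  unfold beta
  rw [← sub_div, ← Finset.sum_sub_distrib]
  congr 1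

lemma beta_rank_one (k : ℕ) (φ : D.X 𝕜 →L[𝕜] 𝕜) (y : D.X 𝕜) :
    ‖∑ i, φ (D.io 𝕜 k (EuclideanSpace.single i 1)) * (D.co 𝕜 k y) i‖ ≤
      6 * 2 ^ k * (‖φ‖ * ‖y‖) := by
  have h1 : ∑ i, φ (D.io 𝕜 k (EuclideanSpace.single i 1)) * (D.co 𝕜 k y) i =
      φ (D.io 𝕜 k (D.co 𝕜 k y)) := by
    have h2 : D.co 𝕜 k y = ∑ i, (D.co 𝕜 k y) i •
        (EuclideanSpace.single i 1 : EuclideanSpace 𝕜 (Fin (D.s k))) := by
      apply (WithLp.equiv 2 _).injective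
      funext j
      show (D.co 𝕜 k y) j = (∑ i, (D.co 𝕜 k y) i •
        (EuclideanSpace.single i 1 : EuclideanSpace 𝕜 (Fin (D.s k)))) j
      rw [sum_ap, Finset.sum_eq_single j]
      · simp
      · intro l _ hl
        simp [hl.symm]
      · intro h; exact absurd (Finset.mem_univ _) h
    conv_rhs => rw [h2]
    rw [map_sum, map_sum]
    refine Finset.sum_congr rfl (fun i _ => ?_)
    rw [map_smul, map_smul, smul_eq_mul, mul_comm]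
  rw [h1]
  calc _ ≤ ‖φ‖ * ‖D.io 𝕜 k (D.co 𝕜 k y)‖ := φ.le_opNorm _
    _ ≤ ‖φ‖ * (6 * 2 ^ k * ‖y‖) := by
        refine mul_le_mul_of_nonneg_left ?_ (norm_nonneg _)
        refine (D.norm_io 𝕜 k _).trans ?_
        exact mul_le_mul_of_nonneg_left (D.norm_co_le 𝕜 k y) (by positivity)
    _ = _ := by ring

lemma tendsto_beta (T : D.X 𝕜 →L[𝕜] D.X 𝕜)
    (hT : FiniteDimensional 𝕜 (LinearMap.range (T : D.X 𝕜 →ₗ[𝕜] D.X 𝕜))) :
    Tendsto (fun k => D.beta 𝕜 k (T : D.X 𝕜 →ₗ[𝕜] D.X 𝕜)) atTop (𝓝 0) := by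
  set R := LinearMap.range (T : D.X 𝕜 →ₗ[𝕜] D.X 𝕜) with hR
  set b := Module.finBasis 𝕜 R with hb
  set T' : D.X 𝕜 →L[𝕜] R := T.codRestrict R (fun x => LinearMap.mem_range_self _ x) with hT'
  set φ : Fin (finrank 𝕜 R) → (D.X 𝕜 →L[𝕜] 𝕜) := fun i =>
    (LinearMap.toContinuousLinearMap (b.coord i)).comp T' with hφ
  have h1 : ∀ x, T x = ∑ i, φ i x • ((b i : R) : D.X 𝕜) := by
    intro x
    have h2 := b.sum_repr (T' x)
    have h3 := congrArg (fun y : R => (y : D.X 𝕜)) h2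
    simp only [Submodule.coe_sum, Submodule.coe_smul] at h3
    exact h3.symm
  set M : ℝ := ∑ i, ‖φ i‖ * ‖((b i : R) : D.X 𝕜)‖ with hM
  have h4 : ∀ k, ‖D.beta 𝕜 k (T : D.X 𝕜 →ₗ[𝕜] D.X 𝕜)‖ ≤ (6 * M) * (2 ^ k / D.s k) := by
    intro k
    have hs : (0 : ℝ) < D.s k := by exact_mod_cast D.s_pos k
    unfold beta
    rw [norm_div, RCLike.norm_natCast, ← mul_div_assoc]
    refine div_le_div_of_nonneg_right ?_ hs.le
    have h5 : ∑ i, (D.co 𝕜 k ((T : D.X 𝕜 →ₗ[𝕜] D.X 𝕜)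
        (D.io 𝕜 k (EuclideanSpace.single i 1)))) i =
        ∑ l, ∑ i, φ l (D.io 𝕜 k (EuclideanSpace.single i 1)) *
          (D.co 𝕜 k ((b l : R) : D.X 𝕜)) i := by
      rw [Finset.sum_comm]
      refine Finset.sum_congr rfl (fun i _ => ?_)
      show (D.co 𝕜 k (T (D.io 𝕜 k (EuclideanSpace.single i 1)))) i = _
      rw [h1, map_sum, sum_ap]
      refine Finset.sum_congr rfl (fun l _ => ?_)
      rw [map_smul, PiLp.smul_apply, smul_eq_mul]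
    rw [h5]
    calc _ ≤ ∑ l, 6 * 2 ^ k * (‖φ l‖ * ‖((b l : R) : D.X 𝕜)‖) :=
          norm_sum_le_of_le _ (fun l _ => D.beta_rank_one 𝕜 k (φ l) _)
      _ = _ := by rw [← Finset.mul_sum]; ring
  refine squeeze_zero_norm h4 ?_
  have := D.hs.const_mul (6 * M)
  rwa [mul_zero] at this

/-- The compact set used in the trace argument. -/
noncomputable def uu : (Σ k, Fin (D.r k)) → D.X 𝕜 := fun p =>
  (((3 / 4 : ℝ) ^ p.1 : ℝ) : 𝕜) • D.bv 𝕜 p.1 p.2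

lemma norm_uu (p : Σ k, Fin (D.r k)) : ‖D.uu 𝕜 p‖ ≤ 6 * (3 / 4) ^ p.1 := by
  unfold uu
  rw [norm_smul, RCLike.norm_ofReal, abs_of_nonneg (by positivity), mul_comm]
  exact mul_le_mul_of_nonneg_right (D.norm_bv 𝕜 _ _) (by positivity)

lemma tendsto_uu : Tendsto (D.uu 𝕜) cofinite (𝓝 0) := by
  rw [Metric.tendsto_nhds]
  intro ε hε
  have h1 : Tendsto (fun k : ℕ => 6 * (3 / 4 : ℝ) ^ k) atTop (𝓝 0) := by
    simpa using (tendsto_pow_atTop_nhds_zero_of_lt_one (by norm_num)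
      (show (3 / 4 : ℝ) < 1 by norm_num)).const_mul 6
  obtain ⟨N, hN⟩ := eventually_atTop.mp (h1.eventually_lt_const hε)
  rw [eventually_cofinite]
  refine ((Finset.range N).sigma (fun k => (Finset.univ : Finset (Fin (D.r k))))
    ).finite_toSet.subset (fun p hp => ?_)
  rw [Finset.mem_coe, Finset.mem_sigma, Finset.mem_range]
  refine ⟨?_, Finset.mem_univ _⟩
  by_contra hc
  apply hp
  rw [dist_zero_right]
  exact (D.norm_uu 𝕜 p).trans_lt (hN p.1 (not_lt.mp hc))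

/-- The space fails the approximation property. -/
theorem not_AP : ¬ HasAP 𝕜 (D.X 𝕜) := by
  intro hAP
  set K : Set (D.X 𝕜) := insert 0 (Set.range (D.uu 𝕜)) ∪
    Set.range (fun i => D.io 𝕜 0 (EuclideanSpace.single i 1)) with hK
  have hKc : IsCompact K :=
    (D.tendsto_uu 𝕜).isCompact_insert_range_of_cofinite.union (Set.finite_range _).isCompact
  obtain ⟨T, hT, hTK⟩ := hAP K hKc (1 / 8) (by norm_num)
  set R : D.X 𝕜 →ₗ[𝕜] D.X 𝕜 := (T : D.X 𝕜 →ₗ[𝕜] D.X 𝕜) - LinearMap.id with hR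
  have hRx : ∀ x ∈ K, ‖R x‖ ≤ 1 / 8 := fun x hx => (hTK x hx).le
  have h0 : ‖D.beta 𝕜 0 R‖ ≤ 1 / 8 := D.beta_zero_le 𝕜 R _ (fun i =>
    hRx _ (Or.inr ⟨i, rfl⟩))
  have h1 : ∀ k, ‖D.beta 𝕜 k R - D.beta 𝕜 (k + 1) R‖ ≤ (1 / 4) * (2 / 3) ^ k := by
    intro k
    have h2 := D.beta_step 𝕜 k R ((4 / 3) ^ k * (1 / 8)) (fun g => ?_)
    · refine h2.trans (le_of_eq ?_)
      have : (2 / 3 : ℝ) ^ k = (1 / 2) ^ k * (4 / 3) ^ k := by rw [← mul_pow]; norm_num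
      rw [this]; ring
    · have h3 := hRx (D.uu 𝕜 ⟨k, g⟩) (Or.inl (Set.mem_insert_of_mem _ ⟨⟨k, g⟩, rfl⟩))
      unfold uu at h3
      rw [map_smul, norm_smul, RCLike.norm_ofReal, abs_of_nonneg (by positivity)] at h3
      have h4 : (4 / 3 : ℝ) ^ k * ((3 / 4 : ℝ) ^ k * ‖R (D.bv 𝕜 k g)‖) = ‖R (D.bv 𝕜 k g)‖ := by
        rw [← mul_assoc, ← mul_pow]; norm_num
      rw [← h4]
      exact mul_le_mul_of_nonneg_left h3 (by positivity)
  have h5 : ∀ k, ‖D.beta 𝕜 k R‖ ≤ 7 / 8 - (3 / 4) * (2 / 3) ^ k := by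
    intro k
    induction k with
    | zero => rw [pow_zero]; linarith
    | succ k ih =>
      have h6 : ‖D.beta 𝕜 (k + 1) R‖ ≤ ‖D.beta 𝕜 k R‖ + ‖D.beta 𝕜 k R - D.beta 𝕜 (k + 1) R‖ := by
        have := norm_sub_le (D.beta 𝕜 k R) (D.beta 𝕜 k R - D.beta 𝕜 (k + 1) R)
        rwa [sub_sub_cancel] at this
      have h7 := h1 k
      rw [pow_succ]
      linarith
  have h8 : Tendsto (fun k => D.beta 𝕜 k R) atTop (𝓝 (0 - 1)) := by
    have h9 : (fun k => D.beta 𝕜 k R) = fun k => D.beta 𝕜 k (T : D.X 𝕜 →ₗ[𝕜] D.X 𝕜) - 1 := by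
      funext k
      rw [hR, beta_sub, beta_id]
    rw [h9]
    exact (D.tendsto_beta 𝕜 T hT).sub_const 1
  have h10 := h8.norm
  have h11 : ‖(0 - 1 : 𝕜)‖ ≤ 7 / 8 := by
    refine le_of_tendsto h10 (Eventually.of_forall (fun k => ?_))
    have := h5 k
    have h12 : (0 : ℝ) < (2 / 3) ^ k := by positivity
    linarith
  rw [zero_sub, norm_neg, norm_one] at h11
  norm_num at h11

end Data

end Pool.Agent.Helper362.Hap
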