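import Mathlib
set_option autoImplicit false

namespace Pool.Agent.Helper362.Hap

/-- Two sign matrices of order four. -/
def WZ : Bool → Fin 4 → Fin 4 → ℤ
  | false => ![![1, 1, 1, 1], ![1, -1, 1, -1], ![1, 1, -1, -1], ![1, -1, -1, 1]]
  | true => ![![1, 1, 1, -1], ![1, -1, 1, 1], ![1, 1, -1, 1], ![1, -1, -1, -1]]

lemma WZ_row (b : Bool) (i j : Fin 4) :
    ∑ c, WZ b i c * WZ b j c = if i = j then 4 else 0 := by
  revert b i j; decide

lemma WZ_col (b : Bool) (i j : Fin 4) :
    ∑ c, WZ b c i * WZ b c j = if i = j then 4 else 0 := by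
  revert b i j; decide

lemma WZ_mix (i j : Fin 4) : |∑ c, WZ false i c * WZ true j c| = 2 := by
  revert i j; decide

lemma WZ_mix' (i j : Fin 4) : |∑ c, WZ true i c * WZ false j c| = 2 := by
  revert i j; decide

lemma WZ_abs (b : Bool) (i j : Fin 4) : |WZ b i j| = 1 := by
  revert b i j; decide

/-- The product matrices. -/
noncomputable def kap (m : ℕ) (b : Bool) (a x : Fin m → Fin 4) : ℝ :=
  (1 / 2) ^ m * ∏ j, (WZ b (a j) (x j) : ℝ)

lemma sum_prod_pi (m : ℕ) (F : Fin m → Fin 4 → ℝ) :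
    ∑ x : Fin m → Fin 4, ∏ j, F j (x j) = ∏ j, ∑ c, F j c := by
  have h := Finset.prod_univ_sum (fun _ : Fin m => (Finset.univ : Finset (Fin 4))) F
  rw [Fintype.piFinset_univ] at h
  exact h.symm

lemma half_sq (m : ℕ) : (1 / 2 : ℝ) ^ m * (1 / 2) ^ m * 4 ^ m = 1 := by
  rw [← mul_pow, ← mul_pow]; norm_num

lemma prod_ite (m : ℕ) (a b : Fin m → Fin 4) :
    ∏ j, (if a j = b j then (4 : ℝ) else 0) = if a = b then 4 ^ m else 0 := by
  by_cases h : a = b
  · subst h
    simp
  · rw [if_neg h]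
    obtain ⟨j, hj⟩ := Function.ne_iff.mp h
    exact Finset.prod_eq_zero (Finset.mem_univ j) (if_neg hj)

lemma kap_row (m : ℕ) (b : Bool) (a a' : Fin m → Fin 4) :
    ∑ x, kap m b a x * kap m b a' x = if a = a' then 1 else 0 := by
  have h1 : ∀ x, kap m b a x * kap m b a' x = ((1 / 2) ^ m * (1 / 2) ^ m) *
      ∏ j, ((WZ b (a j) (x j) : ℝ) * (WZ b (a' j) (x j) : ℝ)) := by
    intro x
    unfold kap
    rw [Finset.prod_mul_distrib]; ring
  rw [Finset.sum_congr rfl (fun x _ => h1 x), ← Finset.mul_sum,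
    sum_prod_pi m (fun j c => (WZ b (a j) c : ℝ) * (WZ b (a' j) c : ℝ))]
  have h2 : ∀ j, ∑ c, (WZ b (a j) c : ℝ) * (WZ b (a' j) c : ℝ) = if a j = a' j then 4 else 0 := by
    intro j
    have := WZ_row b (a j) (a' j)
    exact_mod_cast this
  rw [Finset.prod_congr rfl (fun j _ => h2 j), prod_ite]
  split_ifs
  · exact half_sq m
  · ring

lemma kap_col (m : ℕ) (b : Bool) (x x' : Fin m → Fin 4) :
    ∑ a, kap m b a x * kap m b a x' = if x = x' then 1 else 0 := by
  have h1 : ∀ a, kap m b a x * kap m b a x' = ((1 / 2) ^ m * (1 / 2) ^ m) *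
      ∏ j, ((WZ b (a j) (x j) : ℝ) * (WZ b (a j) (x' j) : ℝ)) := by
    intro a
    unfold kap
    rw [Finset.prod_mul_distrib]; ring
  rw [Finset.sum_congr rfl (fun a _ => h1 a), ← Finset.mul_sum,
    sum_prod_pi m (fun j c => (WZ b c (x j) : ℝ) * (WZ b c (x' j) : ℝ))]
  have h2 : ∀ j, ∑ c, (WZ b c (x j) : ℝ) * (WZ b c (x' j) : ℝ) = if x j = x' j then 4 else 0 := by
    intro j
    have := WZ_col b (x j) (x' j)
    exact_mod_cast this
  rw [Finset.prod_congr rfl (fun j _ => h2 j), prod_ite]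
  split_ifs
  · exact half_sq m
  · ring

lemma kap_mix (m : ℕ) (b b' : Bool) (hb : b ≠ b') (a a' : Fin m → Fin 4) :
    |∑ x, kap m b a x * kap m b' a' x| ≤ (1 / 2) ^ m := by
  have h1 : ∀ x, kap m b a x * kap m b' a' x = ((1 / 2) ^ m * (1 / 2) ^ m) *
      ∏ j, ((WZ b (a j) (x j) : ℝ) * (WZ b' (a' j) (x j) : ℝ)) := by
    intro x
    unfold kap
    rw [Finset.prod_mul_distrib]; ring
  rw [Finset.sum_congr rfl (fun x _ => h1 x), ← Finset.mul_sum,
    sum_prod_pi m (fun j c => (WZ b (a j) c : ℝ) * (WZ b' (a' j) c : ℝ)), abs_mul,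
    Finset.abs_prod]
  have h2 : ∀ j, |∑ c, (WZ b (a j) c : ℝ) * (WZ b' (a' j) c : ℝ)| = 2 := by
    intro j
    cases b <;> cases b'
    · exact absurd rfl hb
    · have := WZ_mix (a j) (a' j)
      exact_mod_cast this
    · have := WZ_mix' (a j) (a' j)
      exact_mod_cast this
    · exact absurd rfl hb
  rw [Finset.prod_congr rfl (fun j _ => h2 j), Finset.prod_const, Finset.card_univ,
    Fintype.card_fin, abs_of_nonneg (by positivity)]
  have h3 : (1 / 2 : ℝ) ^ m * (1 / 2) ^ m * 2 ^ m = (1 / 2) ^ m * ((1 / 2) * 2) ^ m := by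
    rw [mul_pow]; ring
  rw [h3]
  norm_num

lemma abs_kap (m : ℕ) (b : Bool) (a x : Fin m → Fin 4) : |kap m b a x| = (1 / 2) ^ m := by
  unfold kap
  rw [abs_mul, Finset.abs_prod, abs_of_nonneg (by positivity)]
  have h2 : ∀ j, |(WZ b (a j) (x j) : ℝ)| = 1 := by
    intro j
    have := WZ_abs b (a j) (x j)
    exact_mod_cast this
  rw [Finset.prod_congr rfl (fun j _ => h2 j), Finset.prod_const_one, mul_one]

section Code

variable {K : Type} [Field K] [Fintype K] [DecidableEq K]

/-- Polynomial evaluation. -/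
def pev (f : Fin 15 → K) (x : K) : K := ∑ j, f j * x ^ (j : ℕ)

lemma pev_agree (f f' : Fin 15 → K) (h : f ≠ f') :
    (Finset.univ.filter (fun x : K => pev f x = pev f' x)).card ≤ 14 := by
  classical
  set p : Polynomial K := ∑ j : Fin 15, Polynomial.monomial (j : ℕ) (f j - f' j) with hp
  have hcoeff : ∀ j : Fin 15, p.coeff (j : ℕ) = f j - f' j := by
    intro j
    rw [hp, Polynomial.finset_sum_coeff, Finset.sum_eq_single j]
    · rw [Polynomial.coeff_monomial, if_pos rfl]
    · intro l _ hl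
      rw [Polynomial.coeff_monomial, if_neg (fun h' => hl (Fin.ext h'))]
    · intro h'; exact absurd (Finset.mem_univ _) h'
  have hp0 : p ≠ 0 := by
    intro h0
    apply h
    funext j
    have := hcoeff j
    rw [h0, Polynomial.coeff_zero] at this
    exact (sub_eq_zero.mp this.symm)
  have hdeg : p.natDegree ≤ 14 := by
    refine Polynomial.natDegree_sum_le_of_forall_le _ _ (fun j _ => ?_)
    exact (Polynomial.natDegree_monomial_le _).trans (by omega)
  have hev : ∀ x, p.eval x = pev f x - pev f' x := by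
    intro x
    rw [hp, Polynomial.eval_finset_sum]
    unfold pev
    rw [← Finset.sum_sub_distrib]
    refine Finset.sum_congr rfl (fun j _ => ?_)
    rw [Polynomial.eval_monomial]; ring
  calc _ ≤ p.roots.toFinset.card := by
        refine Finset.card_le_card (fun x hx => ?_)
        rw [Multiset.mem_toFinset, Polynomial.mem_roots hp0, Polynomial.IsRoot, hev, sub_eq_zero]
        exact (Finset.mem_filter.mp hx).2
    _ ≤ p.roots.card := Multiset.toFinset_card_le _
    _ ≤ p.natDegree := Polynomial.card_roots' p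
    _ ≤ 14 := hdeg

lemma pev_add (f : Fin 15 → K) (c x : K) : pev (f + Pi.single 0 c) x = pev f x + c := by
  unfold pev
  have h1 : ∀ j : Fin 15, (f + (Pi.single 0 c : Fin 15 → K)) j * x ^ (j : ℕ) =
      f j * x ^ (j : ℕ) + (Pi.single 0 c : Fin 15 → K) j * x ^ (j : ℕ) := by
    intro j; rw [Pi.add_apply]; ring
  rw [Finset.sum_congr rfl (fun j _ => h1 j), Finset.sum_add_distrib]
  congr 1
  rw [Finset.sum_eq_single 0]
  · rw [Pi.single_eq_same]; simp
  · intro j _ hj
    rw [Pi.single_eq_of_ne hj, zero_mul]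
  · intro h'; exact absurd (Finset.mem_univ _) h'

lemma pev_card (x y y' : K) :
    (Finset.univ.filter (fun f : Fin 15 → K => pev f x = y)).card =
      (Finset.univ.filter (fun f : Fin 15 → K => pev f x = y')).card := by
  refine Finset.card_bij (fun f _ => f + Pi.single 0 (y' - y)) ?_ ?_ ?_
  · intro f hf
    rw [Finset.mem_filter] at hf ⊢
    refine ⟨Finset.mem_univ _, ?_⟩
    rw [pev_add, hf.2]; ring
  · intro f _ f' _ h
    exact add_right_cancel h
  · intro f hf
    rw [Finset.mem_filter] at hf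
    refine ⟨f + Pi.single 0 (y - y'), ?_, ?_⟩
    · rw [Finset.mem_filter]
      refine ⟨Finset.mem_univ _, ?_⟩
      rw [pev_add, hf.2]; ring
    · rw [add_assoc, ← Pi.single_add]
      simp

lemma pev_equi (x y : K) :
    ((Finset.univ.filter (fun f : Fin 15 → K => pev f x = y)).card : ℝ) * Fintype.card K =
      Fintype.card (Fin 15 → K) := by
  have h1 : ∑ y' : K, (Finset.univ.filter (fun f : Fin 15 → K => pev f x = y')).card =
      Fintype.card (Fin 15 → K) := by
    rw [← Finset.card_univ]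
    exact (Finset.card_eq_sum_card_fiberwise (fun f _ => Finset.mem_univ (pev f x))).symm
  rw [Finset.sum_congr rfl (fun y' _ => pev_card x y' y), Finset.sum_const, Finset.card_univ,
    smul_eq_mul] at h1
  rw [mul_comm]
  exact_mod_cast h1

end Code

end Pool.Agent.Helper362.Hap
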