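import Pool.Agent.Helper362.HapF
set_option autoImplicit false

namespace Pool.Agent.Helper362.Hap

section Step

variable {K : Type} [Field K] [Fintype K] [DecidableEq K] {m : ℕ} (e : (Fin m → Fin 4) ≃ K)

abbrev GG (K : Type) (m : ℕ) : Type := (Fin 15 → K) × (Fin m → Fin 4) × Bool
abbrev I0 (K : Type) (m : ℕ) : Type := (Fin m → Fin 4) × K
abbrev I1 (K : Type) (m : ℕ) : Type := (Fin 15 → K) × (Fin m → Fin 4)

noncomputable def sg : Bool → ℝ
  | false => 1
  | true => -1

lemma sg_sq (b : Bool) : sg b * sg b = 1 := by cases b <;> simp [sg]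

noncomputable def xi0 (g : GG K m) (i : I0 K m) : ℝ :=
  if pev g.1 (e i.1) = i.2 then kap m g.2.2 g.2.1 i.1 else 0

noncomputable def et0 (g : GG K m) (i : I1 K m) : ℝ :=
  if g.1 = i.1 then sg g.2.2 * kap m g.2.2 g.2.1 i.2 else 0

lemma two_kap (x x' : Fin m → Fin 4) :
    ∑ a, ∑ b, kap m b a x * kap m b a x' = if x = x' then 2 else 0 := by
  rw [Finset.sum_comm, Fintype.sum_bool, kap_col, kap_col]
  split_ifs <;> norm_num

lemma two_kap_sg (x x' : Fin m → Fin 4) :
    ∑ a, ∑ b, sg b * (kap m b a x * kap m b a x') = 0 := by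
  rw [Finset.sum_comm, Fintype.sum_bool, ← Finset.mul_sum, ← Finset.mul_sum, kap_col, kap_col]
  simp only [sg]
  ring

lemma P1 (i j : I0 K m) : ∑ g, xi0 e g i * xi0 e g j =
    if i = j then 2 * (Fintype.card (Fin 15 → K) : ℝ) / Fintype.card K else 0 := by
  have h1 : ∀ f : Fin 15 → K, ∑ p : (Fin m → Fin 4) × Bool, xi0 e (f, p) i * xi0 e (f, p) j =
      if pev f (e i.1) = i.2 ∧ pev f (e j.1) = j.2 then (if i.1 = j.1 then 2 else 0) else 0 := by
    intro f
    rw [Fintype.sum_prod_type]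
    by_cases h : pev f (e i.1) = i.2 ∧ pev f (e j.1) = j.2
    · rw [if_pos h, ← two_kap]
      refine Finset.sum_congr rfl (fun a _ => Finset.sum_congr rfl (fun b _ => ?_))
      unfold xi0
      rw [if_pos h.1, if_pos h.2]
    · rw [if_neg h]
      refine Finset.sum_eq_zero (fun a _ => Finset.sum_eq_zero (fun b _ => ?_))
      unfold xi0
      by_cases h1 : pev f (e i.1) = i.2
      · have h2 : ¬ pev f (e j.1) = j.2 := fun h2 => h ⟨h1, h2⟩
        simp only [h2, if_false, mul_zero]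
      · simp only [h1, if_false, zero_mul]
  rw [Fintype.sum_prod_type, Finset.sum_congr rfl (fun f _ => h1 f)]
  have hK : (Fintype.card K : ℝ) ≠ 0 := by
    exact_mod_cast Fintype.card_ne_zero
  by_cases h : i = j
  · subst h
    rw [if_pos rfl]
    simp only [and_self, if_true]
    rw [← Finset.sum_filter, Finset.sum_const, nsmul_eq_mul, eq_div_iff hK]
    have := pev_equi (e i.1) i.2
    rw [← this]; ring
  · rw [if_neg h]
    refine Finset.sum_eq_zero (fun f _ => ?_)
    by_cases h3 : pev f (e i.1) = i.2 ∧ pev f (e j.1) = j.2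
    · rw [if_pos h3, if_neg]
      intro h4
      apply h
      refine Prod.ext h4 ?_
      rw [← h3.1, ← h3.2, h4]
    · rw [if_neg h3]

lemma P2 (i j : I1 K m) : ∑ g : GG K m, et0 g i * et0 g j = if i = j then 2 else 0 := by
  have h1 : ∀ f : Fin 15 → K, ∑ p : (Fin m → Fin 4) × Bool, et0 (f, p) i * et0 (f, p) j =
      if f = i.1 then (if i = j then 2 else 0) else 0 := by
    intro f
    rw [Fintype.sum_prod_type]
    by_cases h : f = i.1
    · rw [if_pos h]
      by_cases h2 : f = j.1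
      · have h3 : (if i = j then (2 : ℝ) else 0) = if i.2 = j.2 then 2 else 0 := by
          have : i = j ↔ i.2 = j.2 :=
            ⟨fun h => by rw [h], fun h' => Prod.ext (h.symm.trans h2) h'⟩
          simp only [this]
        rw [h3, ← two_kap]
        refine Finset.sum_congr rfl (fun a _ => Finset.sum_congr rfl (fun b _ => ?_))
        unfold et0
        rw [if_pos h, if_pos h2]
        calc _ = (sg b * sg b) * (kap m b a i.2 * kap m b a j.2) := by ring
          _ = _ := by rw [sg_sq, one_mul]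
      · have h3 : i ≠ j := fun h' => h2 (by rw [h, h'])
        rw [if_neg h3]
        refine Finset.sum_eq_zero (fun a _ => Finset.sum_eq_zero (fun b _ => ?_))
        unfold et0
        simp only [h2, if_false, mul_zero]
    · rw [if_neg h]
      refine Finset.sum_eq_zero (fun a _ => Finset.sum_eq_zero (fun b _ => ?_))
      unfold et0
      simp only [h, if_false, zero_mul]
  rw [Fintype.sum_prod_type, Finset.sum_congr rfl (fun f _ => h1 f), Finset.sum_ite_eq',
    if_pos (Finset.mem_univ _)]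

lemma P3 (i : I0 K m) (j : I1 K m) : ∑ g : GG K m, xi0 e g i * et0 g j = 0 := by
  rw [Fintype.sum_prod_type]
  refine Finset.sum_eq_zero (fun f _ => ?_)
  rw [Fintype.sum_prod_type]
  by_cases h : pev f (e i.1) = i.2 ∧ f = j.1
  · have h1 : ∀ a, ∀ b, xi0 e (f, a, b) i * et0 (f, a, b) j =
        sg b * (kap m b a i.1 * kap m b a j.2) := by
      intro a b
      unfold xi0 et0
      rw [if_pos h.1, if_pos h.2]; ring
    rw [← two_kap_sg i.1 j.2]
    exact Finset.sum_congr rfl (fun a _ => Finset.sum_congr rfl (fun b _ => h1 a b))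
  · refine Finset.sum_eq_zero (fun a _ => Finset.sum_eq_zero (fun b _ => ?_))
    unfold xi0 et0
    by_cases h1 : pev f (e i.1) = i.2
    · have h2 : ¬ f = j.1 := fun h2 => h ⟨h1, h2⟩
      simp only [h2, if_false, mul_zero]
    · simp only [h1, if_false, zero_mul]

lemma inner_xi0 (g h : GG K m) : ∑ i, xi0 e g i * xi0 e h i =
    ∑ x, if pev g.1 (e x) = pev h.1 (e x) then kap m g.2.2 g.2.1 x * kap m h.2.2 h.2.1 x else 0 := by
  rw [Fintype.sum_prod_type]
  refine Finset.sum_congr rfl (fun x _ => ?_)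
  rw [Finset.sum_eq_single (pev g.1 (e x))]
  · unfold xi0
    rw [if_pos rfl]
    by_cases h1 : pev g.1 (e x) = pev h.1 (e x)
    · rw [if_pos h1, if_pos h1.symm]
    · rw [if_neg h1, if_neg (fun h2 => h1 h2.symm), mul_zero]
  · intro y _ hy
    unfold xi0
    rw [if_neg (fun h2 => hy h2.symm), zero_mul]
  · intro h'; exact absurd (Finset.mem_univ _) h'

lemma inner_et0 (g h : GG K m) : ∑ i, et0 g i * et0 h i =
    if g.1 = h.1 then (sg g.2.2 * sg h.2.2) * ∑ x, kap m g.2.2 g.2.1 x * kap m h.2.2 h.2.1 x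
      else 0 := by
  rw [Fintype.sum_prod_type, Finset.sum_eq_single g.1]
  · unfold et0
    by_cases h1 : g.1 = h.1
    · rw [if_pos h1, Finset.mul_sum]
      refine Finset.sum_congr rfl (fun x _ => ?_)
      rw [if_pos rfl, if_pos h1.symm]; ring
    · rw [if_neg h1]
      refine Finset.sum_eq_zero (fun x _ => ?_)
      rw [if_neg (show ¬ h.1 = (g.1, x).1 from fun h2 => h1 h2.symm), mul_zero]
  · intro y _ hy
    refine Finset.sum_eq_zero (fun x _ => ?_)
    unfold et0
    rw [if_neg (fun h2 => hy h2.symm), zero_mul]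
  · intro h'; exact absurd (Finset.mem_univ _) h'

lemma kap_sq_sum (b : Bool) (a : Fin m → Fin 4) : ∑ x, kap m b a x * kap m b a x = 1 := by
  rw [kap_row, if_pos rfl]

lemma N1 (g : GG K m) : ∑ i, xi0 e g i ^ 2 = 1 := by
  have h1 := inner_xi0 e g g
  simp only [if_true, kap_sq_sum] at h1
  rw [← h1]
  exact Finset.sum_congr rfl (fun i _ => sq _)

lemma N2 (g : GG K m) : ∑ i, et0 g i ^ 2 = 1 := by
  have h1 := inner_et0 g g
  rw [if_pos rfl, kap_sq_sum, sg_sq, mul_one] at h1
  rw [← h1]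
  exact Finset.sum_congr rfl (fun i _ => sq _)

lemma kap_inner (b b' : Bool) (a a' : Fin m → Fin 4) (h : (a, b) ≠ (a', b')) :
    |∑ x, kap m b a x * kap m b' a' x| ≤ (1 / 2) ^ m := by
  by_cases hb : b = b'
  · subst hb
    have ha : a ≠ a' := fun ha => h (by rw [ha])
    rw [kap_row, if_neg ha, abs_zero]
    positivity
  · exact kap_mix m b b' hb a a'

lemma C1 (hm : 4 ≤ m) (g h : GG K m) (hgh : g ≠ h) : |∑ i, xi0 e g i * xi0 e h i| ≤ (1 / 2) ^ m := by
  rw [inner_xi0]
  by_cases hf : g.1 = h.1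
  · simp only [hf, if_true]
    refine kap_inner _ _ _ _ (fun h1 => hgh ?_)
    exact Prod.ext hf h1
  · rw [← Finset.sum_filter]
    have hc : (Finset.univ.filter (fun x : Fin m → Fin 4 =>
        pev g.1 (e x) = pev h.1 (e x))).card ≤ 14 := by
      refine le_trans ?_ (pev_agree g.1 h.1 hf)
      refine Finset.card_le_card_of_injOn e (fun x hx => ?_) e.injective.injOn
      rw [Finset.mem_coe, Finset.mem_filter] at hx ⊢
      exact ⟨Finset.mem_univ _, hx.2⟩
    calc _ ≤ ∑ x ∈ Finset.univ.filter (fun x : Fin m → Fin 4 => pev g.1 (e x) = pev h.1 (e x)),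
          ((1 / 2 : ℝ) ^ m * (1 / 2) ^ m) := by
          refine (Finset.abs_sum_le_sum_abs _ _).trans (Finset.sum_le_sum (fun x _ => ?_))
          rw [abs_mul, abs_kap, abs_kap]
      _ ≤ 14 * ((1 / 2 : ℝ) ^ m * (1 / 2) ^ m) := by
          rw [Finset.sum_const, nsmul_eq_mul]
          refine mul_le_mul_of_nonneg_right ?_ (by positivity)
          exact_mod_cast hc
      _ ≤ (1 / 2) ^ m := by
          have h1 : (1 / 2 : ℝ) ^ m ≤ (1 / 2) ^ 4 :=
            pow_le_pow_of_le_one (by norm_num) (by norm_num) hm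
          have h2 : (0 : ℝ) < (1 / 2) ^ m := by positivity
          nlinarith

lemma C2 (g h : GG K m) (hgh : g ≠ h) : |∑ i, et0 g i * et0 h i| ≤ (1 / 2) ^ m := by
  rw [inner_et0]
  by_cases hf : g.1 = h.1
  · rw [if_pos hf, abs_mul]
    have h1 : |sg g.2.2 * sg h.2.2| = 1 := by
      cases g.2.2 <;> cases h.2.2 <;> simp [sg]
    rw [h1, one_mul]
    refine kap_inner _ _ _ _ (fun h1 => hgh ?_)
    exact Prod.ext hf h1
  · rw [if_neg hf, abs_zero]
    positivity

lemma S1 (g : GG K m) (i : I0 K m) : |xi0 e g i| ≤ (1 / 2) ^ m := by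
  unfold xi0
  split_ifs
  · rw [abs_kap]
  · rw [abs_zero]; positivity

lemma S2 (g : GG K m) : ∑ i, |et0 g i| ≤ 2 ^ m := by
  rw [Fintype.sum_prod_type, Finset.sum_eq_single g.1]
  · have h1 : ∀ x, |et0 g (g.1, x)| = (1 / 2) ^ m := by
      intro x
      unfold et0
      rw [if_pos rfl, abs_mul, abs_kap]
      cases g.2.2 <;> simp [sg]
    rw [Finset.sum_congr rfl (fun x _ => h1 x), Finset.sum_const, Finset.card_univ,
      Fintype.card_pi, Finset.prod_const, Fintype.card_fin, Finset.card_univ, Fintype.card_fin,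
      nsmul_eq_mul]
    push_cast
    rw [← mul_pow]
    norm_num
  · intro y _ hy
    refine Finset.sum_eq_zero (fun x _ => ?_)
    unfold et0
    rw [if_neg (fun h2 => hy h2.symm), abs_zero]
  · intro h'; exact absurd (Finset.mem_univ _) h'

end Step

/-- The properties of one step. -/
structure StepProps (s s' r : ℕ) (m : ℕ) (ξ : Fin r → Fin s → ℝ) (η : Fin r → Fin s' → ℝ) :
    Prop where
  hξξ : ∀ i j, ∑ g, ξ g i * ξ g j = if i = j then (r : ℝ) / s else 0
  hηη : ∀ i j, ∑ g, η g i * η g j = if i = j then (r : ℝ) / s' else 0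
  hξη : ∀ i j, ∑ g, ξ g i * η g j = 0
  nξ : ∀ g, ∑ i, ξ g i ^ 2 = 1
  nη : ∀ g, ∑ i, η g i ^ 2 = 1
  cξ : ∀ g h, g ≠ h → |∑ i, ξ g i * ξ h i| ≤ (1 / 2) ^ m
  cη : ∀ g h, g ≠ h → |∑ i, η g i * η h i| ≤ (1 / 2) ^ m
  sξ : ∀ g i, |ξ g i| ≤ (1 / 2) ^ m
  sη : ∀ g, ∑ i, |η g i| ≤ 2 ^ m

theorem step (m : ℕ) (hm : 4 ≤ m) : ∃ (ξ : Fin (2 * 16 ^ (8 * m)) → Fin (16 ^ m) → ℝ)
    (η : Fin (2 * 16 ^ (8 * m)) → Fin (16 ^ (8 * m)) → ℝ),
    StepProps (16 ^ m) (16 ^ (8 * m)) (2 * 16 ^ (8 * m)) m ξ η := by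
  classical
  let K := GaloisField 2 (2 * m)
  letI : Fintype K := Fintype.ofFinite K
  have hK : Fintype.card K = 4 ^ m := by
    rw [← Nat.card_eq_fintype_card, GaloisField.card 2 (2 * m) (by omega), pow_mul]
    norm_num
  have hS : Fintype.card (Fin m → Fin 4) = 4 ^ m := by simp
  let e : (Fin m → Fin 4) ≃ K := Fintype.equivOfCardEq (by rw [hK, hS])
  have e16 : (16 : ℕ) ^ m = 4 ^ m * 4 ^ m := by
    rw [← mul_pow]; norm_num
  have e168 : (16 : ℕ) ^ (8 * m) = (4 ^ m) ^ 15 * 4 ^ m := by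
    rw [← pow_succ, ← pow_mul, show (16 : ℕ) = 4 ^ 2 from rfl, ← pow_mul]
    congr 1; ring
  have hP : Fintype.card (Fin 15 → K) = (4 ^ m) ^ 15 := by
    rw [Fintype.card_pi, Finset.prod_const, Finset.card_univ, Fintype.card_fin, hK]
  let eG : GG K m ≃ Fin (2 * 16 ^ (8 * m)) := Fintype.equivOfCardEq (by
    rw [Fintype.card_prod, Fintype.card_prod, hP, hS, Fintype.card_bool, Fintype.card_fin, e168]
    ring)
  let eI : I0 K m ≃ Fin (16 ^ m) := Fintype.equivOfCardEq (by
    rw [Fintype.card_prod, hS, hK, Fintype.card_fin, e16])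
  let eI' : I1 K m ≃ Fin (16 ^ (8 * m)) := Fintype.equivOfCardEq (by
    rw [Fintype.card_prod, hS, hP, Fintype.card_fin, e168])
  refine ⟨fun g i => xi0 e (eG.symm g) (eI.symm i), fun g i => et0 (eG.symm g) (eI'.symm i), ?_⟩
  constructor
  · intro i j
    rw [eG.symm.sum_comp (fun g => xi0 e g (eI.symm i) * xi0 e g (eI.symm j)), P1]
    simp only [EmbeddingLike.apply_eq_iff_eq]
    split_ifs
    · rw [hP, hK, e16, e168]
      push_cast
      have : (4 : ℝ) ^ m ≠ 0 := by positivity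
      field_simp
    · rfl
  · intro i j
    rw [eG.symm.sum_comp (fun g => et0 g (eI'.symm i) * et0 g (eI'.symm j)), P2]
    simp only [EmbeddingLike.apply_eq_iff_eq]
    split_ifs
    · push_cast
      have : (16 : ℝ) ^ (8 * m) ≠ 0 := by positivity
      field_simp
    · rfl
  · intro i j
    rw [eG.symm.sum_comp (fun g => xi0 e g (eI.symm i) * et0 g (eI'.symm j)), P3]
  · intro g
    rw [eI.symm.sum_comp (fun i => xi0 e (eG.symm g) i ^ 2), N1]
  · intro g
    rw [eI'.symm.sum_comp (fun i => et0 (eG.symm g) i ^ 2), N2]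
  · intro g h hgh
    rw [eI.symm.sum_comp (fun i => xi0 e (eG.symm g) i * xi0 e (eG.symm h) i)]
    exact C1 e hm _ _ (fun h1 => hgh (eG.symm.injective h1))
  · intro g h hgh
    rw [eI'.symm.sum_comp (fun i => et0 (eG.symm g) i * et0 (eG.symm h) i)]
    exact C2 _ _ (fun h1 => hgh (eG.symm.injective h1))
  · intro g i
    exact S1 e _ _
  · intro g
    rw [eI'.symm.sum_comp (fun i => |et0 (eG.symm g) i|)]
    exact S2 _

end Pool.Agent.Helper362.Hap
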