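import Pool.Agent.Helper362.HapE
import Pool.Agent.Helper362.HapG
set_option autoImplicit false
open Filter
open scoped Topology

namespace Pool.Agent.Helper362.Hap

/-- The exponents. -/
def mm : ℕ → ℕ
  | 0 => 8
  | k + 1 => 8 * mm k

lemma mm_eq (k : ℕ) : mm k = 8 ^ (k + 1) := by
  induction k with
  | zero => rfl
  | succ k ih => rw [mm, ih]; ring

lemma four_le_mm (k : ℕ) : 4 ≤ mm k := by
  rw [mm_eq]
  calc 4 ≤ 8 ^ 1 := by norm_num
    _ ≤ 8 ^ (k + 1) := Nat.pow_le_pow_right (by norm_num) (by omega)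

lemma succ_le_two_pow (k : ℕ) : k + 1 ≤ 2 ^ k := Nat.succ_le_of_lt Nat.lt_two_pow_self

lemma exp_bound (k : ℕ) : 4 ^ (k + 1) * k + 1 ≤ 8 ^ (k + 1) := by
  have h1 := succ_le_two_pow k
  have h2 : (8 : ℕ) ^ (k + 1) = 2 * 2 ^ k * 4 ^ (k + 1) := by
    rw [show (8 : ℕ) = 2 * 4 by norm_num, mul_pow]; ring
  have h3 : 0 < 4 ^ (k + 1) := by positivity
  rw [h2]
  nlinarith

lemma exp_bound2 (k : ℕ) : 3 * k + 1 ≤ 8 ^ (k + 1) := by
  induction k with
  | zero => norm_num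
  | succ k ih =>
    rw [pow_succ]
    omega

lemma half_two (a b : ℕ) (h : b ≤ a) : (1 / 2 : ℝ) ^ a * 2 ^ b ≤ 1 := by
  obtain ⟨c, rfl⟩ := Nat.exists_eq_add_of_le h
  rw [pow_add]
  have h1 : (1 / 2 : ℝ) ^ b * 2 ^ b = 1 := by rw [← mul_pow]; norm_num
  calc (1 / 2 : ℝ) ^ b * (1 / 2) ^ c * 2 ^ b = ((1 / 2 : ℝ) ^ b * 2 ^ b) * (1 / 2) ^ c := by ring
    _ = (1 / 2) ^ c := by rw [h1, one_mul]
    _ ≤ 1 := pow_le_one₀ (by norm_num) (by norm_num)

noncomputable def xiD (k : ℕ) : Fin (2 * 16 ^ (8 * mm k)) → Fin (16 ^ mm k) → ℝ :=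
  Classical.choose (step (mm k) (four_le_mm k))

noncomputable def etD (k : ℕ) : Fin (2 * 16 ^ (8 * mm k)) → Fin (16 ^ (8 * mm k)) → ℝ :=
  Classical.choose (Classical.choose_spec (step (mm k) (four_le_mm k)))

lemma propsD (k : ℕ) : StepProps (16 ^ mm k) (16 ^ (8 * mm k)) (2 * 16 ^ (8 * mm k)) (mm k)
    (xiD k) (etD k) :=
  Classical.choose_spec (Classical.choose_spec (step (mm k) (four_le_mm k)))

lemma glueD (k : ℕ) (g : Fin (2 * 16 ^ (8 * mm k))) (h : Fin (2 * 16 ^ (8 * mm (k + 1)))) :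
    |∑ i, etD k g i * xiD (k + 1) h i| ≤ (1 / 2) ^ (7 * mm k) := by
  calc |∑ i, etD k g i * xiD (k + 1) h i| ≤ ∑ i, |etD k g i| * (1 / 2) ^ (8 * mm k) := by
        refine (Finset.abs_sum_le_sum_abs _ _).trans (Finset.sum_le_sum (fun i _ => ?_))
        rw [abs_mul]
        exact mul_le_mul_of_nonneg_left ((propsD (k + 1)).sξ h i) (abs_nonneg _)
    _ = (∑ i, |etD k g i|) * (1 / 2) ^ (8 * mm k) := by rw [Finset.sum_mul]
    _ ≤ 2 ^ mm k * (1 / 2) ^ (8 * mm k) :=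
        mul_le_mul_of_nonneg_right ((propsD k).sη g) (by positivity)
    _ = (1 / 2) ^ (7 * mm k) := by
        have h1 : 8 * mm k = 7 * mm k + mm k := by ring
        have h2 : (1 / 2 : ℝ) ^ mm k * 2 ^ mm k = 1 := by rw [← mul_pow]; norm_num
        rw [h1, pow_add]
        calc _ = (1 / 2 : ℝ) ^ (7 * mm k) * ((1 / 2 : ℝ) ^ mm k * 2 ^ mm k) := by ring
          _ = _ := by rw [h2, mul_one]

/-- The data. -/
noncomputable def dat : Data where
  s k := 16 ^ mm k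
  r k := 2 * 16 ^ (8 * mm k)
  ρ k := 2 ^ (4 ^ (k + 1))
  μ k := (1 / 2) ^ mm k
  γ k := (1 / 2) ^ (7 * mm k)
  ξ := xiD
  η := etD
  s_pos k := by positivity
  r_pos k := by positivity
  hξξ k := (propsD k).hξξ
  hηη k := (propsD k).hηη
  hξη k := (propsD k).hξη
  nξ k := (propsD k).nξ
  nη k := (propsD k).nη
  cξ k := (propsD k).cξ
  cη k := (propsD k).cη
  glue := glueD
  ρ_pos k := Nat.one_le_two_pow
  μ_nonneg k := by positivity
  hμ k := by
    have h1 := half_two (mm k) (4 ^ (k + 1) * k + 1) (by rw [mm_eq]; exact exp_bound k)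
    have h2 : (((2 ^ (4 ^ (k + 1)) : ℕ) : ℝ)) ^ k = 2 ^ (4 ^ (k + 1) * k) := by
      rw [Nat.cast_pow, ← pow_mul]; norm_num
    rw [h2]
    rw [pow_succ] at h1
    have h3 : (1 : ℝ) ≤ 2 ^ (4 ^ (k + 1) * k) := one_le_pow₀ (by norm_num)
    have h4 : (0 : ℝ) < (1 / 2) ^ mm k := by positivity
    nlinarith
  own k := by
    have h0 : 3 * k + 4 ^ (k + 1) * k + 2 ≤ 2 * mm k := by
      rw [mm_eq]
      have := exp_bound k
      have := exp_bound2 k
      omega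
    have h1 := half_two (2 * mm k) (3 * k + 4 ^ (k + 1) * k + 2) h0
    have h2 : (((2 ^ (4 ^ (k + 1)) : ℕ) : ℝ)) ^ k = 2 ^ (4 ^ (k + 1) * k) := by
      rw [Nat.cast_pow, ← pow_mul]; norm_num
    have h3 : (8 : ℝ) ^ k = 2 ^ (3 * k) := by rw [pow_mul]; norm_num
    rw [h2, h3]
    refine le_trans (le_of_eq ?_) h1
    rw [pow_add, pow_add, mul_pow, ← pow_mul, mul_comm (mm k) 2]
    ring
  up k := by
    have h0 : 3 * (k + 1) + 4 ^ (k + 1 + 1) * (k + 1) ≤ 14 * mm k := by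
      rw [mm_eq]
      have h1 := exp_bound (k + 1)
      have h2 := exp_bound2 (k + 1)
      have h3 : (8 : ℕ) ^ (k + 1 + 1) = 8 * 8 ^ (k + 1) := by ring
      have h4 : 3 * (k + 1) ≤ 6 * 8 ^ (k + 1) := by
        have := exp_bound2 k
        omega
      omega
    have h1 := half_two (14 * mm k) (3 * (k + 1) + 4 ^ (k + 1 + 1) * (k + 1)) h0
    have h2 : (((2 ^ (4 ^ (k + 1 + 1)) : ℕ) : ℝ)) ^ (k + 1) = 2 ^ (4 ^ (k + 1 + 1) * (k + 1)) := by
      rw [Nat.cast_pow, ← pow_mul]; norm_num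
    have h3 : (8 : ℝ) ^ (k + 1) = 2 ^ (3 * (k + 1)) := by rw [pow_mul]; norm_num
    rw [h2, h3]
    refine le_trans (le_of_eq ?_) h1
    have h5 : 14 * mm k = 7 * mm k * 2 := by ring
    rw [pow_add (2 : ℝ) (3 * (k + 1)), ← pow_mul, h5]
  down k := by
    have h0 : 3 * k + 4 ^ (k + 1) * k ≤ 14 * mm k := by
      rw [mm_eq]
      have := exp_bound k
      have := exp_bound2 k
      omega
    have h1 := half_two (14 * mm k) (3 * k + 4 ^ (k + 1) * k) h0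
    have h2 : (((2 ^ (4 ^ (k + 1)) : ℕ) : ℝ)) ^ k = 2 ^ (4 ^ (k + 1) * k) := by
      rw [Nat.cast_pow, ← pow_mul]; norm_num
    have h3 : (8 : ℝ) ^ k = 2 ^ (3 * k) := by rw [pow_mul]; norm_num
    rw [h2, h3]
    refine le_trans (le_of_eq ?_) h1
    have h5 : 14 * mm k = 7 * mm k * 2 := by ring
    rw [pow_add (2 : ℝ) (3 * k), ← pow_mul, h5]
  hs := by
    have h1 : Tendsto (fun k : ℕ => (1 / 8 : ℝ) ^ k) atTop (𝓝 0) :=
      tendsto_pow_atTop_nhds_zero_of_lt_one (by norm_num) (by norm_num)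
    refine squeeze_zero (fun k => by positivity) (fun k => ?_) h1
    rw [div_le_iff₀ (by positivity)]
    have h2 : (16 : ℝ) ^ k ≤ ((16 ^ mm k : ℕ) : ℝ) := by
      rw [Nat.cast_pow]
      have h3 : k ≤ mm k := by
        rw [mm_eq]
        have := exp_bound2 k
        omega
      exact_mod_cast Nat.pow_le_pow_right (by norm_num) h3
    calc (2 : ℝ) ^ k = (1 / 8) ^ k * 16 ^ k := by rw [← mul_pow]; norm_num
      _ ≤ _ := mul_le_mul_of_nonneg_left h2 (by positivity)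
  hN k n hn := by
    have h0 : 3 + 2 * k + 4 ^ k ≤ 4 ^ (k + 1) := by
      have h1 : 2 * k + 3 ≤ 3 * 4 ^ k := by
        have := succ_le_two_pow k
        have h2 : (4 : ℕ) ^ k = 2 ^ k * 2 ^ k := by rw [← mul_pow]; norm_num
        rw [h2]
        nlinarith [Nat.one_le_two_pow (n := k)]
      rw [pow_succ]; omega
    have h1 : (n : ℝ) ≤ 2 ^ (4 ^ k) := by exact_mod_cast hn
    have h2 : (2 : ℝ) ^ (3 + 2 * k + 4 ^ k) ≤ 2 ^ (4 ^ (k + 1)) :=
      pow_le_pow_right₀ (by norm_num) h0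
    have h3 : (2 : ℝ) ^ (3 + 2 * k + 4 ^ k) = 8 * 4 ^ k * 2 ^ (4 ^ k) := by
      rw [pow_add, pow_add, pow_mul]; norm_num
    rw [Nat.cast_pow, Nat.cast_ofNat]
    calc 6 * (4 : ℝ) ^ k * n ≤ 6 * (4 : ℝ) ^ k * 2 ^ (4 ^ k) :=
          mul_le_mul_of_nonneg_left h1 (by positivity)
      _ ≤ 8 * 4 ^ k * 2 ^ (4 ^ k) := by
          have : (0 : ℝ) < 4 ^ k * 2 ^ (4 ^ k) := by positivity
          nlinarith
      _ ≤ _ := by rw [← h3]; exact h2

end Pool.Agent.Helper362.Hap
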