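import Pool.Agent.Helper362.IdealDefs
set_option autoImplicit false
open Module NormedSpace Filter
open scoped Topology ENNReal

universe u

namespace Pool.Agent.Helper362.Ideals

variable {𝕜 : Type} [RCLike 𝕜]

noncomputable instance bidualNACG {Y : Type u} [NormedAddCommGroup Y] [NormedSpace 𝕜 Y] :
    NormedAddCommGroup (StrongDual 𝕜 (StrongDual 𝕜 Y)) :=
  ContinuousLinearMap.toNormedAddCommGroup

noncomputable instance bidualSACG {Y : Type u} [NormedAddCommGroup Y] [NormedSpace 𝕜 Y] :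
    SeminormedAddCommGroup (StrongDual 𝕜 (StrongDual 𝕜 Y)) :=
  ContinuousLinearMap.toSeminormedAddCommGroup

noncomputable instance bidualNS {Y : Type u} [NormedAddCommGroup Y] [NormedSpace 𝕜 Y] :
    NormedSpace 𝕜 (StrongDual 𝕜 (StrongDual 𝕜 Y)) :=
  ContinuousLinearMap.toNormedSpace

section HB

variable {V : Type u} [NormedAddCommGroup V] [NormedSpace 𝕜 V]

/-- Hahn-Banach separation, with the convexity spelled out over the scalar field. -/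
lemma hb_sep (K : Set V)
    (hK : ∀ a ∈ K, ∀ b ∈ K, ∀ s t : ℝ, 0 ≤ s → 0 ≤ t → s + t = 1 →
      (s : 𝕜) • a + (t : 𝕜) • b ∈ K) (x : V) (hx : x ∉ closure K) :
    ∃ f : V →L[𝕜] 𝕜, ∃ c : ℝ, (∀ a ∈ K, RCLike.re (f a) < c) ∧ c < RCLike.re (f x) := by
  let _ : NormedSpace ℝ V := NormedSpace.restrictScalars ℝ 𝕜 V
  have _ : IsScalarTower ℝ 𝕜 V := by
    refine ⟨fun r c v => ?_⟩
    show (r • c) • v = ((algebraMap ℝ 𝕜) r) • c • v
    rw [smul_smul, Algebra.smul_def]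
  have hconv : Convex ℝ (closure K) := by
    apply Convex.closure
    intro a ha b hb s t hs ht hst
    have := hK a ha b hb s t hs ht hst
    exact this
  obtain ⟨f, c, h1, h2⟩ := RCLike.geometric_hahn_banach_closed_point (𝕜 := 𝕜) hconv
    isClosed_closure hx
  exact ⟨f, c, fun a ha => h1 a (subset_closure ha), h2⟩

end HB

section Space

variable (𝕜)
variable (Y : Type u) [NormedAddCommGroup Y] [NormedSpace 𝕜 Y]

/-- Convergent nets `(f s)_s`, indexed by the finite subsets `s` of `Y`, with `f s ∈ span s`. -/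
def netSub : Submodule 𝕜 (lp (fun _ : Finset Y => Y) ∞ × Y) where
  carrier := {p | (∀ s : Finset Y, p.1 s ∈ Submodule.span 𝕜 (s : Set Y)) ∧
    Tendsto (fun s : Finset Y => p.1 s) atTop (𝓝 p.2)}
  add_mem' := by
    rintro a b ⟨ha1, ha2⟩ ⟨hb1, hb2⟩
    exact ⟨fun s => Submodule.add_mem _ (ha1 s) (hb1 s), ha2.add hb2⟩
  zero_mem' := ⟨fun s => Submodule.zero_mem _, tendsto_const_nhds⟩
  smul_mem' := by
    rintro c a ⟨ha1, ha2⟩
    exact ⟨fun s => Submodule.smul_mem _ c (ha1 s), ha2.const_smul c⟩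

lemma mem_netSub (p : lp (fun _ : Finset Y => Y) ∞ × Y) : p ∈ netSub 𝕜 Y ↔
    (∀ s : Finset Y, p.1 s ∈ Submodule.span 𝕜 (s : Set Y)) ∧
      Tendsto (fun s : Finset Y => p.1 s) atTop (𝓝 p.2) := Iff.rfl

instance fdSpan (s : Finset Y) : FiniteDimensional 𝕜 (Submodule.span 𝕜 (s : Set Y)) :=
  FiniteDimensional.span_of_finite 𝕜 s.finite_toSet

lemma isClosed_netSub : IsClosed (netSub 𝕜 Y : Set (lp (fun _ : Finset Y => Y) ∞ × Y)) := by
  refine IsSeqClosed.isClosed ?_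
  intro x p hx hp
  have hn : ∀ ε : ℝ, 0 < ε → ∃ n, ‖x n - p‖ < ε := by
    intro ε hε
    obtain ⟨n, hn⟩ := (Metric.tendsto_atTop.mp hp ε hε)
    exact ⟨n, by rw [← dist_eq_norm]; exact hn n le_rfl⟩
  have h1 : ∀ (n : ℕ) (s : Finset Y), ‖(x n).1 s - p.1 s‖ ≤ ‖x n - p‖ := by
    intro n s
    calc ‖(x n).1 s - p.1 s‖ = ‖((x n).1 - p.1) s‖ := rfl
      _ ≤ ‖(x n).1 - p.1‖ := lp.norm_apply_le_norm (by simp) _ s
      _ ≤ ‖x n - p‖ := norm_fst_le (x n - p)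
  have h2 : ∀ (n : ℕ), ‖(x n).2 - p.2‖ ≤ ‖x n - p‖ := fun n => norm_snd_le (x n - p)
  show p ∈ netSub 𝕜 Y
  rw [mem_netSub]
  constructor
  · intro s
    have hcl : IsClosed (Submodule.span 𝕜 (s : Set Y) : Set Y) :=
      Submodule.closed_of_finiteDimensional _
    have : Tendsto (fun n => (x n).1 s) atTop (𝓝 (p.1 s)) := by
      rw [tendsto_iff_norm_sub_tendsto_zero]
      refine squeeze_zero (fun n => norm_nonneg _) (fun n => h1 n s) ?_
      exact tendsto_iff_norm_sub_tendsto_zero.mp hp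
    exact hcl.mem_of_tendsto this (Eventually.of_forall (fun n => (hx n).1 s))
  · rw [Metric.tendsto_nhds]
    intro ε hε
    obtain ⟨n, hn⟩ := hn (ε / 3) (by linarith)
    have h3 := (Metric.tendsto_nhds.mp (hx n).2) (ε / 3) (by linarith)
    filter_upwards [h3] with s hs
    rw [dist_eq_norm] at hs ⊢
    have h4 := h1 n s
    have h5 := h2 n
    calc ‖p.1 s - p.2‖ = ‖-((x n).1 s - p.1 s) + ((x n).1 s - (x n).2) + ((x n).2 - p.2)‖ := by
          congr 1; abel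
      _ ≤ ‖-((x n).1 s - p.1 s)‖ + ‖(x n).1 s - (x n).2‖ + ‖(x n).2 - p.2‖ := norm_add₃_le
      _ < ε := by rw [norm_neg]; linarith

/-- The Banach space of these nets. -/
def NS : Type u := ↥(netSub 𝕜 Y)

noncomputable instance : NormedAddCommGroup (NS 𝕜 Y) :=
  inferInstanceAs (NormedAddCommGroup (netSub 𝕜 Y))

noncomputable instance : NormedSpace 𝕜 (NS 𝕜 Y) :=
  inferInstanceAs (NormedSpace 𝕜 (netSub 𝕜 Y))

instance [CompleteSpace Y] : CompleteSpace (NS 𝕜 Y) :=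
  (isClosed_netSub 𝕜 Y).completeSpace_coe

/-- the limit map -/
noncomputable def limQ : NS 𝕜 Y →L[𝕜] Y :=
  (ContinuousLinearMap.snd 𝕜 (lp (fun _ : Finset Y => Y) ∞) Y) ∘L (netSub 𝕜 Y).subtypeL

/-- evaluation at a finite set -/
noncomputable def ev (s : Finset Y) : NS 𝕜 Y →L[𝕜] Submodule.span 𝕜 (s : Set Y) :=
  LinearMap.mkContinuous
    { toFun := fun p => ⟨p.1.1 s, p.2.1 s⟩
      map_add' := fun _ _ => rfl
      map_smul' := fun _ _ => rfl } 1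
    (fun p => by
      rw [one_mul]
      show ‖p.1.1 s‖ ≤ ‖p.1‖
      exact (lp.norm_apply_le_norm (by simp) _ s).trans (norm_fst_le p.1))

lemma norm_ev_le (s : Finset Y) : ‖ev 𝕜 Y s‖ ≤ 1 :=
  LinearMap.mkContinuous_norm_le _ zero_le_one _

lemma tendsto_ev (p : NS 𝕜 Y) :
    Tendsto (fun s : Finset Y => ((ev 𝕜 Y s p : Submodule.span 𝕜 (s : Set Y)) : Y)) atTop
      (𝓝 (limQ 𝕜 Y p)) := p.2.2

open scoped Classical in
/-- a tail-constant net -/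
noncomputable def kap (s : Finset Y) (m : Y) (hm : m ∈ Submodule.span 𝕜 (s : Set Y)) : NS 𝕜 Y :=
  ⟨⟨⟨fun t => if s ⊆ t then m else 0, by
      refine memℓp_infty ⟨‖m‖, ?_⟩
      rintro _ ⟨t, rfl⟩
      show ‖(if s ⊆ t then m else 0 : Y)‖ ≤ ‖m‖
      split_ifs
      · exact le_rfl
      · rw [norm_zero]; exact norm_nonneg _⟩, m⟩, by
    rw [mem_netSub]
    refine ⟨fun t => ?_, ?_⟩
    · show (if s ⊆ t then m else 0 : Y) ∈ _
      split_ifs with h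
      · exact Submodule.span_mono (by exact_mod_cast h) hm
      · exact Submodule.zero_mem _
    · refine tendsto_const_nhds.congr' ?_
      filter_upwards [eventually_ge_atTop s] with t ht
      show m = if s ⊆ t then m else 0
      rw [if_pos ht]⟩

lemma limQ_kap (s : Finset Y) (m : Y) (hm : m ∈ Submodule.span 𝕜 (s : Set Y)) :
    limQ 𝕜 Y (kap 𝕜 Y s m hm) = m := rfl

open scoped Classical in
lemma norm_kap_le (s : Finset Y) (m : Y) (hm : m ∈ Submodule.span 𝕜 (s : Set Y)) :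
    ‖kap 𝕜 Y s m hm‖ ≤ ‖m‖ := by
  show ‖(kap 𝕜 Y s m hm).1‖ ≤ ‖m‖
  rw [Prod.norm_def]
  refine max_le ?_ le_rfl
  refine lp.norm_le_of_forall_le (norm_nonneg _) (fun t => ?_)
  show ‖(if s ⊆ t then m else 0 : Y)‖ ≤ ‖m‖
  split_ifs
  · exact le_rfl
  · rw [norm_zero]; exact norm_nonneg _

lemma kap_ext (p q : NS 𝕜 Y) (h : ∀ t, p.1.1 t = q.1.1 t) (h2 : p.1.2 = q.1.2) : p = q := by
  apply Subtype.ext
  refine Prod.ext ?_ h2
  apply lp.ext
  funext t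
  exact h t

open scoped Classical in
lemma kap_add (s : Finset Y) (m m' : Y) (hm : m ∈ Submodule.span 𝕜 (s : Set Y))
    (hm' : m' ∈ Submodule.span 𝕜 (s : Set Y)) (h : m + m' ∈ Submodule.span 𝕜 (s : Set Y)) :
    kap 𝕜 Y s (m + m') h = kap 𝕜 Y s m hm + kap 𝕜 Y s m' hm' := by
  refine kap_ext 𝕜 Y _ _ (fun t => ?_) rfl
  show (if s ⊆ t then m + m' else 0 : Y) = (if s ⊆ t then m else 0) + (if s ⊆ t then m' else 0)
  split_ifs
  · rfl
  · rw [add_zero]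

open scoped Classical in
lemma kap_smul (s : Finset Y) (c : 𝕜) (m : Y) (hm : m ∈ Submodule.span 𝕜 (s : Set Y))
    (h : c • m ∈ Submodule.span 𝕜 (s : Set Y)) :
    kap 𝕜 Y s (c • m) h = c • kap 𝕜 Y s m hm := by
  refine kap_ext 𝕜 Y _ _ (fun t => ?_) rfl
  show (if s ⊆ t then c • m else 0 : Y) = c • (if s ⊆ t then m else 0 : Y)
  split_ifs
  · rfl
  · rw [smul_zero]

open scoped Classical in
/-- the net of values of a functional -/
noncomputable def gval (y : Y) (φ : StrongDual 𝕜 (NS 𝕜 Y)) (s : Finset Y) : 𝕜 :=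
  if h : y ∈ Submodule.span 𝕜 (s : Set Y) then φ (kap 𝕜 Y s y h) else 0

lemma gval_of_mem (y : Y) (φ : StrongDual 𝕜 (NS 𝕜 Y)) (s : Finset Y)
    (h : y ∈ Submodule.span 𝕜 (s : Set Y)) : gval 𝕜 Y y φ s = φ (kap 𝕜 Y s y h) := by
  unfold gval
  rw [dif_pos h]

lemma norm_gval_le (y : Y) (φ : StrongDual 𝕜 (NS 𝕜 Y)) (s : Finset Y) :
    ‖gval 𝕜 Y y φ s‖ ≤ ‖y‖ * ‖φ‖ := by
  unfold gval
  split_ifs with h
  · calc ‖φ (kap 𝕜 Y s y h)‖ ≤ ‖φ‖ * ‖kap 𝕜 Y s y h‖ := φ.le_opNorm _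
      _ ≤ ‖φ‖ * ‖y‖ := mul_le_mul_of_nonneg_left (norm_kap_le 𝕜 Y s y h) (norm_nonneg _)
      _ = _ := mul_comm _ _
  · rw [norm_zero]; positivity

/-- an ultrafilter on the finite subsets -/
noncomputable def UF : Ultrafilter (Finset Y) := Ultrafilter.of (atTop : Filter (Finset Y))

omit [NormedAddCommGroup Y] in
lemma UF_le : (UF Y : Filter (Finset Y)) ≤ atTop := Ultrafilter.of_le _

lemma exists_lim (y : Y) (φ : StrongDual 𝕜 (NS 𝕜 Y)) :
    ∃ c : 𝕜, Tendsto (gval 𝕜 Y y φ) (UF Y : Filter (Finset Y)) (𝓝 c) := by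
  have hc : IsCompact (Metric.closedBall (0 : 𝕜) (‖y‖ * ‖φ‖)) := isCompact_closedBall _ _
  have hm : (((UF Y).map (gval 𝕜 Y y φ) : Ultrafilter 𝕜) : Filter 𝕜) ≤
      𝓟 (Metric.closedBall (0 : 𝕜) (‖y‖ * ‖φ‖)) := by
    rw [le_principal_iff]
    refine Filter.mem_map.mpr (Filter.Eventually.of_forall (fun s => ?_))
    rw [Metric.mem_closedBall, dist_zero_right]
    exact norm_gval_le 𝕜 Y y φ s
  obtain ⟨c, _, hc⟩ := hc.ultrafilter_le_nhds _ hm
  exact ⟨c, hc⟩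

/-- the limit -/
noncomputable def glim (y : Y) (φ : StrongDual 𝕜 (NS 𝕜 Y)) : 𝕜 :=
  Classical.choose (exists_lim 𝕜 Y y φ)

lemma tendsto_glim (y : Y) (φ : StrongDual 𝕜 (NS 𝕜 Y)) :
    Tendsto (gval 𝕜 Y y φ) (UF Y : Filter (Finset Y)) (𝓝 (glim 𝕜 Y y φ)) :=
  Classical.choose_spec (exists_lim 𝕜 Y y φ)

lemma eventually_mem (y : Y) :
    ∀ᶠ s : Finset Y in (UF Y : Filter (Finset Y)), y ∈ Submodule.span 𝕜 (s : Set Y) := by
  refine (UF_le Y) ?_
  filter_upwards [eventually_ge_atTop ({y} : Finset Y)] with s hs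
  exact Submodule.subset_span (hs (Finset.mem_singleton_self y))

/-- the map into the bidual -/
noncomputable def lamL : Y →ₗ[𝕜] StrongDual 𝕜 (NS 𝕜 Y) →ₗ[𝕜] 𝕜 :=
  LinearMap.mk₂ 𝕜 (glim 𝕜 Y)
    (fun y y' φ => by
      refine tendsto_nhds_unique (tendsto_glim 𝕜 Y (y + y') φ) ?_
      refine ((tendsto_glim 𝕜 Y y φ).add (tendsto_glim 𝕜 Y y' φ)).congr' ?_
      filter_upwards [eventually_mem 𝕜 Y y, eventually_mem 𝕜 Y y'] with s h1 h2
      rw [gval_of_mem 𝕜 Y _ φ s h1, gval_of_mem 𝕜 Y _ φ s h2,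
        gval_of_mem 𝕜 Y _ φ s (Submodule.add_mem _ h1 h2), kap_add 𝕜 Y s y y' h1 h2, map_add])
    (fun c y φ => by
      refine tendsto_nhds_unique (tendsto_glim 𝕜 Y (c • y) φ) ?_
      refine ((tendsto_glim 𝕜 Y y φ).const_smul c).congr' ?_
      filter_upwards [eventually_mem 𝕜 Y y] with s h1
      rw [gval_of_mem 𝕜 Y _ φ s h1, gval_of_mem 𝕜 Y _ φ s (Submodule.smul_mem _ c h1),
        kap_smul 𝕜 Y s c y h1, map_smul])
    (fun y φ ψ => by
      refine tendsto_nhds_unique (tendsto_glim 𝕜 Y y (φ + ψ)) ?_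
      refine ((tendsto_glim 𝕜 Y y φ).add (tendsto_glim 𝕜 Y y ψ)).congr' ?_
      filter_upwards [eventually_mem 𝕜 Y y] with s h1
      rw [gval_of_mem 𝕜 Y _ φ s h1, gval_of_mem 𝕜 Y _ ψ s h1, gval_of_mem 𝕜 Y _ (φ + ψ) s h1]
      rfl)
    (fun c y φ => by
      refine tendsto_nhds_unique (tendsto_glim 𝕜 Y y (c • φ)) ?_
      refine ((tendsto_glim 𝕜 Y y φ).const_smul c).congr' ?_
      filter_upwards [eventually_mem 𝕜 Y y] with s h1
      rw [gval_of_mem 𝕜 Y _ φ s h1, gval_of_mem 𝕜 Y _ (c • φ) s h1]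
      rfl)

lemma norm_glim_le (y : Y) (φ : StrongDual 𝕜 (NS 𝕜 Y)) : ‖glim 𝕜 Y y φ‖ ≤ 1 * ‖y‖ * ‖φ‖ := by
  rw [one_mul]
  exact le_of_tendsto (tendsto_glim 𝕜 Y y φ).norm
    (Eventually.of_forall (fun s => norm_gval_le 𝕜 Y y φ s))

noncomputable def lam : Y →L[𝕜] StrongDual 𝕜 (StrongDual 𝕜 (NS 𝕜 Y)) :=
  LinearMap.mkContinuous₂ (lamL 𝕜 Y) 1 (norm_glim_le 𝕜 Y)

lemma norm_lam_le : ‖lam 𝕜 Y‖ ≤ 1 := LinearMap.mkContinuous₂_norm_le _ zero_le_one _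

/-- the same map, with values in the bidual -/
noncomputable def lamB : Y →L[𝕜] Bidual 𝕜 (NS 𝕜 Y) := lam 𝕜 Y

lemma norm_lamB_le : ‖lamB 𝕜 Y‖ ≤ 1 := norm_lam_le 𝕜 Y

lemma lam_comp (y : Y) (f : StrongDual 𝕜 Y) : lam 𝕜 Y y (f ∘L limQ 𝕜 Y) = f y := by
  show glim 𝕜 Y y (f ∘L limQ 𝕜 Y) = f y
  refine tendsto_nhds_unique (tendsto_glim 𝕜 Y y _) ?_
  refine (tendsto_const_nhds (x := f y)).congr' ?_
  filter_upwards [eventually_mem 𝕜 Y y] with s h1
  rw [gval_of_mem 𝕜 Y _ _ s h1]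
  rfl

end Space

end Pool.Agent.Helper362.Ideals
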