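import Pool.Agent.Helper362.IdealA
set_option autoImplicit false
open Module NormedSpace Filter
open scoped Topology ENNReal

universe u

namespace Pool.Agent.Helper362.Ideals

variable {𝕜 : Type} [RCLike 𝕜]

namespace BanachIdeal

variable (I : BanachIdeal.{u} 𝕜)

section Basic

variable {X Y Z E : Type u} [NormedAddCommGroup X] [NormedSpace 𝕜 X] [CompleteSpace X]
  [NormedAddCommGroup Y] [NormedSpace 𝕜 Y] [CompleteSpace Y]
  [NormedAddCommGroup Z] [NormedSpace 𝕜 Z] [CompleteSpace Z]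
  [NormedAddCommGroup E] [NormedSpace 𝕜 E] [CompleteSpace E] [FiniteDimensional 𝕜 E]

lemma mem_fd (T : E →L[𝕜] Y) : T ∈ I.mem E Y :=
  I.finiteRank_mem T inferInstance

lemma nrm_nonneg (T : X →L[𝕜] Y) (hT : T ∈ I.mem X Y) : 0 ≤ I.nrm T :=
  (norm_nonneg T).trans (I.norm_le_nrm T hT)

lemma nrm_comp_left (T : X →L[𝕜] Y) (hT : T ∈ I.mem X Y) (R : Y →L[𝕜] Z) :
    I.nrm (R ∘L T) ≤ ‖R‖ * I.nrm T := by
  have h := I.nrm_comp_le (ContinuousLinearMap.id 𝕜 X) T R hT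
  rw [ContinuousLinearMap.comp_id] at h
  refine h.trans ?_
  have h1 : ‖ContinuousLinearMap.id 𝕜 X‖ ≤ 1 := ContinuousLinearMap.norm_id_le
  have h2 : 0 ≤ ‖R‖ * I.nrm T := mul_nonneg (norm_nonneg _) (I.nrm_nonneg T hT)
  nlinarith

lemma nrm_comp_left_le (T : X →L[𝕜] Y) (hT : T ∈ I.mem X Y) (R : Y →L[𝕜] Z) (hR : ‖R‖ ≤ 1) :
    I.nrm (R ∘L T) ≤ I.nrm T := by
  refine (I.nrm_comp_left T hT R).trans ?_
  have := I.nrm_nonneg T hT
  nlinarith

lemma nrm_zero : I.nrm (0 : X →L[𝕜] Y) = 0 := by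
  have h := I.nrm_smul (0 : 𝕜) (0 : X →L[𝕜] Y) (Submodule.zero_mem _)
  rw [zero_smul, norm_zero, zero_mul] at h
  exact h

lemma nrm_sum_le {ι : Type} (s : Finset ι) (T : ι → X →L[𝕜] Y) (hT : ∀ i, T i ∈ I.mem X Y) :
    I.nrm (∑ i ∈ s, T i) ≤ ∑ i ∈ s, I.nrm (T i) := by
  classical
  induction s using Finset.induction_on with
  | empty => rw [Finset.sum_empty, Finset.sum_empty, nrm_zero]
  | insert a s ha ih =>
    rw [Finset.sum_insert ha, Finset.sum_insert ha]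
    refine (I.nrm_add_le _ _ (hT a) (Submodule.sum_mem _ (fun i _ => hT i))).trans ?_
    linarith

end Basic

end BanachIdeal

section Coord

variable (𝕜) (E : Type u) [NormedAddCommGroup E] [NormedSpace 𝕜 E] [FiniteDimensional 𝕜 E]

/-- coordinate functionals of a fixed basis -/
noncomputable def cf (i : Fin (finrank 𝕜 E)) : E →L[𝕜] 𝕜 :=
  LinearMap.toContinuousLinearMap ((Module.finBasis 𝕜 E).coord i)

lemma expand {Y : Type u} [NormedAddCommGroup Y] [NormedSpace 𝕜 Y] (D : E →L[𝕜] Y) :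
    D = ∑ i, (cf 𝕜 E i).smulRight (D (Module.finBasis 𝕜 E i)) := by
  ext x
  rw [sum_apply]
  conv_lhs => rw [← (Module.finBasis 𝕜 E).sum_repr x]
  rw [map_sum]
  refine Finset.sum_congr rfl (fun i _ => ?_)
  rw [map_smul]
  rfl

end Coord

namespace BanachIdeal

variable (I : BanachIdeal.{u} 𝕜)

lemma nrm_le_mul (E : Type u) [NormedAddCommGroup E] [NormedSpace 𝕜 E] [CompleteSpace E]
    [FiniteDimensional 𝕜 E] : ∃ C : ℝ, 0 ≤ C ∧ ∀ (Y : Type u) [NormedAddCommGroup Y]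
      [NormedSpace 𝕜 Y] [CompleteSpace Y] (D : E →L[𝕜] Y), I.nrm D ≤ C * ‖D‖ := by
  refine ⟨∑ i, ‖cf 𝕜 E i‖ * ‖Module.finBasis 𝕜 E i‖,
    Finset.sum_nonneg (fun i _ => by positivity), ?_⟩
  intro Y _ _ _ D
  conv_lhs => rw [expand 𝕜 E D]
  refine (I.nrm_sum_le _ _ (fun i => I.mem_fd _)).trans ?_
  rw [Finset.sum_mul]
  refine Finset.sum_le_sum (fun i _ => ?_)
  rw [I.nrm_rankOne]
  calc ‖cf 𝕜 E i‖ * ‖D (Module.finBasis 𝕜 E i)‖
      ≤ ‖cf 𝕜 E i‖ * (‖D‖ * ‖Module.finBasis 𝕜 E i‖) :=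
        mul_le_mul_of_nonneg_left (D.le_opNorm _) (norm_nonneg _)
    _ = _ := by ring

/-- the operators which factor through a finite-dimensional subspace with control -/
def KK (I : BanachIdeal.{u} 𝕜) (E Y : Type u) [NormedAddCommGroup E] [NormedSpace 𝕜 E]
    [CompleteSpace E] [NormedAddCommGroup Y] [NormedSpace 𝕜 Y] (r : ℝ) : Set (E →L[𝕜] Y) :=
  {R | ∃ (N : Submodule 𝕜 Y) (_ : FiniteDimensional 𝕜 N) (_ : CompleteSpace N) (S : E →L[𝕜] N),
    R = N.subtypeL ∘L S ∧ I.nrm S ≤ r}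

/-- inclusion of one subspace into another -/
noncomputable def incl {Y : Type u} [NormedAddCommGroup Y] [NormedSpace 𝕜 Y]
    (N N' : Submodule 𝕜 Y) (h : N ≤ N') : N →L[𝕜] N' :=
  (N.subtypeL).codRestrict N' (fun x => h x.2)

lemma norm_incl_le {Y : Type u} [NormedAddCommGroup Y] [NormedSpace 𝕜 Y]
    (N N' : Submodule 𝕜 Y) (h : N ≤ N') : ‖incl N N' h‖ ≤ 1 := by
  refine ContinuousLinearMap.opNorm_le_bound _ zero_le_one (fun x => ?_)
  rw [one_mul]
  exact le_rfl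

lemma KK_convex {E Y : Type u} [NormedAddCommGroup E] [NormedSpace 𝕜 E]
    [CompleteSpace E] [FiniteDimensional 𝕜 E] [NormedAddCommGroup Y] [NormedSpace 𝕜 Y]
    (r : ℝ) (a : E →L[𝕜] Y) (ha : a ∈ I.KK E Y r) (b : E →L[𝕜] Y) (hb : b ∈ I.KK E Y r)
    (s t : ℝ) (hs : 0 ≤ s) (ht : 0 ≤ t) (hst : s + t = 1) :
    (s : 𝕜) • a + (t : 𝕜) • b ∈ I.KK E Y r := by
  obtain ⟨N, hN, hNc, S, rfl, hS⟩ := ha
  obtain ⟨N', hN', hNc', S', rfl, hS'⟩ := hb
  have hc : CompleteSpace ↥(N ⊔ N') := FiniteDimensional.complete 𝕜 _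
  refine ⟨N ⊔ N', inferInstance, hc, (s : 𝕜) • (incl N (N ⊔ N') le_sup_left ∘L S) +
    (t : 𝕜) • (incl N' (N ⊔ N') le_sup_right ∘L S'), ?_, ?_⟩
  · ext x
    rfl
  · have e1 : I.nrm (incl N (N ⊔ N') le_sup_left ∘L S) ≤ r :=
      (I.nrm_comp_left_le S (I.mem_fd S) _ (norm_incl_le _ _ _)).trans hS
    have e2 : I.nrm (incl N' (N ⊔ N') le_sup_right ∘L S') ≤ r :=
      (I.nrm_comp_left_le S' (I.mem_fd S') _ (norm_incl_le _ _ _)).trans hS'
    refine (I.nrm_add_le _ _ (I.mem_fd _) (I.mem_fd _)).trans ?_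
    rw [I.nrm_smul _ _ (I.mem_fd _), I.nrm_smul _ _ (I.mem_fd _), RCLike.norm_ofReal,
      RCLike.norm_ofReal, abs_of_nonneg hs, abs_of_nonneg ht]
    calc s * _ + t * _ ≤ s * r + t * r :=
          add_le_add (mul_le_mul_of_nonneg_left e1 hs) (mul_le_mul_of_nonneg_left e2 ht)
      _ = r := by rw [← add_mul, hst, one_mul]

/-- The key step. -/
lemma mem_closure_of_LRP (h : LRP I.toIdealData) {E Y : Type u} [NormedAddCommGroup E] [NormedSpace 𝕜 E]
    [CompleteSpace E] [FiniteDimensional 𝕜 E] [NormedAddCommGroup Y] [NormedSpace 𝕜 Y]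
    [CompleteSpace Y] (T : E →L[𝕜] Y) (ε : ℝ) (hε : 0 < ε) :
    T ∈ closure (I.KK E Y ((1 + ε) * I.nrm T)) := by
  by_contra hcon
  obtain ⟨f, c, h1, h2⟩ := hb_sep (𝕜 := 𝕜) (I.KK E Y ((1 + ε) * I.nrm T))
    (I.KK_convex _) T hcon
  set g : Fin (finrank 𝕜 E) → StrongDual 𝕜 Y := fun i =>
    f ∘L (ContinuousLinearMap.smulRightL 𝕜 E Y (cf 𝕜 E i)) with hg
  have hfg : ∀ R : E →L[𝕜] Y, f R = ∑ i, g i (R (Module.finBasis 𝕜 E i)) := by
    intro R
    conv_lhs => rw [expand 𝕜 E R]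
    rw [map_sum]
    rfl
  set F : Submodule 𝕜 (StrongDual 𝕜 (NS 𝕜 Y)) :=
    Submodule.span 𝕜 (Set.range (fun i => g i ∘L limQ 𝕜 Y)) with hF
  have hFfd : FiniteDimensional 𝕜 F := FiniteDimensional.span_of_finite 𝕜 (Set.finite_range _)
  obtain ⟨S, hS1, hS2, _⟩ := h E (NS 𝕜 Y) inferInstance (lamB 𝕜 Y ∘L T) F hFfd ε hε
  have hS1' : I.nrm S ≤ (1 + ε) * I.nrm T := by
    refine hS1.trans (mul_le_mul_of_nonneg_left ?_ (by linarith))
    exact I.nrm_comp_left_le T (I.mem_fd T) (lamB 𝕜 Y) (norm_lamB_le 𝕜 Y)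
  have hS3 : ∀ i x, g i (limQ 𝕜 Y (S x)) = g i (T x) := by
    intro i x
    have e1 := hS2 x (g i ∘L limQ 𝕜 Y) (Submodule.subset_span ⟨i, rfl⟩)
    have e2 := lam_comp 𝕜 Y (T x) (g i)
    exact e1.trans e2
  have hlim : Tendsto (fun s : Finset Y => f ((Submodule.span 𝕜 (s : Set Y)).subtypeL ∘L
      (ev 𝕜 Y s ∘L S))) atTop (𝓝 (f T)) := by
    have e1 : f T = ∑ i, g i (limQ 𝕜 Y (S (Module.finBasis 𝕜 E i))) := by
      rw [hfg]
      exact Finset.sum_congr rfl (fun i _ => (hS3 i _).symm)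
    rw [e1]
    have e2 : (fun s : Finset Y => f ((Submodule.span 𝕜 (s : Set Y)).subtypeL ∘L
      (ev 𝕜 Y s ∘L S))) = fun s : Finset Y => ∑ i, g i
        ((ev 𝕜 Y s (S (Module.finBasis 𝕜 E i)) : Submodule.span 𝕜 (s : Set Y)) : Y) := by
      funext s
      rw [hfg]
      rfl
    rw [e2]
    refine tendsto_finsetSum _ (fun i _ => ?_)
    exact ((g i).continuous.tendsto _).comp (tendsto_ev 𝕜 Y (S (Module.finBasis 𝕜 E i)))
  have hle : RCLike.re (f T) ≤ c := by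
    refine le_of_tendsto ((RCLike.continuous_re.tendsto _).comp hlim)
      (Eventually.of_forall (fun s => ?_))
    refine (h1 _ ?_).le
    have hc : CompleteSpace (Submodule.span 𝕜 (s : Set Y)) := FiniteDimensional.complete 𝕜 _
    refine ⟨Submodule.span 𝕜 (s : Set Y), inferInstance, hc, ev 𝕜 Y s ∘L S, rfl, ?_⟩
    exact (I.nrm_comp_left_le S (I.mem_fd S) _ (norm_ev_le 𝕜 Y s)).trans hS1'
  linarith

/-- Local reflexivity implies right-accessibility. -/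
theorem rightAccessible_of_LRP (h : LRP I.toIdealData) : RightAccessible I.toIdealData := by
  intro E Y _ _ _ _ _ _ hE T ε hε
  by_cases hT : T = 0
  · have hc : CompleteSpace (⊥ : Submodule 𝕜 Y) := FiniteDimensional.complete 𝕜 _
    refine ⟨⊥, inferInstance, hc, Exists.intro (0 : E →L[𝕜] (⊥ : Submodule 𝕜 Y)) ⟨?_, ?_⟩⟩
    · rw [hT, ContinuousLinearMap.comp_zero]
    · show I.nrm _ ≤ (1 + ε) * I.nrm T
      rw [hT, I.nrm_zero, I.nrm_zero, mul_zero]
  · have hpos : 0 < I.nrm T := lt_of_lt_of_le (norm_pos_iff.mpr hT) (I.norm_le_nrm T (I.mem_fd T))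
    obtain ⟨C, hC0, hC⟩ := I.nrm_le_mul (𝕜 := 𝕜) E
    have hcl := I.mem_closure_of_LRP h T (ε / 2) (by linarith)
    have hδ : 0 < (ε / 2) * I.nrm T / (C + 1) := by positivity
    obtain ⟨R, ⟨N, hN, hNc, S, hRS, hS⟩, hd⟩ := Metric.mem_closure_iff.mp hcl _ hδ
    set N' : Submodule 𝕜 Y := N ⊔ LinearMap.range (T : E →ₗ[𝕜] Y) with hN'
    have hfd : FiniteDimensional 𝕜 N' := inferInstance
    have hc : CompleteSpace N' := FiniteDimensional.complete 𝕜 _
    have hTN : ∀ x, T x ∈ N' := fun x => (le_sup_right : _ ≤ N') (LinearMap.mem_range_self _ x)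
    have hRN : ∀ x, R x ∈ N' := fun x => by
      rw [hRS]
      exact (le_sup_left : _ ≤ N') (S x).2
    refine ⟨N', hfd, hc, Exists.intro (T.codRestrict N' hTN) ⟨?_, ?_⟩⟩
    · ext x
      rfl
    · set D : E →L[𝕜] N' := (T - R).codRestrict N' (fun x => Submodule.sub_mem _ (hTN x) (hRN x))
        with hD
      have hTD : T.codRestrict N' hTN = (incl N N' le_sup_left) ∘L S + D := by
        ext x
        show T x = (S x : Y) + (T x - R x)
        rw [hRS]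
        show T x = (S x : Y) + (T x - (S x : Y))
        abel
      have hDn : ‖D‖ ≤ ‖T - R‖ := by
        refine ContinuousLinearMap.opNorm_le_bound _ (norm_nonneg _) (fun x => ?_)
        exact (T - R).le_opNorm x
      have hTR : ‖T - R‖ < (ε / 2) * I.nrm T / (C + 1) := by rw [← dist_eq_norm]; exact hd
      have e1 : I.nrm D ≤ (ε / 2) * I.nrm T := by
        refine (hC _ D).trans ?_
        have h3 : C * ‖D‖ ≤ (C + 1) * ((ε / 2) * I.nrm T / (C + 1)) := by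
          refine mul_le_mul (by linarith) (hDn.trans hTR.le) (norm_nonneg _) (by linarith)
        rwa [mul_div_cancel₀ _ (by positivity : (C + 1) ≠ 0)] at h3
      rw [hTD]
      show I.nrm _ ≤ (1 + ε) * I.nrm T
      refine (I.nrm_add_le _ _ (I.mem_fd _) (I.mem_fd _)).trans ?_
      have e2 := I.nrm_comp_left_le S (I.mem_fd S) (incl N N' le_sup_left) (norm_incl_le _ _ _)
      calc _ ≤ (1 + ε / 2) * I.nrm T + (ε / 2) * I.nrm T := add_le_add (e2.trans hS) e1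
        _ = (1 + ε) * I.nrm T := by ring

end BanachIdeal

end Pool.Agent.Helper362.Ideals
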