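import Pool.Agent.Helper362.IdealB
set_option autoImplicit false
open Module NormedSpace Filter
open scoped Topology ENNReal

universe u

namespace Pool.Agent.Helper362.Ideals

variable {𝕜 : Type} [RCLike 𝕜]

lemma exists_proj {V : Type u} [AddCommGroup V] [Module 𝕜 V] (p : Submodule 𝕜 V) :
    ∃ P : V →ₗ[𝕜] V, (∀ v, P v ∈ p) ∧ (∀ v ∈ p, P v = v) := by
  obtain ⟨P, hP⟩ := LinearMap.exists_leftInverse_of_injective p.subtype (Submodule.ker_subtype p)
  refine ⟨p.subtype.comp P, fun v => (P v).2, fun v hv => ?_⟩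
  have h1 : P v = ⟨v, hv⟩ := congrArg (fun l => l ⟨v, hv⟩) hP
  show ((P v : p) : V) = v
  rw [h1]

section PLR

variable {Y : Type u} [NormedAddCommGroup Y] [NormedSpace 𝕜 Y]

instance freeF (F : Submodule 𝕜 (StrongDual 𝕜 Y)) : Module.Free 𝕜 F :=
  Module.Free.of_divisionRing 𝕜 F

/-- A linear lifting which is exact on finitely many functionals. -/
lemma exists_B (F : Submodule 𝕜 (StrongDual 𝕜 Y)) [FiniteDimensional 𝕜 F] :
    ∃ B : StrongDual 𝕜 (StrongDual 𝕜 Y) →ₗ[𝕜] Y, ∀ g, ∀ f ∈ F, f (B g) = g f := by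
  let Ev : Y →ₗ[𝕜] Dual 𝕜 F :=
    { toFun := fun y =>
        { toFun := fun f => (f : StrongDual 𝕜 Y) y
          map_add' := fun _ _ => rfl
          map_smul' := fun _ _ => rfl }
      map_add' := fun y z => by
        ext f
        exact map_add (f : StrongDual 𝕜 Y) y z
      map_smul' := fun c y => by
        ext f
        exact map_smul (f : StrongDual 𝕜 Y) c y }
  have hsurj : Function.Surjective Ev := by
    rw [← LinearMap.dualMap_injective_iff]
    rw [injective_iff_map_eq_zero]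
    intro a ha
    obtain ⟨f, rfl⟩ := (Module.evalEquiv 𝕜 F).surjective a
    have hf : ∀ y, (f : StrongDual 𝕜 Y) y = 0 := fun y => congrArg (fun l => l y) ha
    have hf0 : f = 0 := by
      apply Subtype.ext
      ext y
      exact hf y
    rw [hf0, map_zero]
  obtain ⟨s, hs⟩ := LinearMap.exists_rightInverse_of_surjective Ev (LinearMap.range_eq_top.mpr hsurj)
  let rs : StrongDual 𝕜 (StrongDual 𝕜 Y) →ₗ[𝕜] Dual 𝕜 F :=
    { toFun := fun g =>
        { toFun := fun f => g (f : StrongDual 𝕜 Y)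
          map_add' := fun f f' => map_add g (f : StrongDual 𝕜 Y) (f' : StrongDual 𝕜 Y)
          map_smul' := fun c f => map_smul g c (f : StrongDual 𝕜 Y) }
      map_add' := fun _ _ => rfl
      map_smul' := fun _ _ => rfl }
  refine ⟨s.comp rs, fun g f hf => ?_⟩
  have h1 : Ev (s (rs g)) = rs g := congrArg (fun l => l (rs g)) hs
  exact congrArg (fun l => l (⟨f, hf⟩ : F)) h1

/-- A linear lifting of a finite-dimensional subspace of the bidual, without norm control. -/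
lemma exists_R1 (G : Submodule 𝕜 (StrongDual 𝕜 (StrongDual 𝕜 Y)))
    (F : Submodule 𝕜 (StrongDual 𝕜 Y)) [FiniteDimensional 𝕜 F] :
    ∃ (R : G →ₗ[𝕜] Y), (∀ g : G, ∀ f ∈ F, f (R g) = (g : StrongDual 𝕜 (StrongDual 𝕜 Y)) f) ∧
      (∀ (g : G) (y : Y), (g : StrongDual 𝕜 (StrongDual 𝕜 Y)) = inclusionInDoubleDual 𝕜 Y y →
        R g = y) := by
  obtain ⟨B, hB⟩ := exists_B F
  let jL : Y →ₗ[𝕜] StrongDual 𝕜 (StrongDual 𝕜 Y) := (inclusionInDoubleDual 𝕜 Y : _ →L[𝕜] _)
  have hj : LinearMap.ker jL = ⊥ := by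
    rw [LinearMap.ker_eq_bot]
    exact (inclusionInDoubleDualLi (E := Y) 𝕜).injective
  obtain ⟨q, hq⟩ := LinearMap.exists_leftInverse_of_injective jL hj
  have hq' : ∀ y, q (inclusionInDoubleDual 𝕜 Y y) = y := fun y => congrArg (fun l => l y) hq
  let G0 : Submodule 𝕜 G := (LinearMap.range jL).comap G.subtype
  obtain ⟨PG, hP1, hP2⟩ := exists_proj (𝕜 := 𝕜) (V := G) G0
  let R : G →ₗ[𝕜] Y := q.comp (G.subtype.comp PG) + B.comp (G.subtype.comp (LinearMap.id - PG))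
  have hR : ∀ g, R g = q ((PG g : G) : StrongDual 𝕜 (StrongDual 𝕜 Y)) +
      B (((g - PG g : G)) : StrongDual 𝕜 (StrongDual 𝕜 Y)) := fun g => rfl
  refine ⟨R, ?_, ?_⟩
  · intro g f hf
    rw [hR, map_add, hB _ f hf]
    obtain ⟨y, hy⟩ : ((PG g : G) : StrongDual 𝕜 (StrongDual 𝕜 Y)) ∈ LinearMap.range jL := hP1 g
    rw [← hy]
    have h1 : f (q (jL y)) = jL y f := by
      show f (q (inclusionInDoubleDual 𝕜 Y y)) = f y
      rw [hq']
    rw [h1, hy]
    show ((PG g : G) : StrongDual 𝕜 (StrongDual 𝕜 Y)) f +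
      ((g : StrongDual 𝕜 (StrongDual 𝕜 Y)) f - ((PG g : G) : StrongDual 𝕜 (StrongDual 𝕜 Y)) f) = _
    ring
  · intro g y hgy
    have hg0 : g ∈ G0 := ⟨y, hgy.symm⟩
    have hPg : PG g = g := hP2 g hg0
    rw [hR, hPg, sub_self, hgy, hq']
    show y + B (0 : StrongDual 𝕜 (StrongDual 𝕜 Y)) = y
    rw [map_zero, add_zero]

/-- The subspace of corrections. -/
def corr (G : Submodule 𝕜 (StrongDual 𝕜 (StrongDual 𝕜 Y)))
    (F : Submodule 𝕜 (StrongDual 𝕜 Y)) : Submodule 𝕜 (G →L[𝕜] Y) where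
  carrier := {K | (∀ g : G, ∀ f ∈ F, f (K g) = 0) ∧
    (∀ (g : G) (y : Y), (g : StrongDual 𝕜 (StrongDual 𝕜 Y)) = inclusionInDoubleDual 𝕜 Y y →
        K g = 0)}
  add_mem' := by
    rintro a b ⟨ha1, ha2⟩ ⟨hb1, hb2⟩
    refine ⟨fun g f hf => ?_, fun g y h => ?_⟩
    · rw [add_apply, map_add, ha1 g f hf, hb1 g f hf, add_zero]
    · rw [add_apply, ha2 g y h, hb2 g y h, add_zero]
  zero_mem' := ⟨fun g f hf => map_zero f, fun g y h => rfl⟩
  smul_mem' := by
    rintro c a ⟨ha1, ha2⟩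
    refine ⟨fun g f hf => ?_, fun g y h => ?_⟩
    · rw [smul_apply, map_smul, ha1 g f hf, smul_zero]
    · rw [smul_apply, ha2 g y h, smul_zero]

lemma mem_F_of_ann (F : Submodule 𝕜 (StrongDual 𝕜 Y)) [FiniteDimensional 𝕜 F]
    (φ : StrongDual 𝕜 Y) (h : ∀ y, (∀ f ∈ F, f y = 0) → φ y = 0) : φ ∈ F := by
  set b := Module.finBasis 𝕜 F with hb
  have h1 : (φ : Y →ₗ[𝕜] 𝕜) ∈ Submodule.span 𝕜
      (Set.range (fun i => ((b i : StrongDual 𝕜 Y) : Y →ₗ[𝕜] 𝕜))) := by
    refine mem_span_of_iInf_ker_le_ker (fun y hy => ?_)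
    rw [Submodule.mem_iInf] at hy
    rw [LinearMap.mem_ker]
    refine h y (fun f hf => ?_)
    have h2 := b.sum_repr (⟨f, hf⟩ : F)
    have h3 : f = ∑ i, (b.repr ⟨f, hf⟩ i) • (b i : StrongDual 𝕜 Y) := by
      have := congrArg (fun z : F => (z : StrongDual 𝕜 Y)) h2
      simp only [Submodule.coe_sum, Submodule.coe_smul] at this
      exact this.symm
    rw [h3, sum_apply]
    refine Finset.sum_eq_zero (fun i _ => ?_)
    have h4 : (b i : StrongDual 𝕜 Y) y = 0 := LinearMap.mem_ker.mp (hy i)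
    rw [smul_apply, h4, smul_zero]
  obtain ⟨c, hc⟩ := (Submodule.mem_span_range_iff_exists_fun 𝕜).mp h1
  have h5 : φ = ∑ i, c i • (b i : StrongDual 𝕜 Y) := by
    ext y
    have := congrArg (fun l => l y) hc
    rw [sum_apply]
    simp only [LinearMap.sum_apply, LinearMap.smul_apply] at this
    exact this.symm
  rw [h5]
  exact Submodule.sum_mem _ (fun i _ => Submodule.smul_mem _ _ (b i).2)

end PLR

end Pool.Agent.Helper362.Ideals
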