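import Mathlib
set_option autoImplicit false
open Module NormedSpace
open scoped Topology

universe u

namespace Pool.Agent.Helper362.Ideals

/-- The data of an operator ideal over the scalar field `𝕜`: every pair `X, Y` of Banach spaces
gets a linear subspace `mem X Y` of the bounded operators, and a function `nrm` (which only matters
on `mem X Y`). -/
structure IdealData (𝕜 : Type) [RCLike 𝕜] where
  /-- the component `𝔄(X, Y)` -/
  mem : ∀ (X Y : Type u) [NormedAddCommGroup X] [NormedSpace 𝕜 X] [CompleteSpace X]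
    [NormedAddCommGroup Y] [NormedSpace 𝕜 Y] [CompleteSpace Y], Submodule 𝕜 (X →L[𝕜] Y)
  /-- the ideal norm -/
  nrm : ∀ {X Y : Type u} [NormedAddCommGroup X] [NormedSpace 𝕜 X] [CompleteSpace X]
    [NormedAddCommGroup Y] [NormedSpace 𝕜 Y] [CompleteSpace Y], (X →L[𝕜] Y) → ℝ

section At

variable {𝕜 : Type} [RCLike 𝕜] (A : IdealData.{u} 𝕜)
variable (W X Y Z : Type u) [NormedAddCommGroup W] [NormedSpace 𝕜 W] [CompleteSpace W]
  [NormedAddCommGroup X] [NormedSpace 𝕜 X] [CompleteSpace X]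
  [NormedAddCommGroup Y] [NormedSpace 𝕜 Y] [CompleteSpace Y]
  [NormedAddCommGroup Z] [NormedSpace 𝕜 Z] [CompleteSpace Z]

/-- All finite rank operators from `X` to `Y` belong to the ideal. -/
def FiniteRankMemAt : Prop :=
  ∀ T : X →L[𝕜] Y, FiniteDimensional 𝕜 (LinearMap.range (T : X →ₗ[𝕜] Y)) → T ∈ A.mem X Y

/-- Triangle inequality. -/
def TriangleAt : Prop :=
  ∀ S T : X →L[𝕜] Y, S ∈ A.mem X Y → T ∈ A.mem X Y → A.nrm (S + T) ≤ A.nrm S + A.nrm T

/-- Homogeneity. -/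
def HomogeneousAt : Prop :=
  ∀ (c : 𝕜) (T : X →L[𝕜] Y), T ∈ A.mem X Y → A.nrm (c • T) = ‖c‖ * A.nrm T

/-- The ideal norm dominates the operator norm (so it is definite). -/
def DominatesAt : Prop := ∀ T : X →L[𝕜] Y, T ∈ A.mem X Y → ‖T‖ ≤ A.nrm T

/-- `𝐀(x' ⊗ y) = ‖x'‖ ‖y‖`. -/
def RankOneAt : Prop := ∀ (f : StrongDual 𝕜 X) (y : Y), A.nrm (f.smulRight y) = ‖f‖ * ‖y‖

/-- Completeness: Cauchy sequences for the ideal norm converge in the ideal norm. -/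
def CompleteAt : Prop :=
  ∀ T : ℕ → X →L[𝕜] Y, (∀ n, T n ∈ A.mem X Y) →
    (∀ ε : ℝ, 0 < ε → ∃ N, ∀ m ≥ N, ∀ n ≥ N, A.nrm (T m - T n) < ε) →
    ∃ S ∈ A.mem X Y, ∀ ε : ℝ, 0 < ε → ∃ N, ∀ n ≥ N, A.nrm (T n - S) < ε

/-- `RTS ∈ 𝔄` if `T ∈ 𝔄`. -/
def CompMemAt : Prop :=
  ∀ (S : W →L[𝕜] X) (T : X →L[𝕜] Y) (R : Y →L[𝕜] Z),
    T ∈ A.mem X Y → (R ∘L T ∘L S) ∈ A.mem W Z

/-- The ideal inequality. -/
def CompLeAt : Prop :=
  ∀ (S : W →L[𝕜] X) (T : X →L[𝕜] Y) (R : Y →L[𝕜] Z),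
    T ∈ A.mem X Y → A.nrm (R ∘L T ∘L S) ≤ ‖R‖ * A.nrm T * ‖S‖

end At

/-- A Banach operator ideal over the scalar field `𝕜` (`ℝ` or `ℂ`). -/
structure BanachIdeal (𝕜 : Type) [RCLike 𝕜] extends IdealData.{u} 𝕜 where
  finiteRank_mem : ∀ {X Y : Type u} [NormedAddCommGroup X] [NormedSpace 𝕜 X] [CompleteSpace X]
    [NormedAddCommGroup Y] [NormedSpace 𝕜 Y] [CompleteSpace Y], FiniteRankMemAt toIdealData X Y
  nrm_add_le : ∀ {X Y : Type u} [NormedAddCommGroup X] [NormedSpace 𝕜 X] [CompleteSpace X]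
    [NormedAddCommGroup Y] [NormedSpace 𝕜 Y] [CompleteSpace Y], TriangleAt toIdealData X Y
  nrm_smul : ∀ {X Y : Type u} [NormedAddCommGroup X] [NormedSpace 𝕜 X] [CompleteSpace X]
    [NormedAddCommGroup Y] [NormedSpace 𝕜 Y] [CompleteSpace Y], HomogeneousAt toIdealData X Y
  norm_le_nrm : ∀ {X Y : Type u} [NormedAddCommGroup X] [NormedSpace 𝕜 X] [CompleteSpace X]
    [NormedAddCommGroup Y] [NormedSpace 𝕜 Y] [CompleteSpace Y], DominatesAt toIdealData X Y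
  nrm_rankOne : ∀ {X Y : Type u} [NormedAddCommGroup X] [NormedSpace 𝕜 X] [CompleteSpace X]
    [NormedAddCommGroup Y] [NormedSpace 𝕜 Y] [CompleteSpace Y], RankOneAt toIdealData X Y
  complete : ∀ {X Y : Type u} [NormedAddCommGroup X] [NormedSpace 𝕜 X] [CompleteSpace X]
    [NormedAddCommGroup Y] [NormedSpace 𝕜 Y] [CompleteSpace Y], CompleteAt toIdealData X Y
  comp_mem : ∀ {W X Y Z : Type u} [NormedAddCommGroup W] [NormedSpace 𝕜 W] [CompleteSpace W]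
    [NormedAddCommGroup X] [NormedSpace 𝕜 X] [CompleteSpace X]
    [NormedAddCommGroup Y] [NormedSpace 𝕜 Y] [CompleteSpace Y]
    [NormedAddCommGroup Z] [NormedSpace 𝕜 Z] [CompleteSpace Z], CompMemAt toIdealData W X Y Z
  nrm_comp_le : ∀ {W X Y Z : Type u} [NormedAddCommGroup W] [NormedSpace 𝕜 W] [CompleteSpace W]
    [NormedAddCommGroup X] [NormedSpace 𝕜 X] [CompleteSpace X]
    [NormedAddCommGroup Y] [NormedSpace 𝕜 Y] [CompleteSpace Y]
    [NormedAddCommGroup Z] [NormedSpace 𝕜 Z] [CompleteSpace Z], CompLeAt toIdealData W X Y Z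

section Bidual

variable (𝕜 : Type) [RCLike 𝕜] (Y : Type u) [NormedAddCommGroup Y] [NormedSpace 𝕜 Y]

/-- The bidual `Y''` (the dual of the dual, with its usual norm). -/
def Bidual : Type u := StrongDual 𝕜 (StrongDual 𝕜 Y)

noncomputable instance bidualNormed : NormedAddCommGroup (Bidual 𝕜 Y) :=
  (ContinuousLinearMap.toNormedAddCommGroup : NormedAddCommGroup (StrongDual 𝕜 (StrongDual 𝕜 Y)))

noncomputable instance bidualSpace : NormedSpace 𝕜 (Bidual 𝕜 Y) :=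
  (ContinuousLinearMap.toNormedSpace : NormedSpace 𝕜 (StrongDual 𝕜 (StrongDual 𝕜 Y)))

instance bidualComplete : CompleteSpace (Bidual 𝕜 Y) :=
  (inferInstance : CompleteSpace (StrongDual 𝕜 (StrongDual 𝕜 Y)))

variable {𝕜 Y}

/-- The value of an element of the bidual at a functional. -/
def value (g : Bidual 𝕜 Y) (y' : StrongDual 𝕜 Y) : 𝕜 :=
  (show StrongDual 𝕜 (StrongDual 𝕜 Y) from g) y'

variable (𝕜)

/-- The canonical embedding `j_Y : Y → Y''`. -/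
noncomputable def jmap (y : Y) : Bidual 𝕜 Y := inclusionInDoubleDual 𝕜 Y y

end Bidual

section Props

variable {𝕜 : Type} [RCLike 𝕜] (A : IdealData.{u} 𝕜)

section At

variable {X Y : Type u} [NormedAddCommGroup X] [NormedSpace 𝕜 X] [CompleteSpace X]
  [NormedAddCommGroup Y] [NormedSpace 𝕜 Y] [CompleteSpace Y]

/-- The number `𝐀(Q_L T J_M)` for a complete subspace `M` of `X` and a closed subspace `L`
of `Y`. -/
noncomputable def localNorm (T : X →L[𝕜] Y) (M : Submodule 𝕜 X) (L : Submodule 𝕜 Y)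
    [CompleteSpace M] [IsClosed (L : Set Y)] : ℝ :=
  A.nrm (L.mkQL ∘L T ∘L M.subtypeL)

/-- The set of the numbers `𝐀(Q_L T J_M)`, where `M ⊆ X` runs through the finite-dimensional
subspaces and `L ⊆ Y` through the closed finite-codimensional ones. -/
def localNorms (T : X →L[𝕜] Y) : Set ℝ :=
  {r | ∃ (M : Submodule 𝕜 X) (L : Submodule 𝕜 Y), FiniteDimensional 𝕜 M ∧
    FiniteDimensional 𝕜 (Y ⧸ L) ∧ ∃ (_ : CompleteSpace M) (_ : IsClosed (L : Set Y)),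
    r = localNorm A T M L}

/-- `T` is in the ideal exactly if the local norms are bounded, and then their supremum is the
ideal norm of `T`. -/
def MaximalAt (T : X →L[𝕜] Y) : Prop :=
  (T ∈ A.mem X Y ↔ BddAbove (localNorms A T)) ∧
    (T ∈ A.mem X Y → A.nrm T = sSup (localNorms A T))

/-- `T = J_N S` with `𝐀(S) ≤ r`. -/
def FactorsThrough (T : X →L[𝕜] Y) (r : ℝ) (N : Submodule 𝕜 Y) [CompleteSpace N] : Prop :=
  ∃ S : X →L[𝕜] N, T = N.subtypeL ∘L S ∧ A.nrm S ≤ r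

/-- Right-accessibility for one operator. -/
def RightAccessibleAt (T : X →L[𝕜] Y) : Prop :=
  ∀ ε : ℝ, 0 < ε → ∃ N : Submodule 𝕜 Y, FiniteDimensional 𝕜 N ∧ ∃ _ : CompleteSpace N,
    FactorsThrough A T ((1 + ε) * A.nrm T) N

/-- The principle of local reflexivity for one operator. -/
def LRPAt (T : X →L[𝕜] Bidual 𝕜 Y) : Prop :=
  ∀ F : Submodule 𝕜 (StrongDual 𝕜 Y), FiniteDimensional 𝕜 F → ∀ ε : ℝ, 0 < ε →
    ∃ S : X →L[𝕜] Y, A.nrm S ≤ (1 + ε) * A.nrm T ∧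
      (∀ x : X, ∀ y' ∈ F, y' (S x) = value (T x) y') ∧
      (∀ x : X, T x ∈ Set.range (jmap 𝕜 (Y := Y)) → jmap 𝕜 (S x) = T x)

end At

/-- Maximality. -/
def IsMaximal : Prop :=
  ∀ (X Y : Type u) [NormedAddCommGroup X] [NormedSpace 𝕜 X] [CompleteSpace X]
    [NormedAddCommGroup Y] [NormedSpace 𝕜 Y] [CompleteSpace Y] (T : X →L[𝕜] Y), MaximalAt A T

/-- Right-accessibility. -/
def RightAccessible : Prop :=
  ∀ (E Y : Type u) [NormedAddCommGroup E] [NormedSpace 𝕜 E] [CompleteSpace E]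
    [NormedAddCommGroup Y] [NormedSpace 𝕜 Y] [CompleteSpace Y], FiniteDimensional 𝕜 E →
    ∀ T : E →L[𝕜] Y, RightAccessibleAt A T

/-- The principle of `𝔄`-local reflexivity. -/
def LRP : Prop :=
  ∀ (E Y : Type u) [NormedAddCommGroup E] [NormedSpace 𝕜 E] [CompleteSpace E]
    [NormedAddCommGroup Y] [NormedSpace 𝕜 Y] [CompleteSpace Y], FiniteDimensional 𝕜 E →
    ∀ T : E →L[𝕜] Bidual 𝕜 Y, LRPAt A T

end Props

end Pool.Agent.Helper362.Ideals
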