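import Pool.Agent.Helper362.IdealD
set_option autoImplicit false
open Module NormedSpace Filter
open scoped Topology ENNReal

namespace Pool.Agent.Helper362.Ideals

variable {𝕜 : Type} [RCLike 𝕜]

section Trace

variable {M N : Type} [NormedAddCommGroup M] [NormedSpace 𝕜 M]
  [NormedAddCommGroup N] [NormedSpace 𝕜 N]

/-- the trace -/
noncomputable def tr (A : M →L[𝕜] M) : 𝕜 := LinearMap.trace 𝕜 M (A : M →ₗ[𝕜] M)

lemma tr_add (A B : M →L[𝕜] M) : tr (A + B) = tr A + tr B :=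
  map_add (LinearMap.trace 𝕜 M) (A : M →ₗ[𝕜] M) (B : M →ₗ[𝕜] M)

lemma tr_sub (A B : M →L[𝕜] M) : tr (A - B) = tr A - tr B :=
  map_sub (LinearMap.trace 𝕜 M) (A : M →ₗ[𝕜] M) (B : M →ₗ[𝕜] M)

lemma tr_smul (c : 𝕜) (A : M →L[𝕜] M) : tr (c • A) = c * tr A :=
  map_smul (LinearMap.trace 𝕜 M) c (A : M →ₗ[𝕜] M)

lemma tr_zero : tr (0 : M →L[𝕜] M) = 0 := map_zero (LinearMap.trace 𝕜 M)

lemma tr_sum {ι : Type} (s : Finset ι) (A : ι → M →L[𝕜] M) :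
    tr (∑ i ∈ s, A i) = ∑ i ∈ s, tr (A i) := by
  classical
  induction s using Finset.induction_on with
  | empty => rw [Finset.sum_empty, Finset.sum_empty, tr_zero]
  | insert a s ha ih => rw [Finset.sum_insert ha, Finset.sum_insert ha, tr_add, ih]

lemma tr_comm [FiniteDimensional 𝕜 M] [FiniteDimensional 𝕜 N] (A : M →L[𝕜] N) (B : N →L[𝕜] M) :
    tr (B ∘L A) = tr (A ∘L B) :=
  LinearMap.trace_comp_comm' (A : M →ₗ[𝕜] N) (B : N →ₗ[𝕜] M)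

lemma tr_rankOne [FiniteDimensional 𝕜 M] (f : StrongDual 𝕜 M) (v : M) :
    tr (f.smulRight v) = f v :=
  LinearMap.trace_smulRight (f : M →ₗ[𝕜] 𝕜) v

/-- the trace as a continuous functional -/
noncomputable def trL (M : Type) [NormedAddCommGroup M] [NormedSpace 𝕜 M] [FiniteDimensional 𝕜 M] :
    (M →L[𝕜] M) →ₗ[𝕜] 𝕜 where
  toFun := tr
  map_add' := tr_add
  map_smul' := tr_smul

lemma continuous_tr [FiniteDimensional 𝕜 M] : Continuous (tr : (M →L[𝕜] M) → 𝕜) :=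
  (trL (𝕜 := 𝕜) M).continuous_of_finiteDimensional

end Trace

section Gen

variable {E0 Y0 : Type} [NormedAddCommGroup E0] [NormedSpace 𝕜 E0]
  [NormedAddCommGroup Y0] [NormedSpace 𝕜 Y0] (T0 : E0 →L[𝕜] Y0)

/-- admissible test operators -/
def IsTest {M N : Type} [NormedAddCommGroup M] [NormedSpace 𝕜 M]
    [NormedAddCommGroup N] [NormedSpace 𝕜 N] (w : N →L[𝕜] M) : Prop :=
  ‖w‖ ≤ 1 ∧ ∀ (a : M →L[𝕜] E0) (b : Y0 →L[𝕜] N), ‖a‖ ≤ 1 → ‖b‖ ≤ 1 →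
    ‖tr (w ∘L b ∘L T0 ∘L a)‖ ≤ 1

/-- the values on the tests -/
def vals {X Y : Type} [NormedAddCommGroup X] [NormedSpace 𝕜 X]
    [NormedAddCommGroup Y] [NormedSpace 𝕜 Y] (T : X →L[𝕜] Y) : Set ℝ :=
  {r | ∃ (M N : Type) (_ : NormedAddCommGroup M) (_ : NormedSpace 𝕜 M)
    (_ : FiniteDimensional 𝕜 M) (_ : NormedAddCommGroup N) (_ : NormedSpace 𝕜 N)
    (_ : FiniteDimensional 𝕜 N) (j : M →L[𝕜] X) (q : Y →L[𝕜] N) (w : N →L[𝕜] M),
    ‖j‖ ≤ 1 ∧ ‖q‖ ≤ 1 ∧ IsTest T0 w ∧ r = ‖tr (w ∘L q ∘L T ∘L j)‖}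

variable {X Y Z W : Type} [NormedAddCommGroup X] [NormedSpace 𝕜 X]
    [NormedAddCommGroup Y] [NormedSpace 𝕜 Y] [NormedAddCommGroup Z] [NormedSpace 𝕜 Z]
    [NormedAddCommGroup W] [NormedSpace 𝕜 W]

lemma zero_mem_vals (T : X →L[𝕜] Y) : (0 : ℝ) ∈ vals T0 T := by
  refine ⟨𝕜, 𝕜, inferInstance, inferInstance, inferInstance, inferInstance, inferInstance,
    inferInstance, 0, 0, 0, ?_, ?_, ⟨?_, fun a b _ _ => ?_⟩, ?_⟩
  · rw [norm_zero]; exact zero_le_one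
  · rw [norm_zero]; exact zero_le_one
  · rw [norm_zero]; exact zero_le_one
  · rw [ContinuousLinearMap.zero_comp, tr_zero, norm_zero]; exact zero_le_one
  · rw [ContinuousLinearMap.zero_comp, tr_zero, norm_zero]

lemma vals_nonempty (T : X →L[𝕜] Y) : (vals T0 T).Nonempty := ⟨0, zero_mem_vals T0 T⟩

/-- membership in the generated ideal, with a bound -/
def BD (T : X →L[𝕜] Y) (C : ℝ) : Prop := ∀ r ∈ vals T0 T, r ≤ C

/-- the generated ideal norm -/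
noncomputable def nm (T : X →L[𝕜] Y) : ℝ := sSup (vals T0 T)

lemma nm_nonneg (T : X →L[𝕜] Y) (h : BddAbove (vals T0 T)) : 0 ≤ nm T0 T :=
  le_csSup h (zero_mem_vals T0 T)

lemma nm_le {T : X →L[𝕜] Y} {C : ℝ} (h : BD T0 T C) : nm T0 T ≤ C :=
  csSup_le (vals_nonempty T0 T) h

lemma BD_nm {T : X →L[𝕜] Y} (h : BddAbove (vals T0 T)) : BD T0 T (nm T0 T) :=
  fun _ hr => le_csSup h hr

lemma bdd_of_BD {T : X →L[𝕜] Y} {C : ℝ} (h : BD T0 T C) : BddAbove (vals T0 T) := ⟨C, h⟩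

/-- A convenient form of the bound. -/
lemma BD_apply {T : X →L[𝕜] Y} {C : ℝ} (h : BD T0 T C) (hC : 0 ≤ C) {M N : Type}
    [NormedAddCommGroup M] [NormedSpace 𝕜 M] [FiniteDimensional 𝕜 M]
    [NormedAddCommGroup N] [NormedSpace 𝕜 N] [FiniteDimensional 𝕜 N]
    (j : M →L[𝕜] X) (q : Y →L[𝕜] N) (w : N →L[𝕜] M) (hw : IsTest T0 w) :
    ‖tr (w ∘L q ∘L T ∘L j)‖ ≤ ‖q‖ * C * ‖j‖ := by
  by_cases hj : ‖j‖ = 0
  · have : j = 0 := norm_eq_zero.mp hj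
    rw [this, ContinuousLinearMap.comp_zero, ContinuousLinearMap.comp_zero,
      ContinuousLinearMap.comp_zero, tr_zero, norm_zero]
    positivity
  by_cases hq : ‖q‖ = 0
  · have : q = 0 := norm_eq_zero.mp hq
    rw [this, ContinuousLinearMap.zero_comp,
      ContinuousLinearMap.comp_zero, tr_zero, norm_zero]
    positivity
  have hj' : 0 < ‖j‖ := lt_of_le_of_ne (norm_nonneg _) (Ne.symm hj)
  have hq' : 0 < ‖q‖ := lt_of_le_of_ne (norm_nonneg _) (Ne.symm hq)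
  have h1 : ‖tr (w ∘L (((‖q‖⁻¹ : ℝ) : 𝕜) • q) ∘L T ∘L (((‖j‖⁻¹ : ℝ) : 𝕜) • j))‖ ≤ C := by
    refine h _ ⟨M, N, inferInstance, inferInstance, inferInstance, inferInstance, inferInstance,
      inferInstance, ((‖j‖⁻¹ : ℝ) : 𝕜) • j, ((‖q‖⁻¹ : ℝ) : 𝕜) • q, w, ?_, ?_, hw, rfl⟩
    · rw [norm_smul, RCLike.norm_ofReal, abs_of_pos (by positivity), inv_mul_cancel₀ hj]
    · rw [norm_smul, RCLike.norm_ofReal, abs_of_pos (by positivity), inv_mul_cancel₀ hq]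
  have h2 : w ∘L (((‖q‖⁻¹ : ℝ) : 𝕜) • q) ∘L T ∘L (((‖j‖⁻¹ : ℝ) : 𝕜) • j) =
      (((‖q‖⁻¹ : ℝ) : 𝕜) * ((‖j‖⁻¹ : ℝ) : 𝕜)) • (w ∘L q ∘L T ∘L j) := by
    rw [ContinuousLinearMap.comp_smul, ContinuousLinearMap.smul_comp,
      ContinuousLinearMap.comp_smul, ContinuousLinearMap.comp_smul,
      ContinuousLinearMap.comp_smul, smul_smul]
  rw [h2, tr_smul, norm_mul, norm_mul, RCLike.norm_ofReal, RCLike.norm_ofReal,
    abs_of_pos (by positivity), abs_of_pos (by positivity)] at h1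
  calc ‖tr (w ∘L q ∘L T ∘L j)‖ = (‖q‖ * ‖j‖) *
        (‖q‖⁻¹ * ‖j‖⁻¹ * ‖tr (w ∘L q ∘L T ∘L j)‖) := by field_simp
    _ ≤ (‖q‖ * ‖j‖) * C := mul_le_mul_of_nonneg_left h1 (by positivity)
    _ = _ := by ring

lemma BD_comp {T : X →L[𝕜] Y} {C : ℝ} (h : BD T0 T C) (hC : 0 ≤ C) (S : W →L[𝕜] X)
    (R : Y →L[𝕜] Z) : BD T0 (R ∘L T ∘L S) (‖R‖ * C * ‖S‖) := by
  rintro r ⟨M, N, _, _, _, _, _, _, j, q, w, hj, hq, hw, rfl⟩
  have h1 := BD_apply T0 h hC (S ∘L j) (q ∘L R) w hw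
  have h2 : w ∘L (q ∘L R) ∘L T ∘L (S ∘L j) = w ∘L q ∘L (R ∘L T ∘L S) ∘L j := rfl
  rw [h2] at h1
  refine h1.trans ?_
  have h3 : ‖q ∘L R‖ ≤ ‖R‖ := by
    refine (ContinuousLinearMap.opNorm_comp_le _ _).trans ?_
    have := norm_nonneg R
    nlinarith
  have h4 : ‖S ∘L j‖ ≤ ‖S‖ := by
    refine (ContinuousLinearMap.opNorm_comp_le _ _).trans ?_
    have := norm_nonneg S
    nlinarith
  gcongr

lemma BD_add {S T : X →L[𝕜] Y} {C D : ℝ} (hS : BD T0 S C) (hT : BD T0 T D) :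
    BD T0 (S + T) (C + D) := by
  rintro r ⟨M, N, _, _, _, _, _, _, j, q, w, hj, hq, hw, rfl⟩
  have h1 := hS _ ⟨M, N, _, _, inferInstance, _, _, inferInstance, j, q, w, hj, hq, hw, rfl⟩
  have h2 := hT _ ⟨M, N, _, _, inferInstance, _, _, inferInstance, j, q, w, hj, hq, hw, rfl⟩
  have h3 : w ∘L q ∘L (S + T) ∘L j = w ∘L q ∘L S ∘L j + w ∘L q ∘L T ∘L j := by
    rw [ContinuousLinearMap.add_comp, ContinuousLinearMap.comp_add, ContinuousLinearMap.comp_add]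
  rw [h3, tr_add]
  exact (norm_add_le _ _).trans (add_le_add h1 h2)

lemma BD_smul {T : X →L[𝕜] Y} {C : ℝ} (h : BD T0 T C) (c : 𝕜) : BD T0 (c • T) (‖c‖ * C) := by
  rintro r ⟨M, N, _, _, _, _, _, _, j, q, w, hj, hq, hw, rfl⟩
  have h1 := h _ ⟨M, N, _, _, inferInstance, _, _, inferInstance, j, q, w, hj, hq, hw, rfl⟩
  have h3 : w ∘L q ∘L (c • T) ∘L j = c • (w ∘L q ∘L T ∘L j) := by
    rw [ContinuousLinearMap.smul_comp, ContinuousLinearMap.comp_smul,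
      ContinuousLinearMap.comp_smul]
  rw [h3, tr_smul, norm_mul]
  exact mul_le_mul_of_nonneg_left h1 (norm_nonneg _)

lemma BD_zero : BD T0 (0 : X →L[𝕜] Y) 0 := by
  rintro r ⟨M, N, _, _, _, _, _, _, j, q, w, hj, hq, hw, rfl⟩
  rw [ContinuousLinearMap.zero_comp, ContinuousLinearMap.comp_zero, ContinuousLinearMap.comp_zero,
    tr_zero, norm_zero]

lemma nm_smul_le (c : 𝕜) (T : X →L[𝕜] Y) (h : BddAbove (vals T0 T)) :
    nm T0 (c • T) ≤ ‖c‖ * nm T0 T := nm_le T0 (BD_smul T0 (BD_nm T0 h) c)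

lemma nm_smul (c : 𝕜) (T : X →L[𝕜] Y) (h : BddAbove (vals T0 T)) :
    nm T0 (c • T) = ‖c‖ * nm T0 T := by
  refine le_antisymm (nm_smul_le T0 c T h) ?_
  by_cases hc : c = 0
  · rw [hc, norm_zero, zero_mul]
    exact nm_nonneg T0 _ (bdd_of_BD T0 (BD_smul T0 (BD_nm T0 h) _))
  · have h1 := nm_smul_le T0 c⁻¹ (c • T) (bdd_of_BD T0 (BD_smul T0 (BD_nm T0 h) _))
    rw [smul_smul, inv_mul_cancel₀ hc, one_smul, norm_inv] at h1
    have hc' : 0 < ‖c‖ := norm_pos_iff.mpr hc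
    calc ‖c‖ * nm T0 T ≤ ‖c‖ * (‖c‖⁻¹ * nm T0 (c • T)) :=
          mul_le_mul_of_nonneg_left h1 (norm_nonneg _)
      _ = nm T0 (c • T) := by rw [← mul_assoc, mul_inv_cancel₀ hc'.ne', one_mul]

lemma BD_rankOne (f : StrongDual 𝕜 X) (y : Y) : BD T0 (f.smulRight y) (‖f‖ * ‖y‖) := by
  rintro r ⟨M, N, _, _, _, _, _, _, j, q, w, hj, hq, hw, rfl⟩
  have h1 : w ∘L q ∘L (f.smulRight y) ∘L j = (f ∘L j).smulRight (w (q y)) := by
    ext x
    show w (q (f (j x) • y)) = f (j x) • w (q y)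
    rw [map_smul, map_smul]
  rw [h1, tr_rankOne]
  show ‖f (j (w (q y)))‖ ≤ _
  have e1 : ‖q y‖ ≤ ‖y‖ := by
    refine (q.le_opNorm y).trans ?_
    have := norm_nonneg y
    nlinarith
  have e2 : ‖w (q y)‖ ≤ ‖y‖ := by
    refine (w.le_opNorm _).trans ?_
    have h3 := hw.1
    have := norm_nonneg (q y)
    nlinarith
  have e3 : ‖j (w (q y))‖ ≤ ‖y‖ := by
    refine (j.le_opNorm _).trans ?_
    have := norm_nonneg (w (q y))
    nlinarith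
  exact (f.le_opNorm _).trans (mul_le_mul_of_nonneg_left e3 (norm_nonneg _))

variable {T0} in
lemma norm_le_of_BD (hT0 : ‖T0‖ ≤ 1) {T : X →L[𝕜] Y} {C : ℝ} (h : BD T0 T C) : ‖T‖ ≤ C := by
  have hC : 0 ≤ C := h 0 (zero_mem_vals T0 T)
  refine ContinuousLinearMap.opNorm_le_bound _ hC (fun x => ?_)
  obtain ⟨f, hf1, hf2⟩ := exists_dual_vector'' 𝕜 (T x)
  have hid : IsTest T0 (ContinuousLinearMap.id 𝕜 𝕜) := by
    refine ⟨ContinuousLinearMap.norm_id_le, fun a b ha hb => ?_⟩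
    have h1 : (ContinuousLinearMap.id 𝕜 𝕜) ∘L b ∘L T0 ∘L a =
        (b ∘L T0 ∘L a).smulRight (1 : 𝕜) := by
      ext
      simp
    rw [h1, tr_rankOne]
    show ‖b (T0 (a 1))‖ ≤ 1
    have e1 : ‖a 1‖ ≤ 1 := by
      refine (a.le_opNorm _).trans ?_
      rw [norm_one, mul_one]; exact ha
    have e2 : ‖T0 (a 1)‖ ≤ 1 := by
      refine (T0.le_opNorm _).trans ?_
      have := norm_nonneg (a 1)
      nlinarith [norm_nonneg T0]
    refine (b.le_opNorm _).trans ?_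
    have := norm_nonneg (T0 (a 1))
    nlinarith [norm_nonneg b]
  have h1 := BD_apply T0 h hC (ContinuousLinearMap.toSpanSingleton 𝕜 x) f
    (ContinuousLinearMap.id 𝕜 𝕜) hid
  have h2 : (ContinuousLinearMap.id 𝕜 𝕜) ∘L f ∘L T ∘L (ContinuousLinearMap.toSpanSingleton 𝕜 x) =
      (f ∘L T ∘L (ContinuousLinearMap.toSpanSingleton 𝕜 x)).smulRight (1 : 𝕜) := by
    ext
    simp
  have h3 : f (T ((ContinuousLinearMap.toSpanSingleton 𝕜 x) 1)) = ((‖T x‖ : ℝ) : 𝕜) := by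
    rw [ContinuousLinearMap.toSpanSingleton_apply, one_smul, hf2]
  rw [h2, tr_rankOne] at h1
  have h4 : ‖(f ∘L T ∘L (ContinuousLinearMap.toSpanSingleton 𝕜 x)) 1‖ = ‖T x‖ := by
    show ‖f (T ((ContinuousLinearMap.toSpanSingleton 𝕜 x) 1))‖ = _
    rw [h3, RCLike.norm_ofReal, abs_of_nonneg (norm_nonneg _)]
  rw [h4, ContinuousLinearMap.norm_toSpanSingleton] at h1
  refine h1.trans ?_
  have := norm_nonneg x
  have : 0 ≤ C * ‖x‖ := by positivity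
  nlinarith

end Gen

end Pool.Agent.Helper362.Ideals
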