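import Pool.Agent.Helper362.IdealE
set_option autoImplicit false
open Module NormedSpace Filter
open scoped Topology ENNReal

namespace Pool.Agent.Helper362.Ideals

variable {𝕜 : Type} [RCLike 𝕜]

section Gen

variable {E0 Y0 : Type} [NormedAddCommGroup E0] [NormedSpace 𝕜 E0]
  [NormedAddCommGroup Y0] [NormedSpace 𝕜 Y0] (T0 : E0 →L[𝕜] Y0)
variable {X Y Z W : Type} [NormedAddCommGroup X] [NormedSpace 𝕜 X]
    [NormedAddCommGroup Y] [NormedSpace 𝕜 Y] [NormedAddCommGroup Z] [NormedSpace 𝕜 Z]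
    [NormedAddCommGroup W] [NormedSpace 𝕜 W]

lemma BD_finiteRank (T : X →L[𝕜] Y)
    (hT : FiniteDimensional 𝕜 (LinearMap.range (T : X →ₗ[𝕜] Y))) :
    BddAbove (vals T0 T) := by
  set R := LinearMap.range (T : X →ₗ[𝕜] Y) with hR
  set b := Module.finBasis 𝕜 R with hb
  set T' : X →L[𝕜] R := T.codRestrict R (fun x => LinearMap.mem_range_self _ x) with hT'
  set φ : Fin (finrank 𝕜 R) → (X →L[𝕜] 𝕜) := fun i =>
    (LinearMap.toContinuousLinearMap (b.coord i)).comp T' with hφ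
  have h1 : T = ∑ i, (φ i).smulRight ((b i : R) : Y) := by
    ext x
    rw [sum_apply]
    have h2 := b.sum_repr (T' x)
    have h3 := congrArg (fun y : R => (y : Y)) h2
    simp only [Submodule.coe_sum, Submodule.coe_smul] at h3
    exact h3.symm
  rw [h1]
  have h2 : ∀ s : Finset (Fin (finrank 𝕜 R)),
      BD T0 (∑ i ∈ s, (φ i).smulRight ((b i : R) : Y)) (∑ i ∈ s, ‖φ i‖ * ‖((b i : R) : Y)‖) := by
    intro s
    classical
    induction s using Finset.induction_on with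
    | empty => rw [Finset.sum_empty, Finset.sum_empty]; exact BD_zero T0
    | insert a s ha ih =>
      rw [Finset.sum_insert ha, Finset.sum_insert ha]
      exact BD_add T0 (BD_rankOne T0 _ _) ih
  exact bdd_of_BD T0 (h2 Finset.univ)

lemma BD_mono {T : X →L[𝕜] Y} {C D : ℝ} (h : BD T0 T C) (hCD : C ≤ D) : BD T0 T D :=
  fun r hr => (h r hr).trans hCD

/-- completeness -/
lemma complete_aux [CompleteSpace Y] (hT0 : ‖T0‖ ≤ 1) (T : ℕ → X →L[𝕜] Y)
    (hT : ∀ n, BddAbove (vals T0 (T n)))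
    (hc : ∀ ε : ℝ, 0 < ε → ∃ N, ∀ m ≥ N, ∀ n ≥ N, nm T0 (T m - T n) < ε) :
    ∃ S : X →L[𝕜] Y, BddAbove (vals T0 S) ∧
      ∀ ε : ℝ, 0 < ε → ∃ N, ∀ n ≥ N, nm T0 (T n - S) < ε := by
  have hbd : ∀ m n, BddAbove (vals T0 (T m - T n)) := by
    intro m n
    have h1 := BD_add T0 (BD_nm T0 (hT m)) (BD_smul T0 (BD_nm T0 (hT n)) (-1 : 𝕜))
    rw [neg_one_smul, ← sub_eq_add_neg] at h1
    exact bdd_of_BD T0 h1
  have hcau : CauchySeq T := by
    rw [Metric.cauchySeq_iff]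
    intro ε hε
    obtain ⟨N, hN⟩ := hc ε hε
    refine ⟨N, fun m hm n hn => ?_⟩
    rw [dist_eq_norm]
    exact (norm_le_of_BD hT0 (BD_nm T0 (hbd m n))).trans_lt (hN m hm n hn)
  obtain ⟨S, hS⟩ := cauchySeq_tendsto_of_complete hcau
  have key : ∀ ε : ℝ, 0 < ε → ∃ N, ∀ n ≥ N, BD T0 (T n - S) ε := by
    intro ε hε
    obtain ⟨N, hN⟩ := hc ε hε
    refine ⟨N, fun n hn => ?_⟩
    rintro r ⟨M, N', _, _, _, _, _, _, j, q, w, hj, hq, hw, rfl⟩
    have h1 : Tendsto (fun m => ‖tr (w ∘L q ∘L (T n - T m) ∘L j)‖) atTop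
        (𝓝 ‖tr (w ∘L q ∘L (T n - S) ∘L j)‖) := by
      refine ((continuous_tr (𝕜 := 𝕜) (M := M)).tendsto _ |>.comp ?_).norm
      have h2 : Tendsto (fun m => T n - T m) atTop (𝓝 (T n - S)) := hS.const_sub (T n)
      have hcont : Continuous (fun A : X →L[𝕜] Y => w ∘L q ∘L A ∘L j) :=
        (ContinuousLinearMap.compL 𝕜 M Y M (w ∘L q)).continuous.comp
          ((ContinuousLinearMap.compL 𝕜 M X Y).flip j).continuous
      exact (hcont.tendsto _).comp h2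
    refine le_of_tendsto h1 ?_
    filter_upwards [eventually_ge_atTop N] with m hm
    have h3 := BD_nm T0 (hbd n m) _ ⟨M, N', _, _, inferInstance, _, _, inferInstance, j, q, w,
      hj, hq, hw, rfl⟩
    exact h3.trans (hN n hn m hm).le
  refine ⟨S, ?_, ?_⟩
  · obtain ⟨N, hN⟩ := key 1 one_pos
    have h1 := BD_smul T0 (hN N le_rfl) (-1 : 𝕜)
    have h2 := BD_add T0 (BD_nm T0 (hT N)) h1
    have h3 : T N + (-1 : 𝕜) • (T N - S) = S := by
      rw [neg_one_smul]; abel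
    rw [h3] at h2
    exact bdd_of_BD T0 h2
  · intro ε hε
    obtain ⟨N, hN⟩ := key (ε / 2) (by linarith)
    exact ⟨N, fun n hn => (nm_le T0 (hN n hn)).trans_lt (by linarith)⟩

/-- lifting a contraction to a quotient -/
lemma norm_liftQL_le (L : Submodule 𝕜 Y) [IsClosed (L : Set Y)] (q : Y →L[𝕜] Z)
    (h : L ≤ LinearMap.ker (q : Y →ₗ[𝕜] Z)) (hq : ‖q‖ ≤ 1) :
    ∀ x : Y ⧸ L, ‖L.liftQL q h x‖ ≤ 1 * ‖x‖ := by
  intro x
  rw [one_mul]
  refine le_of_forall_pos_le_add (fun ε hε => ?_)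
  obtain ⟨m, rfl, hm⟩ := Submodule.Quotient.norm_mk_lt x hε
  have h1 : L.liftQL q h (Submodule.Quotient.mk m) = q m := rfl
  rw [h1]
  refine (q.le_opNorm m).trans ?_
  have := norm_nonneg m
  nlinarith

/-- Every value of `T` is a value of some `Q_L T J_M`. -/
lemma vals_local (T : X →L[𝕜] Y) (r : ℝ) (hr : r ∈ vals T0 T) :
    ∃ (M : Submodule 𝕜 X) (L : Submodule 𝕜 Y), FiniteDimensional 𝕜 M ∧
    FiniteDimensional 𝕜 (Y ⧸ L) ∧ ∃ (_ : CompleteSpace M) (_ : IsClosed (L : Set Y)),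
    r ∈ vals T0 (L.mkQL ∘L T ∘L M.subtypeL) := by
  obtain ⟨M, N, _, _, _, _, _, _, j, q, w, hj, hq, hw, rfl⟩ := hr
  set M' : Submodule 𝕜 X := LinearMap.range (j : M →ₗ[𝕜] X) with hM'
  set L : Submodule 𝕜 Y := LinearMap.ker (q : Y →ₗ[𝕜] N) with hL
  have h1 : FiniteDimensional 𝕜 M' := inferInstance
  have h2 : FiniteDimensional 𝕜 (Y ⧸ L) :=
    LinearEquiv.finiteDimensional (LinearMap.quotKerEquivRange (q : Y →ₗ[𝕜] N)).symm
  have h3 : CompleteSpace M' := FiniteDimensional.complete 𝕜 _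
  have h4 : IsClosed (L : Set Y) := q.isClosed_ker
  refine ⟨M', L, h1, h2, h3, h4, M, N, _, _, inferInstance, _, _, inferInstance,
    j.codRestrict M' (fun x => LinearMap.mem_range_self _ x), L.liftQL q le_rfl, w, ?_, ?_, hw, ?_⟩
  · refine ContinuousLinearMap.opNorm_le_bound _ zero_le_one (fun x => ?_)
    show ‖j x‖ ≤ 1 * ‖x‖
    refine (j.le_opNorm x).trans ?_
    exact mul_le_mul_of_nonneg_right hj (norm_nonneg _)
  · exact ContinuousLinearMap.opNorm_le_bound _ zero_le_one (norm_liftQL_le L q le_rfl hq)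
  · congr 2

end Gen

section Assemble

variable {E0 Y0 : Type} [NormedAddCommGroup E0] [NormedSpace 𝕜 E0]
  [NormedAddCommGroup Y0] [NormedSpace 𝕜 Y0] (T0 : E0 →L[𝕜] Y0)

/-- The data of the ideal generated by `T0`. -/
noncomputable def genData : IdealData.{0} 𝕜 where
  mem := fun X Y _ _ _ _ _ _ =>
    { carrier := {T : X →L[𝕜] Y | BddAbove (vals T0 T)}
      add_mem' := fun ha hb => bdd_of_BD T0 (BD_add T0 (BD_nm T0 ha) (BD_nm T0 hb))
      zero_mem' := bdd_of_BD T0 (BD_zero T0)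
      smul_mem' := fun c _ ha => bdd_of_BD T0 (BD_smul T0 (BD_nm T0 ha) c) }
  nrm := fun T => nm T0 T

/-- The ideal generated by `T0`. -/
noncomputable def gen (hT0 : ‖T0‖ ≤ 1) : BanachIdeal.{0} 𝕜 where
  toIdealData := genData T0
  finiteRank_mem := fun {X Y} _ _ _ _ _ _ T hT => BD_finiteRank T0 T hT
  nrm_add_le := fun {X Y} _ _ _ _ _ _ S T hS hT =>
    nm_le T0 (BD_add T0 (BD_nm T0 hS) (BD_nm T0 hT))
  nrm_smul := fun {X Y} _ _ _ _ _ _ c T hT => nm_smul T0 c T hT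
  norm_le_nrm := fun {X Y} _ _ _ _ _ _ T hT => norm_le_of_BD hT0 (BD_nm T0 hT)
  nrm_rankOne := fun {X Y} _ _ _ _ _ _ f y => by
    refine le_antisymm (nm_le T0 (BD_rankOne T0 f y)) ?_
    have h1 := norm_le_of_BD hT0 (BD_nm T0 (bdd_of_BD T0 (BD_rankOne T0 f y)))
    rwa [ContinuousLinearMap.norm_smulRight_apply] at h1
  complete := fun {X Y} _ _ _ _ _ _ T hT hc => by
    obtain ⟨S, hS1, hS2⟩ := complete_aux T0 hT0 T hT hc
    exact ⟨S, hS1, hS2⟩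
  comp_mem := fun {W X Y Z} _ _ _ _ _ _ _ _ _ _ _ _ S T R hT =>
    bdd_of_BD T0 (BD_comp T0 (BD_nm T0 hT) (nm_nonneg T0 T hT) S R)
  nrm_comp_le := fun {W X Y Z} _ _ _ _ _ _ _ _ _ _ _ _ S T R hT =>
    nm_le T0 (BD_comp T0 (BD_nm T0 hT) (nm_nonneg T0 T hT) S R)

lemma gen_maximal (hT0 : ‖T0‖ ≤ 1) : IsMaximal (gen T0 hT0).toIdealData := by
  intro X Y _ _ _ _ _ _ T
  have hup : BddAbove (vals T0 T) → ∀ r ∈ localNorms (gen T0 hT0).toIdealData T,
      r ≤ nm T0 T := by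
    rintro hT r ⟨M, L, hM, hL, hMc, hLc, rfl⟩
    show nm T0 (L.mkQL ∘L T ∘L M.subtypeL) ≤ nm T0 T
    refine nm_le T0 (BD_mono T0 (BD_comp T0 (BD_nm T0 hT) (nm_nonneg T0 T hT) M.subtypeL L.mkQL) ?_)
    have h1 : ‖M.subtypeL‖ ≤ 1 := Submodule.norm_subtypeL_le M
    have h2 : ‖L.mkQL‖ ≤ 1 := by
      refine ContinuousLinearMap.opNorm_le_bound _ zero_le_one (fun x => ?_)
      rw [one_mul]
      exact Submodule.Quotient.norm_mk_le L x
    have h3 := nm_nonneg T0 T hT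
    have h4 : ‖L.mkQL‖ * nm T0 T ≤ nm T0 T := by nlinarith
    have h5 : 0 ≤ ‖L.mkQL‖ * nm T0 T := by positivity
    nlinarith
  have hdown : ∀ r ∈ vals T0 T, ∃ s ∈ localNorms (gen T0 hT0).toIdealData T, r ≤ s := by
    intro r hr
    obtain ⟨M, L, hM, hL, hMc, hLc, hr'⟩ := vals_local T0 T r hr
    refine ⟨_, ⟨M, L, hM, hL, hMc, hLc, rfl⟩, ?_⟩
    show r ≤ nm T0 (L.mkQL ∘L T ∘L M.subtypeL)
    exact le_csSup (BD_finiteRank T0 _ inferInstance) hr'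
  have hne : (localNorms (gen T0 hT0).toIdealData T).Nonempty := by
    obtain ⟨s, hs, _⟩ := hdown 0 (zero_mem_vals T0 T)
    exact ⟨s, hs⟩
  refine ⟨⟨fun hT => ⟨nm T0 T, hup hT⟩, fun hb => ?_⟩, fun hT => le_antisymm ?_ ?_⟩
  · obtain ⟨C, hC⟩ := hb
    refine ⟨C, fun r hr => ?_⟩
    obtain ⟨s, hs, hrs⟩ := hdown r hr
    exact hrs.trans (hC hs)
  · refine csSup_le (vals_nonempty T0 T) (fun r hr => ?_)
    obtain ⟨s, hs, hrs⟩ := hdown r hr
    exact hrs.trans (le_csSup ⟨nm T0 T, hup hT⟩ hs)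
  · exact csSup_le hne (hup hT)

/-- The generator has ideal norm at most one. -/
lemma nm_T0_le : nm T0 T0 ≤ 1 := by
  refine nm_le T0 ?_
  rintro r ⟨M, N, _, _, _, _, _, _, j, q, w, hj, hq, hw, rfl⟩
  exact hw.2 j q hj hq

/-- A criterion for the failure of right-accessibility. -/
theorem not_rightAccessible [FiniteDimensional 𝕜 E0] [CompleteSpace E0] [CompleteSpace Y0]
    (hT0 : ‖T0‖ ≤ 1) (w : Y0 →L[𝕜] E0) (G1 : ℝ) (hG : 0 < G1) (hw : ‖w‖ ≤ G1)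
    (h1 : ∀ (a : E0 →L[𝕜] E0) (V : Y0 →L[𝕜] Y0), ‖a‖ ≤ 1 → ‖V‖ ≤ 1 →
      FiniteDimensional 𝕜 (LinearMap.range (V : Y0 →ₗ[𝕜] Y0)) →
      ‖tr (w ∘L V ∘L T0 ∘L a)‖ ≤ G1)
    (h2 : G1 < ‖tr (w ∘L T0)‖) : ¬ RightAccessible (gen T0 hT0).toIdealData := by
  intro hRA
  set G0 := ‖tr (w ∘L T0)‖ with hG0
  have hε : 0 < (G0 - G1) / (2 * G1) := by
    have : 0 < G0 - G1 := by linarith
    positivity
  obtain ⟨N, hN, hNc, S, hTS, hS⟩ := hRA E0 Y0 inferInstance T0 _ hε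
  have hS' : nm T0 S ≤ (1 + (G0 - G1) / (2 * G1)) * nm T0 T0 := hS
  set w' : N →L[𝕜] E0 := ((G1⁻¹ : ℝ) : 𝕜) • (w ∘L N.subtypeL) with hw'
  have htest : IsTest T0 w' := by
    refine ⟨?_, fun a b ha hb => ?_⟩
    · rw [hw', norm_smul, RCLike.norm_ofReal, abs_of_pos (by positivity)]
      have e1 : ‖w ∘L N.subtypeL‖ ≤ G1 := by
        refine (ContinuousLinearMap.opNorm_comp_le _ _).trans ?_
        have e2 : ‖N.subtypeL‖ ≤ 1 := Submodule.norm_subtypeL_le N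
        have e3 := norm_nonneg w
        nlinarith
      rw [inv_mul_le_iff₀ hG, mul_one]
      exact e1
    · have e1 : w' ∘L b ∘L T0 ∘L a = ((G1⁻¹ : ℝ) : 𝕜) • (w ∘L (N.subtypeL ∘L b) ∘L T0 ∘L a) := by
        rw [hw', ContinuousLinearMap.smul_comp]
        rfl
      rw [e1, tr_smul, norm_mul, RCLike.norm_ofReal, abs_of_pos (by positivity),
        inv_mul_le_iff₀ hG, mul_one]
      refine h1 a (N.subtypeL ∘L b) ha ?_ ?_
      · refine (ContinuousLinearMap.opNorm_comp_le _ _).trans ?_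
        have e2 : ‖N.subtypeL‖ ≤ 1 := Submodule.norm_subtypeL_le N
        have e3 := norm_nonneg b
        nlinarith
      · have e2 : LinearMap.range ((N.subtypeL ∘L b : Y0 →L[𝕜] Y0) : Y0 →ₗ[𝕜] Y0) ≤ N := by
          rintro _ ⟨x, rfl⟩
          exact (b x).2
        exact Submodule.finiteDimensional_of_le e2
  have hb := BD_nm T0 (BD_finiteRank T0 S inferInstance) _ ⟨E0, N, _, _, inferInstance, _, _, hN,
    ContinuousLinearMap.id 𝕜 E0, ContinuousLinearMap.id 𝕜 N, w', ContinuousLinearMap.norm_id_le,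
    ContinuousLinearMap.norm_id_le, htest, rfl⟩
  have e3 : w' ∘L (ContinuousLinearMap.id 𝕜 N) ∘L S ∘L (ContinuousLinearMap.id 𝕜 E0) =
      ((G1⁻¹ : ℝ) : 𝕜) • (w ∘L T0) := by
    rw [ContinuousLinearMap.id_comp, ContinuousLinearMap.comp_id, hw',
      ContinuousLinearMap.smul_comp]
    conv_rhs => rw [hTS]
    rfl
  rw [e3, tr_smul, norm_mul, RCLike.norm_ofReal, abs_of_pos (by positivity), ← hG0] at hb
  have e4 := nm_T0_le T0
  have e5 : G1⁻¹ * G0 ≤ 1 + (G0 - G1) / (2 * G1) := by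
    refine hb.trans (hS'.trans ?_)
    have : 0 ≤ 1 + (G0 - G1) / (2 * G1) := by positivity
    nlinarith
  have e6 : G1 * (G1⁻¹ * G0) ≤ G1 * (1 + (G0 - G1) / (2 * G1)) :=
    mul_le_mul_of_nonneg_left e5 hG.le
  have e7 : G1 * (G1⁻¹ * G0) = G0 := by field_simp
  have e8 : G1 * (1 + (G0 - G1) / (2 * G1)) = (G0 + G1) / 2 := by field_simp; ring
  rw [e7, e8] at e6
  linarith

end Assemble

end Pool.Agent.Helper362.Ideals
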