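import Pool.Agent.Helper362.IdealF
set_option autoImplicit false
open Module NormedSpace Filter
open scoped Topology ENNReal

namespace Pool.Agent.Helper362.Ideals

variable {𝕜 : Type} [RCLike 𝕜]

section Rigid

variable {H : Type} [NormedAddCommGroup H] [InnerProductSpace 𝕜 H] [CompleteSpace H]

lemma two_others {n : ℕ} (hn : 3 ≤ n) (i : Fin n) : ∃ j k : Fin n, j ≠ i ∧ k ≠ i ∧ j ≠ k := by
  have h1 : 1 < ((Finset.univ : Finset (Fin n)).erase i).card := by
    rw [Finset.card_erase_of_mem (Finset.mem_univ _), Finset.card_univ, Fintype.card_fin]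
    omega
  obtain ⟨j, hj, k, hk, hjk⟩ := Finset.one_lt_card.mp h1
  exact ⟨j, k, (Finset.mem_erase.mp hj).1, (Finset.mem_erase.mp hk).1, hjk⟩

/-- A contraction which maps every marker to a unimodular multiple of some marker is a unimodular
multiple of the identity. -/
lemma rigid {n : ℕ} (hn : 3 ≤ n) (w : Fin n → H) (α : Fin n → ℝ) (hw : ∀ i, ‖w i‖ = 1)
    (hα0 : ∀ i, 0 < α i) (hα1 : ∀ i, α i ≤ 1) (hα : Function.Injective α)
    (hG : ∀ i j, i ≠ j → inner 𝕜 (w i) (w j) = ((α i * α j : ℝ) : 𝕜))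
    (hspan : Submodule.span 𝕜 (Set.range w) = ⊤) (a : H →L[𝕜] H) (ha : ‖a‖ ≤ 1)
    (hσ : ∀ j, ∃ i, 1 ≤ ‖inner 𝕜 (w i) (a (w j))‖) :
    ∃ c : 𝕜, ‖c‖ = 1 ∧ a = c • ContinuousLinearMap.id 𝕜 H := by
  choose σ hσ using hσ
  have h1 : ∀ j, ‖a (w j)‖ ≤ 1 := by
    intro j
    refine (a.le_opNorm _).trans ?_
    rw [hw, mul_one]; exact ha
  have h4 : ∀ j, ‖a (w j)‖ = 1 := by
    intro j
    refine le_antisymm (h1 j) ?_
    have := norm_inner_le_norm (𝕜 := 𝕜) (w (σ j)) (a (w j))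
    rw [hw, one_mul] at this
    exact (hσ j).trans this
  set c : Fin n → 𝕜 := fun j => inner 𝕜 (w (σ j)) (a (w j)) with hc
  have h2 : ∀ j, ‖c j‖ = 1 := by
    intro j
    refine le_antisymm ?_ (hσ j)
    have := norm_inner_le_norm (𝕜 := 𝕜) (w (σ j)) (a (w j))
    rwa [hw, one_mul, h4] at this
  have hself : ∀ i, inner 𝕜 (w i) (w i) = (1 : 𝕜) := by
    intro i
    rw [inner_self_eq_norm_sq_to_K, hw]
    simp
  have h3 : ∀ j, a (w j) = c j • w (σ j) := by
    intro j
    have e1 : w (σ j) ≠ 0 := by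
      intro h
      have := hw (σ j)
      rw [h, norm_zero] at this
      exact zero_ne_one this
    have e2 : a (w j) ≠ 0 := by
      intro h
      have := h4 j
      rw [h, norm_zero] at this
      exact zero_ne_one this
    have e3 : ‖inner 𝕜 (w (σ j)) (a (w j))‖ = ‖w (σ j)‖ * ‖a (w j)‖ := by
      rw [hw, h4, one_mul]; exact h2 j
    obtain ⟨r, _, hr⟩ := (norm_inner_eq_norm_iff e1 e2).mp e3
    have e4 : c j = r := by
      show inner 𝕜 (w (σ j)) (a (w j)) = r
      rw [hr, inner_smul_right, hself, mul_one]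
    rw [e4]; exact hr
  have h5 : ∀ j, (ContinuousLinearMap.adjoint a) (a (w j)) = w j := by
    intro j
    have e1 : inner 𝕜 ((ContinuousLinearMap.adjoint a) (a (w j))) (w j) = (1 : 𝕜) := by
      rw [ContinuousLinearMap.adjoint_inner_left, inner_self_eq_norm_sq_to_K, h4]
      simp
    have e2 : ‖(ContinuousLinearMap.adjoint a) (a (w j))‖ ≤ 1 := by
      refine ((ContinuousLinearMap.adjoint a).le_opNorm _).trans ?_
      rw [h4, mul_one, LinearIsometryEquiv.norm_map]; exact ha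
    have e3 := norm_sub_sq (𝕜 := 𝕜) ((ContinuousLinearMap.adjoint a) (a (w j))) (w j)
    rw [e1, hw, RCLike.one_re] at e3
    have e4 : ‖(ContinuousLinearMap.adjoint a) (a (w j)) - w j‖ ^ 2 ≤ 0 := by
      rw [e3]
      nlinarith [norm_nonneg ((ContinuousLinearMap.adjoint a) (a (w j)))]
    have e5 : ‖(ContinuousLinearMap.adjoint a) (a (w j)) - w j‖ = 0 := by
      have := sq_nonneg ‖(ContinuousLinearMap.adjoint a) (a (w j)) - w j‖
      exact pow_eq_zero_iff (two_ne_zero) |>.mp (le_antisymm e4 this)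
    exact sub_eq_zero.mp (norm_eq_zero.mp e5)
  have h6 : ∀ i j, inner 𝕜 (a (w i)) (a (w j)) = inner 𝕜 (w i) (w j) := by
    intro i j
    rw [← ContinuousLinearMap.adjoint_inner_left, h5]
  have h7 : ∀ i j, (starRingEnd 𝕜) (c i) * c j * inner 𝕜 (w (σ i)) (w (σ j)) =
      inner 𝕜 (w i) (w j) := by
    intro i j
    have e1 := h6 i j
    rw [h3 i, h3 j, inner_smul_left, inner_smul_right] at e1
    rw [← e1]
    ring
  have h7n : ∀ i j, i ≠ j → ‖inner 𝕜 (w (σ i)) (w (σ j))‖ = α i * α j := by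
    intro i j hij
    have := congrArg norm (h7 i j)
    rw [norm_mul, norm_mul, RCLike.norm_conj, h2, h2, one_mul, one_mul, hG i j hij,
      RCLike.norm_ofReal, abs_of_pos (mul_pos (hα0 i) (hα0 j))] at this
    exact this
  have h8 : ∀ i j, i ≠ j → σ i ≠ σ j := by
    intro i j hij hs
    have e1 := h7n i j hij
    rw [hs, hself, norm_one] at e1
    have e2 := hα1 i
    have e3 := hα1 j
    have e4 := hα0 i
    have e5 := hα0 j
    have e6 : α i = 1 := by nlinarith
    have e7 : α j = 1 := by nlinarith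
    exact hij (hα (e6.trans e7.symm))
  have h9 : ∀ i j, i ≠ j → α (σ i) * α (σ j) = α i * α j := by
    intro i j hij
    rw [← h7n i j hij, hG _ _ (h8 i j hij), RCLike.norm_ofReal,
      abs_of_pos (mul_pos (hα0 _) (hα0 _))]
  have h11 : ∀ i, σ i = i := by
    intro i
    obtain ⟨j, k, hji, hki, hjk⟩ := two_others hn i
    have e1 := h9 i j hji.symm
    have e2 := h9 i k hki.symm
    have e3 := h9 j k hjk
    have p1 := hα0 i
    have p2 := hα0 (σ i)
    have p3 := mul_pos (hα0 j) (hα0 k)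
    have e4 : α (σ i) ^ 2 = α i ^ 2 := by
      have e5 : α (σ i) ^ 2 * (α j * α k) = α i ^ 2 * (α j * α k) := by
        rw [← e3]
        calc α (σ i) ^ 2 * (α (σ j) * α (σ k)) = (α (σ i) * α (σ j)) * (α (σ i) * α (σ k)) := by
              ring
          _ = (α i * α j) * (α i * α k) := by rw [e1, e2]
          _ = α i ^ 2 * (α j * α k) := by ring
          _ = α i ^ 2 * (α (σ j) * α (σ k)) := by rw [e3]
      exact mul_right_cancel₀ p3.ne' e5
    have e6 : α (σ i) = α i := by nlinarith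
    exact hα e6
  have h12 : ∀ i j, c i = c j := by
    intro i j
    by_cases hij : i = j
    · rw [hij]
    · have e1 := h7 i j
      rw [h11, h11, hG i j hij] at e1
      have e2 : ((α i * α j : ℝ) : 𝕜) ≠ 0 := by
        have := mul_pos (hα0 i) (hα0 j)
        exact_mod_cast this.ne'
      have e3 : (starRingEnd 𝕜) (c i) * c j = 1 := by
        have : (starRingEnd 𝕜) (c i) * c j * ((α i * α j : ℝ) : 𝕜) = 1 * ((α i * α j : ℝ) : 𝕜) := by
          rw [e1, one_mul]
        exact mul_right_cancel₀ e2 this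
      have e4 : c i * (starRingEnd 𝕜) (c i) = 1 := by
        rw [RCLike.mul_conj, h2]; simp
      calc c i = c i * ((starRingEnd 𝕜) (c i) * c j) := by rw [e3, mul_one]
        _ = (c i * (starRingEnd 𝕜) (c i)) * c j := by ring
        _ = c j := by rw [e4, one_mul]
  have i0 : Fin n := ⟨0, by omega⟩
  refine ⟨c i0, h2 i0, ?_⟩
  have h13 : (a : H →ₗ[𝕜] H) = ((c i0 • ContinuousLinearMap.id 𝕜 H : H →L[𝕜] H) : H →ₗ[𝕜] H) := by
    refine LinearMap.ext_on_range hspan (fun j => ?_)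
    show a (w j) = c i0 • w j
    rw [h3, h11, h12 j i0]
  ext x
  exact congrArg (fun l => l x) h13

end Rigid

section Markers

/-- the weights -/
noncomputable def al (j : ℕ) : ℝ := 1 / ((j : ℝ) + 1)

lemma al_pos (j : ℕ) : 0 < al j := by unfold al; positivity

lemma al_le (j : ℕ) : al j ≤ 1 := by
  unfold al
  rw [div_le_one (by positivity)]
  linarith [Nat.cast_nonneg (α := ℝ) j]

lemma al_inj : Function.Injective al := by
  intro i j h
  unfold al at h
  have h1 : (i : ℝ) + 1 = (j : ℝ) + 1 := by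
    have := congrArg (fun x => x⁻¹) h
    simpa using this
  have h2 : (i : ℝ) = j := by linarith
  exact_mod_cast h2

noncomputable def be (j : ℕ) : ℝ := Real.sqrt (1 - al j ^ 2)

lemma be_sq (j : ℕ) : be j ^ 2 = 1 - al j ^ 2 := by
  unfold be
  rw [Real.sq_sqrt]
  nlinarith [al_pos j, al_le j]

lemma be_zero : be 0 = 0 := by
  unfold be al
  simp

lemma be_pos (j : ℕ) (hj : j ≠ 0) : be j ≠ 0 := by
  intro h
  have h1 := be_sq j
  rw [h] at h1
  have h2 : al j = 1 := by nlinarith [al_pos j, al_le j]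
  have h3 : al j = al 0 := by rw [h2]; unfold al; simp
  exact hj (al_inj h3)

variable (𝕜) in
/-- the markers -/
noncomputable def mk {n : ℕ} (hn : 0 < n) (j : Fin n) : EuclideanSpace 𝕜 (Fin n) :=
  ((al j : ℝ) : 𝕜) • EuclideanSpace.single ⟨0, hn⟩ 1 + ((be j : ℝ) : 𝕜) • EuclideanSpace.single j 1

lemma inner_single_single {n : ℕ} (i j : Fin n) :
    inner 𝕜 (EuclideanSpace.single i 1 : EuclideanSpace 𝕜 (Fin n)) (EuclideanSpace.single j 1) =
      if i = j then (1 : 𝕜) else 0 := by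
  rw [EuclideanSpace.inner_single_left, map_one, one_mul, PiLp.single_apply]

lemma be_inner {n : ℕ} (hn : 0 < n) (j : Fin n) :
    ((be j : ℝ) : 𝕜) * inner 𝕜 (EuclideanSpace.single ⟨0, hn⟩ 1 : EuclideanSpace 𝕜 (Fin n))
      (EuclideanSpace.single j 1) = 0 := by
  rw [inner_single_single]
  split_ifs with h
  · have : (j : ℕ) = 0 := by rw [← h]
    rw [this, be_zero, RCLike.ofReal_zero, zero_mul]
  · rw [mul_zero]

lemma inner_mk {n : ℕ} (hn : 0 < n) (i j : Fin n) :
    inner 𝕜 (mk 𝕜 hn i) (mk 𝕜 hn j) =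
      ((al i * al j : ℝ) : 𝕜) + ((be i * be j : ℝ) : 𝕜) * (if i = j then 1 else 0) := by
  unfold mk
  rw [inner_add_left, inner_add_right, inner_add_right, inner_smul_left, inner_smul_left,
    inner_smul_left, inner_smul_left, inner_smul_right, inner_smul_right, inner_smul_right,
    inner_smul_right, RCLike.conj_ofReal, RCLike.conj_ofReal, be_inner hn j]
  have h1 : ((be i : ℝ) : 𝕜) * inner 𝕜 (EuclideanSpace.single i 1 : EuclideanSpace 𝕜 (Fin n))
      (EuclideanSpace.single ⟨0, hn⟩ 1) = 0 := by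
    rw [← inner_conj_symm, ← RCLike.conj_ofReal, ← map_mul, be_inner hn i, map_zero]
  rw [inner_single_single, inner_single_single, inner_single_single, if_pos rfl]
  rw [inner_single_single] at h1
  have h2 : ((be i : ℝ) : 𝕜) * (((al j : ℝ) : 𝕜) * if i = ⟨0, hn⟩ then 1 else 0) = 0 := by
    rw [mul_left_comm, h1, mul_zero]
  rw [h2, RCLike.ofReal_mul, RCLike.ofReal_mul]
  ring

lemma norm_mk_eq {n : ℕ} (hn : 0 < n) (i : Fin n) : ‖mk 𝕜 hn i‖ = 1 := by
  have h1 := inner_mk (𝕜 := 𝕜) hn i i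
  rw [inner_self_eq_norm_sq_to_K, if_pos rfl, mul_one, ← RCLike.ofReal_add] at h1
  have h2 : al i * al i + be i * be i = 1 := by
    have := be_sq i
    nlinarith
  rw [h2, ← RCLike.ofReal_pow] at h1
  have h3 : ‖mk 𝕜 hn i‖ ^ 2 = 1 := RCLike.ofReal_injective h1
  nlinarith [norm_nonneg (mk 𝕜 hn i)]

lemma inner_mk_ne {n : ℕ} (hn : 0 < n) (i j : Fin n) (hij : i ≠ j) :
    inner 𝕜 (mk 𝕜 hn i) (mk 𝕜 hn j) = ((al i * al j : ℝ) : 𝕜) := by
  rw [inner_mk, if_neg hij, mul_zero, add_zero]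

lemma span_mk {n : ℕ} (hn : 0 < n) :
    Submodule.span 𝕜 (Set.range (mk 𝕜 hn)) = ⊤ := by
  have h0 : (EuclideanSpace.single ⟨0, hn⟩ 1 : EuclideanSpace 𝕜 (Fin n)) ∈
      Submodule.span 𝕜 (Set.range (mk 𝕜 hn)) := by
    have h1 : mk 𝕜 hn ⟨0, hn⟩ = EuclideanSpace.single ⟨0, hn⟩ 1 := by
      unfold mk
      show ((al 0 : ℝ) : 𝕜) • _ + ((be 0 : ℝ) : 𝕜) • _ = _
      rw [be_zero]
      unfold al
      simp
    rw [← h1]
    exact Submodule.subset_span ⟨_, rfl⟩
  have h2 : ∀ j : Fin n, (EuclideanSpace.single j 1 : EuclideanSpace 𝕜 (Fin n)) ∈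
      Submodule.span 𝕜 (Set.range (mk 𝕜 hn)) := by
    intro j
    by_cases hj : (j : ℕ) = 0
    · have : j = ⟨0, hn⟩ := Fin.ext hj
      rw [this]; exact h0
    · have h3 : ((be j : ℝ) : 𝕜) ≠ 0 := by exact_mod_cast be_pos j hj
      have h4 : (EuclideanSpace.single j 1 : EuclideanSpace 𝕜 (Fin n)) =
          (((be j : ℝ) : 𝕜))⁻¹ • (mk 𝕜 hn j - ((al j : ℝ) : 𝕜) • EuclideanSpace.single ⟨0, hn⟩ 1) := by
        unfold mk
        rw [add_sub_cancel_left, smul_smul, inv_mul_cancel₀ h3, one_smul]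
      rw [h4]
      exact Submodule.smul_mem _ _ (Submodule.sub_mem _ (Submodule.subset_span ⟨_, rfl⟩)
        (Submodule.smul_mem _ _ h0))
  rw [eq_top_iff]
  intro x _
  have h5 : x = ∑ j, x j • (EuclideanSpace.single j 1 : EuclideanSpace 𝕜 (Fin n)) := by
    have := (EuclideanSpace.basisFun (Fin n) 𝕜).sum_repr x
    conv_lhs => rw [← this]
    refine Finset.sum_congr rfl (fun j _ => ?_)
    simp
  rw [h5]
  exact Submodule.sum_mem _ (fun j _ => Submodule.smul_mem _ _ (h2 j))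

end Markers

end Pool.Agent.Helper362.Ideals
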