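import Pool.Agent.Helper362.IdealG
set_option autoImplicit false
open Module NormedSpace Filter
open scoped Topology ENNReal

namespace Pool.Agent.Helper362.Ideals

variable {𝕜 : Type} [RCLike 𝕜]

/-- There are signs making the sum of vectors long. -/
lemma exists_signs {H : Type} [NormedAddCommGroup H] [InnerProductSpace 𝕜 H] {ι : Type}
    (s : Finset ι) (y : ι → H) : ∃ ε : ι → ℝ, (∀ i, |ε i| = 1) ∧
      ∑ i ∈ s, ‖y i‖ ^ 2 ≤ ‖∑ i ∈ s, ((ε i : ℝ) : 𝕜) • y i‖ ^ 2 := by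
  classical
  induction s using Finset.induction_on with
  | empty => exact ⟨fun _ => 1, fun _ => abs_one, by simp⟩
  | insert a s ha ih =>
    obtain ⟨ε, hε, hs⟩ := ih
    set S := ∑ i ∈ s, ((ε i : ℝ) : 𝕜) • y i with hS
    have hpar := parallelogram_law_with_norm 𝕜 (y a) S
    have hor : ‖y a‖ ^ 2 + ‖S‖ ^ 2 ≤ ‖y a + S‖ ^ 2 ∨ ‖y a‖ ^ 2 + ‖S‖ ^ 2 ≤ ‖y a - S‖ ^ 2 := by
      by_contra hcon
      rw [not_or, not_le, not_le] at hcon
      nlinarith [hcon.1, hcon.2]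
    have hsum : ∀ t : ℝ, ∑ i ∈ s, (((Function.update ε a t) i : ℝ) : 𝕜) • y i = S := by
      intro t
      refine Finset.sum_congr rfl (fun i hi => ?_)
      rw [Function.update_of_ne (show i ≠ a from fun h => ha (h ▸ hi))]
    have hneg : ∀ t : ℝ, |t| = 1 → ∀ i, |(Function.update ε a t) i| = 1 := by
      intro t ht i
      by_cases hi : i = a
      · rw [hi, Function.update_self]; exact ht
      · rw [Function.update_of_ne hi]; exact hε i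
    rcases hor with h | h
    · refine ⟨Function.update ε a 1, hneg 1 abs_one, ?_⟩
      rw [Finset.sum_insert ha, Finset.sum_insert ha, hsum, Function.update_self,
        RCLike.ofReal_one, one_smul]
      linarith
    · refine ⟨Function.update ε a (-1), hneg (-1) (by rw [abs_neg, abs_one]), ?_⟩
      rw [Finset.sum_insert ha, Finset.sum_insert ha, hsum, Function.update_self,
        RCLike.ofReal_neg, RCLike.ofReal_one, neg_one_smul]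
      have : ‖-y a + S‖ = ‖y a - S‖ := by
        rw [← norm_neg]; congr 1; abel
      rw [this]
      linarith

section Main

variable {Z : Type} [NormedAddCommGroup Z] [NormedSpace 𝕜 Z] {n : ℕ} (hn : 0 < n)

/-- the generator -/
noncomputable def TT (ι : EuclideanSpace 𝕜 (Fin n) →L[𝕜] Z) :
    EuclideanSpace 𝕜 (Fin n) →L[𝕜] Z × (Fin n → 𝕜) :=
  (((1 / 2 : ℝ) : 𝕜) • ι).prod (ContinuousLinearMap.pi (fun j => innerSL 𝕜 (mk 𝕜 hn j)))

lemma TT_fst (ι : EuclideanSpace 𝕜 (Fin n) →L[𝕜] Z) (x : EuclideanSpace 𝕜 (Fin n)) :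
    (TT hn ι x).1 = ((1 / 2 : ℝ) : 𝕜) • ι x := rfl

lemma TT_snd (ι : EuclideanSpace 𝕜 (Fin n) →L[𝕜] Z) (x : EuclideanSpace 𝕜 (Fin n)) (j : Fin n) :
    (TT hn ι x).2 j = inner 𝕜 (mk 𝕜 hn j) x := rfl

lemma norm_TT_apply (ι : EuclideanSpace 𝕜 (Fin n) →L[𝕜] Z) (hι : ‖ι‖ ≤ 1)
    (x : EuclideanSpace 𝕜 (Fin n)) : ‖TT hn ι x‖ ≤ ‖x‖ := by
  rw [Prod.norm_def]
  refine max_le ?_ ?_
  · rw [TT_fst, norm_smul, RCLike.norm_ofReal, abs_of_pos (by norm_num)]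
    have h1 := ι.le_opNorm x
    have h2 := norm_nonneg x
    have h3 := norm_nonneg (ι x)
    nlinarith
  · rw [pi_norm_le_iff_of_nonneg (norm_nonneg _)]
    intro j
    rw [TT_snd]
    have := norm_inner_le_norm (𝕜 := 𝕜) (mk 𝕜 hn j) x
    rwa [norm_mk_eq, one_mul] at this

lemma norm_TT (ι : EuclideanSpace 𝕜 (Fin n) →L[𝕜] Z) (hι : ‖ι‖ ≤ 1) : ‖TT hn ι‖ ≤ 1 :=
  ContinuousLinearMap.opNorm_le_bound _ zero_le_one (fun x => by
    rw [one_mul]; exact norm_TT_apply hn ι hι x)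

/-- first part of the test functional -/
noncomputable def P1 (u : Z →L[𝕜] EuclideanSpace 𝕜 (Fin n)) :
    Z × (Fin n → 𝕜) →L[𝕜] EuclideanSpace 𝕜 (Fin n) :=
  (2 : 𝕜) • (u ∘L ContinuousLinearMap.fst 𝕜 Z (Fin n → 𝕜))

/-- coordinate functional of the marker part -/
noncomputable def cj (Z : Type) [NormedAddCommGroup Z] [NormedSpace 𝕜 Z] (j : Fin n) :
    Z × (Fin n → 𝕜) →L[𝕜] 𝕜 :=
  (ContinuousLinearMap.proj (R := 𝕜) (φ := fun _ : Fin n => 𝕜) j) ∘L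
    ContinuousLinearMap.snd 𝕜 Z (Fin n → 𝕜)

lemma norm_cj_apply (j : Fin n) (p : Z × (Fin n → 𝕜)) : ‖cj (𝕜 := 𝕜) Z j p‖ ≤ ‖p‖ :=
  (norm_le_pi_norm p.2 j).trans (norm_snd_le p)

/-- the test functional -/
noncomputable def WW (u : Z →L[𝕜] EuclideanSpace 𝕜 (Fin n)) (R : ℝ) :
    Z × (Fin n → 𝕜) →L[𝕜] EuclideanSpace 𝕜 (Fin n) :=
  P1 u + (R : 𝕜) • ∑ j, (cj Z j).smulRight (mk 𝕜 hn j)

lemma tr_WW (u : Z →L[𝕜] EuclideanSpace 𝕜 (Fin n)) (R : ℝ)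
    (A : EuclideanSpace 𝕜 (Fin n) →L[𝕜] Z × (Fin n → 𝕜)) :
    tr (WW hn u R ∘L A) = tr (P1 u ∘L A) + (R : 𝕜) * ∑ j, (A (mk 𝕜 hn j)).2 j := by
  unfold WW
  have h1 : (P1 u + (R : 𝕜) • ∑ j, (cj Z j).smulRight (mk 𝕜 hn j)) ∘L A =
      P1 u ∘L A + (R : 𝕜) • ∑ j, ((cj Z j) ∘L A).smulRight (mk 𝕜 hn j) := by
    ext1 x
    rw [add_apply, smul_apply, sum_apply]
    show P1 u (A x) + (R : 𝕜) • (∑ j, (cj Z j).smulRight (mk 𝕜 hn j)) (A x) = _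
    rw [sum_apply]
    rfl
  rw [h1, tr_add, tr_smul, tr_sum]
  congr 2
  refine Finset.sum_congr rfl (fun j _ => ?_)
  rw [tr_rankOne]
  rfl

lemma norm_WW (u : Z →L[𝕜] EuclideanSpace 𝕜 (Fin n)) (R : ℝ) (hR : 0 ≤ R) :
    ‖WW hn u R‖ ≤ 2 * ‖u‖ + R * n := by
  refine ContinuousLinearMap.opNorm_le_bound _ (by positivity) (fun p => ?_)
  unfold WW
  rw [add_apply, smul_apply, sum_apply]
  refine (norm_add_le _ _).trans ?_
  rw [add_mul]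
  refine add_le_add ?_ ?_
  · show ‖(2 : 𝕜) • u p.1‖ ≤ _
    rw [norm_smul, RCLike.norm_two, mul_assoc]
    refine mul_le_mul_of_nonneg_left ?_ (by norm_num)
    exact (u.le_opNorm _).trans (mul_le_mul_of_nonneg_left (norm_fst_le p) (norm_nonneg _))
  · rw [norm_smul, RCLike.norm_ofReal, abs_of_nonneg hR, mul_assoc]
    refine mul_le_mul_of_nonneg_left ?_ hR
    refine (norm_sum_le _ _).trans ?_
    calc ∑ j, ‖(cj Z j).smulRight (mk 𝕜 hn j) p‖ ≤ ∑ _j : Fin n, ‖p‖ := by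
          refine Finset.sum_le_sum (fun j _ => ?_)
          show ‖cj Z j p • mk 𝕜 hn j‖ ≤ _
          rw [norm_smul, norm_mk_eq, mul_one]
          exact norm_cj_apply j p
      _ = n * ‖p‖ := by rw [Finset.sum_const, Finset.card_univ, Fintype.card_fin, nsmul_eq_mul]

lemma tr_P1_id (ι : EuclideanSpace 𝕜 (Fin n) →L[𝕜] Z) (u : Z →L[𝕜] EuclideanSpace 𝕜 (Fin n)) :
    tr (P1 u ∘L TT hn ι) = tr (u ∘L ι) := by
  congr 1
  ext1 x
  show (2 : 𝕜) • u (((1 / 2 : ℝ) : 𝕜) • ι x) = u (ι x)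
  rw [map_smul, smul_smul]
  have : (2 : 𝕜) * ((1 / 2 : ℝ) : 𝕜) = 1 := by
    rw [RCLike.ofReal_div, RCLike.ofReal_one, RCLike.ofReal_ofNat]
    exact mul_one_div_cancel two_ne_zero
  rw [this, one_smul]

lemma tr_WW_TT (ι : EuclideanSpace 𝕜 (Fin n) →L[𝕜] Z) (u : Z →L[𝕜] EuclideanSpace 𝕜 (Fin n))
    (R : ℝ) : tr (WW hn u R ∘L TT hn ι) = tr (u ∘L ι) + ((R * n : ℝ) : 𝕜) := by
  rw [tr_WW, tr_P1_id]
  congr 1
  have h1 : ∀ j : Fin n, (TT hn ι (mk 𝕜 hn j)).2 j = 1 := by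
    intro j
    rw [TT_snd, inner_self_eq_norm_sq_to_K, norm_mk_eq]
    simp
  rw [Finset.sum_congr rfl (fun j _ => h1 j), Finset.sum_const, Finset.card_univ,
    Fintype.card_fin, nsmul_eq_mul, mul_one, RCLike.ofReal_mul, RCLike.ofReal_natCast]

/-- the cross term -/
lemma cross (u : Z →L[𝕜] EuclideanSpace 𝕜 (Fin n)) (hu : Real.sqrt n * ‖u‖ ≤ 1 / 8)
    (V : Z × (Fin n → 𝕜) →L[𝕜] Z × (Fin n → 𝕜)) (hV : ‖V‖ ≤ 1) :
    ∑ j : Fin n, ‖u (V (0, Pi.single j 1)).1‖ ≤ 1 / 8 := by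
  set y : Fin n → EuclideanSpace 𝕜 (Fin n) := fun j => u (V (0, Pi.single j 1)).1 with hy
  obtain ⟨ε, hε, hs⟩ := exists_signs (𝕜 := 𝕜) Finset.univ y
  have h1 : ∑ j, ((ε j : ℝ) : 𝕜) • y j = u (V (0, fun j => ((ε j : ℝ) : 𝕜))).1 := by
    have h2 : ((0, fun j => ((ε j : ℝ) : 𝕜)) : Z × (Fin n → 𝕜)) =
        ∑ j, ((ε j : ℝ) : 𝕜) • ((0, Pi.single j 1) : Z × (Fin n → 𝕜)) := by
      refine Prod.ext ?_ ?_
      · rw [Prod.fst_sum]
        simp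
      · rw [Prod.snd_sum]
        funext i
        rw [Finset.sum_apply]
        simp [Pi.single_apply, RCLike.real_smul_eq_coe_mul]
    rw [h2, map_sum, Prod.fst_sum, map_sum]
    refine Finset.sum_congr rfl (fun j _ => ?_)
    rw [map_smul, Prod.smul_fst, map_smul]
  have h2 : ‖u (V (0, fun j => ((ε j : ℝ) : 𝕜))).1‖ ≤ ‖u‖ := by
    refine (u.le_opNorm _).trans ?_
    have h3 : ‖(V (0, fun j => ((ε j : ℝ) : 𝕜))).1‖ ≤ 1 := by
      refine (norm_fst_le _).trans ((V.le_opNorm _).trans ?_)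
      have h4 : ‖((0, fun j => ((ε j : ℝ) : 𝕜)) : Z × (Fin n → 𝕜))‖ ≤ 1 := by
        rw [Prod.norm_def]
        refine max_le ?_ ?_
        · show ‖(0 : Z)‖ ≤ 1
          rw [norm_zero]; exact zero_le_one
        · rw [pi_norm_le_iff_of_nonneg zero_le_one]
          intro i
          show ‖((ε i : ℝ) : 𝕜)‖ ≤ 1
          rw [RCLike.norm_ofReal, hε]
      have h5 := norm_nonneg ((0, fun j => ((ε j : ℝ) : 𝕜)) : Z × (Fin n → 𝕜))
      nlinarith [norm_nonneg V]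
    have h6 := norm_nonneg u
    nlinarith
  have h3 : ∑ j, ‖y j‖ ^ 2 ≤ ‖u‖ ^ 2 := by
    refine hs.trans ?_
    rw [h1]
    exact pow_le_pow_left₀ (norm_nonneg _) h2 2
  have h4 : (∑ j, ‖y j‖) ^ 2 ≤ (n : ℝ) * ∑ j, ‖y j‖ ^ 2 := by
    have := sq_sum_le_card_mul_sum_sq (s := (Finset.univ : Finset (Fin n))) (f := fun j => ‖y j‖)
    rwa [Finset.card_univ, Fintype.card_fin] at this
  have h5 : (∑ j, ‖y j‖) ^ 2 ≤ (1 / 8 : ℝ) ^ 2 := by
    refine h4.trans ?_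
    have h6 : (Real.sqrt n * ‖u‖) ^ 2 ≤ (1 / 8) ^ 2 := by
      have : 0 ≤ Real.sqrt n * ‖u‖ := by positivity
      exact pow_le_pow_left₀ this hu 2
    rw [mul_pow, Real.sq_sqrt (Nat.cast_nonneg n)] at h6
    refine le_trans ?_ h6
    exact mul_le_mul_of_nonneg_left h3 (Nat.cast_nonneg n)
  exact le_of_sq_le_sq h5 (by norm_num)

/-- the value near the identity -/
lemma near_id (ι : EuclideanSpace 𝕜 (Fin n) →L[𝕜] Z) (u : Z →L[𝕜] EuclideanSpace 𝕜 (Fin n))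
    (hu : Real.sqrt n * ‖u‖ ≤ 1 / 8)
    (hV0 : ∀ V : Z →L[𝕜] Z, ‖V‖ ≤ 1 → FiniteDimensional 𝕜 (LinearMap.range (V : Z →ₗ[𝕜] Z)) →
      ‖tr (u ∘L V ∘L ι)‖ ≤ 1 / 4)
    (V : Z × (Fin n → 𝕜) →L[𝕜] Z × (Fin n → 𝕜)) (hV : ‖V‖ ≤ 1)
    (hVf : FiniteDimensional 𝕜 (LinearMap.range (V : Z × (Fin n → 𝕜) →ₗ[𝕜] Z × (Fin n → 𝕜)))) :
    ‖tr (P1 u ∘L V ∘L TT hn ι)‖ ≤ 1 / 2 := by
  set VZ : Z →L[𝕜] Z := ContinuousLinearMap.fst 𝕜 Z (Fin n → 𝕜) ∘L V ∘L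
    ContinuousLinearMap.inl 𝕜 Z (Fin n → 𝕜) with hVZ
  have h1 : P1 u ∘L V ∘L TT hn ι = u ∘L VZ ∘L ι +
      ∑ j : Fin n, (innerSL 𝕜 (mk 𝕜 hn j)).smulRight
        ((2 : 𝕜) • u (V (0, Pi.single j 1)).1) := by
    ext1 x
    rw [add_apply, sum_apply]
    have h2 : TT hn ι x = ((1 / 2 : ℝ) : 𝕜) • ((ι x, 0) : Z × (Fin n → 𝕜)) +
        ∑ j, (inner 𝕜 (mk 𝕜 hn j) x) • ((0, Pi.single j 1) : Z × (Fin n → 𝕜)) := by
      refine Prod.ext ?_ ?_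
      · rw [TT_fst, Prod.fst_add, Prod.fst_sum]
        simp
      · rw [Prod.snd_add, Prod.snd_sum]
        funext i
        rw [TT_snd, Pi.add_apply, Finset.sum_apply]
        simp [Pi.single_apply]
    show (2 : 𝕜) • u (V (TT hn ι x)).1 = u (V (ι x, 0)).1 +
      ∑ j, (inner 𝕜 (mk 𝕜 hn j) x) • ((2 : 𝕜) • u (V (0, Pi.single j 1)).1)
    rw [h2, map_add, map_smul, map_sum, Prod.fst_add, Prod.smul_fst, Prod.fst_sum, map_add,
      map_smul, map_sum, smul_add, smul_smul, Finset.smul_sum]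
    have h3 : (2 : 𝕜) * ((1 / 2 : ℝ) : 𝕜) = 1 := by
      rw [RCLike.ofReal_div, RCLike.ofReal_one, RCLike.ofReal_ofNat]
      exact mul_one_div_cancel two_ne_zero
    rw [h3, one_smul]
    congr 1
    refine Finset.sum_congr rfl (fun j _ => ?_)
    rw [map_smul, Prod.smul_fst, map_smul, smul_comm]
  rw [h1, tr_add, tr_sum]
  have h2 : ‖tr (u ∘L VZ ∘L ι)‖ ≤ 1 / 4 := by
    refine hV0 VZ ?_ ?_
    · refine ContinuousLinearMap.opNorm_le_bound _ zero_le_one (fun z => ?_)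
      show ‖(V (z, 0)).1‖ ≤ 1 * ‖z‖
      refine (norm_fst_le _).trans ((V.le_opNorm _).trans ?_)
      have : ‖((z, 0) : Z × (Fin n → 𝕜))‖ = ‖z‖ := by
        rw [Prod.norm_def]
        simp
      rw [this]
      exact mul_le_mul_of_nonneg_right hV (norm_nonneg _)
    · have h3 : LinearMap.range (VZ : Z →ₗ[𝕜] Z) ≤
          (LinearMap.range (V : Z × (Fin n → 𝕜) →ₗ[𝕜] Z × (Fin n → 𝕜))).map
            (LinearMap.fst 𝕜 Z (Fin n → 𝕜)) := by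
        rintro _ ⟨z, rfl⟩
        exact ⟨V (z, 0), ⟨_, rfl⟩, rfl⟩
      exact Submodule.finiteDimensional_of_le h3
  have h4 : ‖∑ j : Fin n, tr ((innerSL 𝕜 (mk 𝕜 hn j)).smulRight
        ((2 : 𝕜) • u (V (0, Pi.single j 1)).1))‖ ≤ 1 / 4 := by
    have h5 := cross u hu V hV
    calc _ ≤ ∑ j : Fin n, 2 * ‖u (V (0, Pi.single j 1)).1‖ := by
          refine norm_sum_le_of_le _ (fun j _ => ?_)
          rw [tr_rankOne]
          show ‖inner 𝕜 (mk 𝕜 hn j) ((2 : 𝕜) • u (V (0, Pi.single j 1)).1)‖ ≤ _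
          refine (norm_inner_le_norm _ _).trans ?_
          rw [norm_mk_eq, one_mul, norm_smul, RCLike.norm_two]
      _ = 2 * ∑ j : Fin n, ‖u (V (0, Pi.single j 1)).1‖ := by rw [Finset.mul_sum]
      _ ≤ 1 / 4 := by linarith
  refine (norm_add_le _ _).trans ?_
  linarith

end Main

end Pool.Agent.Helper362.Ideals
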