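import Pool.Agent.Helper362.IdealH
set_option autoImplicit false
open Module NormedSpace Filter
open scoped Topology ENNReal

namespace Pool.Agent.Helper362.Ideals

variable {𝕜 : Type} [RCLike 𝕜]

section Main

variable {Z : Type} [NormedAddCommGroup Z] [NormedSpace 𝕜 Z] {n : ℕ} (hn : 0 < n)

/-- the total length of the images of the markers -/
noncomputable def hf (ι : EuclideanSpace 𝕜 (Fin n) →L[𝕜] Z)
    (a : EuclideanSpace 𝕜 (Fin n) →L[𝕜] EuclideanSpace 𝕜 (Fin n)) : ℝ :=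
  ∑ j, ‖TT hn ι (a (mk 𝕜 hn j))‖

lemma continuous_hf (ι : EuclideanSpace 𝕜 (Fin n) →L[𝕜] Z) : Continuous (hf hn ι) := by
  unfold hf
  refine continuous_finsetSum _ (fun j _ => ?_)
  have h1 : Continuous (fun a : EuclideanSpace 𝕜 (Fin n) →L[𝕜] EuclideanSpace 𝕜 (Fin n) =>
      a (mk 𝕜 hn j)) := (ContinuousLinearMap.apply 𝕜 _ (mk 𝕜 hn j)).continuous
  exact ((TT hn ι).continuous.comp h1).norm

lemma norm_TT_le_one (ι : EuclideanSpace 𝕜 (Fin n) →L[𝕜] Z) (hι : ‖ι‖ ≤ 1)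
    (a : EuclideanSpace 𝕜 (Fin n) →L[𝕜] EuclideanSpace 𝕜 (Fin n)) (ha : ‖a‖ ≤ 1) (j : Fin n) :
    ‖TT hn ι (a (mk 𝕜 hn j))‖ ≤ 1 := by
  refine (norm_TT_apply hn ι hι _).trans ((a.le_opNorm _).trans ?_)
  rw [norm_mk_eq, mul_one]; exact ha

lemma hf_le (ι : EuclideanSpace 𝕜 (Fin n) →L[𝕜] Z) (hι : ‖ι‖ ≤ 1)
    (a : EuclideanSpace 𝕜 (Fin n) →L[𝕜] EuclideanSpace 𝕜 (Fin n)) (ha : ‖a‖ ≤ 1) :
    hf hn ι a ≤ n := by
  unfold hf
  calc _ ≤ ∑ _j : Fin n, (1 : ℝ) := Finset.sum_le_sum (fun j _ => norm_TT_le_one hn ι hι a ha j)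
    _ = n := by simp

lemma hf_lt (hn3 : 3 ≤ n) (ι : EuclideanSpace 𝕜 (Fin n) →L[𝕜] Z) (hι : ‖ι‖ ≤ 1)
    (a : EuclideanSpace 𝕜 (Fin n) →L[𝕜] EuclideanSpace 𝕜 (Fin n)) (ha : ‖a‖ ≤ 1)
    (hne : ∀ c : 𝕜, ‖c‖ = 1 → a ≠ c • ContinuousLinearMap.id 𝕜 _) : hf hn ι a < n := by
  by_contra hcon
  rw [not_lt] at hcon
  have h1 : ∀ j, ‖TT hn ι (a (mk 𝕜 hn j))‖ = 1 := by
    have h2 : ∑ j : Fin n, (1 - ‖TT hn ι (a (mk 𝕜 hn j))‖) = 0 := by
      refine le_antisymm ?_ (Finset.sum_nonneg (fun j _ => by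
        linarith [norm_TT_le_one hn ι hι a ha j]))
      rw [Finset.sum_sub_distrib]
      unfold hf at hcon
      simp only [Finset.sum_const, Finset.card_univ, Fintype.card_fin, nsmul_eq_mul, mul_one]
      linarith
    rw [Finset.sum_eq_zero_iff_of_nonneg (fun j _ => by
      linarith [norm_TT_le_one hn ι hι a ha j])] at h2
    intro j
    linarith [h2 j (Finset.mem_univ j)]
  have h3 : ∀ j, ∃ i, 1 ≤ ‖inner 𝕜 (mk 𝕜 hn i) (a (mk 𝕜 hn j))‖ := by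
    intro j
    by_contra hc
    rw [not_exists] at hc
    have hx : ‖a (mk 𝕜 hn j)‖ ≤ 1 := by
      refine (a.le_opNorm _).trans ?_
      rw [norm_mk_eq, mul_one]; exact ha
    have h4 : ‖TT hn ι (a (mk 𝕜 hn j))‖ < 1 := by
      rw [Prod.norm_def]
      refine max_lt ?_ ?_
      · rw [TT_fst, norm_smul, RCLike.norm_ofReal, abs_of_pos (by norm_num)]
        have h5 := ι.le_opNorm (a (mk 𝕜 hn j))
        have h6 := norm_nonneg (a (mk 𝕜 hn j))
        nlinarith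
      · rw [pi_norm_lt_iff one_pos]
        intro i
        rw [TT_snd]
        exact not_le.mp (hc i)
    rw [h1 j] at h4
    exact lt_irrefl _ h4
  obtain ⟨c, hc1, hc2⟩ := rigid hn3 (mk 𝕜 hn) (fun j => al j) (norm_mk_eq hn)
    (fun i => al_pos i) (fun i => al_le i) (fun i j h => Fin.ext (al_inj h))
    (inner_mk_ne hn) (span_mk hn) a ha h3
  exact hne c hc1 hc2

/-- The main construction. -/
theorem exists_not_RA [CompleteSpace Z] (hn3 : 3 ≤ n) (ι : EuclideanSpace 𝕜 (Fin n) →L[𝕜] Z)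
    (u : Z →L[𝕜] EuclideanSpace 𝕜 (Fin n)) (hι : ‖ι‖ ≤ 1) (htr : tr (u ∘L ι) = 1)
    (hu : Real.sqrt n * ‖u‖ ≤ 1 / 8)
    (hV0 : ∀ V : Z →L[𝕜] Z, ‖V‖ ≤ 1 → FiniteDimensional 𝕜 (LinearMap.range (V : Z →ₗ[𝕜] Z)) →
      ‖tr (u ∘L V ∘L ι)‖ ≤ 1 / 4) :
    ¬ RightAccessible (gen (TT hn ι) (norm_TT hn ι hι)).toIdealData := by
  set T0 := TT hn ι with hT0
  obtain ⟨C, hC0, hC⟩ : ∃ C : ℝ, 0 ≤ C ∧
      ∀ A : EuclideanSpace 𝕜 (Fin n) →L[𝕜] EuclideanSpace 𝕜 (Fin n), ‖tr A‖ ≤ C * ‖A‖ := by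
    refine ⟨‖LinearMap.toContinuousLinearMap (trL (𝕜 := 𝕜) (EuclideanSpace 𝕜 (Fin n)))‖,
      ContinuousLinearMap.opNorm_nonneg _, fun A => ?_⟩
    exact (LinearMap.toContinuousLinearMap
      (trL (𝕜 := 𝕜) (EuclideanSpace 𝕜 (Fin n)))).le_opNorm A
  set C1 := C * ‖P1 u‖ with hC1
  have hC1' : 0 ≤ C1 := by positivity
  have crude : ∀ (a : EuclideanSpace 𝕜 (Fin n) →L[𝕜] EuclideanSpace 𝕜 (Fin n))
      (V : Z × (Fin n → 𝕜) →L[𝕜] Z × (Fin n → 𝕜)), ‖V‖ ≤ 1 →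
      ‖tr (P1 u ∘L V ∘L T0 ∘L a)‖ ≤ C1 * ‖a‖ := by
    intro a V hV
    refine (hC _).trans ?_
    rw [hC1, mul_assoc]
    refine mul_le_mul_of_nonneg_left ?_ hC0
    refine (ContinuousLinearMap.opNorm_comp_le _ _).trans ?_
    refine mul_le_mul_of_nonneg_left ?_ (norm_nonneg _)
    refine (ContinuousLinearMap.opNorm_comp_le _ _).trans ?_
    have e1 : ‖T0 ∘L a‖ ≤ ‖a‖ := by
      refine (ContinuousLinearMap.opNorm_comp_le _ _).trans ?_
      have := norm_TT hn ι hι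
      have e2 := norm_nonneg a
      nlinarith
    have e3 := norm_nonneg (T0 ∘L a)
    nlinarith [norm_nonneg V]
  set δ : ℝ := 1 / (4 * (C1 + 1)) with hδ
  have hδ0 : 0 < δ := by positivity
  have hδ1 : C1 * δ ≤ 1 / 4 := by
    rw [hδ, ← mul_div_assoc, mul_one, div_le_iff₀ (by positivity)]
    linarith
  set S : Set (EuclideanSpace 𝕜 (Fin n) →L[𝕜] EuclideanSpace 𝕜 (Fin n)) :=
    {a | ‖a‖ ≤ 1 ∧ ∀ c : 𝕜, ‖c‖ = 1 → δ ≤ ‖a - c • ContinuousLinearMap.id 𝕜 _‖} with hS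
  have hcomp : IsCompact S := by
    have hp : ProperSpace (EuclideanSpace 𝕜 (Fin n) →L[𝕜] EuclideanSpace 𝕜 (Fin n)) :=
      FiniteDimensional.proper 𝕜 _
    refine IsCompact.of_isClosed_subset (isCompact_closedBall
      (0 : EuclideanSpace 𝕜 (Fin n) →L[𝕜] EuclideanSpace 𝕜 (Fin n)) 1) ?_ ?_
    · have e1 : S = {a | ‖a‖ ≤ 1} ∩ ⋂ c : 𝕜, ⋂ _ : ‖c‖ = 1,
          {a | δ ≤ ‖a - c • ContinuousLinearMap.id 𝕜 _‖} := by
        ext a
        simp only [hS, Set.mem_ofPred_eq, Set.mem_inter_iff, Set.mem_iInter]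
      rw [e1]
      refine IsClosed.inter (isClosed_le continuous_norm continuous_const) ?_
      refine isClosed_iInter (fun c => isClosed_iInter (fun _ => ?_))
      exact isClosed_le continuous_const (continuous_id.sub continuous_const).norm
    · intro a ha
      rw [Metric.mem_closedBall, dist_zero_right]
      exact ha.1
  have hSne : ∀ a ∈ S, hf hn ι a < n := by
    intro a ha
    refine hf_lt hn hn3 ι hι a ha.1 (fun c hc hac => ?_)
    have h1 := ha.2 c hc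
    rw [hac, sub_self, norm_zero] at h1
    linarith
  obtain ⟨η, hη0, hη⟩ : ∃ η : ℝ, 0 < η ∧ ∀ a ∈ S, hf hn ι a ≤ n - η := by
    by_cases hSe : S.Nonempty
    · obtain ⟨a0, ha0, hmax⟩ := hcomp.exists_isMaxOn hSe (continuous_hf hn ι).continuousOn
      refine ⟨n - hf hn ι a0, by linarith [hSne a0 ha0], fun a ha => ?_⟩
      have : hf hn ι a ≤ hf hn ι a0 := hmax ha
      linarith
    · exact ⟨1, one_pos, fun a ha => absurd ⟨a, ha⟩ hSe⟩
  set R : ℝ := C1 / η with hR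
  have hR0 : 0 ≤ R := by positivity
  have hRη : R * η = C1 := div_mul_cancel₀ _ hη0.ne'
  have hRn : 0 ≤ R * n := by positivity
  have hu8 : ‖u‖ ≤ 1 / 8 := by
    have h1 : (1 : ℝ) ≤ Real.sqrt n := by
      rw [show (1 : ℝ) = Real.sqrt 1 by simp]
      exact Real.sqrt_le_sqrt (by exact_mod_cast (by omega : 1 ≤ n))
    have := norm_nonneg u
    nlinarith
  refine not_rightAccessible T0 (norm_TT hn ι hι) (WW hn u R) (R * n + 3 / 4) (by positivity)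
    ?_ ?_ ?_
  · refine (norm_WW hn u R hR0).trans ?_
    linarith
  · intro a V ha hV hVf
    have e1 := tr_WW hn u R (V ∘L T0 ∘L a)
    have e2 : ‖(R : 𝕜) * ∑ j, ((V ∘L T0 ∘L a) (mk 𝕜 hn j)).2 j‖ ≤ R * hf hn ι a := by
      rw [norm_mul, RCLike.norm_ofReal, abs_of_nonneg hR0]
      refine mul_le_mul_of_nonneg_left ?_ hR0
      unfold hf
      refine norm_sum_le_of_le _ (fun j _ => ?_)
      show ‖(V (T0 (a (mk 𝕜 hn j)))).2 j‖ ≤ _
      refine (norm_le_pi_norm (V (T0 (a (mk 𝕜 hn j)))).2 j).trans ?_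
      refine (norm_snd_le _).trans ((V.le_opNorm _).trans ?_)
      have := norm_nonneg (T0 (a (mk 𝕜 hn j)))
      nlinarith
    rw [e1]
    refine (norm_add_le _ _).trans ?_
    by_cases haS : a ∈ S
    · have e3 := crude a V hV
      have e4 : C1 * ‖a‖ ≤ C1 := by nlinarith
      have e5 := hη a haS
      have e6 : R * hf hn ι a ≤ R * (n - η) := mul_le_mul_of_nonneg_left e5 hR0
      have e7 : R * (n - η) = R * n - C1 := by rw [mul_sub, hRη]
      linarith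
    · obtain ⟨c, hc1, hc2⟩ : ∃ c : 𝕜, ‖c‖ = 1 ∧ ‖a - c • ContinuousLinearMap.id 𝕜 _‖ < δ := by
        by_contra hcon
        apply haS
        refine ⟨ha, fun c hc => ?_⟩
        by_contra hlt
        exact hcon ⟨c, hc, not_le.mp hlt⟩
      have e3 : P1 u ∘L V ∘L T0 ∘L a = c • (P1 u ∘L V ∘L T0) +
          P1 u ∘L V ∘L T0 ∘L (a - c • ContinuousLinearMap.id 𝕜 _) := by
        ext1 x
        show P1 u (V (T0 (a x))) = c • P1 u (V (T0 x)) + P1 u (V (T0 (a x - c • x)))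
        rw [map_sub T0, map_sub V, map_sub (P1 u), map_smul T0, map_smul V, map_smul (P1 u)]
        abel
      have e4 : ‖tr (P1 u ∘L V ∘L T0 ∘L a)‖ ≤ 3 / 4 := by
        rw [e3, tr_add, tr_smul]
        refine (norm_add_le _ _).trans ?_
        rw [norm_mul, hc1, one_mul]
        have e5 := near_id hn ι u hu hV0 V hV hVf
        have e6 := crude (a - c • ContinuousLinearMap.id 𝕜 _) V hV
        have e7 : C1 * ‖a - c • ContinuousLinearMap.id 𝕜 _‖ ≤ C1 * δ :=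
          mul_le_mul_of_nonneg_left hc2.le hC1'
        linarith
      have e8 := hf_le hn ι hι a ha
      have e9 : R * hf hn ι a ≤ R * n := mul_le_mul_of_nonneg_left e8 hR0
      linarith
  · rw [tr_WW_TT, htr, ← RCLike.ofReal_one, ← RCLike.ofReal_add, RCLike.norm_ofReal,
      abs_of_pos (by linarith)]
    linarith

end Main

end Pool.Agent.Helper362.Ideals
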