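import Pool.Agent.Helper362.IdealI
import Pool.Agent.Helper362.HapH
set_option autoImplicit false
open Module NormedSpace Filter
open scoped Topology ENNReal

namespace Pool.Agent.Helper362.Ideals

open Pool.Agent.Helper362.Hap

variable (𝕜 : Type) [RCLike 𝕜]

lemma tr_eq_sum {n : ℕ} (A : EuclideanSpace 𝕜 (Fin n) →L[𝕜] EuclideanSpace 𝕜 (Fin n)) :
    tr A = ∑ i, (A (EuclideanSpace.single i 1)) i := by
  have h1 : A = ∑ i, (EuclideanSpace.proj i : EuclideanSpace 𝕜 (Fin n) →L[𝕜] 𝕜).smulRight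
      (A (EuclideanSpace.single i 1)) := by
    ext1 x
    rw [sum_apply]
    have h5 : x = ∑ j, x j • (EuclideanSpace.single j 1 : EuclideanSpace 𝕜 (Fin n)) := by
      have := (EuclideanSpace.basisFun (Fin n) 𝕜).sum_repr x
      conv_lhs => rw [← this]
      refine Finset.sum_congr rfl (fun j _ => ?_)
      simp
    conv_lhs => rw [h5]
    rw [map_sum]
    refine Finset.sum_congr rfl (fun j _ => ?_)
    rw [map_smul]
    rfl
  conv_lhs => rw [h1]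
  rw [tr_sum]
  refine Finset.sum_congr rfl (fun i _ => ?_)
  rw [tr_rankOne]
  rfl

section

variable (D : Data) (k : ℕ)

/-- inclusion of a level, as a bounded operator -/
noncomputable def ioC : D.F 𝕜 k →L[𝕜] D.X 𝕜 :=
  (D.io 𝕜 k).mkContinuous (6 * 2 ^ k) (D.norm_io 𝕜 k)

/-- coordinate of a level, as a bounded operator -/
noncomputable def coC : D.X 𝕜 →L[𝕜] D.F 𝕜 k :=
  (D.co 𝕜 k).mkContinuous 1 (fun x => by rw [one_mul]; exact D.norm_co_le 𝕜 k x)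

lemma norm_ioC : ‖ioC 𝕜 D k‖ ≤ 6 * 2 ^ k := LinearMap.mkContinuous_norm_le _ (by positivity) _

lemma norm_coC : ‖coC 𝕜 D k‖ ≤ 1 := LinearMap.mkContinuous_norm_le _ zero_le_one _

noncomputable def io1 : EuclideanSpace 𝕜 (Fin (D.s k)) →L[𝕜] D.X 𝕜 :=
  (((6 * 2 ^ k)⁻¹ : ℝ) : 𝕜) • ioC 𝕜 D k

noncomputable def co1 : D.X 𝕜 →L[𝕜] EuclideanSpace 𝕜 (Fin (D.s k)) :=
  ((6 * 2 ^ k / D.s k : ℝ) : 𝕜) • coC 𝕜 D k

lemma norm_io1 : ‖io1 𝕜 D k‖ ≤ 1 := by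
  unfold io1
  rw [norm_smul, RCLike.norm_ofReal, abs_of_pos (by positivity), inv_mul_le_iff₀ (by positivity),
    mul_one]
  exact norm_ioC 𝕜 D k

lemma norm_co1 : ‖co1 𝕜 D k‖ ≤ 6 * 2 ^ k / D.s k := by
  unfold co1
  have hs : (0 : ℝ) < D.s k := by exact_mod_cast D.s_pos k
  rw [norm_smul, RCLike.norm_ofReal, abs_of_pos (by positivity)]
  exact mul_le_of_le_one_right (by positivity) (norm_coC 𝕜 D k)

lemma tr_beta (V : D.X 𝕜 →L[𝕜] D.X 𝕜) :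
    tr (co1 𝕜 D k ∘L V ∘L io1 𝕜 D k) = D.beta 𝕜 k (V : D.X 𝕜 →ₗ[𝕜] D.X 𝕜) := by
  have hs : (D.s k : 𝕜) ≠ 0 := by exact_mod_cast (D.s_pos k).ne'
  have h1 : co1 𝕜 D k ∘L V ∘L io1 𝕜 D k =
      (((D.s k : ℝ)⁻¹ : ℝ) : 𝕜) • (coC 𝕜 D k ∘L V ∘L ioC 𝕜 D k) := by
    ext1 x
    show ((6 * 2 ^ k / D.s k : ℝ) : 𝕜) • coC 𝕜 D k
      (V ((((6 * 2 ^ k)⁻¹ : ℝ) : 𝕜) • ioC 𝕜 D k x)) =
      (((D.s k : ℝ)⁻¹ : ℝ) : 𝕜) • coC 𝕜 D k (V (ioC 𝕜 D k x))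
    rw [map_smul, map_smul, smul_smul, ← RCLike.ofReal_mul]
    congr 2
    have h2 : (6 * 2 ^ k : ℝ) ≠ 0 := by positivity
    field_simp
  rw [h1, tr_smul, tr_eq_sum]
  unfold Data.beta
  rw [RCLike.ofReal_inv, RCLike.ofReal_natCast, div_eq_inv_mul]
  rfl

lemma tr_one : tr (co1 𝕜 D k ∘L io1 𝕜 D k) = 1 := by
  have h1 := tr_beta 𝕜 D k (ContinuousLinearMap.id 𝕜 _)
  rw [ContinuousLinearMap.id_comp] at h1
  rw [h1]
  exact D.beta_id 𝕜 k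

lemma beta_bound (V : D.X 𝕜 →L[𝕜] D.X 𝕜) (hV : ‖V‖ ≤ 1)
    (hf : FiniteDimensional 𝕜 (LinearMap.range (V : D.X 𝕜 →ₗ[𝕜] D.X 𝕜))) :
    ‖D.beta 𝕜 k (V : D.X 𝕜 →ₗ[𝕜] D.X 𝕜)‖ ≤ 24 * (1 / 2) ^ k := by
  set R : D.X 𝕜 →ₗ[𝕜] D.X 𝕜 := (V : D.X 𝕜 →ₗ[𝕜] D.X 𝕜) with hR
  have hstep : ∀ m, ‖D.beta 𝕜 m R - D.beta 𝕜 (m + 1) R‖ ≤ 12 * (1 / 2) ^ m := by
    intro m
    have h1 := D.beta_step 𝕜 m R 6 (fun g => by
      show ‖V (D.bv 𝕜 m g)‖ ≤ 6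
      refine (V.le_opNorm _).trans ?_
      have h2 := D.norm_bv 𝕜 m g
      have h3 := norm_nonneg (D.bv 𝕜 m g)
      nlinarith)
    refine h1.trans (le_of_eq ?_)
    ring
  have h2 : ∀ j, ‖D.beta 𝕜 k R‖ ≤ ‖D.beta 𝕜 (k + j) R‖ +
      (24 * (1 / 2) ^ k - 24 * (1 / 2) ^ (k + j)) := by
    intro j
    induction j with
    | zero => simp
    | succ j ih =>
      have h3 := hstep (k + j)
      have h4 : ‖D.beta 𝕜 (k + j) R‖ ≤ ‖D.beta 𝕜 (k + j + 1) R‖ +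
          ‖D.beta 𝕜 (k + j) R - D.beta 𝕜 (k + j + 1) R‖ := by
        have := norm_add_le (D.beta 𝕜 (k + j + 1) R) (D.beta 𝕜 (k + j) R - D.beta 𝕜 (k + j + 1) R)
        rwa [add_sub_cancel] at this
      have h5 : (1 / 2 : ℝ) ^ (k + (j + 1)) = (1 / 2) * (1 / 2) ^ (k + j) := by
        rw [← add_assoc, pow_succ]; ring
      rw [h5]
      have h6 : k + (j + 1) = k + j + 1 := rfl
      rw [h6]
      linarith
  have h3 : Tendsto (fun j => ‖D.beta 𝕜 (k + j) R‖ + 24 * (1 / 2 : ℝ) ^ k) atTop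
      (𝓝 (‖(0 : 𝕜)‖ + 24 * (1 / 2) ^ k)) := by
    refine Tendsto.add_const _ ?_
    have h4 := (D.tendsto_beta 𝕜 V hf).norm
    have h5 := h4.comp (tendsto_add_atTop_nat k)
    refine h5.congr (fun j => ?_)
    show ‖D.beta 𝕜 (j + k) R‖ = ‖D.beta 𝕜 (k + j) R‖
    rw [add_comm]
  rw [norm_zero, zero_add] at h3
  refine ge_of_tendsto' h3 (fun j => ?_)
  have h6 := h2 j
  have h7 : (0 : ℝ) < 24 * (1 / 2) ^ (k + j) := by positivity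
  linarith

end

lemma s_large (k : ℕ) (hk : 1 ≤ k) : 2304 * 4 ^ k ≤ dat.s k := by
  have h1 : k + 3 ≤ mm k := by
    rw [mm_eq]
    have := exp_bound2 k
    omega
  have h2 : (16 : ℕ) ^ (k + 3) ≤ 16 ^ mm k := Nat.pow_le_pow_right (by norm_num) h1
  have h3 : (4 : ℕ) ^ k ≤ 16 ^ k := Nat.pow_le_pow_left (by norm_num) k
  have h4 : (16 : ℕ) ^ (k + 3) = 16 ^ k * 4096 := by rw [pow_add]; norm_num
  show 2304 * 4 ^ k ≤ 16 ^ mm k
  rw [h4] at h2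
  omega

/-- A maximal Banach ideal which is not right-accessible. -/
theorem exists_maximal_not_RA : ∃ I : BanachIdeal.{0} 𝕜, IsMaximal I.toIdealData ∧
    ¬ RightAccessible I.toIdealData := by
  obtain ⟨k, hk⟩ : ∃ k : ℕ, 7 ≤ k := ⟨7, le_rfl⟩
  have hs := s_large k (by omega)
  have hs0 : 0 < dat.s k := dat.s_pos k
  have hk1 : 1 ≤ 4 ^ k := Nat.one_le_pow _ _ (by norm_num)
  have hs3 : 3 ≤ dat.s k := by
    refine le_trans ?_ hs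
    omega
  have hsR : (0 : ℝ) < dat.s k := by exact_mod_cast hs0
  refine ⟨gen (TT hs0 (io1 𝕜 dat k)) (norm_TT hs0 _ (norm_io1 𝕜 dat k)), gen_maximal _ _, ?_⟩
  refine exists_not_RA hs0 hs3 (io1 𝕜 dat k) (co1 𝕜 dat k) (norm_io1 𝕜 dat k) (tr_one 𝕜 dat k)
    ?_ ?_
  · have h1 := norm_co1 𝕜 dat k
    have h2 : Real.sqrt (dat.s k) * (6 * 2 ^ k / dat.s k) ≤ 1 / 8 := by
      have h3 : Real.sqrt (dat.s k) * Real.sqrt (dat.s k) = dat.s k :=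
        Real.mul_self_sqrt hsR.le
      have h4 : (48 * 2 ^ k : ℝ) ≤ Real.sqrt (dat.s k) := by
        apply Real.le_sqrt_of_sq_le
        have h5 : ((48 : ℝ) * 2 ^ k) ^ 2 = ((2304 * 4 ^ k : ℕ) : ℝ) := by
          rw [mul_pow, ← pow_mul, mul_comm k 2, pow_mul]
          push_cast
          norm_num
        rw [h5]
        exact_mod_cast hs
      have h6 : 0 < Real.sqrt (dat.s k) := Real.sqrt_pos.mpr hsR
      rw [← mul_div_assoc, div_le_iff₀ hsR]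
      nlinarith
    refine le_trans ?_ h2
    exact mul_le_mul_of_nonneg_left h1 (Real.sqrt_nonneg _)
  · intro V hV hf
    rw [tr_beta]
    refine (beta_bound 𝕜 dat k V hV hf).trans ?_
    have h1 : (1 / 2 : ℝ) ^ k ≤ (1 / 2) ^ 7 :=
      pow_le_pow_of_le_one (by norm_num) (by norm_num) hk
    have h2 : (1 / 2 : ℝ) ^ 7 = 1 / 128 := by norm_num
    rw [h2] at h1
    linarith

/-- A maximal Banach ideal without local reflexivity. -/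
theorem exists_maximal_not_LRP : ∃ I : BanachIdeal.{0} 𝕜,
    I.nrm (ContinuousLinearMap.id 𝕜 𝕜) = 1 ∧ IsMaximal I.toIdealData ∧
    ¬ LRP I.toIdealData := by
  obtain ⟨I, h1, h2⟩ := exists_maximal_not_RA 𝕜
  refine ⟨I, ?_, h1, fun h => h2 (I.rightAccessible_of_LRP h)⟩
  have h3 := I.nrm_rankOne (ContinuousLinearMap.id 𝕜 𝕜) (1 : 𝕜)
  have h4 : (ContinuousLinearMap.id 𝕜 𝕜 : StrongDual 𝕜 𝕜).smulRight (1 : 𝕜) =
      ContinuousLinearMap.id 𝕜 𝕜 := by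
    ext
    simp
  rw [h4, ContinuousLinearMap.norm_id, norm_one, mul_one] at h3
  exact h3

end Pool.Agent.Helper362.Ideals
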