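import Pool.Agent.Helper362.ProdDefs
set_option autoImplicit false
open scoped ENNReal

namespace Pool.Agent.Helper362.ProdId

variable {𝕜 : Type} [RCLike 𝕜] {n : ℕ}

/-- the sign of a bit -/
def sg (b : Bool) : ℝ := if b then 1 else -1

lemma sg_not (b : Bool) : sg (!b) = - sg b := by cases b <;> simp [sg]

lemma sg_sq (b : Bool) : sg b * sg b = 1 := by cases b <;> simp [sg]

lemma abs_sg (b : Bool) : |sg b| = 1 := by cases b <;> simp [sg]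

/-- flip one bit -/
def flip (k : Fin n) (ε : Fin n → Bool) : Fin n → Bool := Function.update ε k (!(ε k))

lemma flip_flip (k : Fin n) (ε : Fin n → Bool) : flip k (flip k ε) = ε := by
  unfold flip
  rw [Function.update_self, Function.update_idem, Bool.not_not, Function.update_eq_self]

lemma flip_self (k : Fin n) (ε : Fin n → Bool) : flip k ε k = !(ε k) := by
  unfold flip; rw [Function.update_self]

lemma flip_ne (k j : Fin n) (h : j ≠ k) (ε : Fin n → Bool) : flip k ε j = ε j := by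
  unfold flip; rw [Function.update_of_ne h]

/-- flipping as an equivalence -/
def flipE (k : Fin n) : (Fin n → Bool) ≃ (Fin n → Bool) where
  toFun := flip k
  invFun := flip k
  left_inv := flip_flip k
  right_inv := flip_flip k

lemma sum_flip {V : Type} [AddCommMonoid V] (k : Fin n) (F : (Fin n → Bool) → V) :
    ∑ ε, F (flip k ε) = ∑ ε, F ε := (flipE k).sum_comp F

/-- the number of sign vectors -/
def KK (n : ℕ) : ℝ := (2 : ℝ) ^ n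

lemma KK_pos : 0 < KK n := by unfold KK; positivity

lemma KK_eq : KK n = ((Finset.univ : Finset (Fin n → Bool)).card : ℝ) := by
  rw [Finset.card_univ, Fintype.card_fun]
  simp [KK]

/-- the random sum over a set of indices -/
noncomputable def XS (s : Finset (Fin n)) (a : Fin n → 𝕜) (ε : Fin n → Bool) : 𝕜 :=
  ∑ j ∈ s, ((sg (ε j) : ℝ) : 𝕜) * a j

lemma XS_flip (s : Finset (Fin n)) (a : Fin n → 𝕜) (k : Fin n) (hk : k ∉ s) (ε : Fin n → Bool) :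
    XS s a (flip k ε) = XS s a ε := by
  unfold XS
  refine Finset.sum_congr rfl (fun j hj => ?_)
  rw [flip_ne k j (fun h => hk (h ▸ hj))]

lemma XS_insert (s : Finset (Fin n)) (a : Fin n → 𝕜) (k : Fin n) (hk : k ∉ s) (ε : Fin n → Bool) :
    XS (insert k s) a ε = XS s a ε + ((sg (ε k) : ℝ) : 𝕜) * a k := by
  unfold XS
  rw [Finset.sum_insert hk, add_comm]

lemma XS_insert_flip (s : Finset (Fin n)) (a : Fin n → 𝕜) (k : Fin n) (hk : k ∉ s)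
    (ε : Fin n → Bool) :
    XS (insert k s) a (flip k ε) = XS s a ε - ((sg (ε k) : ℝ) : 𝕜) * a k := by
  rw [XS_insert s a k hk, XS_flip s a k hk, flip_self, sg_not, RCLike.ofReal_neg, neg_mul,
    sub_eq_add_neg]

lemma two_sum (k : Fin n) (F : (Fin n → Bool) → ℝ) :
    2 * ∑ ε, F ε = ∑ ε, (F ε + F (flip k ε)) := by
  rw [Finset.sum_add_distrib, sum_flip, two_mul]

lemma norm_sg_mul (b : Bool) (a : 𝕜) : ‖((sg b : ℝ) : 𝕜) * a‖ = ‖a‖ := by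
  rw [norm_mul, RCLike.norm_ofReal, abs_sg, one_mul]

lemma par2 (x y : 𝕜) : ‖x + y‖ ^ 2 + ‖x - y‖ ^ 2 = 2 * (‖x‖ ^ 2 + ‖y‖ ^ 2) := by
  have := parallelogram_law_with_norm 𝕜 x y
  nlinarith

lemma par4 (x y : 𝕜) : ‖x + y‖ ^ 4 + ‖x - y‖ ^ 4 ≤
    2 * (‖x‖ ^ 4 + 6 * ‖x‖ ^ 2 * ‖y‖ ^ 2 + ‖y‖ ^ 4) := by
  have h := par2 x y
  have h1 : ‖x + y‖ ^ 2 ≤ (‖x‖ + ‖y‖) ^ 2 :=
    pow_le_pow_left₀ (norm_nonneg _) (norm_add_le x y) 2
  have h2 : ‖x - y‖ ^ 2 ≤ (‖x‖ + ‖y‖) ^ 2 :=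
    pow_le_pow_left₀ (norm_nonneg _) (norm_sub_le x y) 2
  set p := ‖x + y‖ ^ 2 with hp
  set q := ‖x - y‖ ^ 2 with hq
  have e1 : ‖x + y‖ ^ 4 = p ^ 2 := by rw [hp]; ring
  have e2 : ‖x - y‖ ^ 4 = q ^ 2 := by rw [hq]; ring
  rw [e1, e2]
  have h3 : p - q ≤ 4 * (‖x‖ * ‖y‖) := by nlinarith
  have h4 : -(4 * (‖x‖ * ‖y‖)) ≤ p - q := by nlinarith
  have h5 : (p - q) ^ 2 ≤ (4 * (‖x‖ * ‖y‖)) ^ 2 := sq_le_sq' h4 h3
  have h6 : (p + q) ^ 2 = (2 * (‖x‖ ^ 2 + ‖y‖ ^ 2)) ^ 2 := by rw [h]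
  nlinarith

/-- second moment -/
lemma moment2 (s : Finset (Fin n)) (a : Fin n → 𝕜) :
    ∑ ε, ‖XS s a ε‖ ^ 2 = KK n * ∑ j ∈ s, ‖a j‖ ^ 2 := by
  classical
  induction s using Finset.induction_on with
  | empty => simp [XS]
  | insert k s hk ih =>
    have h := two_sum k (fun ε => ‖XS (insert k s) a ε‖ ^ 2)
    have h2 : ∀ ε : Fin n → Bool, ‖XS (insert k s) a ε‖ ^ 2 + ‖XS (insert k s) a (flip k ε)‖ ^ 2 =
        2 * (‖XS s a ε‖ ^ 2 + ‖a k‖ ^ 2) := by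
      intro ε
      rw [XS_insert s a k hk, XS_insert_flip s a k hk, par2, norm_sg_mul]
    simp only [h2] at h
    rw [← Finset.mul_sum, Finset.sum_add_distrib, ih, Finset.sum_const, nsmul_eq_mul,
      ← KK_eq] at h
    rw [Finset.sum_insert hk]
    nlinarith

/-- fourth moment -/
lemma moment4 (s : Finset (Fin n)) (a : Fin n → 𝕜) :
    ∑ ε, ‖XS s a ε‖ ^ 4 ≤ KK n * (3 * (∑ j ∈ s, ‖a j‖ ^ 2) ^ 2) := by
  classical
  induction s using Finset.induction_on with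
  | empty => simp [XS]
  | insert k s hk ih =>
    have h := two_sum k (fun ε => ‖XS (insert k s) a ε‖ ^ 4)
    have h2 : ∀ ε : Fin n → Bool, ‖XS (insert k s) a ε‖ ^ 4 + ‖XS (insert k s) a (flip k ε)‖ ^ 4 ≤
        2 * (‖XS s a ε‖ ^ 4 + 6 * ‖XS s a ε‖ ^ 2 * ‖a k‖ ^ 2 + ‖a k‖ ^ 4) := by
      intro ε
      rw [XS_insert s a k hk, XS_insert_flip s a k hk]
      have := par4 (XS s a ε) (((sg (ε k) : ℝ) : 𝕜) * a k)
      rwa [norm_sg_mul] at this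
    have h3 : 2 * ∑ ε, ‖XS (insert k s) a ε‖ ^ 4 ≤
        ∑ ε : Fin n → Bool,
          2 * (‖XS s a ε‖ ^ 4 + 6 * ‖XS s a ε‖ ^ 2 * ‖a k‖ ^ 2 + ‖a k‖ ^ 4) := by
      rw [h]
      exact Finset.sum_le_sum (fun ε _ => h2 ε)
    rw [← Finset.mul_sum, Finset.sum_add_distrib, Finset.sum_add_distrib, ← Finset.sum_mul,
      ← Finset.mul_sum, moment2, Finset.sum_const, nsmul_eq_mul, ← KK_eq] at h3
    rw [Finset.sum_insert hk]
    have hK := KK_pos (n := n)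
    have hA : 0 ≤ ∑ j ∈ s, ‖a j‖ ^ 2 := Finset.sum_nonneg (fun j _ => by positivity)
    have h4 : 0 ≤ KK n * ‖a k‖ ^ 4 := by positivity
    nlinarith

lemma sum_sg_mul (i j : Fin n) (h : j ≠ i) :
    ∑ ε : Fin n → Bool, sg (ε i) * sg (ε j) = 0 := by
  have h1 := sum_flip i (fun ε : Fin n → Bool => sg (ε i) * sg (ε j))
  simp only [flip_self, flip_ne i j h, sg_not, neg_mul, Finset.sum_neg_distrib] at h1
  linarith

lemma sum_sg_sq (i : Fin n) : ∑ ε : Fin n → Bool, sg (ε i) * sg (ε i) = KK n := by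
  simp only [sg_sq, Finset.sum_const, nsmul_eq_mul, mul_one]
  rw [← KK_eq]

/-- reproducing the coefficients -/
lemma coeff (a : Fin n → 𝕜) (i : Fin n) :
    ∑ ε, ((sg (ε i) : ℝ) : 𝕜) * XS Finset.univ a ε = ((KK n : ℝ) : 𝕜) * a i := by
  unfold XS
  simp only [Finset.mul_sum]
  rw [Finset.sum_comm]
  have h : ∀ j : Fin n, ∑ ε : Fin n → Bool, ((sg (ε i) : ℝ) : 𝕜) * (((sg (ε j) : ℝ) : 𝕜) * a j) =
      ((∑ ε : Fin n → Bool, sg (ε i) * sg (ε j) : ℝ) : 𝕜) * a j := by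
    intro j
    rw [RCLike.ofReal_sum, Finset.sum_mul]
    refine Finset.sum_congr rfl (fun ε _ => ?_)
    rw [RCLike.ofReal_mul, mul_assoc]
  simp only [h]
  rw [Finset.sum_eq_single i]
  · rw [sum_sg_sq]
  · intro j _ hj
    rw [sum_sg_mul i j hj, RCLike.ofReal_zero, zero_mul]
  · intro hh; exact absurd (Finset.mem_univ i) hh

/-- Bessel -/
lemma bessel (h : (Fin n → Bool) → 𝕜) (c : Fin n → 𝕜)
    (hc : ∀ k, ∑ ε, ((sg (ε k) : ℝ) : 𝕜) * h ε = ((KK n : ℝ) : 𝕜) * c k) :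
    KK n * ∑ k, ‖c k‖ ^ 2 ≤ ∑ ε, ‖h ε‖ ^ 2 := by
  have h1 : 0 ≤ ∑ ε, ‖h ε - XS Finset.univ c ε‖ ^ 2 :=
    Finset.sum_nonneg (fun ε _ => by positivity)
  have h2 : ∀ ε, ‖h ε - XS Finset.univ c ε‖ ^ 2 = ‖h ε‖ ^ 2 -
      2 * RCLike.re (XS Finset.univ c ε * (starRingEnd 𝕜) (h ε)) + ‖XS Finset.univ c ε‖ ^ 2 := by
    intro ε
    have := norm_sub_sq (𝕜 := 𝕜) (h ε) (XS Finset.univ c ε)
    rw [RCLike.inner_apply] at this
    exact this
  simp only [h2] at h1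
  rw [Finset.sum_add_distrib, Finset.sum_sub_distrib, moment2, ← Finset.mul_sum] at h1
  have h3 : ∑ ε, RCLike.re (XS Finset.univ c ε * (starRingEnd 𝕜) (h ε)) =
      KK n * ∑ k, ‖c k‖ ^ 2 := by
    have e1 : ∑ ε, RCLike.re (XS Finset.univ c ε * (starRingEnd 𝕜) (h ε)) =
        RCLike.re (∑ ε, XS Finset.univ c ε * (starRingEnd 𝕜) (h ε)) := by
      rw [map_sum]
    have e2 : ∑ ε, XS Finset.univ c ε * (starRingEnd 𝕜) (h ε) =
        ∑ k, c k * (starRingEnd 𝕜) (∑ ε, ((sg (ε k) : ℝ) : 𝕜) * h ε) := by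
      unfold XS
      simp only [Finset.sum_mul, map_sum, Finset.mul_sum]
      rw [Finset.sum_comm]
      refine Finset.sum_congr rfl (fun k _ => Finset.sum_congr rfl (fun ε _ => ?_))
      rw [map_mul, RCLike.conj_ofReal]
      ring
    rw [e1, e2]
    simp only [hc, map_mul, RCLike.conj_ofReal]
    rw [map_sum, Finset.mul_sum]
    refine Finset.sum_congr rfl (fun k _ => ?_)
    have : c k * (((KK n : ℝ) : 𝕜) * (starRingEnd 𝕜) (c k)) =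
        ((KK n * ‖c k‖ ^ 2 : ℝ) : 𝕜) := by
      rw [RCLike.ofReal_mul, RCLike.ofReal_pow, ← RCLike.mul_conj]
      ring
    rw [this, RCLike.ofReal_re]
  rw [h3] at h1
  linarith

/-- truncation -/
noncomputable def trunc (M : ℝ) (x : 𝕜) : 𝕜 := if ‖x‖ ≤ M then x else 0

lemma norm_trunc_le {M : ℝ} (hM : 0 ≤ M) (x : 𝕜) : ‖trunc M x‖ ≤ M := by
  unfold trunc
  split_ifs with h
  · exact h
  · rwa [norm_zero]

lemma norm_sub_trunc {M : ℝ} (hM : 0 < M) (x : 𝕜) : M ^ 2 * ‖x - trunc M x‖ ^ 2 ≤ ‖x‖ ^ 4 := by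
  unfold trunc
  split_ifs with h
  · rw [sub_self, norm_zero]
    have : 0 ≤ ‖x‖ ^ 4 := by positivity
    nlinarith
  · rw [sub_zero]
    rw [not_le] at h
    have h1 : M ^ 2 ≤ ‖x‖ ^ 2 := pow_le_pow_left₀ hM.le h.le 2
    have h2 : 0 ≤ ‖x‖ ^ 2 := by positivity
    nlinarith

/-- The pointwise estimate for the rest after truncation. -/
lemma pointwise {M s : ℝ} (hs : 0 < s) (hM : 16 * s ^ 2 ≤ M ^ 2) (hM0 : 0 < M) (a b : Fin n → 𝕜)
    (ha : ∑ k, ‖a k‖ ^ 2 ≤ s ^ 2)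
    (hb : ∀ k, b k = a k - ((KK n : ℝ) : 𝕜)⁻¹ *
      ∑ ε, ((sg (ε k) : ℝ) : 𝕜) * trunc M (XS Finset.univ a ε)) :
    ∑ k, ‖b k‖ ^ 2 ≤ (s / 2) ^ 2 := by
  have hK := KK_pos (n := n)
  have hK' : ((KK n : ℝ) : 𝕜) ≠ 0 := by
    rw [Ne, RCLike.ofReal_eq_zero]; exact hK.ne'
  have h1 := bessel (fun ε => XS Finset.univ a ε - trunc M (XS Finset.univ a ε)) b (by
    intro k
    simp only [mul_sub]
    rw [Finset.sum_sub_distrib, coeff, hb k, mul_sub, ← mul_assoc _ _⁻¹, mul_inv_cancel₀ hK',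
      one_mul])
  have h2 : M ^ 2 * ∑ ε : Fin n → Bool, ‖XS Finset.univ a ε - trunc M (XS Finset.univ a ε)‖ ^ 2 ≤
      KK n * (3 * (∑ j, ‖a j‖ ^ 2) ^ 2) := by
    refine le_trans ?_ (moment4 Finset.univ a)
    rw [Finset.mul_sum]
    exact Finset.sum_le_sum (fun ε _ => norm_sub_trunc hM0 _)
  have hA : 0 ≤ ∑ j, ‖a j‖ ^ 2 := Finset.sum_nonneg (fun j _ => by positivity)
  have hB : 0 ≤ ∑ j, ‖b j‖ ^ 2 := Finset.sum_nonneg (fun j _ => by positivity)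
  have h3 : (∑ j, ‖a j‖ ^ 2) ^ 2 ≤ (s ^ 2) ^ 2 := pow_le_pow_left₀ hA ha 2
  have h4 : M ^ 2 * (KK n * ∑ k, ‖b k‖ ^ 2) ≤ KK n * (3 * (s ^ 2) ^ 2) := by
    calc M ^ 2 * (KK n * ∑ k, ‖b k‖ ^ 2) ≤ M ^ 2 * ∑ ε : Fin n → Bool,
          ‖XS Finset.univ a ε - trunc M (XS Finset.univ a ε)‖ ^ 2 :=
          mul_le_mul_of_nonneg_left h1 (by positivity)
      _ ≤ _ := h2
      _ ≤ _ := by
          refine mul_le_mul_of_nonneg_left ?_ hK.le
          linarith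
  have h5 : M ^ 2 * ∑ k, ‖b k‖ ^ 2 ≤ 3 * (s ^ 2) ^ 2 := by
    have : KK n * (M ^ 2 * ∑ k, ‖b k‖ ^ 2) ≤ KK n * (3 * (s ^ 2) ^ 2) := by linarith
    exact le_of_mul_le_mul_left this hK
  have h6 : 16 * s ^ 2 * ∑ k, ‖b k‖ ^ 2 ≤ 3 * (s ^ 2) ^ 2 :=
    (mul_le_mul_of_nonneg_right hM hB).trans h5
  have hs2 : 0 < s ^ 2 := by positivity
  have h7 : 16 * ∑ k, ‖b k‖ ^ 2 ≤ 3 * s ^ 2 := by
    have : s ^ 2 * (16 * ∑ k, ‖b k‖ ^ 2) ≤ s ^ 2 * (3 * s ^ 2) := by nlinarith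
    exact le_of_mul_le_mul_left this hs2
  nlinarith

end Pool.Agent.Helper362.ProdId
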