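import Pool.Agent.Helper362.ProdA
set_option autoImplicit false
open MeasureTheory
open scoped ENNReal

namespace Pool.Agent.Helper362.ProdId

variable {𝕜 : Type} [RCLike 𝕜] {n : ℕ} {Ω : Type} [MeasurableSpace Ω] {μ : Measure Ω}

lemma ae_le_norm (F : Lp 𝕜 ∞ μ) : ∀ᵐ ω ∂μ, ‖F ω‖ ≤ ‖F‖ := by
  have h := ae_le_eLpNormEssSup (f := (F : Ω → 𝕜)) (μ := μ)
  filter_upwards [h] with ω hω
  rw [Lp.norm_def, eLpNorm_exponent_top, ← toReal_enorm]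
  refine ENNReal.toReal_mono ?_ hω
  have := Lp.eLpNorm_lt_top F
  rw [eLpNorm_exponent_top] at this
  exact this.ne

lemma norm_le_of_ae {F : Lp 𝕜 ∞ μ} {C : ℝ} (hC : 0 ≤ C) (h : ∀ᵐ ω ∂μ, ‖F ω‖ ≤ C) : ‖F‖ ≤ C := by
  rw [Lp.norm_def, eLpNorm_exponent_top]
  exact ENNReal.toReal_le_of_le_ofReal hC (eLpNormEssSup_le_of_ae_bound h)

lemma measurable_trunc (M : ℝ) : Measurable (trunc M : 𝕜 → 𝕜) := by
  unfold trunc
  exact Measurable.ite (measurableSet_le measurable_norm measurable_const) measurable_id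
    measurable_const

lemma memLp_trunc (f : Fin n → Lp 𝕜 ∞ μ) {M : ℝ} (hM : 0 ≤ M) (ε : Fin n → Bool) :
    MemLp (fun ω => trunc M (XS Finset.univ (fun k => f k ω) ε)) ∞ μ := by
  refine memLp_top_of_bound ?_ M (Filter.Eventually.of_forall (fun ω => norm_trunc_le hM _))
  have h : AEMeasurable (fun ω => XS Finset.univ (fun k => f k ω) ε) μ := by
    unfold XS
    refine Finset.aemeasurable_fun_sum _ (fun k _ => ?_)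
    exact ((Lp.aestronglyMeasurable (f k)).aemeasurable).const_mul _
  exact ((measurable_trunc M).comp_aemeasurable h).aestronglyMeasurable

/-- the truncated random sum, as an element of `L_∞` -/
noncomputable def TF (f : Fin n → Lp 𝕜 ∞ μ) {M : ℝ} (hM : 0 ≤ M) (ε : Fin n → Bool) : Lp 𝕜 ∞ μ :=
  (memLp_trunc f hM ε).toLp _

lemma TF_ae (f : Fin n → Lp 𝕜 ∞ μ) {M : ℝ} (hM : 0 ≤ M) (ε : Fin n → Bool) :
    ∀ᵐ ω ∂μ, TF f hM ε ω = trunc M (XS Finset.univ (fun k => f k ω) ε) :=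
  (memLp_trunc f hM ε).coeFn_toLp

lemma norm_TF (f : Fin n → Lp 𝕜 ∞ μ) {M : ℝ} (hM : 0 ≤ M) (ε : Fin n → Bool) :
    ‖TF f hM ε‖ ≤ M := by
  refine norm_le_of_ae hM ?_
  filter_upwards [TF_ae f hM ε] with ω hω
  rw [hω]
  exact norm_trunc_le hM _

/-- the rest -/
noncomputable def BF (f : Fin n → Lp 𝕜 ∞ μ) {M : ℝ} (hM : 0 ≤ M) (k : Fin n) : Lp 𝕜 ∞ μ :=
  f k - (((KK n : ℝ) : 𝕜)⁻¹) • ∑ ε, ((sg (ε k) : ℝ) : 𝕜) • TF f hM ε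

lemma BF_ae (f : Fin n → Lp 𝕜 ∞ μ) {M : ℝ} (hM : 0 ≤ M) (k : Fin n) :
    ∀ᵐ ω ∂μ, BF f hM k ω = f k ω - ((KK n : ℝ) : 𝕜)⁻¹ *
      ∑ ε, ((sg (ε k) : ℝ) : 𝕜) * trunc M (XS Finset.univ (fun k => f k ω) ε) := by
  have h1 := Lp.coeFn_sub (f k) ((((KK n : ℝ) : 𝕜)⁻¹) • ∑ ε, ((sg (ε k) : ℝ) : 𝕜) • TF f hM ε)
  have h2 := Lp.coeFn_smul (((KK n : ℝ) : 𝕜)⁻¹) (∑ ε, ((sg (ε k) : ℝ) : 𝕜) • TF f hM ε)
  have h3 := Lp.coeFn_finsetSum (Finset.univ) (fun ε : Fin n → Bool =>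
    ((sg (ε k) : ℝ) : 𝕜) • TF f hM ε)
  have h4 : ∀ᵐ ω ∂μ, ∀ ε : Fin n → Bool, (((sg (ε k) : ℝ) : 𝕜) • TF f hM ε : Lp 𝕜 ∞ μ) ω =
      ((sg (ε k) : ℝ) : 𝕜) * TF f hM ε ω := by
    rw [ae_all_iff]
    intro ε
    filter_upwards [Lp.coeFn_smul (((sg (ε k) : ℝ) : 𝕜)) (TF f hM ε)] with ω hω
    rw [hω, Pi.smul_apply, smul_eq_mul]
  have h5 : ∀ᵐ ω ∂μ, ∀ ε : Fin n → Bool,
      TF f hM ε ω = trunc M (XS Finset.univ (fun k => f k ω) ε) := by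
    rw [ae_all_iff]
    exact fun ε => TF_ae f hM ε
  filter_upwards [h1, h2, h3, h4, h5] with ω e1 e2 e3 e4 e5
  show (f k - (((KK n : ℝ) : 𝕜)⁻¹) • ∑ ε, ((sg (ε k) : ℝ) : 𝕜) • TF f hM ε : Lp 𝕜 ∞ μ) ω = _
  rw [e1, Pi.sub_apply, e2, Pi.smul_apply, e3, Finset.sum_apply, smul_eq_mul]
  simp only [e4, e5]

/-- The Khinchine–Maurey type estimate, one step of the iteration. -/
lemma KH_step (r : Fin n → (Lp 𝕜 ∞ μ →ₗ[𝕜] 𝕜)) (ρ C : ℝ)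
    (hr : ∀ (ε : Fin n → Bool) (F : Lp 𝕜 ∞ μ), ‖∑ k, ((sg (ε k) : ℝ) : 𝕜) * r k F‖ ≤ ρ * ‖F‖)
    (hρ : 0 ≤ ρ)
    (h : ∀ (f : Fin n → Lp 𝕜 ∞ μ) (s : ℝ), 0 < s → (∀ᵐ ω ∂μ, ∑ k, ‖f k ω‖ ^ 2 ≤ s ^ 2) →
      ‖∑ k, r k (f k)‖ ≤ C * s) :
    ∀ (f : Fin n → Lp 𝕜 ∞ μ) (s : ℝ), 0 < s → (∀ᵐ ω ∂μ, ∑ k, ‖f k ω‖ ^ 2 ≤ s ^ 2) →
      ‖∑ k, r k (f k)‖ ≤ (4 * ρ + C / 2) * s := by
  intro f s hs hf
  have hM : 0 ≤ 4 * s := by positivity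
  have hK := KK_pos (n := n)
  have h1 : ∀ᵐ ω ∂μ, ∑ k, ‖BF f hM k ω‖ ^ 2 ≤ (s / 2) ^ 2 := by
    have hb : ∀ᵐ ω ∂μ, ∀ k, BF f hM k ω = f k ω - ((KK n : ℝ) : 𝕜)⁻¹ *
        ∑ ε, ((sg (ε k) : ℝ) : 𝕜) * trunc (4 * s) (XS Finset.univ (fun k => f k ω) ε) := by
      rw [ae_all_iff]
      exact fun k => BF_ae f hM k
    filter_upwards [hb, hf] with ω e1 e2
    exact pointwise hs (by nlinarith) (by positivity) (fun k => f k ω) _ e2 e1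
  have h2 := h _ _ (by positivity) h1
  have h3 : ∑ k, r k (f k) = ∑ k, r k (BF f hM k) +
      ((KK n : ℝ) : 𝕜)⁻¹ * ∑ ε : Fin n → Bool, ∑ k, ((sg (ε k) : ℝ) : 𝕜) * r k (TF f hM ε) := by
    rw [Finset.sum_comm, Finset.mul_sum, ← Finset.sum_add_distrib]
    refine Finset.sum_congr rfl (fun k _ => ?_)
    unfold BF
    rw [map_sub, map_smul, map_sum]
    simp only [map_smul, smul_eq_mul]
    ring
  have h4 : ‖((KK n : ℝ) : 𝕜)⁻¹ * ∑ ε : Fin n → Bool,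
      ∑ k, ((sg (ε k) : ℝ) : 𝕜) * r k (TF f hM ε)‖ ≤ ρ * (4 * s) := by
    rw [norm_mul, norm_inv, RCLike.norm_ofReal, abs_of_pos hK]
    have h5 : ‖∑ ε : Fin n → Bool, ∑ k, ((sg (ε k) : ℝ) : 𝕜) * r k (TF f hM ε)‖ ≤
        KK n * (ρ * (4 * s)) := by
      refine (norm_sum_le _ _).trans ?_
      refine (Finset.sum_le_sum (fun ε _ => (hr ε (TF f hM ε)).trans
        (mul_le_mul_of_nonneg_left (norm_TF f hM ε) hρ))).trans ?_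
      rw [Finset.sum_const, nsmul_eq_mul, ← KK_eq]
    calc (KK n)⁻¹ * ‖∑ ε : Fin n → Bool, ∑ k, ((sg (ε k) : ℝ) : 𝕜) * r k (TF f hM ε)‖ ≤
        (KK n)⁻¹ * (KK n * (ρ * (4 * s))) :=
          mul_le_mul_of_nonneg_left h5 (by positivity)
      _ = ρ * (4 * s) := by field_simp
  rw [h3]
  refine (norm_add_le _ _).trans ?_
  linarith

lemma norm_r_le (r : Fin n → (Lp 𝕜 ∞ μ →ₗ[𝕜] 𝕜)) (ρ : ℝ)
    (hr : ∀ (ε : Fin n → Bool) (F : Lp 𝕜 ∞ μ), ‖∑ k, ((sg (ε k) : ℝ) : 𝕜) * r k F‖ ≤ ρ * ‖F‖)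
    (k : Fin n) (F : Lp 𝕜 ∞ μ) : ‖r k F‖ ≤ ρ * ‖F‖ := by
  have hK := KK_pos (n := n)
  have h := coeff (fun j => r j F) k
  have h1 : KK n * ‖r k F‖ ≤ KK n * (ρ * ‖F‖) := by
    have e : KK n * ‖r k F‖ = ‖((KK n : ℝ) : 𝕜) * r k F‖ := by
      rw [norm_mul, RCLike.norm_ofReal, abs_of_pos hK]
    rw [e, ← h]
    refine (norm_sum_le _ _).trans ?_
    have : ∀ ε : Fin n → Bool, ‖((sg (ε k) : ℝ) : 𝕜) * XS Finset.univ (fun j => r j F) ε‖ ≤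
        ρ * ‖F‖ := by
      intro ε
      rw [norm_sg_mul]
      exact hr ε F
    refine (Finset.sum_le_sum (fun ε _ => this ε)).trans ?_
    rw [Finset.sum_const, nsmul_eq_mul, ← KK_eq]
  exact le_of_mul_le_mul_left h1 hK

/-- The Khinchine–Maurey type estimate. -/
theorem KH (r : Fin n → (Lp 𝕜 ∞ μ →ₗ[𝕜] 𝕜)) (ρ : ℝ) (hρ : 0 ≤ ρ)
    (hr : ∀ (ε : Fin n → Bool) (F : Lp 𝕜 ∞ μ), ‖∑ k, ((sg (ε k) : ℝ) : 𝕜) * r k F‖ ≤ ρ * ‖F‖)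
    (f : Fin n → Lp 𝕜 ∞ μ) (s : ℝ) (hs : 0 < s) (hf : ∀ᵐ ω ∂μ, ∑ k, ‖f k ω‖ ^ 2 ≤ s ^ 2) :
    ‖∑ k, r k (f k)‖ ≤ 8 * ρ * s := by
  have hP : ∀ m : ℕ, ∀ (f : Fin n → Lp 𝕜 ∞ μ) (s : ℝ), 0 < s →
      (∀ᵐ ω ∂μ, ∑ k, ‖f k ω‖ ^ 2 ≤ s ^ 2) →
      ‖∑ k, r k (f k)‖ ≤ (8 * ρ + (n * ρ) * (1 / 2) ^ m) * s := by
    intro m
    induction m with
    | zero =>
      intro f s hs hf
      have h1 : ∀ k, ‖r k (f k)‖ ≤ ρ * s := by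
        intro k
        refine (norm_r_le r ρ hr k (f k)).trans (mul_le_mul_of_nonneg_left ?_ hρ)
        refine norm_le_of_ae hs.le ?_
        filter_upwards [hf] with ω hω
        have h2 : ‖f k ω‖ ^ 2 ≤ s ^ 2 :=
          (Finset.single_le_sum (f := fun k => ‖f k ω‖ ^ 2) (fun j _ => by positivity)
            (Finset.mem_univ k)).trans hω
        exact le_of_sq_le_sq h2 hs.le
      refine (norm_sum_le _ _).trans ((Finset.sum_le_sum (fun k _ => h1 k)).trans ?_)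
      rw [Finset.sum_const, Finset.card_univ, Fintype.card_fin, nsmul_eq_mul, pow_zero, mul_one]
      nlinarith [mul_nonneg hρ hs.le]
    | succ m ih =>
      intro f s hs hf
      have := KH_step r ρ _ hr hρ ih f s hs hf
      refine this.trans (le_of_eq ?_)
      rw [pow_succ]
      ring
  have hlim : Filter.Tendsto (fun m : ℕ => (8 * ρ + (n * ρ) * (1 / 2 : ℝ) ^ m) * s) Filter.atTop
      (nhds ((8 * ρ + (n * ρ) * 0) * s)) := by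
    refine Filter.Tendsto.mul_const _ (Filter.Tendsto.const_add _ (Filter.Tendsto.const_mul _ ?_))
    exact tendsto_pow_atTop_nhds_zero_of_lt_one (by norm_num) (by norm_num)
  rw [mul_zero, add_zero] at hlim
  exact ge_of_tendsto' hlim (fun m => hP m f s hs hf)

end Pool.Agent.Helper362.ProdId
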