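import Pool.Agent.Helper362.ProdB
import Pool.Agent.Helper362.IdealH
set_option autoImplicit false
open MeasureTheory Module NormedSpace
open scoped ENNReal

namespace Pool.Agent.Helper362.ProdId

open Pool.Agent.Helper362.Ideals

variable {𝕜 : Type} [RCLike 𝕜] {n : ℕ}

section AE

variable {Ω : Type} [MeasurableSpace Ω] {μ : Measure Ω}

/-- the unit vectors -/
noncomputable def ee (𝕜 : Type) [RCLike 𝕜] {n : ℕ} (k : Fin n) : EuclideanSpace 𝕜 (Fin n) :=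
  EuclideanSpace.single k 1

lemma eu_expand (a : EuclideanSpace 𝕜 (Fin n)) : a = ∑ k, a k • ee 𝕜 k := by
  have h := (EuclideanSpace.basisFun (Fin n) 𝕜).sum_repr a
  simp only [EuclideanSpace.basisFun_apply, EuclideanSpace.basisFun_repr] at h
  exact h.symm

lemma ae_square (S : EuclideanSpace 𝕜 (Fin n) →ₗ[𝕜] Lp 𝕜 ∞ μ) (s : ℝ) (hs : 0 ≤ s)
    (hS : ∀ a, ‖S a‖ ≤ s * ‖a‖) : ∀ᵐ ω ∂μ, ∑ k, ‖S (ee 𝕜 k) ω‖ ^ 2 ≤ s ^ 2 := by
  obtain ⟨D, hD, hDd⟩ := TopologicalSpace.exists_countable_dense (EuclideanSpace 𝕜 (Fin n))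
  have : Countable D := hD.to_subtype
  have h1 : ∀ᵐ ω ∂μ, ∀ a : D, ‖S a ω‖ ≤ s * ‖(a : EuclideanSpace 𝕜 (Fin n))‖ := by
    rw [ae_all_iff]
    intro a
    filter_upwards [ae_le_norm (S a)] with ω hω
    exact hω.trans (hS a)
  have h2 : ∀ᵐ ω ∂μ, ∀ a : D, S a ω =
      ∑ k, (a : EuclideanSpace 𝕜 (Fin n)) k * S (ee 𝕜 k) ω := by
    rw [ae_all_iff]
    intro a
    have e1 : S a = ∑ k, (a : EuclideanSpace 𝕜 (Fin n)) k • S (ee 𝕜 k) := by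
      conv_lhs => rw [eu_expand (a : EuclideanSpace 𝕜 (Fin n))]
      rw [map_sum]
      simp only [map_smul]
    have e2 := Lp.coeFn_finsetSum (Finset.univ)
      (fun k : Fin n => (a : EuclideanSpace 𝕜 (Fin n)) k • S (ee 𝕜 k))
    have e3 : ∀ᵐ ω ∂μ, ∀ k : Fin n, ((a : EuclideanSpace 𝕜 (Fin n)) k • S (ee 𝕜 k) : Lp 𝕜 ∞ μ) ω =
        (a : EuclideanSpace 𝕜 (Fin n)) k * S (ee 𝕜 k) ω := by
      rw [ae_all_iff]
      intro k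
      filter_upwards [Lp.coeFn_smul ((a : EuclideanSpace 𝕜 (Fin n)) k) (S (ee 𝕜 k))] with ω hω
      rw [hω, Pi.smul_apply, smul_eq_mul]
    filter_upwards [e2, e3] with ω e2 e3
    rw [e1, e2, Finset.sum_apply]
    simp only [e3]
  filter_upwards [h1, h2] with ω h1 h2
  have h3 : ∀ a : EuclideanSpace 𝕜 (Fin n), ‖∑ k, a k * S (ee 𝕜 k) ω‖ ≤ s * ‖a‖ := by
    have hcl : IsClosed {a : EuclideanSpace 𝕜 (Fin n) |
        ‖∑ k, a k * S (ee 𝕜 k) ω‖ ≤ s * ‖a‖} := by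
      refine isClosed_le ?_ (continuous_const.mul continuous_norm)
      refine continuous_norm.comp (continuous_finsetSum _ (fun k _ => ?_))
      exact ((EuclideanSpace.proj (𝕜 := 𝕜) k).continuous).mul continuous_const
    intro a
    have hsub : D ⊆ {a : EuclideanSpace 𝕜 (Fin n) | ‖∑ k, a k * S (ee 𝕜 k) ω‖ ≤ s * ‖a‖} := by
      intro b hb
      have := h1 ⟨b, hb⟩
      rw [h2 ⟨b, hb⟩] at this
      exact this
    have := closure_minimal hsub hcl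
    rw [hDd.closure_eq] at this
    exact this (Set.mem_univ a)
  set t2 := ∑ k, ‖S (ee 𝕜 k) ω‖ ^ 2 with ht2
  have ht0 : 0 ≤ t2 := Finset.sum_nonneg (fun k _ => by positivity)
  have h4 := h3 (WithLp.toLp 2 (fun k => (starRingEnd 𝕜) (S (ee 𝕜 k) ω)))
  have h5 : ∑ k, (WithLp.toLp 2 (fun k => (starRingEnd 𝕜) (S (ee 𝕜 k) ω)) :
      EuclideanSpace 𝕜 (Fin n)) k * S (ee 𝕜 k) ω = ((t2 : ℝ) : 𝕜) := by
    rw [ht2, RCLike.ofReal_sum]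
    refine Finset.sum_congr rfl (fun k _ => ?_)
    show (starRingEnd 𝕜) (S (ee 𝕜 k) ω) * S (ee 𝕜 k) ω = _
    rw [RCLike.conj_mul, RCLike.ofReal_pow]
  have h6 : ‖(WithLp.toLp 2 (fun k => (starRingEnd 𝕜) (S (ee 𝕜 k) ω)) :
      EuclideanSpace 𝕜 (Fin n))‖ = Real.sqrt t2 := by
    rw [EuclideanSpace.norm_eq]
    congr 1
    refine Finset.sum_congr rfl (fun k _ => ?_)
    show ‖(starRingEnd 𝕜) (S (ee 𝕜 k) ω)‖ ^ 2 = _
    rw [RCLike.norm_conj]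
  rw [h5, h6, RCLike.norm_ofReal, abs_of_nonneg ht0] at h4
  have h7 : Real.sqrt t2 ≤ s := by
    by_cases h8 : Real.sqrt t2 = 0
    · rw [h8]; exact hs
    · have h9 : 0 < Real.sqrt t2 := lt_of_le_of_ne (Real.sqrt_nonneg _) (Ne.symm h8)
      have h10 : Real.sqrt t2 * Real.sqrt t2 ≤ s * Real.sqrt t2 := by
        rw [Real.mul_self_sqrt ht0]; exact h4
      exact le_of_mul_le_mul_right h10 h9
  calc t2 = Real.sqrt t2 ^ 2 := (Real.sq_sqrt ht0).symm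
    _ ≤ s ^ 2 := pow_le_pow_left₀ (Real.sqrt_nonneg _) h7 2

/-- `KH` with `s ≥ 0`. -/
theorem KH' (r : Fin n → (Lp 𝕜 ∞ μ →ₗ[𝕜] 𝕜)) (ρ : ℝ) (hρ : 0 ≤ ρ)
    (hr : ∀ (ε : Fin n → Bool) (F : Lp 𝕜 ∞ μ), ‖∑ k, ((sg (ε k) : ℝ) : 𝕜) * r k F‖ ≤ ρ * ‖F‖)
    (f : Fin n → Lp 𝕜 ∞ μ) (s : ℝ) (hs : 0 ≤ s) (hf : ∀ᵐ ω ∂μ, ∑ k, ‖f k ω‖ ^ 2 ≤ s ^ 2) :
    ‖∑ k, r k (f k)‖ ≤ 8 * ρ * s := by
  refine le_of_forall_pos_le_add (fun η hη => ?_)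
  have hδ : 0 < η / (8 * ρ + 1) := by positivity
  have h := KH r ρ hρ hr f (s + η / (8 * ρ + 1)) (by positivity) (by
    filter_upwards [hf] with ω hω
    exact hω.trans (pow_le_pow_left₀ hs (by linarith) 2))
  refine h.trans ?_
  have h2 : 8 * ρ * (η / (8 * ρ + 1)) ≤ η := by
    rw [mul_div_assoc', div_le_iff₀ (by positivity)]
    nlinarith
  nlinarith

end AE

section T1

lemma value_add {Y : Type} [NormedAddCommGroup Y] [NormedSpace 𝕜 Y] (g h : Bidual 𝕜 Y)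
    (y' : StrongDual 𝕜 Y) : value (g + h) y' = value g y' + value h y' := rfl

lemma value_smul {Y : Type} [NormedAddCommGroup Y] [NormedSpace 𝕜 Y] (c : 𝕜) (g : Bidual 𝕜 Y)
    (y' : StrongDual 𝕜 Y) : value (c • g) y' = c * value g y' := rfl

lemma norm_value_le {Y : Type} [NormedAddCommGroup Y] [NormedSpace 𝕜 Y] (g : Bidual 𝕜 Y)
    (y' : StrongDual 𝕜 Y) : ‖value g y'‖ ≤ ‖g‖ * ‖y'‖ :=
  (show StrongDual 𝕜 (StrongDual 𝕜 Y) from g).le_opNorm y'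

lemma value_sum {Y : Type} [NormedAddCommGroup Y] [NormedSpace 𝕜 Y] (g : Bidual 𝕜 Y)
    (c : Fin n → 𝕜) (y' : Fin n → StrongDual 𝕜 Y) :
    ∑ k, c k * value g (y' k) = value g (∑ k, c k • y' k) := by
  show _ = (show StrongDual 𝕜 (StrongDual 𝕜 Y) from g) (∑ k, c k • y' k)
  rw [map_sum]
  simp only [map_smul, smul_eq_mul]
  rfl

lemma norm_jmap {Y : Type} [NormedAddCommGroup Y] [NormedSpace 𝕜 Y] (y : Y) :
    ‖jmap 𝕜 y‖ = ‖y‖ :=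
  (inclusionInDoubleDualLi (E := Y) 𝕜).norm_map y

variable {E F Z N : Type} [NormedAddCommGroup E] [NormedSpace 𝕜 E] [CompleteSpace E]
  [NormedAddCommGroup F] [NormedSpace 𝕜 F] [CompleteSpace F]
  [NormedAddCommGroup Z] [NormedSpace 𝕜 Z] [CompleteSpace Z]
  [NormedAddCommGroup N] [NormedSpace 𝕜 N] [CompleteSpace N]

/-- the sign norm is at most `γ` -/
def SignBd (g : Fin n → StrongDual 𝕜 N) (γ : ℝ) : Prop :=
  ∀ ε : Fin n → Bool, ‖∑ k, ((sg (ε k) : ℝ) : 𝕜) • g k‖ ≤ γ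

lemma SignBd.nonneg {g : Fin n → StrongDual 𝕜 N} {γ : ℝ} (h : SignBd g γ) : 0 ≤ γ :=
  (norm_nonneg _).trans (h (fun _ => true))

lemma T1 {Ω : Type} [MeasurableSpace Ω] {μ : Measure Ω} (v : EuclideanSpace 𝕜 (Fin n) →L[𝕜] F)
    (B : F →L[𝕜] Z) (A : Z →L[𝕜] N) (g : Fin n → StrongDual 𝕜 N) (γ : ℝ) (hg : SignBd g γ)
    (S : F →L[𝕜] Leb 𝕜 ∞ μ) (R : Leb 𝕜 ∞ μ →L[𝕜] Bidual 𝕜 Z)
    (hRS : ∀ x, jmap 𝕜 (B x) = R (S x)) :
    ‖∑ k, g k (A (B (v (ee 𝕜 k))))‖ ≤ 8 * (γ * ‖A‖ * ‖R‖) * (‖S‖ * ‖v‖) := by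
  have hγ := hg.nonneg
  let S' : EuclideanSpace 𝕜 (Fin n) →ₗ[𝕜] Lp 𝕜 ∞ μ := (S ∘L v).toLinearMap
  let r : Fin n → (Lp 𝕜 ∞ μ →ₗ[𝕜] 𝕜) := fun k =>
    { toFun := fun F => value (R F) (g k ∘L A)
      map_add' := fun F G => by rw [← value_add]; exact congrArg (fun z => value z _) (map_add R F G)
      map_smul' := fun c F => by
        rw [RingHom.id_apply, smul_eq_mul, ← value_smul]
        exact congrArg (fun z => value z _) (map_smul R c F) }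
  have hS' : ∀ a, ‖S' a‖ ≤ (‖S‖ * ‖v‖) * ‖a‖ := by
    intro a
    have h1 : ‖S (v a)‖ ≤ ‖S‖ * ‖v a‖ := S.le_opNorm _
    have h2 : ‖v a‖ ≤ ‖v‖ * ‖a‖ := v.le_opNorm _
    have h3 : ‖S (v a)‖ ≤ (‖S‖ * ‖v‖) * ‖a‖ := by
      refine h1.trans ?_
      have := norm_nonneg S
      nlinarith
    exact h3
  have hae := ae_square S' (‖S‖ * ‖v‖) (by positivity) hS'
  have hr : ∀ (ε : Fin n → Bool) (F : Lp 𝕜 ∞ μ),
      ‖∑ k, ((sg (ε k) : ℝ) : 𝕜) * r k F‖ ≤ (γ * ‖A‖ * ‖R‖) * ‖F‖ := by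
    intro ε F
    have h1 : ∑ k, ((sg (ε k) : ℝ) : 𝕜) * r k F =
        value (R F) (∑ k, ((sg (ε k) : ℝ) : 𝕜) • (g k ∘L A)) :=
      value_sum (R F) (fun k => ((sg (ε k) : ℝ) : 𝕜)) (fun k => g k ∘L A)
    have h2 : ∑ k, ((sg (ε k) : ℝ) : 𝕜) • (g k ∘L A) =
        (∑ k, ((sg (ε k) : ℝ) : 𝕜) • g k) ∘L A := by
      ext z
      simp only [sum_apply, smul_apply,
        ContinuousLinearMap.comp_apply]
    rw [h1, h2]
    refine (norm_value_le _ _).trans ?_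
    have h3 : ‖R F‖ ≤ ‖R‖ * ‖F‖ := R.le_opNorm F
    have h4 : ‖(∑ k, ((sg (ε k) : ℝ) : 𝕜) • g k) ∘L A‖ ≤ γ * ‖A‖ :=
      (ContinuousLinearMap.opNorm_comp_le _ _).trans
        (mul_le_mul_of_nonneg_right (hg ε) (norm_nonneg _))
    calc ‖R F‖ * ‖(∑ k, ((sg (ε k) : ℝ) : 𝕜) • g k) ∘L A‖ ≤ (‖R‖ * ‖F‖) * (γ * ‖A‖) :=
          mul_le_mul h3 h4 (norm_nonneg _) (mul_nonneg (norm_nonneg _) (norm_nonneg _))
      _ = _ := by ring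
  have h := KH' r (γ * ‖A‖ * ‖R‖) (by positivity) hr (fun k => S' (ee 𝕜 k)) (‖S‖ * ‖v‖)
    (by positivity) hae
  have h2 : ∀ k, r k (S' (ee 𝕜 k)) = g k (A (B (v (ee 𝕜 k)))) := by
    intro k
    show value (R (S (v (ee 𝕜 k)))) (g k ∘L A) = _
    rw [← hRS]
    rfl
  simp only [h2] at h
  exact h

end T1

end Pool.Agent.Helper362.ProdId
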