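import Pool.Agent.Helper362.ProdC
set_option autoImplicit false
open MeasureTheory Module NormedSpace
open scoped ENNReal

namespace Pool.Agent.Helper362.ProdId

open Pool.Agent.Helper362.Ideals

variable {𝕜 : Type} [RCLike 𝕜] {n : ℕ}

lemma le_mul_sInf {t a : ℝ≥0∞} {s : Set ℝ≥0∞} (ha : a ≠ ⊤) (hs : s.Nonempty)
    (h : ∀ c ∈ s, t ≤ a * c) : t ≤ a * sInf s := by
  have : Nonempty s := hs.to_subtype
  rw [sInf_eq_iInf', ENNReal.mul_iInf (fun h => absurd h ha)]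
  exact le_iInf (fun c => h c c.2)

section A

variable {E F Z N : Type} [NormedAddCommGroup E] [NormedSpace 𝕜 E] [CompleteSpace E]
  [NormedAddCommGroup F] [NormedSpace 𝕜 F] [CompleteSpace F]
  [NormedAddCommGroup Z] [NormedSpace 𝕜 Z] [CompleteSpace Z]
  [NormedAddCommGroup N] [NormedSpace 𝕜 N] [CompleteSpace N]

lemma norm_le_lebesgueVal (p : ℝ≥0∞) [Fact (1 ≤ p)] (A : Z →L[𝕜] N) :
    ENNReal.ofReal ‖A‖ ≤ lebesgueVal p A := by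
  refine le_sInf ?_
  rintro c ⟨Ω, _, μ, S, R, h, rfl⟩
  refine ENNReal.ofReal_le_ofReal
    (ContinuousLinearMap.opNorm_le_bound _ (by positivity) (fun z => ?_))
  rw [← norm_jmap (𝕜 := 𝕜), h z]
  refine (R.le_opNorm _).trans ?_
  rw [mul_assoc]
  exact mul_le_mul_of_nonneg_left (S.le_opNorm z) (norm_nonneg _)

lemma T1' (v : EuclideanSpace 𝕜 (Fin n) →L[𝕜] F) (g : Fin n → StrongDual 𝕜 N) (γ : ℝ)
    (hg : SignBd g γ) (S : F →L[𝕜] N) (hS : prodVal (LL 𝕜 1) (LL 𝕜 ∞) S < ⊤) :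
    ENNReal.ofReal ‖∑ k, g k (S (v (ee 𝕜 k)))‖ ≤
      ENNReal.ofReal (8 * γ * ‖v‖) * prodVal (LL 𝕜 1) (LL 𝕜 ∞) S := by
  have hγ := hg.nonneg
  refine le_mul_sInf ENNReal.ofReal_ne_top ?_ ?_
  · obtain ⟨c, hc, _⟩ := sInf_lt_iff.mp hS
    exact ⟨c, hc⟩
  rintro c ⟨Z, _, _, _, U, V, rfl, hV, hU, rfl⟩
  rw [← mul_assoc]
  refine le_mul_sInf (ENNReal.mul_ne_top ENNReal.ofReal_ne_top hV.ne) ?_ ?_
  · obtain ⟨c, hc, _⟩ := sInf_lt_iff.mp hU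
    exact ⟨c, hc⟩
  rintro c ⟨Ω, _, μ, S', R, h, rfl⟩
  have h1 := T1 v U V g γ hg S' R h
  calc ENNReal.ofReal ‖∑ k, g k ((V ∘L U) (v (ee 𝕜 k)))‖
      ≤ ENNReal.ofReal (8 * (γ * ‖V‖ * ‖R‖) * (‖S'‖ * ‖v‖)) := ENNReal.ofReal_le_ofReal h1
    _ = ENNReal.ofReal (8 * γ * ‖v‖) * ENNReal.ofReal ‖V‖ * ENNReal.ofReal (‖R‖ * ‖S'‖) := by
        rw [← ENNReal.ofReal_mul (by positivity), ← ENNReal.ofReal_mul (by positivity)]
        congr 1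
        ring
    _ ≤ _ := by
        gcongr
        exact norm_le_lebesgueVal 1 V

lemma SignBd.comp {Z : Type} [NormedAddCommGroup Z] [NormedSpace 𝕜 Z]
    {g : Fin n → StrongDual 𝕜 N} {γ : ℝ} (hg : SignBd g γ) (A : Z →L[𝕜] N)
    (hA : ‖A‖ ≤ 1) : SignBd (fun k => g k ∘L A) γ := by
  intro ε
  have h2 : ∑ k, ((sg (ε k) : ℝ) : 𝕜) • (g k ∘L A) =
      (∑ k, ((sg (ε k) : ℝ) : 𝕜) • g k) ∘L A := by
    ext z
    simp only [sum_apply, smul_apply, ContinuousLinearMap.comp_apply]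
  rw [h2]
  refine (ContinuousLinearMap.opNorm_comp_le _ _).trans ?_
  refine (mul_le_mul (hg ε) hA (norm_nonneg _) hg.nonneg).trans (le_of_eq (mul_one γ))

lemma T2 (v : EuclideanSpace 𝕜 (Fin n) →L[𝕜] F) (g : Fin n → StrongDual 𝕜 E) (γ : ℝ)
    (hg : SignBd g γ) :
    adjVal (prod (LL 𝕜 1) (LL 𝕜 ∞)) (∑ k, (g k).smulRight (v (ee 𝕜 k)) : E →L[𝕜] F) ≤
      ENNReal.ofReal (8 * γ * ‖v‖) := by
  have hγ := hg.nonneg
  unfold adjVal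
  refine sSup_le ?_
  rintro c ⟨M, L, hM, hL, hMc, hLc, S, hS, rfl⟩
  have h1 : (L.mkQL ∘L (∑ k, (g k).smulRight (v (ee 𝕜 k)) : E →L[𝕜] F) ∘L M.subtypeL ∘L S) =
      ∑ k, ((g k ∘L M.subtypeL) ∘L S).smulRight (L.mkQL (v (ee 𝕜 k))) := by
    ext x
    show L.mkQL ((∑ k, (g k).smulRight (v (ee 𝕜 k)) : E →L[𝕜] F) (M.subtypeL (S x))) = _
    rw [sum_apply, sum_apply, map_sum]
    refine Finset.sum_congr rfl (fun k _ => ?_)
    show L.mkQL (g k (M.subtypeL (S x)) • v (ee 𝕜 k)) = g k (M.subtypeL (S x)) • L.mkQL (v (ee 𝕜 k))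
    rw [map_smul]
  have h2 : traceVal (∑ k, (g k).smulRight (v (ee 𝕜 k)) : E →L[𝕜] F) M L S =
      ‖∑ k, (g k ∘L M.subtypeL) (S ((L.mkQL ∘L v) (ee 𝕜 k)))‖ := by
    show ‖tr (L.mkQL ∘L (∑ k, (g k).smulRight (v (ee 𝕜 k)) : E →L[𝕜] F) ∘L M.subtypeL ∘L S)‖ = _
    rw [h1, tr_sum]
    simp only [tr_rankOne]
    rfl
  rw [h2]
  have hMs : ‖M.subtypeL‖ ≤ 1 := Submodule.norm_subtypeL_le M
  have hLq : ‖L.mkQL ∘L v‖ ≤ ‖v‖ := by
    refine ContinuousLinearMap.opNorm_le_bound _ (norm_nonneg _) (fun x => ?_)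
    exact (Submodule.Quotient.norm_mk_le L (v x)).trans (v.le_opNorm x)
  have hS' : prodVal (LL 𝕜 1) (LL 𝕜 ∞) S ≤ 1 := hS
  have h3 := T1' (L.mkQL ∘L v) (fun k => g k ∘L M.subtypeL) γ (hg.comp M.subtypeL hMs) S
    (hS'.trans_lt ENNReal.one_lt_top)
  refine h3.trans ?_
  calc ENNReal.ofReal (8 * γ * ‖L.mkQL ∘L v‖) * prodVal (LL 𝕜 1) (LL 𝕜 ∞) S
      ≤ ENNReal.ofReal (8 * γ * ‖v‖) * 1 := by
        gcongr
    _ = _ := mul_one _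

lemma T3 (w : EuclideanSpace 𝕜 (Fin n) →L[𝕜] Z) (β : ℝ) (hβ : 0 < β) (hw : ‖w‖ ≤ β)
    (g : Fin n → StrongDual 𝕜 N) (hg : SignBd g 1) (V : Z →L[𝕜] N) :
    ENNReal.ofReal ‖∑ k, g k (V (w (ee 𝕜 k)))‖ ≤ ENNReal.ofReal (8 * β) * (A0 𝕜).val V := by
  set M : Submodule 𝕜 Z := LinearMap.range (w : EuclideanSpace 𝕜 (Fin n) →ₗ[𝕜] Z) with hM
  let G : N →L[𝕜] (Fin n → 𝕜) := ContinuousLinearMap.pi g
  set L : Submodule 𝕜 N := LinearMap.ker (G : N →ₗ[𝕜] (Fin n → 𝕜)) with hL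
  have i1 : FiniteDimensional 𝕜 M := inferInstance
  have i2 : FiniteDimensional 𝕜 (N ⧸ L) :=
    LinearEquiv.finiteDimensional (LinearMap.quotKerEquivRange (G : N →ₗ[𝕜] (Fin n → 𝕜))).symm
  have i3 : CompleteSpace M := FiniteDimensional.complete 𝕜 _
  have i4 : IsClosed (L : Set N) := G.isClosed_ker
  have hk : ∀ k, L ≤ LinearMap.ker (g k : N →ₗ[𝕜] 𝕜) := by
    intro k x hx
    rw [hL, LinearMap.mem_ker] at hx
    rw [LinearMap.mem_ker]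
    exact congrFun hx k
  let w' : EuclideanSpace 𝕜 (Fin n) →L[𝕜] M :=
    w.codRestrict M (fun x => LinearMap.mem_range_self _ x)
  have hw' : ‖w'‖ ≤ β := by
    refine ContinuousLinearMap.opNorm_le_bound _ hβ.le (fun x => ?_)
    exact (w.le_opNorm x).trans (mul_le_mul_of_nonneg_right hw (norm_nonneg _))
  set c : ℝ := (8 * β)⁻¹ with hc
  have hc0 : 0 < c := by positivity
  let g' : Fin n → StrongDual 𝕜 (N ⧸ L) := fun k => ((c : ℝ) : 𝕜) • L.liftQL (g k) (hk k)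
  have hg' : SignBd g' c := by
    intro ε
    have hsum : L ≤ LinearMap.ker ((∑ k, ((sg (ε k) : ℝ) : 𝕜) • g k : StrongDual 𝕜 N) :
        N →ₗ[𝕜] 𝕜) := by
      intro x hx
      rw [LinearMap.mem_ker]
      show (∑ k, ((sg (ε k) : ℝ) : 𝕜) • g k : StrongDual 𝕜 N) x = 0
      rw [sum_apply]
      refine Finset.sum_eq_zero (fun k _ => ?_)
      have h0 : g k x = 0 := hk k hx
      rw [smul_apply, h0, smul_zero]
    have h1 : ∑ k, ((sg (ε k) : ℝ) : 𝕜) • g' k =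
        ((c : ℝ) : 𝕜) • L.liftQL (∑ k, ((sg (ε k) : ℝ) : 𝕜) • g k : StrongDual 𝕜 N) hsum := by
      ext x
      obtain ⟨y, rfl⟩ := Submodule.Quotient.mk_surjective L x
      rw [sum_apply]
      show ∑ k, ((sg (ε k) : ℝ) : 𝕜) • (((c : ℝ) : 𝕜) • g k y) =
        ((c : ℝ) : 𝕜) • (∑ k, ((sg (ε k) : ℝ) : 𝕜) • g k : StrongDual 𝕜 N) y
      rw [sum_apply, Finset.smul_sum]
      refine Finset.sum_congr rfl (fun k _ => ?_)
      rw [smul_apply, smul_comm]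
    rw [h1, norm_smul, RCLike.norm_ofReal, abs_of_pos hc0]
    have h2 : ‖L.liftQL (∑ k, ((sg (ε k) : ℝ) : 𝕜) • g k : StrongDual 𝕜 N) hsum‖ ≤ 1 :=
      ContinuousLinearMap.opNorm_le_bound _ zero_le_one
        (norm_liftQL_le L _ hsum (hg ε))
    calc c * ‖L.liftQL (∑ k, ((sg (ε k) : ℝ) : 𝕜) • g k : StrongDual 𝕜 N) hsum‖ ≤ c * 1 :=
          mul_le_mul_of_nonneg_left h2 hc0.le
      _ = c := mul_one c
  have hS : (adj (prod (LL 𝕜 1) (LL 𝕜 ∞))).val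
      (∑ k, (g' k).smulRight (w' (ee 𝕜 k)) : (N ⧸ L) →L[𝕜] M) ≤ 1 := by
    refine (T2 w' g' c hg').trans ?_
    rw [← ENNReal.ofReal_one]
    refine ENNReal.ofReal_le_ofReal ?_
    calc 8 * c * ‖w'‖ ≤ 8 * c * β := mul_le_mul_of_nonneg_left hw' (by positivity)
      _ = 1 := by rw [hc]; field_simp
  have htr : traceVal V M L (∑ k, (g' k).smulRight (w' (ee 𝕜 k))) =
      c * ‖∑ k, g k (V (w (ee 𝕜 k)))‖ := by
    have h1 : (L.mkQL ∘L V ∘L M.subtypeL ∘L (∑ k, (g' k).smulRight (w' (ee 𝕜 k)))) =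
        ∑ k, (g' k).smulRight (L.mkQL (V (w (ee 𝕜 k)))) := by
      ext x
      show L.mkQL (V (M.subtypeL ((∑ k, (g' k).smulRight (w' (ee 𝕜 k)) : (N ⧸ L) →L[𝕜] M) x))) = _
      rw [sum_apply, sum_apply, map_sum, map_sum, map_sum]
      refine Finset.sum_congr rfl (fun k _ => ?_)
      show L.mkQL (V (M.subtypeL (g' k x • w' (ee 𝕜 k)))) = g' k x • L.mkQL (V (w (ee 𝕜 k)))
      rw [map_smul, map_smul, map_smul]
      rfl
    show ‖tr (L.mkQL ∘L V ∘L M.subtypeL ∘L (∑ k, (g' k).smulRight (w' (ee 𝕜 k))))‖ = _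
    rw [h1, tr_sum]
    simp only [tr_rankOne]
    have h2 : ∀ k, g' k (L.mkQL (V (w (ee 𝕜 k)))) = ((c : ℝ) : 𝕜) * g k (V (w (ee 𝕜 k))) :=
      fun k => rfl
    simp only [h2]
    rw [← Finset.mul_sum, norm_mul, RCLike.norm_ofReal, abs_of_pos hc0]
  have hle : ENNReal.ofReal (c * ‖∑ k, g k (V (w (ee 𝕜 k)))‖) ≤ (A0 𝕜).val V := by
    show _ ≤ adjVal (adj (prod (LL 𝕜 1) (LL 𝕜 ∞))) V
    unfold adjVal
    refine le_sSup ?_
    exact ⟨M, L, i1, i2, i3, i4, _, hS, by rw [htr]⟩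
  calc ENNReal.ofReal ‖∑ k, g k (V (w (ee 𝕜 k)))‖ =
      ENNReal.ofReal (8 * β) * ENNReal.ofReal (c * ‖∑ k, g k (V (w (ee 𝕜 k)))‖) := by
        rw [← ENNReal.ofReal_mul (by positivity), ← mul_assoc, hc,
          mul_inv_cancel₀ (by positivity), one_mul]
    _ ≤ _ := by gcongr

end A

end Pool.Agent.Helper362.ProdId
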