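import Pool.Agent.Helper362.IdealDefs
set_option autoImplicit false
open Module NormedSpace MeasureTheory
open scoped ENNReal

namespace Pool.Agent.Helper362.ProdId

open Pool.Agent.Helper362.Ideals

/-- A (quasi-)normed operator ideal, given by its (quasi-)norm: a value in `[0, ∞]` for every
operator between Banach spaces over `𝕜`; the operators in the ideal are those with finite value. -/
structure IdealFn (𝕜 : Type) [RCLike 𝕜] where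
  val : ∀ {X Y : Type} [NormedAddCommGroup X] [NormedSpace 𝕜 X] [CompleteSpace X]
    [NormedAddCommGroup Y] [NormedSpace 𝕜 Y] [CompleteSpace Y], (X →L[𝕜] Y) → ℝ≥0∞

section Lebesgue

variable (𝕜 : Type) [RCLike 𝕜] (p : ℝ≥0∞) [Fact (1 ≤ p)] {Ω : Type} [MeasurableSpace Ω]
  (μ : Measure Ω)

/-- The Banach space `L_p(μ)`. -/
def Leb : Type := Lp 𝕜 p μ

noncomputable instance lebNormed : NormedAddCommGroup (Leb 𝕜 p μ) :=
  (Lp.instNormedAddCommGroup : NormedAddCommGroup (Lp 𝕜 p μ))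

noncomputable instance lebSpace : NormedSpace 𝕜 (Leb 𝕜 p μ) :=
  (Lp.instNormedSpace : NormedSpace 𝕜 (Lp 𝕜 p μ))

end Lebesgue

section At

variable {𝕜 : Type} [RCLike 𝕜]
variable {X Y : Type} [NormedAddCommGroup X] [NormedSpace 𝕜 X] [CompleteSpace X]
  [NormedAddCommGroup Y] [NormedSpace 𝕜 Y] [CompleteSpace Y]

/-- `T = RS` with `S : X → H`, `R : H → Y` and `c = ‖R‖ ‖S‖`. -/
def HilbertFactor (T : X →L[𝕜] Y) (H : Type) [NormedAddCommGroup H] [InnerProductSpace 𝕜 H]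
    (c : ℝ≥0∞) : Prop :=
  ∃ (S : X →L[𝕜] H) (R : H →L[𝕜] Y), T = R ∘L S ∧ c = ENNReal.ofReal (‖R‖ * ‖S‖)

/-- `𝐋₂(T) = inf ‖R‖ ‖S‖` over all factorisations `T = RS` through a Hilbert space. -/
noncomputable def hilbertVal (T : X →L[𝕜] Y) : ℝ≥0∞ :=
  sInf {c | ∃ (H : Type) (_ : NormedAddCommGroup H) (_ : InnerProductSpace 𝕜 H),
    CompleteSpace H ∧ HilbertFactor T H c}

/-- `j_Y T = RS` with `S : X → L_p(μ)`, `R : L_p(μ) → Y''` and `c = ‖R‖ ‖S‖`. -/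
def LebesgueFactor (p : ℝ≥0∞) [Fact (1 ≤ p)] (T : X →L[𝕜] Y) {Ω : Type} [MeasurableSpace Ω]
    (μ : Measure Ω) (c : ℝ≥0∞) : Prop :=
  ∃ (S : X →L[𝕜] Leb 𝕜 p μ) (R : Leb 𝕜 p μ →L[𝕜] Bidual 𝕜 Y),
    (∀ x, jmap 𝕜 (T x) = R (S x)) ∧ c = ENNReal.ofReal (‖R‖ * ‖S‖)

/-- `𝐋_p(T) = inf ‖R‖ ‖S‖` over all factorisations `j_Y T = RS` through some `L_p(μ)`. -/
noncomputable def lebesgueVal (p : ℝ≥0∞) [Fact (1 ≤ p)] (T : X →L[𝕜] Y) : ℝ≥0∞ :=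
  sInf {c | ∃ (Ω : Type) (_ : MeasurableSpace Ω) (μ : Measure Ω), LebesgueFactor p T μ c}

/-- `T = VU` with `U : X → Z` in the ideal `𝔅`, `V : Z → Y` in the ideal `𝔄` and
`c = 𝐀(V) 𝐁(U)`. -/
def ProdFactor (A B : IdealFn 𝕜) (T : X →L[𝕜] Y) (Z : Type) [NormedAddCommGroup Z]
    [NormedSpace 𝕜 Z] [CompleteSpace Z] (c : ℝ≥0∞) : Prop :=
  ∃ (U : X →L[𝕜] Z) (V : Z →L[𝕜] Y), T = V ∘L U ∧ A.val V < ⊤ ∧ B.val U < ⊤ ∧
    c = A.val V * B.val U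

/-- `𝐀 ∘ 𝐁(T) = inf 𝐀(V) 𝐁(U)` over all factorisations `T = VU` with `U` in the ideal `𝔅` and
`V` in the ideal `𝔄`. -/
noncomputable def prodVal (A B : IdealFn 𝕜) (T : X →L[𝕜] Y) : ℝ≥0∞ :=
  sInf {c | ∃ (Z : Type) (_ : NormedAddCommGroup Z) (_ : NormedSpace 𝕜 Z) (_ : CompleteSpace Z),
    ProdFactor A B T Z c}

/-- The modulus of the trace of `Q_L T J_M S`. -/
noncomputable def traceVal (T : X →L[𝕜] Y) (M : Submodule 𝕜 X) (L : Submodule 𝕜 Y)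
    [IsClosed (L : Set Y)] (S : (Y ⧸ L) →L[𝕜] M) : ℝ :=
  ‖LinearMap.trace 𝕜 (Y ⧸ L) (L.mkQL ∘L T ∘L M.subtypeL ∘L S).toLinearMap‖

/-- `𝐀*(T) = sup |tr(Q_L T J_M S)|` over the finite-dimensional `M ⊆ X`, the (closed)
finite-codimensional `L ⊆ Y` and the operators `S : Y/L → M` with `𝐀(S) ≤ 1`. -/
noncomputable def adjVal (A : IdealFn 𝕜) (T : X →L[𝕜] Y) : ℝ≥0∞ :=
  sSup {c | ∃ (M : Submodule 𝕜 X) (L : Submodule 𝕜 Y), FiniteDimensional 𝕜 M ∧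
    FiniteDimensional 𝕜 (Y ⧸ L) ∧ ∃ (_ : CompleteSpace M) (_ : IsClosed (L : Set Y))
    (S : (Y ⧸ L) →L[𝕜] M), A.val S ≤ 1 ∧ c = ENNReal.ofReal (traceVal T M L S)}

/-- The conditions on an ideal norm which concern the operators from `X` to `Y`. -/
def NormAt (N : IdealFn 𝕜) (X Y : Type) [NormedAddCommGroup X] [NormedSpace 𝕜 X]
    [CompleteSpace X] [NormedAddCommGroup Y] [NormedSpace 𝕜 Y] [CompleteSpace Y] : Prop :=
  (∀ S T : X →L[𝕜] Y, N.val (S + T) ≤ N.val S + N.val T) ∧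
    (∀ (c : 𝕜) (T : X →L[𝕜] Y), N.val (c • T) = ‖c‖ₑ * N.val T) ∧
    (∀ T : X →L[𝕜] Y, N.val T = 0 → T = 0)

/-- The ideal inequality. -/
def IdealAt (N : IdealFn 𝕜) {W X Y Z : Type} [NormedAddCommGroup W] [NormedSpace 𝕜 W]
    [CompleteSpace W] [NormedAddCommGroup X] [NormedSpace 𝕜 X] [CompleteSpace X]
    [NormedAddCommGroup Y] [NormedSpace 𝕜 Y] [CompleteSpace Y]
    [NormedAddCommGroup Z] [NormedSpace 𝕜 Z] [CompleteSpace Z]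
    (S : W →L[𝕜] X) (T : X →L[𝕜] Y) (R : Y →L[𝕜] Z) : Prop :=
  N.val (R ∘L T ∘L S) ≤ ‖R‖ₑ * N.val T * ‖S‖ₑ

/-- `Q` and `N` are equivalent on the operators from `X` to `Y`. -/
def EquivAt (Q N : IdealFn 𝕜) (X Y : Type) [NormedAddCommGroup X] [NormedSpace 𝕜 X]
    [CompleteSpace X] [NormedAddCommGroup Y] [NormedSpace 𝕜 Y] [CompleteSpace Y] : Prop :=
  ∃ C : ℝ≥0∞, C ≠ ⊤ ∧ ∀ T : X →L[𝕜] Y, Q.val T ≤ C * N.val T ∧ N.val T ≤ C * Q.val T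

end At

section Ideals

variable (𝕜 : Type) [RCLike 𝕜]

/-- The ideal `𝔏₂`. -/
noncomputable def L2 : IdealFn 𝕜 := ⟨fun T => hilbertVal T⟩

/-- The ideal `𝔏_p`. -/
noncomputable def LL (p : ℝ≥0∞) [Fact (1 ≤ p)] : IdealFn 𝕜 := ⟨fun T => lebesgueVal p T⟩

variable {𝕜}

/-- The product `𝔄 ∘ 𝔅`. -/
noncomputable def prod (A B : IdealFn 𝕜) : IdealFn 𝕜 := ⟨fun T => prodVal A B T⟩

/-- The adjoint `𝔄*`. -/
noncomputable def adj (A : IdealFn 𝕜) : IdealFn 𝕜 := ⟨fun T => adjVal A T⟩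

variable (𝕜)

/-- The ideal `𝔄₀ = (𝔏₁ ∘ 𝔏_∞)**`. -/
noncomputable def A0 : IdealFn 𝕜 := adj (adj (prod (LL 𝕜 1) (LL 𝕜 ∞)))

variable {𝕜}

/-- `N` is an ideal norm. -/
def IsIdealNorm (N : IdealFn 𝕜) : Prop :=
  (∀ (X Y : Type) [NormedAddCommGroup X] [NormedSpace 𝕜 X] [CompleteSpace X]
    [NormedAddCommGroup Y] [NormedSpace 𝕜 Y] [CompleteSpace Y], NormAt N X Y) ∧
  (∀ (W X Y Z : Type) [NormedAddCommGroup W] [NormedSpace 𝕜 W]
    [CompleteSpace W] [NormedAddCommGroup X] [NormedSpace 𝕜 X] [CompleteSpace X]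
    [NormedAddCommGroup Y] [NormedSpace 𝕜 Y] [CompleteSpace Y]
    [NormedAddCommGroup Z] [NormedSpace 𝕜 Z] [CompleteSpace Z]
    (S : W →L[𝕜] X) (T : X →L[𝕜] Y) (R : Y →L[𝕜] Z), IdealAt N S T R)

/-- The quasi-normed ideal `Q` is normed: some ideal norm is equivalent to it on every component
(with a constant that may depend on the component). -/
def IsNormed (Q : IdealFn 𝕜) : Prop :=
  ∃ N : IdealFn 𝕜, IsIdealNorm N ∧
    ∀ (X Y : Type) [NormedAddCommGroup X] [NormedSpace 𝕜 X] [CompleteSpace X]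
      [NormedAddCommGroup Y] [NormedSpace 𝕜 Y] [CompleteSpace Y], EquivAt Q N X Y

end Ideals

end Pool.Agent.Helper362.ProdId
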