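import Pool.Agent.Helper362.ProdD
set_option autoImplicit false
open MeasureTheory Module NormedSpace InnerProductSpace
open scoped ENNReal

namespace Pool.Agent.Helper362.ProdId

open Pool.Agent.Helper362.Ideals

variable {𝕜 : Type} [RCLike 𝕜] {n : ℕ}

section GS

variable {H : Type} [NormedAddCommGroup H] [InnerProductSpace 𝕜 H]

lemma inner_gs_self (h : Fin n → H) (i : Fin n) :
    inner 𝕜 (gramSchmidt 𝕜 h i) (h i) = ((‖gramSchmidt 𝕜 h i‖ ^ 2 : ℝ) : 𝕜) := by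
  conv_lhs => rw [gramSchmidt_def'' 𝕜 h i]
  rw [inner_add_right, inner_sum, Finset.sum_eq_zero, add_zero, inner_self_eq_norm_sq_to_K,
    RCLike.ofReal_pow]
  intro j hj
  rw [Finset.mem_Iio] at hj
  rw [inner_smul_right, gramSchmidt_orthogonal 𝕜 h hj.ne', mul_zero]

lemma norm_gs_le (h : Fin n → H) (i : Fin n) : ‖gramSchmidt 𝕜 h i‖ ≤ ‖h i‖ := by
  by_cases h0 : ‖gramSchmidt 𝕜 h i‖ = 0
  · rw [h0]; exact norm_nonneg _
  have hpos : 0 < ‖gramSchmidt 𝕜 h i‖ := lt_of_le_of_ne (norm_nonneg _) (Ne.symm h0)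
  have h1 := norm_inner_le_norm (𝕜 := 𝕜) (gramSchmidt 𝕜 h i) (h i)
  rw [inner_gs_self, RCLike.norm_ofReal, abs_of_nonneg (by positivity), sq] at h1
  exact le_of_mul_le_mul_left h1 hpos

lemma functional_gs (h : Fin n → H) (i : Fin n) (Φ : H →L[𝕜] 𝕜)
    (hΦ : ∀ j, j ≠ i → Φ (h j) = 0) : Φ (gramSchmidt 𝕜 h i) = Φ (h i) := by
  have h0 : ∀ j, j < i → Φ (gramSchmidt 𝕜 h j) = 0 := by
    intro j hj
    have hmem := gramSchmidt_mem_span 𝕜 h (le_refl j)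
    have hle : Submodule.span 𝕜 (h '' Set.Iic j) ≤ LinearMap.ker (Φ : H →ₗ[𝕜] 𝕜) := by
      rw [Submodule.span_le]
      rintro _ ⟨k, hk, rfl⟩
      exact hΦ k (lt_of_le_of_lt hk hj).ne
    exact hle hmem
  conv_rhs => rw [gramSchmidt_def'' 𝕜 h i]
  rw [map_add, map_sum, Finset.sum_eq_zero, add_zero]
  intro j hj
  rw [Finset.mem_Iio] at hj
  rw [map_smul, h0 j hj, smul_zero]

/-- the map of the unit vectors onto given vectors -/
noncomputable def wm (q : Fin n → H) : EuclideanSpace 𝕜 (Fin n) →L[𝕜] H :=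
  ∑ k, (EuclideanSpace.proj (𝕜 := 𝕜) k).smulRight (q k)

lemma wm_apply (q : Fin n → H) (a : EuclideanSpace 𝕜 (Fin n)) : wm q a = ∑ k, a k • q k := by
  unfold wm
  rw [sum_apply]
  rfl

lemma wm_ee (q : Fin n → H) (k : Fin n) : wm q (ee 𝕜 k) = q k := by
  rw [wm_apply, Finset.sum_eq_single k]
  · unfold ee
    rw [PiLp.single_apply, if_pos rfl, one_smul]
  · intro j _ hj
    unfold ee
    rw [PiLp.single_apply, if_neg hj, zero_smul]
  · intro hh; exact absurd (Finset.mem_univ k) hh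

lemma norm_wm (q : Fin n → H) (hq : Orthonormal 𝕜 q) :
    ‖(wm q : EuclideanSpace 𝕜 (Fin n) →L[𝕜] H)‖ ≤ 1 := by
  refine ContinuousLinearMap.opNorm_le_bound _ zero_le_one (fun a => ?_)
  rw [one_mul]
  refine le_of_sq_le_sq ?_ (norm_nonneg _)
  rw [wm_apply]
  have h1 := hq.inner_sum (fun k => a k) (fun k => a k) Finset.univ
  rw [inner_self_eq_norm_sq_to_K] at h1
  have h2 : ((‖∑ k, a k • q k‖ ^ 2 : ℝ) : 𝕜) = ((∑ k, ‖a k‖ ^ 2 : ℝ) : 𝕜) := by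
    rw [RCLike.ofReal_pow, h1, RCLike.ofReal_sum]
    refine Finset.sum_congr rfl (fun k _ => ?_)
    rw [RCLike.conj_mul, RCLike.ofReal_pow]
  have h3 := RCLike.ofReal_injective h2
  rw [h3, EuclideanSpace.norm_sq_eq]

end GS

/-- The numerical inequality. -/
lemma sum_inv_ge (hn : 0 < n) (b : Fin n → ℝ) (hb : ∀ k, 0 < b k) (s : ℝ) (hs : 0 < s)
    (h : ∑ k, b k ^ 2 ≤ s ^ 2) : Real.sqrt n / s ≤ ∑ k, (1 / (n : ℝ)) * (b k)⁻¹ := by
  have hn' : (0 : ℝ) < n := by exact_mod_cast hn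
  set q := Real.sqrt n with hq
  have hq0 : 0 < q := Real.sqrt_pos.mpr hn'
  have hq2 : q ^ 2 = n := Real.sq_sqrt hn'.le
  set t := s / q with ht
  have ht0 : 0 < t := by positivity
  have h1 : ∀ k, (3 - b k ^ 2 / t ^ 2) / (2 * t) ≤ (b k)⁻¹ := by
    intro k
    have hbk := hb k
    rw [div_le_iff₀ (by positivity), ← mul_le_mul_iff_right₀ hbk]
    have e : b k * ((b k)⁻¹ * (2 * t)) = 2 * t := by field_simp
    rw [e]
    have hu : 0 < b k / t := by positivity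
    have h2 : 0 ≤ (b k / t - 1) ^ 2 * (b k / t + 2) := by positivity
    have h3 : b k * (3 - b k ^ 2 / t ^ 2) = t * (3 * (b k / t) - (b k / t) ^ 3) := by
      field_simp
    rw [h3]
    nlinarith
  have h2 : ∑ k, (3 - b k ^ 2 / t ^ 2) / (2 * t) ≤ ∑ k, (b k)⁻¹ :=
    Finset.sum_le_sum (fun k _ => h1 k)
  have h3 : ∑ k : Fin n, (3 - b k ^ 2 / t ^ 2) / (2 * t) =
      (3 * n - (∑ k, b k ^ 2) / t ^ 2) / (2 * t) := by
    rw [← Finset.sum_div, Finset.sum_sub_distrib, ← Finset.sum_div, Finset.sum_const,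
      Finset.card_univ, Fintype.card_fin, nsmul_eq_mul]
    ring
  have h4 : (∑ k, b k ^ 2) / t ^ 2 ≤ n := by
    rw [div_le_iff₀ (by positivity)]
    refine h.trans (le_of_eq ?_)
    rw [ht, div_pow, hq2]
    field_simp
  rw [h3] at h2
  have h5 : n / t ≤ ∑ k, (b k)⁻¹ := by
    refine le_trans ?_ h2
    rw [div_le_div_iff₀ ht0 (by positivity)]
    nlinarith
  rw [← Finset.mul_sum]
  have h6 : q / s = (1 / (n : ℝ)) * (n / t) := by
    rw [ht]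
    field_simp
  rw [h6]
  exact mul_le_mul_of_nonneg_left h5 (by positivity)

section T4

variable {X Y Z : Type} [NormedAddCommGroup X] [NormedSpace 𝕜 X] [CompleteSpace X]
  [NormedAddCommGroup Y] [NormedSpace 𝕜 Y] [CompleteSpace Y]
  [NormedAddCommGroup Z] [NormedSpace 𝕜 Z] [CompleteSpace Z]

lemma T4_aux (hn : 0 < n) {H : Type} [NormedAddCommGroup H] [InnerProductSpace 𝕜 H]
    (x : Fin n → X) (hx : ∀ ε : Fin n → ℝ, (∀ i, |ε i| = 1) → ‖∑ i, ((ε i : ℝ) : 𝕜) • x i‖ ≤ 1)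
    (g : Fin n → StrongDual 𝕜 Y) (hg : SignBd g 1) (S : X →L[𝕜] H) (R : H →L[𝕜] Z)
    (V : Z →L[𝕜] Y)
    (hgx : ∀ i j, g i (V (R (S (x j)))) = if j = i then (((1 / (n : ℝ)) : ℝ) : 𝕜) else 0) :
    ENNReal.ofReal (Real.sqrt n) ≤ (ENNReal.ofReal 8 * (A0 𝕜).val V) *
      ENNReal.ofReal (‖R‖ * ‖S‖) := by
  have hn' : (0 : ℝ) < n := by exact_mod_cast hn
  set h : Fin n → H := fun i => S (x i) with hh
  have hbd : ∑ i, ‖h i‖ ^ 2 ≤ ‖S‖ ^ 2 := by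
    obtain ⟨ε, hε, hs⟩ := exists_signs (𝕜 := 𝕜) Finset.univ h
    refine hs.trans (pow_le_pow_left₀ (norm_nonneg _) ?_ 2)
    have e : ∑ i, ((ε i : ℝ) : 𝕜) • h i = S (∑ i, ((ε i : ℝ) : 𝕜) • x i) := by
      rw [map_sum]
      simp only [map_smul, hh]
    rw [e]
    refine (S.le_opNorm _).trans ?_
    have := hx ε hε
    have := norm_nonneg S
    nlinarith
  have hp : ∀ i, g i (V (R (gramSchmidt 𝕜 h i))) = (((1 / (n : ℝ)) : ℝ) : 𝕜) := by
    intro i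
    have := functional_gs h i (g i ∘L V ∘L R) (by
      intro j hj
      show g i (V (R (S (x j)))) = 0
      rw [hgx i j, if_neg hj])
    have e : (g i ∘L V ∘L R) (h i) = (((1 / (n : ℝ)) : ℝ) : 𝕜) := by
      show g i (V (R (S (x i)))) = _
      rw [hgx i i, if_pos rfl]
    rw [e] at this
    exact this
  have hp0 : ∀ i, gramSchmidt 𝕜 h i ≠ 0 := by
    intro i hi
    have h1 := hp i
    rw [hi, map_zero, map_zero, map_zero] at h1
    have h2 : (1 / (n : ℝ)) = 0 := by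
      have := h1.symm
      rwa [RCLike.ofReal_eq_zero] at this
    have h3 : (0 : ℝ) < 1 / n := by positivity
    linarith
  have hpos : ∀ i, 0 < ‖gramSchmidt 𝕜 h i‖ := fun i => norm_pos_iff.mpr (hp0 i)
  have hhpos : ∀ i, 0 < ‖h i‖ := fun i => (hpos i).trans_le (norm_gs_le h i)
  let i0 : Fin n := ⟨0, hn⟩
  have hS0 : 0 < ‖S‖ := by
    have h1 : ‖h i0‖ ^ 2 ≤ ∑ i, ‖h i‖ ^ 2 :=
      Finset.single_le_sum (f := fun i => ‖h i‖ ^ 2) (fun i _ => by positivity)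
        (Finset.mem_univ i0)
    have h2 : 0 < ‖h i0‖ ^ 2 := by have := hhpos i0; positivity
    by_contra hcon
    have h3 : ‖S‖ = 0 := le_antisymm (not_lt.mp hcon) (norm_nonneg _)
    rw [h3] at hbd
    nlinarith
  have hR0 : 0 < ‖R‖ := by
    by_contra hcon
    have h3 : ‖R‖ = 0 := le_antisymm (not_lt.mp hcon) (norm_nonneg _)
    have h4 : R = 0 := norm_eq_zero.mp h3
    have h1 := hp i0
    rw [h4, zero_apply, map_zero, map_zero] at h1
    have h2 : (1 / (n : ℝ)) = 0 := by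
      have := h1.symm
      rwa [RCLike.ofReal_eq_zero] at this
    have h3 : (0 : ℝ) < 1 / n := by positivity
    linarith
  set q : Fin n → H := fun i => gramSchmidtNormed 𝕜 h i with hq
  have hqdef : ∀ i, q i = ((‖gramSchmidt 𝕜 h i‖ : ℝ) : 𝕜)⁻¹ • gramSchmidt 𝕜 h i := fun i => rfl
  have hon : Orthonormal 𝕜 q := by
    constructor
    · intro i
      rw [hqdef, norm_smul, norm_inv, RCLike.norm_ofReal, abs_of_pos (hpos i),
        inv_mul_cancel₀ (hpos i).ne']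
    · intro i j hij
      show inner 𝕜 (q i) (q j) = 0
      rw [hqdef, hqdef, inner_smul_left, inner_smul_right, gramSchmidt_orthogonal 𝕜 h hij,
        mul_zero, mul_zero]
  have hw : ‖R ∘L (wm q : EuclideanSpace 𝕜 (Fin n) →L[𝕜] H)‖ ≤ ‖R‖ := by
    refine (ContinuousLinearMap.opNorm_comp_le _ _).trans ?_
    have h1 := norm_wm q hon
    have h2 := norm_nonneg R
    nlinarith
  have h3 := T3 (R ∘L (wm q : EuclideanSpace 𝕜 (Fin n) →L[𝕜] H)) ‖R‖ hR0 hw g hg V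
  have h4 : ∀ k, g k (V ((R ∘L (wm q : EuclideanSpace 𝕜 (Fin n) →L[𝕜] H)) (ee 𝕜 k))) =
      (((1 / (n : ℝ)) * ‖gramSchmidt 𝕜 h k‖⁻¹ : ℝ) : 𝕜) := by
    intro k
    show g k (V (R (wm q (ee 𝕜 k)))) = _
    rw [wm_ee, hqdef, map_smul, map_smul, map_smul, hp k, smul_eq_mul, RCLike.ofReal_mul,
      RCLike.ofReal_inv, mul_comm]
  simp only [h4] at h3
  rw [← RCLike.ofReal_sum, RCLike.norm_ofReal] at h3
  have h5 : Real.sqrt n / ‖S‖ ≤ |∑ k, (1 / (n : ℝ)) * ‖gramSchmidt 𝕜 h k‖⁻¹| := by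
    refine le_trans ?_ (le_abs_self _)
    refine sum_inv_ge hn _ hpos ‖S‖ hS0 ?_
    refine le_trans (Finset.sum_le_sum (fun i _ => ?_)) hbd
    exact pow_le_pow_left₀ (norm_nonneg _) (norm_gs_le h i) 2
  have h6 : ENNReal.ofReal (Real.sqrt n / ‖S‖) ≤ ENNReal.ofReal (8 * ‖R‖) * (A0 𝕜).val V :=
    (ENNReal.ofReal_le_ofReal h5).trans h3
  calc ENNReal.ofReal (Real.sqrt n) = ENNReal.ofReal (Real.sqrt n / ‖S‖) * ENNReal.ofReal ‖S‖ := by
        rw [← ENNReal.ofReal_mul (by positivity), div_mul_cancel₀ _ hS0.ne']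
    _ ≤ (ENNReal.ofReal (8 * ‖R‖) * (A0 𝕜).val V) * ENNReal.ofReal ‖S‖ := by gcongr
    _ = _ := by
        rw [ENNReal.ofReal_mul (by norm_num : (0 : ℝ) ≤ 8), ENNReal.ofReal_mul (norm_nonneg R)]
        ring

/-- The lower bound for the product quasi-norm. -/
theorem T4 (hn : 0 < n) (T : X →L[𝕜] Y) (x : Fin n → X)
    (hx : ∀ ε : Fin n → ℝ, (∀ i, |ε i| = 1) → ‖∑ i, ((ε i : ℝ) : 𝕜) • x i‖ ≤ 1)
    (g : Fin n → StrongDual 𝕜 Y) (hg : SignBd g 1)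
    (hgx : ∀ i j, g i (T (x j)) = if j = i then (((1 / (n : ℝ)) : ℝ) : 𝕜) else 0)
    (hT : (prod (A0 𝕜) (L2 𝕜)).val T < ⊤) :
    ENNReal.ofReal (Real.sqrt n) ≤ ENNReal.ofReal 8 * (prod (A0 𝕜) (L2 𝕜)).val T := by
  show _ ≤ ENNReal.ofReal 8 * prodVal (A0 𝕜) (L2 𝕜) T
  have hT' : prodVal (A0 𝕜) (L2 𝕜) T < ⊤ := hT
  refine le_mul_sInf ENNReal.ofReal_ne_top ?_ ?_
  · obtain ⟨c, hc, _⟩ := sInf_lt_iff.mp hT'
    exact ⟨c, hc⟩
  rintro c ⟨Z, _, _, _, U, V, rfl, hV, hU, rfl⟩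
  rw [← mul_assoc]
  have hU' : hilbertVal U < ⊤ := hU
  refine le_mul_sInf (ENNReal.mul_ne_top ENNReal.ofReal_ne_top hV.ne) ?_ ?_
  · obtain ⟨c, hc, _⟩ := sInf_lt_iff.mp hU'
    exact ⟨c, hc⟩
  rintro c ⟨H, _, _, _, S, R, rfl, rfl⟩
  exact T4_aux hn x hx g hg S R V hgx

end T4

end Pool.Agent.Helper362.ProdId
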