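import Pool.Agent.Helper362.ProdE
set_option autoImplicit false
open MeasureTheory Module NormedSpace
open scoped ENNReal

namespace Pool.Agent.Helper362.ProdId

open Pool.Agent.Helper362.Ideals

variable {𝕜 : Type} [RCLike 𝕜]

section RankOne

variable {E F Z N : Type} [NormedAddCommGroup E] [NormedSpace 𝕜 E] [CompleteSpace E]
  [NormedAddCommGroup F] [NormedSpace 𝕜 F] [CompleteSpace F]
  [NormedAddCommGroup Z] [NormedSpace 𝕜 Z] [CompleteSpace Z]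
  [NormedAddCommGroup N] [NormedSpace 𝕜 N] [CompleteSpace N]

lemma norm_smulRight_le {A B : Type} [NormedAddCommGroup A] [NormedSpace 𝕜 A]
    [NormedAddCommGroup B] [NormedSpace 𝕜 B] (φ : StrongDual 𝕜 A) (y : B) :
    ‖(φ.smulRight y : A →L[𝕜] B)‖ ≤ ‖φ‖ * ‖y‖ :=
  ContinuousLinearMap.opNorm_le_bound _ (by positivity) (fun x => by
    show ‖φ x • y‖ ≤ _
    rw [norm_smul, mul_right_comm]
    exact mul_le_mul_of_nonneg_right (φ.le_opNorm x) (norm_nonneg _))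

lemma lebesgueVal_rankOne (p : ℝ≥0∞) [hp : Fact (1 ≤ p)] (φ : StrongDual 𝕜 E) (y : F) :
    lebesgueVal p (φ.smulRight y : E →L[𝕜] F) ≤ ENNReal.ofReal (‖φ‖ * ‖y‖) := by
  have hp0 : p ≠ 0 := (lt_of_lt_of_le one_pos hp.out).ne'
  let μ : Measure Unit := Measure.dirac ()
  let one : Leb 𝕜 p μ := Lp.const p μ (1 : 𝕜)
  have hone : ‖one‖ = 1 := by
    have h := Lp.norm_const (p := p) (μ := μ) (c := (1 : 𝕜)) hp0
    have h2 : ‖(Lp.const p μ (1 : 𝕜))‖ = 1 := by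
      rw [h, norm_one, one_mul]
      simp
    exact h2
  obtain ⟨ψ, hψ1, hψ2⟩ := exists_dual_vector'' 𝕜 one
  rw [hone, RCLike.ofReal_one] at hψ2
  have hR : ‖(ψ.smulRight (jmap 𝕜 y) : Leb 𝕜 p μ →L[𝕜] Bidual 𝕜 F)‖ ≤ ‖y‖ := by
    refine (norm_smulRight_le _ _).trans ?_
    rw [norm_jmap]
    have := norm_nonneg y
    nlinarith
  have hS : ‖(φ.smulRight one : E →L[𝕜] Leb 𝕜 p μ)‖ ≤ ‖φ‖ := by
    refine (norm_smulRight_le _ _).trans ?_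
    rw [hone, mul_one]
  refine sInf_le_of_le ⟨Unit, inferInstance, μ, φ.smulRight one, ψ.smulRight (jmap 𝕜 y), ?_, rfl⟩ ?_
  · intro x
    show jmap 𝕜 (φ x • y) = ψ (φ x • one) • jmap 𝕜 y
    rw [map_smul, hψ2, smul_eq_mul, mul_one]
    exact map_smul (inclusionInDoubleDual 𝕜 F) (φ x) y
  · refine ENNReal.ofReal_le_ofReal ?_
    rw [mul_comm]
    exact mul_le_mul hS hR (norm_nonneg _) (norm_nonneg _)

lemma prodVal_rankOne (φ : StrongDual 𝕜 E) (y : F) :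
    prodVal (LL 𝕜 1) (LL 𝕜 ∞) (φ.smulRight y : E →L[𝕜] F) ≤ ENNReal.ofReal (‖φ‖ * ‖y‖) := by
  have h1 : (LL 𝕜 1).val ((ContinuousLinearMap.id 𝕜 𝕜).smulRight y : 𝕜 →L[𝕜] F) ≤
      ENNReal.ofReal ‖y‖ := by
    refine (lebesgueVal_rankOne 1 (ContinuousLinearMap.id 𝕜 𝕜) y).trans ?_
    refine ENNReal.ofReal_le_ofReal ?_
    have h2 : ‖ContinuousLinearMap.id 𝕜 𝕜‖ ≤ 1 := ContinuousLinearMap.norm_id_le
    have := norm_nonneg y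
    nlinarith
  have h2 : (LL 𝕜 ∞).val (φ.smulRight (1 : 𝕜) : E →L[𝕜] 𝕜) ≤ ENNReal.ofReal ‖φ‖ := by
    refine (lebesgueVal_rankOne ∞ φ (1 : 𝕜)).trans ?_
    rw [norm_one, mul_one]
  refine sInf_le_of_le ⟨𝕜, inferInstance, inferInstance, inferInstance,
    φ.smulRight (1 : 𝕜), (ContinuousLinearMap.id 𝕜 𝕜).smulRight y, ?_,
    h1.trans_lt ENNReal.ofReal_lt_top, h2.trans_lt ENNReal.ofReal_lt_top, rfl⟩ ?_
  · ext x
    show φ x • y = (φ x • (1 : 𝕜)) • y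
    rw [smul_eq_mul, mul_one]
  · rw [ENNReal.ofReal_mul (norm_nonneg _), mul_comm (ENNReal.ofReal ‖φ‖)]
    exact mul_le_mul' h1 h2

lemma norm_le_one_of_adj (S : F →L[𝕜] N) (hS : adjVal (prod (LL 𝕜 1) (LL 𝕜 ∞)) S ≤ 1) :
    ‖S‖ ≤ 1 := by
  refine ContinuousLinearMap.opNorm_le_bound _ zero_le_one (fun y => ?_)
  rw [one_mul]
  by_cases hy : y = 0
  · rw [hy, map_zero, norm_zero, norm_zero]
  have hy0 : 0 < ‖y‖ := norm_pos_iff.mpr hy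
  obtain ⟨φ, hφ1, hφ2⟩ := exists_dual_vector'' 𝕜 (S y)
  let M : Submodule 𝕜 F := Submodule.span 𝕜 {y}
  let L : Submodule 𝕜 N := LinearMap.ker (φ : N →ₗ[𝕜] 𝕜)
  have i1 : FiniteDimensional 𝕜 M := inferInstance
  have i2 : FiniteDimensional 𝕜 (N ⧸ L) :=
    LinearEquiv.finiteDimensional (LinearMap.quotKerEquivRange (φ : N →ₗ[𝕜] 𝕜)).symm
  have i3 : CompleteSpace M := FiniteDimensional.complete 𝕜 _
  have i4 : IsClosed (L : Set N) := φ.isClosed_ker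
  let y' : M := ((‖y‖⁻¹ : ℝ) : 𝕜) • ⟨y, Submodule.mem_span_singleton_self y⟩
  have hy' : ‖y'‖ ≤ 1 := by
    show ‖((‖y‖⁻¹ : ℝ) : 𝕜) • y‖ ≤ 1
    rw [norm_smul, RCLike.norm_ofReal, abs_of_pos (by positivity), inv_mul_cancel₀ hy0.ne']
  let φ' : StrongDual 𝕜 (N ⧸ L) := L.liftQL φ le_rfl
  have hφ' : ‖φ'‖ ≤ 1 :=
    ContinuousLinearMap.opNorm_le_bound _ zero_le_one (norm_liftQL_le L φ le_rfl hφ1)
  have h1 : (prod (LL 𝕜 1) (LL 𝕜 ∞)).val (φ'.smulRight y' : (N ⧸ L) →L[𝕜] M) ≤ 1 := by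
    refine (prodVal_rankOne φ' y').trans ?_
    rw [← ENNReal.ofReal_one]
    refine ENNReal.ofReal_le_ofReal ?_
    have := norm_nonneg φ'
    have := norm_nonneg y'
    nlinarith
  have h2 : traceVal S M L (φ'.smulRight y') = ‖y‖⁻¹ * ‖S y‖ := by
    have e1 : L.mkQL ∘L S ∘L M.subtypeL ∘L (φ'.smulRight y' : (N ⧸ L) →L[𝕜] M) =
        φ'.smulRight (L.mkQL (S (M.subtypeL y'))) := by
      ext x
      show L.mkQL (S (M.subtypeL (φ' x • y'))) = φ' x • L.mkQL (S (M.subtypeL y'))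
      rw [map_smul, map_smul, map_smul]
    show ‖tr (L.mkQL ∘L S ∘L M.subtypeL ∘L (φ'.smulRight y' : (N ⧸ L) →L[𝕜] M))‖ = _
    rw [e1, tr_rankOne]
    show ‖φ (S (((‖y‖⁻¹ : ℝ) : 𝕜) • y))‖ = _
    rw [map_smul, map_smul, hφ2, norm_smul, RCLike.norm_ofReal, RCLike.norm_ofReal,
      abs_of_pos (by positivity), abs_of_nonneg (norm_nonneg _)]
  have h3 : ENNReal.ofReal (‖y‖⁻¹ * ‖S y‖) ≤ 1 := by
    refine le_trans ?_ hS
    unfold adjVal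
    refine le_sSup ?_
    exact ⟨M, L, i1, i2, i3, i4, _, h1, by rw [h2]⟩
  have h4 : ‖y‖⁻¹ * ‖S y‖ ≤ 1 := by
    rwa [ENNReal.ofReal_le_one] at h3
  calc ‖S y‖ = ‖y‖ * (‖y‖⁻¹ * ‖S y‖) := by
        rw [← mul_assoc, mul_inv_cancel₀ hy0.ne', one_mul]
    _ ≤ ‖y‖ * 1 := mul_le_mul_of_nonneg_left h4 hy0.le
    _ = ‖y‖ := mul_one _

lemma A0_id : (A0 𝕜).val (ContinuousLinearMap.id 𝕜 𝕜) ≤ 1 := by
  show adjVal (adj (prod (LL 𝕜 1) (LL 𝕜 ∞))) (ContinuousLinearMap.id 𝕜 𝕜) ≤ 1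
  unfold adjVal
  refine sSup_le ?_
  rintro c ⟨M, L, i1, i2, i3, i4, S, hS, rfl⟩
  have hS' : ‖S‖ ≤ 1 := norm_le_one_of_adj S hS
  rw [ENNReal.ofReal_le_one]
  show ‖tr (L.mkQL ∘L ((ContinuousLinearMap.id 𝕜 𝕜) ∘L M.subtypeL ∘L S))‖ ≤ 1
  rw [tr_comm]
  have e1 : ((ContinuousLinearMap.id 𝕜 𝕜) ∘L M.subtypeL ∘L S) ∘L L.mkQL =
      (M.subtypeL ∘L S ∘L L.mkQL : 𝕜 →L[𝕜] 𝕜).smulRight (1 : 𝕜) := by
    ext
    show M.subtypeL (S (L.mkQL 1)) = M.subtypeL (S (L.mkQL 1)) • (1 : 𝕜)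
    rw [smul_eq_mul, mul_one]
  rw [e1, tr_rankOne]
  show ‖((S (L.mkQL 1) : M) : 𝕜)‖ ≤ 1
  have h1 : ‖L.mkQL (1 : 𝕜)‖ ≤ 1 := by
    refine (Submodule.Quotient.norm_mk_le L (1 : 𝕜)).trans ?_
    rw [norm_one]
  have h2 : ‖S (L.mkQL 1)‖ ≤ 1 := by
    refine (S.le_opNorm _).trans ?_
    have := norm_nonneg (L.mkQL (1 : 𝕜))
    nlinarith [norm_nonneg S]
  exact h2

lemma prod_id : (prod (A0 𝕜) (L2 𝕜)).val (ContinuousLinearMap.id 𝕜 𝕜) < ⊤ := by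
  have h1 : (L2 𝕜).val (ContinuousLinearMap.id 𝕜 𝕜) < ⊤ := by
    show hilbertVal (ContinuousLinearMap.id 𝕜 𝕜) < ⊤
    refine lt_of_le_of_lt (sInf_le ⟨𝕜, inferInstance, inferInstance, inferInstance,
      ContinuousLinearMap.id 𝕜 𝕜, ContinuousLinearMap.id 𝕜 𝕜, rfl, rfl⟩) ENNReal.ofReal_lt_top
  have h2 : (A0 𝕜).val (ContinuousLinearMap.id 𝕜 𝕜) < ⊤ := A0_id.trans_lt ENNReal.one_lt_top
  show prodVal (A0 𝕜) (L2 𝕜) (ContinuousLinearMap.id 𝕜 𝕜) < ⊤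
  refine lt_of_le_of_lt (sInf_le ⟨𝕜, inferInstance, inferInstance, inferInstance,
      ContinuousLinearMap.id 𝕜 𝕜, ContinuousLinearMap.id 𝕜 𝕜, rfl, h2, h1, rfl⟩)
      (ENNReal.mul_lt_top h2 h1)

end RankOne

end Pool.Agent.Helper362.ProdId
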