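import Pool.Agent.Helper362.ProdF
set_option autoImplicit false
open MeasureTheory Module NormedSpace
open scoped ENNReal

namespace Pool.Agent.Helper362.ProdId

open Pool.Agent.Helper362.Ideals

variable {𝕜 : Type} [RCLike 𝕜]

/-- `ℓ_p` -/
abbrev lpN (𝕜 : Type) [RCLike 𝕜] (p : ℝ≥0∞) : Type := lp (fun _ : ℕ => 𝕜) p

/-- coordinate functional -/
noncomputable def cf (p : ℝ≥0∞) [hp : Fact (1 ≤ p)] (i : ℕ) : StrongDual 𝕜 (lpN 𝕜 p) :=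
  LinearMap.mkContinuous
    { toFun := fun f => f i
      map_add' := fun _ _ => rfl
      map_smul' := fun _ _ => rfl } 1 (fun f => by
      rw [one_mul]
      exact lp.norm_apply_le_norm (lt_of_lt_of_le one_pos hp.out).ne' f i)

lemma cf_apply (p : ℝ≥0∞) [Fact (1 ≤ p)] (i : ℕ) (f : lpN 𝕜 p) : cf p i f = f i := rfl

lemma norm_cf_le (p : ℝ≥0∞) [Fact (1 ≤ p)] (i : ℕ) : ‖(cf p i : StrongDual 𝕜 (lpN 𝕜 p))‖ ≤ 1 :=
  LinearMap.mkContinuous_norm_le _ zero_le_one _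

/-- unit vector -/
noncomputable def uv (p : ℝ≥0∞) (i : ℕ) : lpN 𝕜 p := lp.single p i (1 : 𝕜)

lemma uv_apply (p : ℝ≥0∞) (i j : ℕ) : (uv p i : lpN 𝕜 p) j = if j = i then 1 else 0 := by
  unfold uv
  rw [lp.single_apply, Pi.single_apply]

lemma norm_uv_le (i : ℕ) : ‖(uv 1 i : lpN 𝕜 1)‖ ≤ 1 := by
  unfold uv
  rw [lp.norm_single (by norm_num)]
  exact norm_one.le

/-- the test operators -/
noncomputable def TTn (𝕜 : Type) [RCLike 𝕜] (n : ℕ) : lpN 𝕜 ∞ →L[𝕜] lpN 𝕜 1 :=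
  ∑ i : Fin n, (((1 / (n : ℝ)) : ℝ) : 𝕜) •
    ((ContinuousLinearMap.toSpanSingleton 𝕜 (uv 1 (i : ℕ) : lpN 𝕜 1)) ∘L
      (ContinuousLinearMap.id 𝕜 𝕜) ∘L (cf ∞ (i : ℕ)))

lemma TTn_uv (n : ℕ) (j : Fin n) : TTn 𝕜 n (uv ∞ (j : ℕ)) =
    (((1 / (n : ℝ)) : ℝ) : 𝕜) • (uv 1 (j : ℕ) : lpN 𝕜 1) := by
  unfold TTn
  rw [sum_apply, Finset.sum_eq_single j]
  · show (((1 / (n : ℝ)) : ℝ) : 𝕜) • ((uv ∞ (j : ℕ) : lpN 𝕜 ∞) (j : ℕ) • (uv 1 (j : ℕ) : lpN 𝕜 1)) = _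
    rw [uv_apply, if_pos rfl, one_smul]
  · intro i _ hij
    show (((1 / (n : ℝ)) : ℝ) : 𝕜) • ((uv ∞ (j : ℕ) : lpN 𝕜 ∞) (i : ℕ) • (uv 1 (i : ℕ) : lpN 𝕜 1)) = _
    rw [uv_apply, if_neg (fun h => hij (Fin.ext h)), zero_smul, smul_zero]
  · intro h; exact absurd (Finset.mem_univ j) h

lemma norm_sum_uv (n : ℕ) (ε : Fin n → ℝ) (hε : ∀ i, |ε i| = 1) :
    ‖∑ i, ((ε i : ℝ) : 𝕜) • (uv ∞ (i : ℕ) : lpN 𝕜 ∞)‖ ≤ 1 := by
  refine lp.norm_le_of_forall_le zero_le_one (fun j => ?_)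
  rw [lp.coeFn_sum, Finset.sum_apply]
  have h1 : ∀ i : Fin n, (((ε i : ℝ) : 𝕜) • (uv ∞ (i : ℕ) : lpN 𝕜 ∞)) j =
      if j = (i : ℕ) then ((ε i : ℝ) : 𝕜) else 0 := by
    intro i
    rw [lp.coeFn_smul, Pi.smul_apply, uv_apply, smul_eq_mul, mul_ite, mul_one, mul_zero]
  simp only [h1]
  by_cases hj : j < n
  · rw [Finset.sum_eq_single ⟨j, hj⟩]
    · rw [if_pos rfl, RCLike.norm_ofReal, hε]
    · intro i _ hi
      rw [if_neg]
      intro h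
      exact hi (Fin.ext h.symm)
    · intro h; exact absurd (Finset.mem_univ _) h
  · rw [Finset.sum_eq_zero, norm_zero]
    · exact zero_le_one
    · intro i _
      rw [if_neg]
      intro h
      exact hj (h ▸ i.2)

lemma signBd_cf (n : ℕ) : SignBd (fun i : Fin n => (cf 1 (i : ℕ) : StrongDual 𝕜 (lpN 𝕜 1))) 1 := by
  intro ε
  refine ContinuousLinearMap.opNorm_le_bound _ zero_le_one (fun f => ?_)
  rw [sum_apply, one_mul]
  have h1 : ∀ k : Fin n, ‖(((sg (ε k) : ℝ) : 𝕜) • (cf 1 (k : ℕ) : StrongDual 𝕜 (lpN 𝕜 1))) f‖ =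
      ‖f (k : ℕ)‖ := by
    intro k
    rw [smul_apply, cf_apply, norm_smul, RCLike.norm_ofReal, abs_sg, one_mul]
  refine (norm_sum_le _ _).trans ?_
  simp only [h1]
  have h2 := lp.sum_rpow_le_norm_rpow (p := 1) (by simp) f (Finset.range n)
  simp only [ENNReal.toReal_one, Real.rpow_one] at h2
  rw [← Finset.sum_range (fun i => ‖f i‖)] 
  exact h2

lemma N_zero (N : IdealFn 𝕜) (hN : IsIdealNorm N) {X Y : Type} [NormedAddCommGroup X]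
    [NormedSpace 𝕜 X] [CompleteSpace X] [NormedAddCommGroup Y] [NormedSpace 𝕜 Y]
    [CompleteSpace Y] : N.val (0 : X →L[𝕜] Y) = 0 := by
  have h := (hN.1 X Y).2.1 (0 : 𝕜) (0 : X →L[𝕜] Y)
  rw [zero_smul, enorm_zero, zero_mul] at h
  exact h

lemma N_sum (N : IdealFn 𝕜) (hN : IsIdealNorm N) {X Y : Type} [NormedAddCommGroup X]
    [NormedSpace 𝕜 X] [CompleteSpace X] [NormedAddCommGroup Y] [NormedSpace 𝕜 Y]
    [CompleteSpace Y] {ι : Type} (s : Finset ι) (T : ι → X →L[𝕜] Y) :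
    N.val (∑ i ∈ s, T i) ≤ ∑ i ∈ s, N.val (T i) := by
  classical
  induction s using Finset.induction_on with
  | empty => rw [Finset.sum_empty, Finset.sum_empty, N_zero N hN]
  | insert a s ha ih =>
    rw [Finset.sum_insert ha, Finset.sum_insert ha]
    exact ((hN.1 X Y).1 _ _).trans (add_le_add le_rfl ih)

lemma enorm_le_one {V : Type} [NormedAddCommGroup V] (v : V) (h : ‖v‖ ≤ 1) : ‖v‖ₑ ≤ 1 := by
  rw [← ofReal_norm_eq_enorm, ENNReal.ofReal_le_one]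
  exact h

lemma N_TTn (N : IdealFn 𝕜) (hN : IsIdealNorm N) (n : ℕ) (hn : 0 < n) :
    N.val (TTn 𝕜 n) ≤ N.val (ContinuousLinearMap.id 𝕜 𝕜) := by
  unfold TTn
  refine (N_sum N hN _ _).trans ?_
  have h1 : ∀ i : Fin n, N.val ((((1 / (n : ℝ)) : ℝ) : 𝕜) •
      ((ContinuousLinearMap.toSpanSingleton 𝕜 (uv 1 (i : ℕ) : lpN 𝕜 1)) ∘L
      (ContinuousLinearMap.id 𝕜 𝕜) ∘L (cf ∞ (i : ℕ)))) ≤
      ENNReal.ofReal (1 / (n : ℝ)) * N.val (ContinuousLinearMap.id 𝕜 𝕜) := by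
    intro i
    rw [(hN.1 _ _).2.1]
    have e1 : ‖(((1 / (n : ℝ)) : ℝ) : 𝕜)‖ₑ = ENNReal.ofReal (1 / (n : ℝ)) := by
      rw [← ofReal_norm_eq_enorm, RCLike.norm_ofReal, abs_of_nonneg (by positivity)]
    rw [e1]
    refine mul_le_mul' le_rfl ?_
    refine (hN.2 _ _ _ _ (cf ∞ (i : ℕ)) (ContinuousLinearMap.id 𝕜 𝕜)
      (ContinuousLinearMap.toSpanSingleton 𝕜 (uv 1 (i : ℕ) : lpN 𝕜 1))).trans ?_
    have e2 : ‖(cf ∞ (i : ℕ) : StrongDual 𝕜 (lpN 𝕜 ∞))‖ₑ ≤ 1 := enorm_le_one _ (norm_cf_le ∞ _)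
    have e3 : ‖ContinuousLinearMap.toSpanSingleton 𝕜 (uv 1 (i : ℕ) : lpN 𝕜 1)‖ₑ ≤ 1 := by
      refine enorm_le_one _ ?_
      rw [ContinuousLinearMap.norm_toSpanSingleton]
      exact norm_uv_le _
    calc _ ≤ 1 * N.val (ContinuousLinearMap.id 𝕜 𝕜) * 1 := by gcongr
      _ = _ := by rw [one_mul, mul_one]
  refine (Finset.sum_le_sum (fun i _ => h1 i)).trans ?_
  rw [Finset.sum_const, Finset.card_univ, Fintype.card_fin, nsmul_eq_mul, ← mul_assoc]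
  have h2 : (n : ℝ≥0∞) * ENNReal.ofReal (1 / (n : ℝ)) = 1 := by
    have hn' : (0 : ℝ) < n := by exact_mod_cast hn
    rw [← ENNReal.ofReal_natCast, ← ENNReal.ofReal_mul hn'.le, mul_one_div_cancel hn'.ne',
      ENNReal.ofReal_one]
  rw [h2, one_mul]

theorem main : ¬ IsNormed (prod (A0 𝕜) (L2 𝕜)) := by
  rintro ⟨N, hN, hE⟩
  obtain ⟨C1, hC1, h1⟩ := hE 𝕜 𝕜
  obtain ⟨C2, hC2, h2⟩ := hE (lpN 𝕜 ∞) (lpN 𝕜 1)
  set K : ℝ≥0∞ := ENNReal.ofReal 8 * (C2 * (C1 *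
    (prod (A0 𝕜) (L2 𝕜)).val (ContinuousLinearMap.id 𝕜 𝕜))) with hK
  have hNid : N.val (ContinuousLinearMap.id 𝕜 𝕜) ≤
      C1 * (prod (A0 𝕜) (L2 𝕜)).val (ContinuousLinearMap.id 𝕜 𝕜) := (h1 _).2
  have hNid' : C1 * (prod (A0 𝕜) (L2 𝕜)).val (ContinuousLinearMap.id 𝕜 𝕜) < ⊤ :=
    ENNReal.mul_lt_top hC1.lt_top prod_id
  have hKt : K < ⊤ := ENNReal.mul_lt_top ENNReal.ofReal_lt_top
    (ENNReal.mul_lt_top hC2.lt_top hNid')
  have hmain : ∀ n : ℕ, 0 < n → ENNReal.ofReal (Real.sqrt n) ≤ K := by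
    intro n hn
    have hQ : (prod (A0 𝕜) (L2 𝕜)).val (TTn 𝕜 n) ≤
        C2 * (C1 * (prod (A0 𝕜) (L2 𝕜)).val (ContinuousLinearMap.id 𝕜 𝕜)) := by
      refine (h2 (TTn 𝕜 n)).1.trans ?_
      exact mul_le_mul' le_rfl ((N_TTn N hN n hn).trans hNid)
    have hQt : (prod (A0 𝕜) (L2 𝕜)).val (TTn 𝕜 n) < ⊤ :=
      hQ.trans_lt (ENNReal.mul_lt_top hC2.lt_top hNid')
    have h4 := T4 hn (TTn 𝕜 n) (fun i => uv ∞ (i : ℕ)) (norm_sum_uv n)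
      (fun i => cf 1 (i : ℕ)) (signBd_cf n) (by
        intro i j
        rw [TTn_uv, map_smul, cf_apply, uv_apply, smul_eq_mul, mul_ite, mul_one, mul_zero]
        by_cases hij : j = i
        · rw [hij, if_pos rfl, if_pos rfl]
        · rw [if_neg hij, if_neg]
          intro h
          exact hij (Fin.ext h.symm)) hQt
    exact h4.trans (mul_le_mul' le_rfl hQ)
  obtain ⟨m, hm⟩ := exists_nat_gt (K.toReal ^ 2)
  have hm' : 0 < m := by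
    rcases Nat.eq_zero_or_pos m with h0 | h0
    · rw [h0, Nat.cast_zero] at hm
      have : 0 ≤ K.toReal ^ 2 := by positivity
      linarith
    · exact h0
  have h5 := hmain m hm'
  have h6 : Real.sqrt m ≤ K.toReal := (ENNReal.ofReal_le_iff_le_toReal hKt.ne).mp h5
  have h7 : (m : ℝ) ≤ K.toReal ^ 2 := by
    rw [← Real.sq_sqrt (Nat.cast_nonneg m : (0 : ℝ) ≤ m)]
    exact pow_le_pow_left₀ (Real.sqrt_nonneg _) h6 2
  linarith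

end Pool.Agent.Helper362.ProdId
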